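import Pool.Agent.Lib.MP_57313b_al.Zf.Sc1

-- part Pool.Agent.Lib.MP_57313b_al.Zf.Sc2
section

/-!
# Scalar maps: matrices and directions
-/

set_option autoImplicit false

namespace Pool.Agent.Lib.MP_57313b_al.Zf

open Filter Topology

set_option linter.unusedSectionVars false

variable {Ω : Type} [Ring Ω] [Algebra F Ω]
variable {E E' E'' E₃ : Type} [AddCommGroup E] [Module Ω E] [Amb Ω E] [AddCommGroup E']
  [Module Ω E'] [Amb Ω E'] [AddCommGroup E''] [Module Ω E''] [Amb Ω E''] [AddCommGroup E₃]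
  [Module Ω E₃] [Amb Ω E₃]

/-- evaluate on the standard basis vectors, which are points -/
lemma Sc.exists_dot {ρ : Type} [Fintype ρ] (f : (ρ → Ω) →ₗ[Ω] Ω) [Sc f] :
    ∃ φ : ρ → F, f = Zf.dot φ := by
  classical
  have h : ∀ i : ρ, ∃ c : F, f (Pi.single i 1) = algebraMap F Ω c := by
    intro i
    apply pt_self.1
    apply Sc.sc
    apply pt_pi.2
    intro s
    apply pt_self.2
    by_cases hs : s = i
    · subst hs
      exact ⟨1, by simp⟩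
    · exact ⟨0, by simp [hs]⟩
  choose φ hφ using h
  refine ⟨φ, LinearMap.ext fun v => ?_⟩
  rw [dot_apply]
  have hv : v = ∑ i, v i • (Pi.single i 1 : ρ → Ω) := by
    ext j
    simp [Finset.sum_apply, Pi.single_apply]
  conv_lhs => rw [hv]
  rw [map_sum]
  refine Finset.sum_congr rfl fun i _ => ?_
  rw [map_smul, hφ, smul_eq_mul, Algebra.smul_def, Algebra.commutes]

lemma Sc.exists_mat {ρ ρ' : Type} [Fintype ρ] [Finite ρ'] (f : (ρ → Ω) →ₗ[Ω] (ρ' → Ω)) [Sc f] :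
    ∃ M : Matrix ρ ρ' F, f = Zf.mat M := by
  have h : ∀ j : ρ', ∃ φ : ρ → F, (LinearMap.proj j : (ρ' → Ω) →ₗ[Ω] Ω) ∘ₗ f = Zf.dot φ :=
    fun j => Sc.exists_dot _
  choose φ hφ using h
  refine ⟨Matrix.of fun i j => φ j i, LinearMap.ext fun v => funext fun j => ?_⟩
  have := LinearMap.congr_fun (hφ j) v
  rw [mat_apply]
  rw [dot_apply] at this
  simpa using this

/-- there are countably many scalar maps -/
lemma countable_sc : {f : E →ₗ[Ω] E' | Sc f}.Countable := by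
  have hc : Countable (Matrix (Amb.I Ω E) (Amb.I Ω E') F) :=
    inferInstanceAs (Countable (Amb.I Ω E → Amb.I Ω E' → F))
  refine (Set.countable_range fun M : Matrix (Amb.I Ω E) (Amb.I Ω E') F =>
    (Amb.e (Ω := Ω) (E := E')).symm.toLinearMap ∘ₗ (mat M) ∘ₗ
      (Amb.e (Ω := Ω) (E := E)).toLinearMap).mono ?_
  intro f hf
  have : Sc f := hf
  obtain ⟨M, hM⟩ := Sc.exists_mat ((Amb.e (Ω := Ω) (E := E')).toLinearMap ∘ₗ f ∘ₗ
    (Amb.e (Ω := Ω) (E := E)).symm.toLinearMap)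
  refine ⟨M, ?_⟩
  simp only
  rw [← hM]
  ext v
  simp

lemma en_smul (b : En Ω) (c : F) (u : Ω) : b (c • u) = c • b u := by
  rw [Algebra.smul_def, Algebra.smul_def, ← smul_eq_mul, map_smul, smul_eq_mul]

lemma ap_dir {ρ : Type} (b : En Ω) (l : ρ → F) (u : Ω) : ap b (dir l u) = dir l (b u) := by
  funext i
  simp

lemma dot_ap {ρ : Type} [Fintype ρ] (b : En Ω) (φ : ρ → F) (v : ρ → Ω) :
    dot φ (ap b v) = b (dot φ v) := by
  simp only [dot_apply, map_sum, en_smul, ap_apply]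

lemma mat_ap {ρ ρ' : Type} [Fintype ρ] (b : En Ω) (M : Matrix ρ ρ' F) (v : ρ → Ω) :
    mat M (ap b v) = ap b (mat M v) := by
  funext j
  simp only [mat_apply, map_sum, en_smul, ap_apply]

lemma dot_dir {ρ : Type} [Fintype ρ] (φ l : ρ → F) (u : Ω) :
    dot φ (dir l u) = (φ ⬝ᵥ l) • u := by
  simp only [dot_apply, dir_apply, dotProduct, Finset.sum_smul, mul_smul]

lemma mat_dir {ρ ρ' : Type} [Fintype ρ] (M : Matrix ρ ρ' F) (l : ρ → F) (u : Ω) :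
    mat M (dir l u) = dir (Matrix.vecMul l M) u := by
  funext j
  simp only [mat_apply, dir_apply, Matrix.vecMul, dotProduct, Finset.sum_smul]
  refine Finset.sum_congr rfl fun i _ => ?_
  rw [mul_comm, mul_smul]

lemma mat_mul {ρ ρ' ρ'' : Type} [Fintype ρ] [Fintype ρ'] (M : Matrix ρ ρ' F)
    (M' : Matrix ρ' ρ'' F) (v : ρ → Ω) : mat (M * M') v = mat M' (mat M v) := by
  funext k
  simp only [mat_apply, Matrix.mul_apply, Finset.sum_smul, Finset.smul_sum]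
  rw [Finset.sum_comm]
  refine Finset.sum_congr rfl fun j _ => Finset.sum_congr rfl fun i _ => ?_
  rw [mul_comm, mul_smul]

lemma mat_one {ρ : Type} [Fintype ρ] [DecidableEq ρ] (v : ρ → Ω) :
    mat (1 : Matrix ρ ρ F) v = v := by
  funext j
  simp [mat_apply, Matrix.one_apply]

lemma mat_sub {ρ ρ' : Type} [Fintype ρ] (M M' : Matrix ρ ρ' F) (v : ρ → Ω) :
    mat (M - M') v = mat M v - mat M' v := by
  funext j
  simp [mat_apply, sub_smul, Finset.sum_sub_distrib]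

lemma dir_add {ρ : Type} (l l' : ρ → F) (u : Ω) : dir (l + l') u = dir l u + dir l' u := by
  funext i
  simp [add_smul]

lemma dir_smul {ρ : Type} (c : F) (l : ρ → F) (u : Ω) : dir (c • l) u = dir l (c • u) := by
  funext i
  simp [mul_comm c, mul_smul]

@[simp] lemma dir_zero {ρ : Type} (u : Ω) : dir (0 : ρ → F) u = 0 := by
  funext i
  simp

lemma dir_eq_zero {ρ : Type} {l : ρ → F} (hl : l ≠ 0) {u : Ω} (h : dir l u = 0) : u = 0 := by
  obtain ⟨i, hi⟩ := Function.ne_iff.1 hl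
  have hi' : l i ≠ 0 := hi
  have h1 : l i • u = 0 := congrFun h i
  have h2 : (l i)⁻¹ • l i • u = 0 := by rw [h1, smul_zero]
  rwa [smul_smul, inv_mul_cancel₀ hi', one_smul] at h2

/-- left submodules are closed under scalars from `F` -/
lemma smul_mem_sub {U : Sub Ω} (c : F) {u : Ω} (h : u ∈ U) : c • u ∈ U := by
  rw [Algebra.smul_def]
  exact U.smul_mem _ h

lemma dir_mem_pw {ρ : Type} (l : ρ → F) {U : Sub Ω} {u : Ω} (h : u ∈ U) : dir l u ∈ pw ρ U := by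
  exact mem_pw.2 fun i => smul_mem_sub _ h

lemma dot_mem {ρ : Type} [Fintype ρ] (φ : ρ → F) {U : Sub Ω} {v : ρ → Ω} (h : v ∈ pw ρ U) :
    dot φ v ∈ U := by
  rw [dot_apply]
  exact U.sum_mem fun i _ => smul_mem_sub _ (mem_pw.1 h i)

lemma mat_mem_pw {ρ ρ' : Type} [Fintype ρ] (M : Matrix ρ ρ' F) {U : Sub Ω} {v : ρ → Ω}
    (h : v ∈ pw ρ U) : mat M v ∈ pw ρ' U := by
  refine mem_pw.2 fun j => ?_
  rw [mat_apply]
  exact U.sum_mem fun i _ => smul_mem_sub _ (mem_pw.1 h i)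

/-- a projection matrix (acting on row vectors) onto `Λ` along a complement `Λ'` -/
lemma exists_proj_mat {ρ : Type} [Fintype ρ] {Λ Λ' : Submodule F (ρ → F)} (h : IsCompl Λ Λ') :
    ∃ M : Matrix ρ ρ F, (∀ l, Matrix.vecMul l M ∈ Λ) ∧ (∀ l ∈ Λ, Matrix.vecMul l M = l) ∧
      ∀ l ∈ Λ', Matrix.vecMul l M = 0 := by
  classical
  let p : (ρ → F) →ₗ[F] (ρ → F) := Λ.subtype ∘ₗ Λ.projectionOnto Λ' h
  have hp : ∀ l, Matrix.vecMul l (LinearMap.toMatrixRight' p) = p l := by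
    intro l
    have h1 : (LinearMap.toMatrixRight' p).toLinearMapRight' = p :=
      LinearMap.toMatrixRight'.symm_apply_apply p
    rw [← Matrix.toLinearMapRight'_apply, h1]
  refine ⟨LinearMap.toMatrixRight' p, fun l => ?_, fun l hl => ?_, fun l hl => ?_⟩
  · rw [hp]
    exact (Λ.projectionOnto Λ' h l).2
  · rw [hp]
    have := Submodule.projectionOnto_apply_left h ⟨l, hl⟩
    simp only [p, LinearMap.comp_apply]
    rw [show Λ.projectionOnto Λ' h l = ⟨l, hl⟩ from this]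
    rfl
  · rw [hp]
    have := Submodule.projectionOnto_apply_right h ⟨l, hl⟩
    simp only [p, LinearMap.comp_apply]
    rw [show Λ.projectionOnto Λ' h l = 0 from this]
    rfl

/-- separation of a vector from a subspace -/
lemma exists_perp {ρ : Type} [Fintype ρ] {Λ : Submodule F (ρ → F)} {l : ρ → F} (h : l ∉ Λ) :
    ∃ φ : ρ → F, Perp φ Λ ∧ φ ⬝ᵥ l = 1 := by
  classical
  obtain ⟨f, hf, hfl⟩ := Submodule.exists_le_ker_of_notMem h
  have key : ∀ x : ρ → F, (fun i => f (Pi.single i 1)) ⬝ᵥ x = f x := by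
    intro x
    have hv : x = ∑ i, x i • (Pi.single i 1 : ρ → F) := by
      ext j
      simp [Finset.sum_apply, Pi.single_apply]
    conv_rhs => rw [hv]
    rw [map_sum]
    refine Finset.sum_congr rfl fun i _ => ?_
    rw [map_smul, smul_eq_mul, mul_comm]
  refine ⟨(f l)⁻¹ • fun i => f (Pi.single i 1), fun x hx => ?_, ?_⟩
  · rw [smul_dotProduct, key, LinearMap.mem_ker.1 (hfl hx), smul_zero]
  · rw [smul_dotProduct, key, smul_eq_mul, inv_mul_cancel₀ hf]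

end Pool.Agent.Lib.MP_57313b_al.Zf
end

-- part Pool.Agent.Lib.MP_57313b_al.Zf.Df0
section

/-!
# Definable submodules: closure properties
-/

set_option autoImplicit false

namespace Pool.Agent.Lib.MP_57313b_al.Zf

open Filter Topology

set_option linter.unusedSectionVars false

variable {Ω : Type} [Ring Ω] [Algebra F Ω]
variable {E E' E'' E₃ : Type} [AddCommGroup E] [Module Ω E] [Amb Ω E] [AddCommGroup E']
  [Module Ω E'] [Amb Ω E'] [AddCommGroup E''] [Module Ω E''] [Amb Ω E''] [AddCommGroup E₃]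
  [Module Ω E₃] [Amb Ω E₃]
variable {G G' : Set (En Ω)}

/-- the definition with an arbitrary ambient module of unknowns and an arbitrary finite set of
equations (reindex with `Amb.e` and `Finite.equivFin`) -/
lemma Df.of {J : Type} [Finite J] (g : J → En Ω) (α β : J → E' →ₗ[Ω] Ω) (π : E' →ₗ[Ω] E)
    (hg : ∀ j, g j ∈ G ∨ g j = 0) [∀ j, Sc (α j)] [∀ j, Sc (β j)] [Sc π] {K : Submodule Ω E}
    (hK : ∀ u, u ∈ K ↔ ∃ z, (∀ j, β j z = g j (α j z)) ∧ π z = u) : Df G K := by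
  obtain ⟨n, ⟨eI⟩⟩ := Finite.exists_equiv_fin (Amb.I Ω E')
  obtain ⟨m, ⟨eJ⟩⟩ := Finite.exists_equiv_fin J
  let φ : (Fin n → Ω) →ₗ[Ω] E' :=
    (Amb.e (Ω := Ω) (E := E')).symm.toLinearMap ∘ₗ LinearMap.funLeft Ω Ω eI
  have hφ : Sc φ := Sc.comp _ _
  have hs : Function.Surjective φ := by
    intro z
    refine ⟨fun i => Amb.e (Ω := Ω) z (eI.symm i), ?_⟩
    have h1 : LinearMap.funLeft Ω Ω eI (fun i => Amb.e (Ω := Ω) z (eI.symm i)) =
        Amb.e (Ω := Ω) z := by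
      funext i
      simp [LinearMap.funLeft_apply]
    simp only [φ, LinearMap.comp_apply, h1]
    exact (Amb.e (Ω := Ω) (E := E')).symm_apply_apply z
  refine ⟨n, m, fun j => g (eJ.symm j), fun j => α (eJ.symm j) ∘ₗ φ, fun j => β (eJ.symm j) ∘ₗ φ,
    π ∘ₗ φ, fun j => hg _, fun j => Sc.comp _ _, fun j => Sc.comp _ _, Sc.comp _ _, ?_⟩
  ext u
  rw [hK, Submodule.mem_map]
  constructor
  · rintro ⟨z, hz, rfl⟩
    obtain ⟨v, rfl⟩ := hs z
    refine ⟨v, ?_, rfl⟩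
    rw [Submodule.mem_iInf]
    intro j
    rw [LinearMap.mem_ker, LinearMap.sub_apply, sub_eq_zero]
    exact hz _
  · rintro ⟨v, hv, rfl⟩
    rw [Submodule.mem_iInf] at hv
    refine ⟨φ v, fun j => ?_, rfl⟩
    obtain ⟨i, rfl⟩ := eJ.symm.surjective j
    have h1 := hv i
    rw [LinearMap.mem_ker, LinearMap.sub_apply, sub_eq_zero] at h1
    exact h1

/-- the definition in membership form -/
lemma Df.elim {K : Submodule Ω E} (h : Df G K) :
    ∃ (n m : ℕ) (g : Fin m → En Ω) (α β : Fin m → (Fin n → Ω) →ₗ[Ω] Ω)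
      (π : (Fin n → Ω) →ₗ[Ω] E), (∀ j, g j ∈ G ∨ g j = 0) ∧ (∀ j, Sc (α j)) ∧ (∀ j, Sc (β j)) ∧
      Sc π ∧ ∀ u, u ∈ K ↔ ∃ z, (∀ j, β j z = g j (α j z)) ∧ π z = u := by
  obtain ⟨n, m, g, α, β, π, hg, hα, hβ, hπ, rfl⟩ := h
  refine ⟨n, m, g, α, β, π, hg, hα, hβ, hπ, fun u => ?_⟩
  rw [Submodule.mem_map]
  refine exists_congr fun z => and_congr_left fun _ => ?_
  rw [Submodule.mem_iInf]
  refine forall_congr' fun j => ?_
  rw [LinearMap.mem_ker, LinearMap.sub_apply, sub_eq_zero]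
  rfl

lemma Df.mono {K : Submodule Ω E} (h : Df G K) (hG : G ⊆ G') : Df G' K := by
  obtain ⟨n, m, g, α, β, π, hg, h'⟩ := h
  exact ⟨n, m, g, α, β, π, fun j => (hg j).imp_left fun h => hG h, h'⟩

lemma Df.top : Df G (⊤ : Submodule Ω E) := by
  refine Df.of (J := Empty) (E' := E) (fun _ => 0) (fun _ => 0) (fun _ => 0) LinearMap.id
    (fun j => Or.inr rfl) fun u => ?_
  exact ⟨fun _ => ⟨u, fun j => j.elim, rfl⟩, fun _ => trivial⟩

/-- one equation with letter `0` for each coordinate of the target -/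
lemma Df.ker_sc (f : E →ₗ[Ω] E') [Sc f] : Df G (LinearMap.ker f) := by
  refine Df.of (J := Amb.I Ω E') (E' := E) (fun _ => 0) (fun _ => 0)
    (fun i => LinearMap.proj i ∘ₗ (Amb.e (Ω := Ω) (E := E')).toLinearMap ∘ₗ f) LinearMap.id
    (fun j => Or.inr rfl) fun u => ?_
  rw [LinearMap.mem_ker]
  constructor
  · intro h
    refine ⟨u, fun j => ?_, rfl⟩
    simp [h]
  · rintro ⟨z, hz, rfl⟩
    apply (Amb.e (Ω := Ω) (E := E')).injective
    funext j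
    simpa using hz j

lemma Df.bot : Df G (⊥ : Submodule Ω E) := by
  have h := Df.ker_sc (G := G) (LinearMap.id : E →ₗ[Ω] E)
  rwa [LinearMap.ker_id] at h

lemma Df.map_sc {K : Submodule Ω E} (h : Df G K) (f : E →ₗ[Ω] E') [Sc f] : Df G (K.map f) := by
  obtain ⟨n, m, g, α, β, π, hg, hα, hβ, hπ, rfl⟩ := h
  exact ⟨n, m, g, α, β, f ∘ₗ π, hg, hα, hβ, Sc.comp _ _, (Submodule.map_comp _ _ _).symm⟩

/-- unknowns `(v, z)` with `f v = π z` -/
lemma Df.comap_sc {K : Submodule Ω E'} (h : Df G K) (f : E →ₗ[Ω] E') [Sc f] :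
    Df G (K.comap f) := by
  obtain ⟨n, m, g, α, β, π, hg, hα, hβ, hπ, hK⟩ := h.elim
  let δ : (E × (Fin n → Ω)) →ₗ[Ω] E' :=
    f ∘ₗ LinearMap.fst Ω E (Fin n → Ω) - π ∘ₗ LinearMap.snd Ω E (Fin n → Ω)
  have hδ : Sc δ := Sc.sub _ _
  let g' : Fin m ⊕ Amb.I Ω E' → En Ω := Sum.elim g fun _ => 0
  let α' : Fin m ⊕ Amb.I Ω E' → (E × (Fin n → Ω)) →ₗ[Ω] Ω :=
    Sum.elim (fun j => α j ∘ₗ LinearMap.snd Ω E (Fin n → Ω)) fun _ => 0
  let β' : Fin m ⊕ Amb.I Ω E' → (E × (Fin n → Ω)) →ₗ[Ω] Ω :=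
    Sum.elim (fun j => β j ∘ₗ LinearMap.snd Ω E (Fin n → Ω))
      fun i => LinearMap.proj i ∘ₗ (Amb.e (Ω := Ω) (E := E')).toLinearMap ∘ₗ δ
  have : ∀ j, Sc (α' j) := by
    rintro (j | j)
    · exact Sc.comp _ _
    · exact Sc.zero
  have : ∀ j, Sc (β' j) := by
    rintro (j | j)
    · exact Sc.comp _ _
    · exact Sc.comp _ _
  refine Df.of g' α' β' (LinearMap.fst Ω E (Fin n → Ω)) ?_ fun u => ?_
  · rintro (j | j)
    · exact hg j
    · exact Or.inr rfl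
  rw [Submodule.mem_comap, hK]
  constructor
  · rintro ⟨z, hz, hu⟩
    refine ⟨(u, z), ?_, rfl⟩
    rintro (j | j)
    · exact hz j
    · have h0 : δ (u, z) = 0 := by
        simp [δ, hu]
      simp [β', g', h0]
  · rintro ⟨⟨v, z⟩, hz, rfl⟩
    refine ⟨z, fun j => hz (Sum.inl j), ?_⟩
    have h0 : δ (v, z) = 0 := by
      apply (Amb.e (Ω := Ω) (E := E')).injective
      funext j
      simpa [β', g'] using hz (Sum.inr j)
    have h1 : f v - π z = 0 := h0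
    exact (sub_eq_zero.1 h1).symm

lemma Df.prod {K : Submodule Ω E} {K' : Submodule Ω E'} (h : Df G K) (h' : Df G K') :
    Df G (K.prod K') := by
  obtain ⟨n, m, g, α, β, π, hg, hα, hβ, hπ, hK⟩ := h.elim
  obtain ⟨n', m', g', α', β', π', hg', hα', hβ', hπ', hK'⟩ := h'.elim
  let g₂ : Fin m ⊕ Fin m' → En Ω := Sum.elim g g'
  let α₂ : Fin m ⊕ Fin m' → ((Fin n → Ω) × (Fin n' → Ω)) →ₗ[Ω] Ω :=
    Sum.elim (fun j => α j ∘ₗ LinearMap.fst Ω _ _) fun j => α' j ∘ₗ LinearMap.snd Ω _ _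
  let β₂ : Fin m ⊕ Fin m' → ((Fin n → Ω) × (Fin n' → Ω)) →ₗ[Ω] Ω :=
    Sum.elim (fun j => β j ∘ₗ LinearMap.fst Ω _ _) fun j => β' j ∘ₗ LinearMap.snd Ω _ _
  have : ∀ j, Sc (α₂ j) := by
    rintro (j | j)
    · exact Sc.comp _ _
    · exact Sc.comp _ _
  have : ∀ j, Sc (β₂ j) := by
    rintro (j | j)
    · exact Sc.comp _ _
    · exact Sc.comp _ _
  refine Df.of g₂ α₂ β₂ (π.prodMap π') ?_ fun u => ?_
  · rintro (j | j)
    · exact hg j
    · exact hg' j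
  rw [Submodule.mem_prod, hK, hK']
  constructor
  · rintro ⟨⟨z, hz, hu⟩, ⟨z', hz', hu'⟩⟩
    refine ⟨(z, z'), ?_, Prod.ext hu hu'⟩
    rintro (j | j)
    · exact hz j
    · exact hz' j
  · rintro ⟨⟨z, z'⟩, hz, rfl⟩
    exact ⟨⟨z, fun j => hz (Sum.inl j), rfl⟩, ⟨z', fun j => hz (Sum.inr j), rfl⟩⟩

lemma Df.inf {K K' : Submodule Ω E} (h : Df G K) (h' : Df G K') : Df G (K ⊓ K') := by
  have h1 := (h.prod h').comap_sc ((LinearMap.id : E →ₗ[Ω] E).prod LinearMap.id)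
  have h2 : (K.prod K').comap ((LinearMap.id : E →ₗ[Ω] E).prod LinearMap.id) = K ⊓ K' := by
    ext u
    simp
  rwa [h2] at h1

lemma Df.sup {K K' : Submodule Ω E} (h : Df G K) (h' : Df G K') : Df G (K ⊔ K') := by
  have h1 := (h.prod h').map_sc ((LinearMap.id : E →ₗ[Ω] E).coprod LinearMap.id)
  rwa [LinearMap.map_coprod_prod, Submodule.map_id, Submodule.map_id] at h1

lemma Df.iInf {σ : Type} [Finite σ] {K : σ → Submodule Ω E} (h : ∀ s, Df G (K s)) :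
    Df G (⨅ s, K s) := by
  classical
  have := Fintype.ofFinite σ
  have key : ∀ t : Finset σ, Df G (⨅ s ∈ t, K s) := by
    intro t
    induction t using Finset.induction_on with
    | empty => simpa using Df.top
    | insert a t _ ih =>
      rw [Finset.iInf_insert]
      exact (h a).inf ih
  simpa using key Finset.univ

lemma Df.iSup {σ : Type} [Finite σ] {K : σ → Submodule Ω E} (h : ∀ s, Df G (K s)) :
    Df G (⨆ s, K s) := by
  classical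
  have := Fintype.ofFinite σ
  have key : ∀ t : Finset σ, Df G (⨆ s ∈ t, K s) := by
    intro t
    induction t using Finset.induction_on with
    | empty => simpa using Df.bot
    | insert a t _ ih =>
      rw [Finset.iSup_insert]
      exact (h a).sup ih
  simpa using key Finset.univ

lemma Df.pi {σ : Type} [Finite σ] {K : σ → Submodule Ω E} (h : ∀ s, Df G (K s)) :
    Df G (Submodule.pi Set.univ K) := by
  have h1 := Df.iInf fun s => (h s).comap_sc (LinearMap.proj s : (σ → E) →ₗ[Ω] E)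
  have h2 : (⨅ s, (K s).comap (LinearMap.proj s : (σ → E) →ₗ[Ω] E)) =
      Submodule.pi Set.univ K := by
    ext v
    simp [Submodule.mem_iInf, Submodule.mem_pi]
  rwa [h2] at h1

lemma Df.pw {ρ : Type} [Finite ρ] {U : Sub Ω} (h : Df G U) : Df G (pw ρ U) := by
  exact Df.pi fun _ => h

lemma Df.lev {ρ : Type} [Finite ρ] {P Q : ℕ → Sub Ω} {j : ℕ} (hP : Df G (P j))
    (hQ : Df G (Q j)) : Df G (lev ρ P Q j) := by
  exact hP.pw.prod hQ.pw

lemma Df.lf {N : Submodule Ω (E × E')} (h : Df G N) : Df G (lf N) := by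
  exact h.comap_sc _

lemma Df.rt {N : Submodule Ω (E × E')} (h : Df G N) : Df G (rt N) := by
  exact h.comap_sc _

lemma Df.sec {N : Submodule Ω (E × E')} (h : Df G N) {V : Submodule Ω E} (hV : Df G V) :
    Df G (sec N V) := by
  exact (h.inf (hV.prod Df.top)).map_sc _

lemma Df.dom {N : Submodule Ω (E × E')} (h : Df G N) {V : Submodule Ω E'} (hV : Df G V) :
    Df G (dom N V) := by
  exact (h.inf (Df.top.prod hV)).map_sc _

end Pool.Agent.Lib.MP_57313b_al.Zf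
end

-- part Pool.Agent.Lib.MP_57313b_al.Zf.Df1
section

/-!
# Definable maps: closure properties
-/

set_option autoImplicit false

namespace Pool.Agent.Lib.MP_57313b_al.Zf

open Filter Topology

set_option linter.unusedSectionVars false

variable {Ω : Type} [Ring Ω] [Algebra F Ω]
variable {E E' E'' E₃ : Type} [AddCommGroup E] [Module Ω E] [Amb Ω E] [AddCommGroup E']
  [Module Ω E'] [Amb Ω E'] [AddCommGroup E''] [Module Ω E''] [Amb Ω E''] [AddCommGroup E₃]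
  [Module Ω E₃] [Amb Ω E₃]
variable {G G' : Set (En Ω)}

lemma Df.fg [RK Ω] {K : Submodule Ω E} (h : Df G K) : K.FG := by
  obtain ⟨n, m, g, α, β, π, -, -, -, -, rfl⟩ := h
  exact (fg_iInf fun j => fg_ker _).map _

lemma df_bf (n : ℕ) : Df G (bf Ω n) := by
  unfold bf
  split_ifs
  · exact Df.top
  · exact Df.bot

lemma Dm.mono {f : E →ₗ[Ω] E'} (h : Dm G f) (hG : G ⊆ G') : Dm G' f := by
  exact Df.mono h hG

lemma Dm.letter {g : En Ω} (h : g ∈ G) : Dm G g := by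
  refine Df.of (J := Unit) (fun _ => g) (fun _ => LinearMap.fst Ω Ω Ω)
    (fun _ => LinearMap.snd Ω Ω Ω) LinearMap.id (fun _ => Or.inl h) ?_
  intro u
  rw [LinearMap.mem_graph_iff]
  constructor
  · intro hu; exact ⟨u, fun _ => hu, rfl⟩
  · rintro ⟨z, hz, rfl⟩; exact hz ()

lemma Dm.sc (f : E →ₗ[Ω] E') [Sc f] : Dm G f := by
  have : f.graph = LinearMap.ker (LinearMap.snd Ω E E' - f ∘ₗ LinearMap.fst Ω E E') := by
    ext u
    simp [LinearMap.mem_graph_iff, sub_eq_zero]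
  unfold Dm
  rw [this]
  exact Df.ker_sc _

lemma Df.map {K : Submodule Ω E} (h : Df G K) {f : E →ₗ[Ω] E'} (hf : Dm G f) :
    Df G (K.map f) := by
  have : K.map f = Zf.sec f.graph K := by
    ext x
    simp only [Submodule.mem_map, mem_sec, LinearMap.mem_graph_iff]
    constructor
    · rintro ⟨u, h1, h2⟩; exact ⟨u, h1, h2.symm⟩
    · rintro ⟨u, h1, h2⟩; exact ⟨u, h1, h2.symm⟩
  rw [this]
  exact Df.sec hf h

lemma Df.comap {K : Submodule Ω E'} (h : Df G K) {f : E →ₗ[Ω] E'} (hf : Dm G f) :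
    Df G (K.comap f) := by
  have : K.comap f = Zf.dom f.graph K := by
    ext x
    simp only [Submodule.mem_comap, mem_dom, LinearMap.mem_graph_iff]
    constructor
    · intro h1; exact ⟨_, h1, rfl⟩
    · rintro ⟨u, h1, h2⟩; rw [← h2]; exact h1
  rw [this]
  exact Df.dom hf h

lemma Dm.ker {f : E →ₗ[Ω] E'} (hf : Dm G f) : Df G (LinearMap.ker f) := by
  exact Df.comap Df.bot hf

lemma Dm.range {f : E →ₗ[Ω] E'} (hf : Dm G f) : Df G (LinearMap.range f) := by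
  rw [← Submodule.map_top]
  exact Df.map Df.top hf

lemma Dm.graph {f : E →ₗ[Ω] E'} (hf : Dm G f) : Df G f.graph := hf

lemma Dm.comp {g : E' →ₗ[Ω] E''} {f : E →ₗ[Ω] E'} (hg : Dm G g) (hf : Dm G f) :
    Dm G (g ∘ₗ f) := by
  have : (g ∘ₗ f).graph = Submodule.map
      ((LinearMap.fst Ω E E').prodMap (LinearMap.id : E'' →ₗ[Ω] E''))
      (f.graph.comap (LinearMap.fst Ω (E × E') E'') ⊓
        g.graph.comap ((LinearMap.snd Ω E E').prodMap (LinearMap.id : E'' →ₗ[Ω] E''))) := by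
    ext u
    simp only [Submodule.mem_map, Submodule.mem_inf, Submodule.mem_comap,
      LinearMap.mem_graph_iff]
    constructor
    · intro hu; exact ⟨((u.1, f u.1), u.2), ⟨rfl, hu⟩, rfl⟩
    · rintro ⟨z, ⟨h1, h2⟩, rfl⟩
      simp only [LinearMap.fst_apply, LinearMap.prodMap_apply, LinearMap.snd_apply,
        LinearMap.id_apply, LinearMap.comp_apply] at h1 h2 ⊢
      rw [h2, h1]
  unfold Dm
  rw [this]
  exact ((Df.comap_sc hf _).inf (Df.comap_sc hg _)).map_sc _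

lemma Dm.prod {f : E →ₗ[Ω] E'} {g : E →ₗ[Ω] E''} (hf : Dm G f) (hg : Dm G g) :
    Dm G (f.prod g) := by
  have : (f.prod g).graph =
      f.graph.comap ((LinearMap.id : E →ₗ[Ω] E).prodMap (LinearMap.fst Ω E' E'')) ⊓
        g.graph.comap ((LinearMap.id : E →ₗ[Ω] E).prodMap (LinearMap.snd Ω E' E'')) := by
    ext u
    simp [LinearMap.mem_graph_iff, Prod.ext_iff]
  unfold Dm
  rw [this]
  exact (Df.comap_sc hf _).inf (Df.comap_sc hg _)

lemma Dm.add {f g : E →ₗ[Ω] E'} (hf : Dm G f) (hg : Dm G g) : Dm G (f + g) := by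
  have : f + g = (LinearMap.fst Ω E' E' + LinearMap.snd Ω E' E') ∘ₗ f.prod g := by
    ext u; simp
  rw [this]
  exact (Dm.sc _).comp (hf.prod hg)

lemma Dm.neg {f : E →ₗ[Ω] E'} (hf : Dm G f) : Dm G (-f) := by
  have : -f = (-LinearMap.id : E' →ₗ[Ω] E') ∘ₗ f := by
    ext u; simp
  rw [this]
  exact (Dm.sc _).comp hf

lemma Dm.sub {f g : E →ₗ[Ω] E'} (hf : Dm G f) (hg : Dm G g) : Dm G (f - g) := by
  rw [sub_eq_add_neg]
  exact hf.add hg.neg

lemma Dm.smul {f : E →ₗ[Ω] Ω} (hf : Dm G f) (c : F) : Dm G (c • f) := by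
  have : c • f = (c • LinearMap.id : Ω →ₗ[Ω] Ω) ∘ₗ f := by
    ext u; simp
  rw [this]
  exact (Dm.sc _).comp hf

lemma Dm.sum {σ : Type} (s : Finset σ) {f : σ → E →ₗ[Ω] E'} (hf : ∀ i ∈ s, Dm G (f i)) :
    Dm G (∑ i ∈ s, f i) := by
  classical
  induction s using Finset.induction_on with
  | empty => rw [Finset.sum_empty]; exact Dm.sc _
  | insert a s ha ih =>
    rw [Finset.sum_insert ha]
    exact (hf a (Finset.mem_insert_self _ _)).add
      (ih fun i hi => hf i (Finset.mem_insert_of_mem hi))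

lemma Dm.coprod {f : E →ₗ[Ω] E''} {g : E' →ₗ[Ω] E''} (hf : Dm G f) (hg : Dm G g) :
    Dm G (f.coprod g) := by
  have : f.coprod g = f ∘ₗ LinearMap.fst Ω E E' + g ∘ₗ LinearMap.snd Ω E E' := by
    apply LinearMap.ext; intro u; simp
  rw [this]
  exact (hf.comp (Dm.sc _)).add (hg.comp (Dm.sc _))

lemma Dm.prodMap {f : E →ₗ[Ω] E'} {g : E'' →ₗ[Ω] E₃} (hf : Dm G f) (hg : Dm G g) :
    Dm G (f.prodMap g) := by
  have : f.prodMap g = (f ∘ₗ LinearMap.fst Ω E E'').prod (g ∘ₗ LinearMap.snd Ω E E'') := rfl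
  rw [this]
  exact (hf.comp (Dm.sc _)).prod (hg.comp (Dm.sc _))

lemma Dm.pi {σ : Type} [Finite σ] {f : σ → E →ₗ[Ω] E'} (hf : ∀ s, Dm G (f s)) :
    Dm G (LinearMap.pi f) := by
  have : (LinearMap.pi f).graph = ⨅ s, (f s).graph.comap
      ((LinearMap.id : E →ₗ[Ω] E).prodMap (LinearMap.proj s : (σ → E') →ₗ[Ω] E')) := by
    ext u
    simp [LinearMap.mem_graph_iff, funext_iff]
  unfold Dm
  rw [this]
  exact Df.iInf fun s => Df.comap_sc (hf s) _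

lemma Dm.ap {ρ : Type} [Finite ρ] {f : En Ω} (hf : Dm G f) :
    Dm G (ap f : (ρ → Ω) →ₗ[Ω] (ρ → Ω)) := by
  have : (Zf.ap f : (ρ → Ω) →ₗ[Ω] (ρ → Ω)) =
      LinearMap.pi fun s => f ∘ₗ (LinearMap.proj s : (ρ → Ω) →ₗ[Ω] Ω) := rfl
  rw [this]
  exact Dm.pi fun s => hf.comp (Dm.sc _)

lemma Dm.mul {f g : En Ω} (hf : Dm G f) (hg : Dm G g) : Dm G (f * g) := by
  exact hf.comp hg

lemma Dm.pow {f : En Ω} (hf : Dm G f) (n : ℕ) : Dm G (f ^ n) := by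
  induction n with
  | zero => rw [pow_zero]; exact Dm.sc _
  | succ n ih => rw [pow_succ]; exact ih.mul hf

lemma Dm.pol {f : En Ω} (hf : Dm G f) {m : ℕ} (c : Fin m → F) : Dm G (pol c f) := by
  exact Dm.sum _ fun s _ => (hf.pow s).smul _

end Pool.Agent.Lib.MP_57313b_al.Zf
end

-- part Pool.Agent.Lib.MP_57313b_al.Zf.Ex0
section

/-!
# Families of submodules and germs
-/

set_option autoImplicit false

namespace Pool.Agent.Lib.MP_57313b_al.Zf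

open Filter Topology

set_option linter.unusedSectionVars false

variable {Ω : Type} [Ring Ω] [Algebra F Ω]
variable {E E' E'' : Type} [AddCommGroup E] [Module Ω E] [AddCommGroup E'] [Module Ω E']
  [AddCommGroup E''] [Module Ω E'']
variable {G G' : Set (En Ω)}

section fam
variable {𝒰 𝒰' : Set (Submodule Ω E)} {𝒱 𝒱' : Set (Submodule Ω E')} {𝒲 : Set (Submodule Ω E'')}

lemma ex0_pw_mono {ρ : Type} {U V : Sub Ω} (h : U ≤ V) : pw ρ U ≤ pw ρ V :=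
  fun _ hv => mem_pw.2 fun i => h (mem_pw.1 hv i)

lemma Dct.fin (h : Dct 𝒰) {σ : Type} [Finite σ] {U : σ → Submodule Ω E} (hU : ∀ s, U s ∈ 𝒰) :
    ∃ V ∈ 𝒰, ∀ s, V ≤ U s := by
  classical
  have := Fintype.ofFinite σ
  have key : ∀ t : Finset σ, ∃ V ∈ 𝒰, ∀ s ∈ t, V ≤ U s := by
    intro t
    induction t using Finset.induction_on with
    | empty =>
      obtain ⟨V, hV⟩ := h.1
      exact ⟨V, hV, by simp⟩
    | insert a t _ ih =>
      obtain ⟨V, hV, hle⟩ := ih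
      obtain ⟨W, hW, hWle⟩ := h.2 V hV (U a) (hU a)
      refine ⟨W, hW, fun s hs => ?_⟩
      rcases Finset.mem_insert.1 hs with rfl | hs
      · exact hWle.trans inf_le_right
      · exact (hWle.trans inf_le_left).trans (hle s hs)
  obtain ⟨V, hV, hle⟩ := key Finset.univ
  exact ⟨V, hV, fun s => hle s (Finset.mem_univ s)⟩

lemma Dct.img (h : Dct 𝒰) (f : E →ₗ[Ω] E') : Dct (img f 𝒰) := by
  refine ⟨h.1.image _, ?_⟩
  rintro _ ⟨U, hU, rfl⟩ _ ⟨U', hU', rfl⟩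
  obtain ⟨V, hV, hle⟩ := h.2 U hU U' hU'
  exact ⟨V.map f, ⟨V, hV, rfl⟩, le_inf (Submodule.map_mono (hle.trans inf_le_left))
    (Submodule.map_mono (hle.trans inf_le_right))⟩

lemma Dct.pws {𝒰 : Set (Sub Ω)} (h : Dct 𝒰) (ρ : Type) : Dct (pws ρ 𝒰) := by
  refine ⟨h.1.image _, ?_⟩
  rintro _ ⟨U, hU, rfl⟩ _ ⟨U', hU', rfl⟩
  obtain ⟨V, hV, hle⟩ := h.2 U hU U' hU'
  exact ⟨pw ρ V, ⟨V, hV, rfl⟩, le_inf (ex0_pw_mono (hle.trans inf_le_left))
    (ex0_pw_mono (hle.trans inf_le_right))⟩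

lemma Dct.prods (h : Dct 𝒰) (h' : Dct 𝒱) : Dct (prods 𝒰 𝒱) := by
  refine ⟨h.1.image2 h'.1, ?_⟩
  rintro _ ⟨U, hU, V, hV, rfl⟩ _ ⟨U', hU', V', hV', rfl⟩
  obtain ⟨A, hA, hle⟩ := h.2 U hU U' hU'
  obtain ⟨B, hB, hle'⟩ := h'.2 V hV V' hV'
  exact ⟨A.prod B, ⟨A, hA, B, hB, rfl⟩,
    le_inf (Submodule.prod_mono (hle.trans inf_le_left) (hle'.trans inf_le_left))
      (Submodule.prod_mono (hle.trans inf_le_right) (hle'.trans inf_le_right))⟩

lemma dct_range {K : ℕ → Submodule Ω E} (h : Antitone K) : Dct (Set.range K) := by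
  refine ⟨Set.range_nonempty K, ?_⟩
  rintro _ ⟨m, rfl⟩ _ ⟨n, rfl⟩
  exact ⟨K (max m n), ⟨_, rfl⟩, le_inf (h (le_max_left m n)) (h (le_max_right m n))⟩

lemma lev_anti {ρ : Type} {P Q : ℕ → Sub Ω} (hP : Antitone P) (hQ : Antitone Q) :
    Antitone (lev ρ P Q) := by
  intro m n hmn
  exact Submodule.prod_mono (ex0_pw_mono (hP hmn)) (ex0_pw_mono (hQ hmn))

lemma germ_img (f : E →ₗ[Ω] E') (𝒰 : Set (Submodule Ω E)) : Germ f 𝒰 (img f 𝒰) := by
  rintro _ ⟨U, hU, rfl⟩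
  exact ⟨U, hU, le_rfl⟩

lemma img_comp (g : E' →ₗ[Ω] E'') (f : E →ₗ[Ω] E') (𝒰 : Set (Submodule Ω E)) :
    img (g ∘ₗ f) 𝒰 = img g (img f 𝒰) := by
  unfold img
  rw [Set.image_image]
  congr 1
  funext U
  exact Submodule.map_comp f g U

lemma Germ.comp {g : E' →ₗ[Ω] E''} {f : E →ₗ[Ω] E'} (hg : Germ g 𝒱 𝒲) (hf : Germ f 𝒰 𝒱) :
    Germ (g ∘ₗ f) 𝒰 𝒲 := by
  intro W hW
  obtain ⟨V, hV, h1⟩ := hg W hW
  obtain ⟨U, hU, h2⟩ := hf V hV
  refine ⟨U, hU, ?_⟩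
  rw [Submodule.map_comp]
  exact (Submodule.map_mono h2).trans h1

lemma Germ.cof_left {f : E →ₗ[Ω] E'} (hf : Germ f 𝒰 𝒱) (h : Cof 𝒰' 𝒰) : Germ f 𝒰' 𝒱 := by
  intro V hV
  obtain ⟨U, hU, h1⟩ := hf V hV
  obtain ⟨U', hU', h2⟩ := h U hU
  exact ⟨U', hU', (Submodule.map_mono h2).trans h1⟩

lemma Germ.cof_right {f : E →ₗ[Ω] E'} (hf : Germ f 𝒰 𝒱) (h : Cof 𝒱 𝒱') : Germ f 𝒰 𝒱' := by
  intro V' hV'
  obtain ⟨V, hV, h1⟩ := h V' hV'
  obtain ⟨U, hU, h2⟩ := hf V hV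
  exact ⟨U, hU, h2.trans h1⟩

lemma Germ.pow {a : En Ω} {𝒢 : Set (Sub Ω)} (ha : Germ a 𝒢 𝒢) (n : ℕ) : Germ (a ^ n) 𝒢 𝒢 := by
  induction n with
  | zero =>
    intro V hV
    refine ⟨V, hV, ?_⟩
    rintro _ ⟨u, hu, rfl⟩
    simpa using hu
  | succ n ih =>
    rw [pow_succ]
    exact Germ.comp ih ha

lemma NZ.cof {f : E →ₗ[Ω] E'} (hf : NZ f 𝒰) (h : Cof 𝒰 𝒰') : NZ f 𝒰' := by
  intro U' hU' hle
  obtain ⟨U, hU, h1⟩ := h U' hU'
  exact hf U hU (h1.trans hle)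

/-- composition with a map that is injective on a member of the middle family -/
lemma NZ.comp {g : E' →ₗ[Ω] E''} {f : E →ₗ[Ω] E'} (hf : NZ f 𝒰) (hd : Dct 𝒰)
    (hg : Germ f 𝒰 𝒱) (h : ∃ V ∈ 𝒱, V ⊓ LinearMap.ker g = ⊥) : NZ (g ∘ₗ f) 𝒰 := by
  obtain ⟨V, hV, hk⟩ := h
  obtain ⟨U₀, hU₀, h0⟩ := hg V hV
  intro U hU hle
  obtain ⟨W, hW, hWle⟩ := hd.2 U hU U₀ hU₀
  refine hf W hW fun u hu => ?_
  have h1 : f u ∈ V := h0 ⟨u, (hWle hu).2, rfl⟩
  have h2 : f u ∈ LinearMap.ker g := hle (hWle hu).1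
  have h3 : f u ∈ V ⊓ LinearMap.ker g := ⟨h1, h2⟩
  rw [hk] at h3
  exact h3

lemma NZ.bot_not_mem {f : E →ₗ[Ω] E'} (hf : NZ f 𝒰) (hg : Germ f 𝒰 𝒱) : ⊥ ∉ 𝒱 := by
  intro hb
  obtain ⟨U, hU, h0⟩ := hg ⊥ hb
  refine hf U hU fun u hu => ?_
  exact h0 ⟨u, hu, rfl⟩

lemma Cof.refl (𝒰 : Set (Submodule Ω E)) : Cof 𝒰 𝒰 := by
  intro V hV
  exact ⟨V, hV, le_rfl⟩

lemma Cof.trans {𝒰'' : Set (Submodule Ω E)} (h : Cof 𝒰 𝒰') (h' : Cof 𝒰' 𝒰'') : Cof 𝒰 𝒰'' := by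
  intro W hW
  obtain ⟨V, hV, h1⟩ := h' W hW
  obtain ⟨U, hU, h2⟩ := h V hV
  exact ⟨U, hU, h2.trans h1⟩

lemma Cof.of_subset (h : 𝒰' ⊆ 𝒰) : Cof 𝒰 𝒰' := by
  intro V hV
  exact ⟨V, h hV, le_rfl⟩

lemma Cof.img (h : Cof 𝒰 𝒰') (f : E →ₗ[Ω] E') : Cof (img f 𝒰) (img f 𝒰') := by
  rintro _ ⟨V, hV, rfl⟩
  obtain ⟨U, hU, h1⟩ := h V hV
  exact ⟨U.map f, ⟨U, hU, rfl⟩, Submodule.map_mono h1⟩

lemma Eqv.symm (h : Eqv 𝒰 𝒰') : Eqv 𝒰' 𝒰 := ⟨h.2, h.1⟩

lemma Eqv.trans {𝒰'' : Set (Submodule Ω E)} (h : Eqv 𝒰 𝒰') (h' : Eqv 𝒰' 𝒰'') : Eqv 𝒰 𝒰'' :=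
  ⟨h.1.trans h'.1, h'.2.trans h.2⟩

variable [Amb Ω E] [Amb Ω E'] [Amb Ω E'']

lemma Base.mono (h : Base G 𝒰) (hG : G ⊆ G') : Base G' 𝒰 := by
  exact ⟨h.1, fun U hU => (h.2 U hU).mono hG⟩

lemma Base.img (h : Base G 𝒰) {f : E →ₗ[Ω] E'} (hf : Dm G f) : Base G (img f 𝒰) := by
  refine ⟨h.1.img f, ?_⟩
  rintro _ ⟨U, hU, rfl⟩
  exact (h.2 U hU).map hf

lemma Base.pws {𝒰 : Set (Sub Ω)} (h : Base G 𝒰) (ρ : Type) [Finite ρ] : Base G (pws ρ 𝒰) := by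
  refine ⟨h.1.pws ρ, ?_⟩
  rintro _ ⟨U, hU, rfl⟩
  exact (h.2 U hU).pw

lemma Base.prods (h : Base G 𝒰) (h' : Base G 𝒱) : Base G (prods 𝒰 𝒱) := by
  refine ⟨h.1.prods h'.1, ?_⟩
  rintro _ ⟨U, hU, V, hV, rfl⟩
  exact (h.2 U hU).prod (h'.2 V hV)

lemma base_range {K : ℕ → Submodule Ω E} (h : Antitone K) (hd : ∀ n, Df G (K n)) :
    Base G (Set.range K) := by
  refine ⟨dct_range h, ?_⟩
  rintro _ ⟨n, rfl⟩
  exact hd n

lemma NG.mono {𝒰 : Set (Sub Ω)} (h : NG G 𝒰 𝒱) (hG : G ⊆ G') : NG G' 𝒰 𝒱 := by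
  obtain ⟨f, h1, h2, h3⟩ := h
  exact ⟨f, h1.mono hG, h2, h3⟩

lemma NG.cof {𝒰 : Set (Sub Ω)} (h : NG G 𝒰 𝒱) (h' : Cof 𝒱 𝒱') : NG G 𝒰 𝒱' := by
  obtain ⟨f, h1, h2, h3⟩ := h
  exact ⟨f, h1, h2.cof_right h', h3⟩

lemma NG.eqv {𝒰 𝒰' : Set (Sub Ω)} (h : NG G 𝒰 𝒱) (h' : Eqv 𝒰 𝒰') : NG G 𝒰' 𝒱 := by
  obtain ⟨f, h1, h2, h3⟩ := h
  exact ⟨f, h1, h2.cof_left h'.2, h3.cof h'.1⟩

lemma NG.comp {𝒰 : Set (Sub Ω)} (h : NG G 𝒰 𝒱) (hd : Dct 𝒰) {g : E' →ₗ[Ω] E''} (hg : Dm G g)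
    (hg' : Germ g 𝒱 𝒲) (hi : ∃ V ∈ 𝒱, V ⊓ LinearMap.ker g = ⊥) : NG G 𝒰 𝒲 := by
  obtain ⟨f, h1, h2, h3⟩ := h
  exact ⟨g ∘ₗ f, hg.comp h1, hg'.comp h2, h3.comp hd h2 hi⟩

/-- some coordinate of a nonzero germ is a nonzero germ -/
lemma NG.of_pws {𝒰 𝒱 : Set (Sub Ω)} {ρ : Type} [Finite ρ] (h : NG G 𝒰 (pws ρ 𝒱)) (hd : Dct 𝒰) :
    NG G 𝒰 𝒱 := by
  obtain ⟨f, h1, h2, h3⟩ := h
  by_contra hcon
  have key : ∀ i : ρ, ∃ U ∈ 𝒰,
      U ≤ LinearMap.ker ((LinearMap.proj i : (ρ → Ω) →ₗ[Ω] Ω) ∘ₗ f) := by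
    intro i
    by_contra hi
    refine hcon ⟨(LinearMap.proj i : (ρ → Ω) →ₗ[Ω] Ω) ∘ₗ f, (Dm.sc _).comp h1, ?_, ?_⟩
    · refine Germ.comp (𝒱 := Zf.pws ρ 𝒱) ?_ h2
      intro V hV
      refine ⟨pw ρ V, ⟨V, hV, rfl⟩, ?_⟩
      rintro _ ⟨v, hv, rfl⟩
      exact mem_pw.1 hv i
    · intro U hU hle
      exact hi ⟨U, hU, hle⟩
  choose U hU hle using key
  obtain ⟨V, hV, hVle⟩ := hd.fin hU
  refine h3 V hV fun u hu => ?_
  rw [LinearMap.mem_ker]
  funext i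
  exact hle i (hVle i hu)

lemma NG.of_prods {𝒰 : Set (Sub Ω)} (h : NG G 𝒰 (prods 𝒱 𝒲)) (hd : Dct 𝒰) (h1 : 𝒱.Nonempty)
    (h2 : 𝒲.Nonempty) : NG G 𝒰 𝒱 ∨ NG G 𝒰 𝒲 := by
  obtain ⟨f, hf1, hf2, hf3⟩ := h
  by_contra hcon
  rw [not_or] at hcon
  have k1 : ∃ U ∈ 𝒰, U ≤ LinearMap.ker (LinearMap.fst Ω E' E'' ∘ₗ f) := by
    by_contra hi
    refine hcon.1 ⟨LinearMap.fst Ω E' E'' ∘ₗ f, (Dm.sc _).comp hf1, ?_, ?_⟩
    · refine Germ.comp (𝒱 := Zf.prods 𝒱 𝒲) ?_ hf2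
      intro V hV
      obtain ⟨W, hW⟩ := h2
      refine ⟨V.prod W, ⟨V, hV, W, hW, rfl⟩, ?_⟩
      rintro _ ⟨v, hv, rfl⟩
      exact hv.1
    · intro U hU hle
      exact hi ⟨U, hU, hle⟩
  have k2 : ∃ U ∈ 𝒰, U ≤ LinearMap.ker (LinearMap.snd Ω E' E'' ∘ₗ f) := by
    by_contra hi
    refine hcon.2 ⟨LinearMap.snd Ω E' E'' ∘ₗ f, (Dm.sc _).comp hf1, ?_, ?_⟩
    · refine Germ.comp (𝒱 := Zf.prods 𝒱 𝒲) ?_ hf2
      intro W hW
      obtain ⟨V, hV⟩ := h1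
      refine ⟨V.prod W, ⟨V, hV, W, hW, rfl⟩, ?_⟩
      rintro _ ⟨v, hv, rfl⟩
      exact hv.2
    · intro U hU hle
      exact hi ⟨U, hU, hle⟩
  obtain ⟨U₁, hU₁, hl1⟩ := k1
  obtain ⟨U₂, hU₂, hl2⟩ := k2
  obtain ⟨V, hV, hVle⟩ := hd.2 U₁ hU₁ U₂ hU₂
  refine hf3 V hV fun u hu => ?_
  rw [LinearMap.mem_ker]
  exact Prod.ext (hl1 (hVle hu).1) (hl2 (hVle hu).2)

lemma NG.of_lev {𝒰 : Set (Sub Ω)} {ρ : Type} [Finite ρ] {P Q : ℕ → Sub Ω}
    (h : NG G 𝒰 (Set.range (lev ρ P Q))) (hd : Dct 𝒰) :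
    NG G 𝒰 (Set.range P) ∨ NG G 𝒰 (Set.range Q) := by
  obtain ⟨f, hf1, hf2, hf3⟩ := h
  by_contra hcon
  rw [not_or] at hcon
  have k1 : ∃ U ∈ 𝒰, U ≤ LinearMap.ker (LinearMap.fst Ω (ρ → Ω) (ρ → Ω) ∘ₗ f) := by
    by_contra hi
    refine hcon.1 (NG.of_pws (ρ := ρ) ⟨LinearMap.fst Ω (ρ → Ω) (ρ → Ω) ∘ₗ f,
      (Dm.sc _).comp hf1, ?_, ?_⟩ hd)
    · refine Germ.comp (𝒱 := Set.range (lev ρ P Q)) ?_ hf2
      rintro _ ⟨_, ⟨j, rfl⟩, rfl⟩
      refine ⟨lev ρ P Q j, ⟨j, rfl⟩, ?_⟩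
      rintro _ ⟨v, hv, rfl⟩
      exact hv.1
    · intro U hU hle
      exact hi ⟨U, hU, hle⟩
  have k2 : ∃ U ∈ 𝒰, U ≤ LinearMap.ker (LinearMap.snd Ω (ρ → Ω) (ρ → Ω) ∘ₗ f) := by
    by_contra hi
    refine hcon.2 (NG.of_pws (ρ := ρ) ⟨LinearMap.snd Ω (ρ → Ω) (ρ → Ω) ∘ₗ f,
      (Dm.sc _).comp hf1, ?_, ?_⟩ hd)
    · refine Germ.comp (𝒱 := Set.range (lev ρ P Q)) ?_ hf2
      rintro _ ⟨_, ⟨j, rfl⟩, rfl⟩
      refine ⟨lev ρ P Q j, ⟨j, rfl⟩, ?_⟩
      rintro _ ⟨v, hv, rfl⟩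
      exact hv.2
    · intro U hU hle
      exact hi ⟨U, hU, hle⟩
  obtain ⟨U₁, hU₁, hl1⟩ := k1
  obtain ⟨U₂, hU₂, hl2⟩ := k2
  obtain ⟨V, hV, hVle⟩ := hd.2 U₁ hU₁ U₂ hU₂
  refine hf3 V hV fun u hu => ?_
  rw [LinearMap.mem_ker]
  exact Prod.ext (hl1 (hVle hu).1) (hl2 (hVle hu).2)

lemma NG.bot_not_mem {𝒰 : Set (Sub Ω)} (h : NG G 𝒰 𝒱) : ⊥ ∉ 𝒰 := by
  obtain ⟨f, -, -, h3⟩ := h
  intro hb
  exact h3 ⊥ hb bot_le

variable [RK Ω]

lemma Sml.le (h : Sml 𝒰) (hd : Dct 𝒰) {V : Submodule Ω E} (hV : V ∈ 𝒰) {ε : ℝ} (hε : 0 < ε) :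
    ∃ U ∈ 𝒰, U ≤ V ∧ rk U < ε := by
  obtain ⟨U, hU, h1⟩ := h ε hε
  obtain ⟨W, hW, hle⟩ := hd.2 U hU V hV
  exact ⟨W, hW, hle.trans inf_le_right, (rk_mono (hle.trans inf_le_left)).trans_lt h1⟩

lemma Sml.cof (h : Sml 𝒰) (h' : Cof 𝒰' 𝒰) : Sml 𝒰' := by
  intro ε hε
  obtain ⟨U, hU, h1⟩ := h ε hε
  obtain ⟨W, hW, hle⟩ := h' U hU
  exact ⟨W, hW, (rk_mono hle).trans_lt h1⟩

lemma Sml.img (h : Sml 𝒰) (hb : Base G 𝒰) (f : E →ₗ[Ω] E') : Sml (img f 𝒰) := by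
  intro ε hε
  obtain ⟨U, hU, h1⟩ := h ε hε
  exact ⟨U.map f, ⟨U, hU, rfl⟩, (rk_map_le (hb.2 U hU).fg f).trans_lt h1⟩

lemma Sml.pws {𝒰 : Set (Sub Ω)} (h : Sml 𝒰) (hb : Base G 𝒰) (ρ : Type) [Fintype ρ] :
    Sml (pws ρ 𝒰) := by
  intro ε hε
  have hc : (0 : ℝ) ≤ Fintype.card ρ := Nat.cast_nonneg _
  obtain ⟨U, hU, h1⟩ := h (ε / (Fintype.card ρ + 1)) (by positivity)
  refine ⟨pw ρ U, ⟨U, hU, rfl⟩, ?_⟩
  rw [rk_pw (hb.2 U hU).fg]
  have h0 := rk_nonneg U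
  rw [lt_div_iff₀ (by positivity)] at h1
  nlinarith

lemma Sml.prods (h : Sml 𝒰) (hb : Base G 𝒰) (h' : Sml 𝒱) (hb' : Base G 𝒱) :
    Sml (prods 𝒰 𝒱) := by
  intro ε hε
  obtain ⟨U, hU, h1⟩ := h (ε / 2) (by positivity)
  obtain ⟨V, hV, h2⟩ := h' (ε / 2) (by positivity)
  refine ⟨U.prod V, ⟨U, hU, V, hV, rfl⟩, ?_⟩
  rw [rk_prod (hb.2 U hU).fg (hb'.2 V hV).fg]
  linarith

end fam

end Pool.Agent.Lib.MP_57313b_al.Zf
end

-- part Pool.Agent.Lib.MP_57313b_al.Zf.Ten1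
section

/-!
# Tensor submodules
-/

set_option autoImplicit false

namespace Pool.Agent.Lib.MP_57313b_al.Zf

open Filter Topology

set_option linter.unusedSectionVars false

variable {Ω : Type} [Ring Ω] [Algebra F Ω] {ρ : Type} [Fintype ρ]
variable {G : Set (En Ω)}

lemma ten1_mat_eq {ρ' : Type} [Fintype ρ'] (M : Matrix ρ' ρ F) (v : ρ' → Ω) :
    mat M v = ∑ i, dir (M i) (v i) := by
  funext j
  simp only [mat_apply, Finset.sum_apply, dir_apply]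

/-- the annihilator -/
def ten1_ann (Λ : Submodule F (ρ → F)) : Submodule F (ρ → F) where
  carrier := {φ | Perp φ Λ}
  add_mem' ha hb l hl := by rw [add_dotProduct, ha l hl, hb l hl, add_zero]
  zero_mem' l _ := zero_dotProduct l
  smul_mem' c _ ha l hl := by rw [smul_dotProduct, ha l hl, smul_zero]

lemma dir_mem_ten {U : Sub Ω} {Λ : Submodule F (ρ → F)} {l : ρ → F} (hl : l ∈ Λ) {u : Ω}
    (hu : u ∈ U) : dir l u ∈ ten U Λ := by
  exact Submodule.mem_iSup_of_mem l (Submodule.mem_iSup_of_mem hl ⟨u, hu, rfl⟩)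

lemma ten_le_iff {U : Sub Ω} {Λ : Submodule F (ρ → F)} {Z : Submodule Ω (ρ → Ω)} :
    ten U Λ ≤ Z ↔ ∀ l ∈ Λ, ∀ u ∈ U, dir l u ∈ Z := by
  refine ⟨fun h l hl u hu => h (dir_mem_ten hl hu), fun h => iSup₂_le fun l hl => ?_⟩
  rintro _ ⟨u, hu, rfl⟩
  exact h l hl u hu

lemma ten_mono {U U' : Sub Ω} {Λ Λ' : Submodule F (ρ → F)} (h : U ≤ U') (h' : Λ ≤ Λ') :
    ten U Λ ≤ ten U' Λ' := by
  exact ten_le_iff.2 fun l hl u hu => dir_mem_ten (h' hl) (h hu)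

lemma ten_le_pw (U : Sub Ω) (Λ : Submodule F (ρ → F)) : ten U Λ ≤ pw ρ U := by
  exact ten_le_iff.2 fun l _ u hu => dir_mem_pw l hu

@[simp] lemma ten_bot (U : Sub Ω) : ten U (⊥ : Submodule F (ρ → F)) = ⊥ := by
  refine le_bot_iff.1 (ten_le_iff.2 fun l hl u _ => ?_)
  rw [(Submodule.mem_bot F).1 hl, dir_zero]
  exact Submodule.zero_mem _

@[simp] lemma bot_ten (Λ : Submodule F (ρ → F)) : ten (⊥ : Sub Ω) Λ = ⊥ := by
  refine le_bot_iff.1 (ten_le_iff.2 fun l _ u hu => ?_)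
  rw [(Submodule.mem_bot Ω).1 hu, map_zero]
  exact Submodule.zero_mem _

@[simp] lemma ten_top (U : Sub Ω) : ten U (⊤ : Submodule F (ρ → F)) = pw ρ U := by
  classical
  refine le_antisymm (ten_le_pw U ⊤) fun v hv => ?_
  rw [← mat_one v, ten1_mat_eq]
  exact Submodule.sum_mem _ fun i _ => dir_mem_ten Submodule.mem_top (mem_pw.1 hv i)

/-- a vector with entries in `U` times a matrix with rows in `Λ`:
`mat M v = ∑ i, dir (M i) (v i)` -/
lemma mat_mem_ten {ρ' : Type} [Fintype ρ'] {U : Sub Ω} {Λ : Submodule F (ρ → F)}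
    {M : Matrix ρ' ρ F} (hM : ∀ i, M i ∈ Λ) {v : ρ' → Ω} (hv : v ∈ pw ρ' U) :
    mat M v ∈ ten U Λ := by
  rw [ten1_mat_eq]
  exact Submodule.sum_mem _ fun i _ => dir_mem_ten (hM i) (mem_pw.1 hv i)

/-- dual description; for the converse use a projection matrix `M` onto `Λ`
(`exists_proj_mat`): the columns of `1 - M` annihilate `Λ`, so `v = mat M v` -/
lemma mem_ten {U : Sub Ω} {Λ : Submodule F (ρ → F)} {v : ρ → Ω} :
    v ∈ ten U Λ ↔ v ∈ pw ρ U ∧ ∀ φ, Perp φ Λ → dot φ v = 0 := by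
  classical
  refine ⟨fun h => ⟨ten_le_pw U Λ h, fun φ hφ => ?_⟩, fun ⟨h1, h2⟩ => ?_⟩
  · refine (ten_le_iff (Z := LinearMap.ker (dot φ))).2 (fun l hl u _ => ?_) h
    rw [LinearMap.mem_ker, dot_dir, hφ l hl, zero_smul]
  · obtain ⟨Λ', hc⟩ := Λ.exists_isCompl
    obtain ⟨M, m1, m2, -⟩ := exists_proj_mat hc
    have e : mat (1 - M) v = 0 := by
      funext j
      refine h2 (fun i => (1 - M) i j) fun l hl => ?_
      have : Matrix.vecMul l (1 - M) = 0 := by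
        rw [Matrix.vecMul_sub, Matrix.vecMul_one, m2 l hl, sub_self]
      rw [dotProduct_comm]
      exact congrFun this j
    rw [mat_sub, mat_one, sub_eq_zero] at e
    rw [e]
    refine mat_mem_ten (fun i => ?_) h1
    have := m1 (Pi.single i 1)
    rwa [Matrix.single_one_vecMul] at this

/-- flatness: with a generalized inverse `M * M' * M = M` over the field `F`, the rows of
`1 - M * M'` lie in the kernel and `v = mat (1 - M * M') v` -/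
lemma mem_ten_ker {ρ' : Type} [Fintype ρ'] (M : Matrix ρ ρ' F) {v : ρ → Ω} :
    v ∈ ten ⊤ (LinearMap.ker M.vecMulLinear) ↔ mat M v = 0 := by
  classical
  refine ⟨fun h => ?_, fun h => mem_ten.2 ⟨by simp, fun φ hφ => ?_⟩⟩
  · refine (ten_le_iff (Z := LinearMap.ker (mat M))).2 (fun l hl u _ => ?_) h
    rw [LinearMap.mem_ker, mat_dir, show Matrix.vecMul l M = 0 from hl, dir_zero]
  · have hr : φ ∈ LinearMap.range M.mulVecLin := by
      by_contra hn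
      obtain ⟨l, l1, l2⟩ := exists_perp hn
      have : Matrix.vecMul l M = 0 := by
        funext j
        have := l1 _ ⟨Pi.single j 1, rfl⟩
        rwa [Matrix.mulVecLin_apply, Matrix.dotProduct_mulVec, dotProduct_single, mul_one] at this
      rw [dotProduct_comm, hφ l this] at l2
      exact zero_ne_one l2
    obtain ⟨ψ, rfl⟩ := hr
    have : dot (M.mulVecLin ψ) v = dot ψ (mat M v) := by
      simp only [dot_apply, mat_apply, Matrix.mulVecLin_apply, Matrix.mulVec, dotProduct,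
        Finset.sum_smul, Finset.smul_sum, smul_smul]
      rw [Finset.sum_comm]
      simp only [mul_comm]
    rw [this, h, map_zero]

lemma ten_sup (U : Sub Ω) (Λ Λ' : Submodule F (ρ → F)) :
    ten U (Λ ⊔ Λ') = ten U Λ ⊔ ten U Λ' := by
  refine le_antisymm (ten_le_iff.2 fun l hl u hu => ?_)
    (sup_le (ten_mono le_rfl le_sup_left) (ten_mono le_rfl le_sup_right))
  obtain ⟨a, ha, b, hb, rfl⟩ := Submodule.mem_sup.1 hl
  rw [dir_add]
  exact Submodule.add_mem_sup (dir_mem_ten ha hu) (dir_mem_ten hb hu)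

/-- a functional annihilating `Λ ⊓ Λ'` is a sum of functionals annihilating `Λ` and `Λ'` -/
lemma perp_inf {Λ Λ' : Submodule F (ρ → F)} {φ : ρ → F} (h : Perp φ (Λ ⊓ Λ')) :
    ∃ φ₁ φ₂, Perp φ₁ Λ ∧ Perp φ₂ Λ' ∧ φ = φ₁ + φ₂ := by
  have hm : φ ∈ ten1_ann Λ ⊔ ten1_ann Λ' := by
    by_contra hn
    obtain ⟨l, l1, l2⟩ := exists_perp hn
    have key : ∀ K : Submodule F (ρ → F), ten1_ann K ≤ ten1_ann Λ ⊔ ten1_ann Λ' → l ∈ K := by
      intro K hK
      by_contra hl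
      obtain ⟨ψ, p1, p2⟩ := exists_perp hl
      rw [dotProduct_comm, l1 ψ (hK p1)] at p2
      exact zero_ne_one p2
    rw [dotProduct_comm, h l ⟨key Λ le_sup_left, key Λ' le_sup_right⟩] at l2
    exact zero_ne_one l2
  obtain ⟨a, ha, b, hb, rfl⟩ := Submodule.mem_sup.1 hm
  exact ⟨a, b, ha, hb, rfl⟩

lemma ten_inf (U U' : Sub Ω) (Λ Λ' : Submodule F (ρ → F)) :
    ten (U ⊓ U') (Λ ⊓ Λ') = ten U Λ ⊓ ten U' Λ' := by
  refine le_antisymm (le_inf (ten_mono inf_le_left inf_le_left)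
    (ten_mono inf_le_right inf_le_right)) fun v hv => ?_
  obtain ⟨a1, a2⟩ := mem_ten.1 hv.1
  obtain ⟨b1, b2⟩ := mem_ten.1 hv.2
  refine mem_ten.2 ⟨mem_pw.2 fun i => ⟨mem_pw.1 a1 i, mem_pw.1 b1 i⟩, fun φ hφ => ?_⟩
  obtain ⟨φ₁, φ₂, h1, h2, rfl⟩ := perp_inf hφ
  have : dot (φ₁ + φ₂) v = dot φ₁ v + dot φ₂ v := by
    simp only [dot_apply, Pi.add_apply, add_smul, Finset.sum_add_distrib]
  rw [this, a2 φ₁ h1, b2 φ₂ h2, add_zero]

lemma ten_map_mat {ρ' : Type} [Fintype ρ'] (U : Sub Ω) (Λ : Submodule F (ρ → F))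
    (M : Matrix ρ ρ' F) : (ten U Λ).map (mat M) = ten U (Λ.map M.vecMulLinear) := by
  refine le_antisymm (Submodule.map_le_iff_le_comap.2 (ten_le_iff.2 fun l hl u hu => ?_))
    (ten_le_iff.2 ?_)
  · rw [Submodule.mem_comap, mat_dir]
    exact dir_mem_ten (Submodule.mem_map_of_mem (f := M.vecMulLinear) hl) hu
  · rintro _ ⟨l, hl, rfl⟩ u hu
    exact ⟨dir l u, dir_mem_ten hl hu, mat_dir M l u⟩

lemma ten_map_ap (U : Sub Ω) (Λ : Submodule F (ρ → F)) (b : En Ω) :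
    (ten U Λ).map (ap b) = ten (U.map b) Λ := by
  refine le_antisymm (Submodule.map_le_iff_le_comap.2 (ten_le_iff.2 fun l hl u hu => ?_))
    (ten_le_iff.2 ?_)
  · rw [Submodule.mem_comap, ap_dir]
    exact dir_mem_ten hl ⟨u, hu, rfl⟩
  · rintro l hl _ ⟨u, hu, rfl⟩
    exact ⟨dir l u, dir_mem_ten hl hu, ap_dir b l u⟩

/-- `ten U Λ` is the injective image of `U ^ d` under the matrix of a basis of `Λ` -/
lemma exists_ten_eq (Λ : Submodule F (ρ → F)) :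
    ∃ M : Matrix (Fin (Module.finrank F Λ)) ρ F, Function.Injective (mat M : _ →ₗ[Ω] (ρ → Ω)) ∧
      ∀ U : Sub Ω, ten U Λ = (pw _ U).map (mat M) := by
  let b := Module.finBasis F Λ
  let M : Matrix (Fin (Module.finrank F Λ)) ρ F := Matrix.of fun i => (b i : ρ → F)
  have hi : LinearIndependent F M.row := b.linearIndependent.map' Λ.subtype Λ.ker_subtype
  have hk : LinearMap.ker M.vecMulLinear = ⊥ :=
    LinearMap.ker_eq_bot.2 (Matrix.vecMul_injective_iff.2 hi)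
  have hr : (⊤ : Submodule F _).map M.vecMulLinear = Λ := by
    rw [Submodule.map_top, range_vecMulLinear,
      show Set.range M.row = Λ.subtype '' Set.range b from Set.range_comp Λ.subtype b,
      Submodule.span_image, b.span_eq, Submodule.map_top, Submodule.range_subtype]
  refine ⟨M, (injective_iff_map_eq_zero _).2 fun v hv => ?_, fun U => ?_⟩
  · have := (mem_ten_ker M).2 hv
    rwa [hk, ten_bot, Submodule.mem_bot] at this
  · rw [← ten_top, ten_map_mat, hr]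

lemma Df.ten {U : Sub Ω} (h : Df G U) (Λ : Submodule F (ρ → F)) : Df G (ten U Λ) := by
  obtain ⟨M, -, hM⟩ := exists_ten_eq (Ω := Ω) Λ
  rw [hM]
  exact h.pw.map_sc _

end Pool.Agent.Lib.MP_57313b_al.Zf
end

-- part Pool.Agent.Lib.MP_57313b_al.Zf.Df2
section

/-!
# Definable submodules: support, counting, splitting off a letter
-/

set_option autoImplicit false

namespace Pool.Agent.Lib.MP_57313b_al.Zf

open Filter Topology

set_option linter.unusedSectionVars false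

variable {Ω : Type} [Ring Ω] [Algebra F Ω]
variable {E E' : Type} [AddCommGroup E] [Module Ω E] [Amb Ω E] [AddCommGroup E']
  [Module Ω E'] [Amb Ω E']
variable {G G' : Set (En Ω)}

/-- finite support -/
lemma Df.supp {K : Submodule Ω E} (h : Df G K) : ∃ S ⊆ G, S.Finite ∧ Df S K := by
  obtain ⟨n, m, g, α, β, π, hg, hα, hβ, hπ, hK⟩ := h
  exact ⟨Set.range g ∩ G, Set.inter_subset_right, (Set.finite_range g).inter_of_left _,
    n, m, g, α, β, π, fun j => (hg j).imp_left fun k => ⟨⟨j, rfl⟩, k⟩, hα, hβ, hπ, hK⟩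

/-- finite support in terms of indices -/
lemma Df.supp_gs {ι : Type} {w : ℕ → En Ω} {b : ι → En Ω} {X : Set ι} {K : Submodule Ω E}
    (h : Df (GS w b X) K) : ∃ s ⊆ X, s.Finite ∧ Df (GS w b s) K := by
  obtain ⟨S, h1, h2, h3⟩ := h.supp
  obtain ⟨s, a1, a2, a3⟩ := (Set.exists_subset_image_finite_and (f := b) (s := X)
    (p := fun t => S ∩ b '' X ⊆ t)).1
      ⟨S ∩ b '' X, Set.inter_subset_right, h2.inter_of_left _, subset_rfl⟩
  exact ⟨s, a1, a2, h3.mono fun g hg => (h1 hg).imp_right fun k => a3 ⟨hg, k⟩⟩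

/-- finite support among the base letters -/
lemma Df.supp_range {w : ℕ → En Ω} {K : Submodule Ω E} (h : Df (Set.range w) K) :
    ∃ m : ℕ, Df (w '' Set.Iic m) K := by
  obtain ⟨S, h1, h2, h3⟩ := h.supp
  rw [← Set.image_univ] at h1
  obtain ⟨s, -, a2, a3⟩ := (Set.exists_subset_image_finite_and (f := w) (s := Set.univ)
    (p := fun t => S ⊆ t)).1 ⟨S, h1, h2, subset_rfl⟩
  obtain ⟨m, hm⟩ := a2.bddAbove
  exact ⟨m, h3.mono (a3.trans (Set.image_mono fun i hi => hm hi))⟩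

/-- countably many letters define countably many submodules (use `countable_sc`) -/
lemma countable_df (hG : G.Countable) : {K : Submodule Ω E | Df G K}.Countable := by
  have key : ∀ n m : ℕ, ((fun x : (Fin m → En Ω) × (Fin m → (Fin n → Ω) →ₗ[Ω] Ω) ×
      (Fin m → (Fin n → Ω) →ₗ[Ω] Ω) × ((Fin n → Ω) →ₗ[Ω] E) =>
        (⨅ j, LinearMap.ker (x.2.2.1 j - x.1 j ∘ₗ x.2.1 j)).map x.2.2.2) ''
      ({g | ∀ j, g j ∈ insert 0 G} ×ˢ {α | ∀ j, α j ∈ {f | Sc f}} ×ˢ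
        {β | ∀ j, β j ∈ {f | Sc f}} ×ˢ {f | Sc f})).Countable := fun n m =>
    ((Set.countable_pi fun _ => hG.insert 0).prod ((Set.countable_pi fun _ => countable_sc).prod
      ((Set.countable_pi fun _ => countable_sc).prod countable_sc))).image _
  refine (Set.countable_iUnion fun n => Set.countable_iUnion fun m => key n m).mono ?_
  rintro K ⟨n, m, g, α, β, π, hg, hα, hβ, hπ, hK⟩
  exact Set.mem_iUnion.2 ⟨n, Set.mem_iUnion.2 ⟨m, (g, α, β, π),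
    ⟨fun j => (hg j).symm, hα, hβ, hπ⟩, hK.symm⟩⟩

/-- if the letters of `G` are definable over `G'` then so is everything definable over `G` -/
lemma Df.trans {K : Submodule Ω E} (h : Df G K) (hG : ∀ g ∈ G, Dm G' g) : Df G' K := by
  obtain ⟨n, m, g, α, β, π, hg, hα, hβ, hπ, rfl⟩ := h
  refine Df.map_sc (Df.iInf fun j => Dm.ker ((Dm.sc (β j)).sub (Dm.comp ?_ (Dm.sc (α j))))) π
  rcases hg j with k | k
  · exact hG _ k
  · rw [k]; exact Dm.sc 0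

/-- Splitting off the letter `b`.  Take `ρ = Fin m` the set of all equations; at an equation `j`
with letter `b` put `p j = α j z`, `q j = β j z`; at the others keep the equation and put
`p j = q j = 0`. -/
lemma Df.split {b : En Ω} {K : Submodule Ω E} (h : Df (insert b G) K) :
    ∃ (r : ℕ) (Z : Submodule Ω (E × (Fin r → Ω) × (Fin r → Ω))), Df G Z ∧
      ∀ u, u ∈ K ↔ ∃ p, (u, p, ap b p) ∈ Z := by
  classical
  obtain ⟨n, m, g, α, β, π, hg, hα, hβ, hπ, hK⟩ := h.elim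
  let g' : Fin m → En Ω := fun j => if g j = b then 0 else g j
  let β' : Fin m → (Fin n → Ω) →ₗ[Ω] Ω := fun j => if g j = b then 0 else β j
  let a : Fin m → (Fin n → Ω) →ₗ[Ω] Ω := fun j => if g j = b then α j else 0
  let c : Fin m → (Fin n → Ω) →ₗ[Ω] Ω := fun j => if g j = b then β j else 0
  have h1 : ∀ j, Sc (β' j) := fun j => by
    simp only [β']; split_ifs <;> infer_instance
  have h2 : ∀ j, Sc (a j) := fun j => by
    simp only [a]; split_ifs <;> infer_instance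
  have h3 : ∀ j, Sc (c j) := fun j => by
    simp only [c]; split_ifs <;> infer_instance
  have h4 : ∀ j, g' j ∈ G ∨ g' j = 0 := fun j => by
    simp only [g']
    split_ifs with k
    · exact Or.inr rfl
    · exact (hg j).imp_left fun k' => k'.resolve_left k
  refine ⟨m, _, ⟨n, m, g', α, β', π.prod ((LinearMap.pi a).prod (LinearMap.pi c)), h4, hα, h1,
    inferInstance, rfl⟩, fun u => ?_⟩
  rw [hK]
  simp only [Submodule.mem_map, Submodule.mem_iInf, LinearMap.mem_ker, LinearMap.sub_apply,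
    LinearMap.comp_apply, sub_eq_zero, LinearMap.prod_apply, Function.prod_apply, Prod.mk.injEq]
  constructor
  · rintro ⟨z, e1, e2⟩
    refine ⟨LinearMap.pi a z, z, fun j => ?_, e2, rfl, funext fun j => ?_⟩
    · simp only [β', g']
      split_ifs
      · rfl
      · exact e1 j
    · simp only [LinearMap.pi_apply, ap_apply, a, c]
      split_ifs with k
      · rw [e1 j, k]
      · simp
  · rintro ⟨p, z, e1, e2, rfl, e3⟩
    refine ⟨z, fun j => ?_, e2⟩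
    have k1 := e1 j
    have k2 := congrFun e3 j
    simp only [LinearMap.pi_apply, ap_apply, a, c, β', g'] at k1 k2
    by_cases k : g j = b
    · rw [if_pos k, if_pos k] at k2
      rw [k2, k]
    · rwa [if_neg k, if_neg k] at k1

lemma gs_mono {ι : Type} (w : ℕ → En Ω) (b : ι → En Ω) {X Y : Set ι} (h : X ⊆ Y) :
    GS w b X ⊆ GS w b Y := by
  exact Set.union_subset_union_right _ (Set.image_mono h)

lemma gs_insert {ι : Type} (w : ℕ → En Ω) (b : ι → En Ω) (X : Set ι) (i : ι) :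
    GS w b (insert i X) = insert (b i) (GS w b X) := by
  rw [GS, GS, Set.image_insert_eq, Set.union_insert]

lemma gs_empty {ι : Type} (w : ℕ → En Ω) (b : ι → En Ω) : GS w b ∅ = Set.range w := by
  rw [GS, Set.image_empty, Set.union_empty]

lemma gs_base {ι : Type} (w : ℕ → En Ω) (b : ι → En Ω) (X : Set ι) :
    Set.range w ⊆ GS w b X := by
  exact Set.subset_union_left

lemma gs_mem {ι : Type} (w : ℕ → En Ω) (b : ι → En Ω) {X : Set ι} {i : ι} (h : i ∈ X) :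
    b i ∈ GS w b X := by
  exact Or.inr ⟨i, h, rfl⟩

lemma gs_countable {ι : Type} (w : ℕ → En Ω) (b : ι → En Ω) {X : Set ι} (h : X.Countable) :
    (GS w b X).Countable := by
  exact (Set.countable_range w).union (h.image b)

end Pool.Agent.Lib.MP_57313b_al.Zf
end
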