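import Pool.Agent.Lib.MP_57313b_al.Hull

/-!
# From left ideals to the uniqueness of the indecomposable injective module
-/

set_option autoImplicit false

namespace Pool.Agent.Lib.MP_57313b_al.Zf

open Filter Topology

set_option linter.unusedSectionVars false

/-- the property of a ring that gives a unique indecomposable injective left module -/
def OnePt (T : Type) [Ring T] : Prop :=
  ∃ M : Ideal T, M.IsMaximal ∧ ∀ I : Ideal T, I ≠ ⊤ →
    (∀ a b : T, a ∉ I → b ∉ I → ∃ r s : T, r * a - s * b ∈ I ∧ r * a ∉ I) →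
      ∃ r : T, r ∉ I ∧ ∀ x ∈ M, x * r ∈ I

lemma OnePt.equiv {T T' : Type} [Ring T] [Ring T'] (h : OnePt T) (e : T ≃+* T') : OnePt T' := by
  obtain ⟨M, hM, h⟩ := h
  refine ⟨M.comap e.symm, hM.comap_bijective e.symm e.symm.bijective, fun I hI hab => ?_⟩
  obtain ⟨r, hr, hx⟩ := h (I.comap e) (fun h0 => hI (by
      rw [Ideal.eq_top_iff_one] at h0 ⊢
      simpa using h0)) (fun a b ha hb => by
      obtain ⟨r, s, h1, h2⟩ := hab (e a) (e b) ha hb
      refine ⟨e.symm r, e.symm s, ?_, ?_⟩
      · simpa [Ideal.mem_comap] using h1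
      · simpa [Ideal.mem_comap] using h2)
  refine ⟨e r, hr, fun x hx' => ?_⟩
  have := hx (e.symm x) hx'
  simpa [Ideal.mem_comap] using this

/-- an essential injective extension of `U` is isomorphic to any indecomposable injective module
containing `U ≠ 0` -/
lemma fin_iso {T : Type} [Ring T] {U E N : Type} [AddCommGroup U] [Module T U] [AddCommGroup E]
    [Module T E] [AddCommGroup N] [Module T N] {f : U →ₗ[T] E} (hE : Module.Injective T E)
    (hf : Function.Injective f) (he : ∀ e : E, e ≠ 0 → ∃ (r : T) (u : U), r • e = f u ∧ u ≠ 0)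
    {g : U →ₗ[T] N} (hg : Function.Injective g) (hN : Module.Injective T N)
    (hd : ∀ A B : Submodule T N, IsCompl A B → A = ⊥ ∨ A = ⊤) {u₀ : U} (hu : u₀ ≠ 0) :
    ∃ e : E ≃ₗ[T] N, ∀ u, e (f u) = g u := by
  obtain ⟨k, hk⟩ := hN.out f hf g
  have hki : Function.Injective k := by
    rw [← LinearMap.ker_eq_bot, eq_bot_iff]
    intro x hx
    by_contra h0
    obtain ⟨r, u, e1, e2⟩ := he x h0
    apply e2
    apply hg
    rw [← hk, ← e1, map_smul, LinearMap.mem_ker.1 hx, smul_zero, map_zero]
  obtain ⟨s, hs⟩ := hE.out k hki LinearMap.id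
  have hc : IsCompl (LinearMap.range k) (LinearMap.ker (k.rangeRestrict ∘ₗ s)) := by
    apply LinearMap.isCompl_of_proj
    rintro ⟨_, x, rfl⟩
    apply Subtype.ext
    change k (s (k x)) = k x
    rw [hs]
    rfl
  rcases hd _ _ hc with h0 | h0
  · exfalso
    apply hu
    apply hg
    have : k (f u₀) ∈ LinearMap.range k := ⟨_, rfl⟩
    rw [h0, Submodule.mem_bot, hk] at this
    rw [this, map_zero]
  · exact ⟨LinearEquiv.ofBijective k ⟨hki, LinearMap.range_eq_top.1 h0⟩, hk⟩

/-- An indecomposable injective module is uniform: if the cyclic submodules of `x`, `y` meet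
trivially, take a maximal essential extension of `T x` inside `N` (or map the hull of `T x` from
`exists_hull` into `N`); it is an injective submodule, hence a direct summand, so it is everything,
and then `y` has a nonzero multiple in `T x`. -/
lemma unif_of_indec {T : Type} [Ring T] {N : Type} [AddCommGroup N] [Module T N]
    (hi : Module.Injective T N) (hd : ∀ A B : Submodule T N, IsCompl A B → A = ⊥ ∨ A = ⊤) :
    Unif T N := by
  intro x y hx hy
  obtain ⟨E, _, _, f, f1, f2, f3⟩ := exists_hull T (Submodule.span T {x})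
  have hx' : (⟨x, Submodule.mem_span_singleton_self x⟩ : Submodule.span T {x}) ≠ 0 :=
    fun h => hx (congrArg Subtype.val h)
  obtain ⟨e, he⟩ := fin_iso f1 f2 f3 (Submodule.span T {x}).injective_subtype hi hd hx'
  obtain ⟨r, u, e1, e2⟩ := f3 (e.symm y) (by simpa using hy)
  obtain ⟨r', hr'⟩ := Submodule.mem_span_singleton.1 u.2
  have e3 : r • y = u := by
    have := congrArg e e1
    rwa [map_smul, e.apply_symm_apply, he] at this
  exact ⟨r', r, hr'.trans e3.symm, fun h => e2 (Subtype.ext (hr'.symm.trans h))⟩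

/-- Let `E` be the hull of `T ⧸ M`.  For `N` indecomposable injective and `0 ≠ x ∈ N` apply the
property to the annihilator of `x`: `T ⧸ M` embeds into `N`, the embedding extends to an injective
map `E → N` whose range is a nonzero direct summand. -/
theorem OnePt.unique {T : Type} [Ring T] (h : OnePt T) :
    ∃ (M : Type) (_ : AddCommGroup M) (_ : Module T M), Module.Injective T M ∧ Nontrivial M ∧
      (∀ A B : Submodule T M, IsCompl A B → A = ⊥ ∨ A = ⊤) ∧
      ∀ (N : Type) [AddCommGroup N] [Module T N], Module.Injective T N → Nontrivial N →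
        (∀ A B : Submodule T N, IsCompl A B → A = ⊥ ∨ A = ⊤) → Nonempty (N ≃ₗ[T] M) := by
  obtain ⟨M, hM, h⟩ := h
  have hs : IsSimpleModule T (T ⧸ M) := isSimpleModule_iff_isCoatom.2 hM.out
  have hnt : Nontrivial (T ⧸ M) := IsSimpleModule.nontrivial T _
  obtain ⟨u₀, hu₀⟩ := exists_ne (0 : T ⧸ M)
  have hU : Unif T (T ⧸ M) := by
    intro x y hx hy
    have : x ∈ Submodule.span T {y} := by
      rw [IsSimpleModule.span_singleton_eq_top T hy]
      trivial
    obtain ⟨r, hr⟩ := Submodule.mem_span_singleton.1 this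
    exact ⟨1, r, by rw [one_smul, hr], by rwa [one_smul]⟩
  obtain ⟨E, _, _, f, f1, f2, f3⟩ := exists_hull T (T ⧸ M)
  refine ⟨E, inferInstance, inferInstance, f1,
    ⟨f u₀, 0, fun h0 => hu₀ (f2 (h0.trans (map_zero f).symm))⟩, (unif_hull hU f2 f3).indec, ?_⟩
  intro N _ _ hN hn hd
  obtain ⟨x, hx⟩ := exists_ne (0 : N)
  obtain ⟨r, hr, hm⟩ := h (LinearMap.ker (LinearMap.toSpanSingleton T N x)) (fun h0 => hx (by
      have : (1 : T) ∈ LinearMap.ker (LinearMap.toSpanSingleton T N x) := by
        rw [h0]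
        trivial
      simpa using this)) (fun a b ha hb => by
      obtain ⟨r, s, h1, h2⟩ := unif_of_indec hN hd (a • x) (b • x) ha hb
      refine ⟨r, s, ?_, ?_⟩
      · change (r * a - s * b) • x = 0
        rw [sub_smul, mul_smul, mul_smul, h1, sub_self]
      · intro h3
        apply h2
        rw [← mul_smul]
        exact h3)
  have hle : M ≤ LinearMap.ker (LinearMap.toSpanSingleton T N (r • x)) := by
    intro m hm'
    change m • r • x = 0
    rw [← mul_smul]
    exact hm m hm'
  have hg : Function.Injective (Submodule.liftQ M (LinearMap.toSpanSingleton T N (r • x)) hle) := by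
    apply LinearMap.injective_of_ne_zero
    intro h0
    apply hr
    have := LinearMap.congr_fun h0 (Submodule.Quotient.mk 1)
    rw [Submodule.liftQ_apply] at this
    change r • x = 0
    simpa using this
  obtain ⟨e, -⟩ := fin_iso f1 f2 f3 hg hN hd hu₀
  exact ⟨e.symm⟩

/-- take `R = Tᵐᵒᵖ`; the left ideals of `R` generated by the `op (e n)` decrease strictly -/
theorem finish {T : Type} [Ring T] (hr : ∀ a : T, ∃ x, a * x * a = a) (hs : IsSimpleRing T)
    (e : ℕ → T) (he : ∀ n, e n * e (n + 1) = e (n + 1)) (he' : ∀ n r, e n ≠ e (n + 1) * r)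
    (he'' : ∀ n, e n * e n = e n) (h : OnePt T) :
    ∃ (R : Type) (_ : Ring R),
      (∀ a : R, ∃ x : R, a * x * a = a) ∧ IsSimpleRing R ∧ ¬ IsArtinianRing R ∧
      ∃ (M : Type) (_ : AddCommGroup M) (_ : Module Rᵐᵒᵖ M),
        Module.Injective Rᵐᵒᵖ M ∧ Nontrivial M ∧
        (∀ A B : Submodule Rᵐᵒᵖ M, IsCompl A B → A = ⊥ ∨ A = ⊤) ∧
        ∀ (N : Type) [AddCommGroup N] [Module Rᵐᵒᵖ N],
          Module.Injective Rᵐᵒᵖ N → Nontrivial N →
          (∀ A B : Submodule Rᵐᵒᵖ N, IsCompl A B → A = ⊥ ∨ A = ⊤) →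
          Nonempty (N ≃ₗ[Rᵐᵒᵖ] M) := by
  refine ⟨Tᵐᵒᵖ, inferInstance, fun a => ?_, inferInstance, fun hA => ?_,
    (h.equiv (RingEquiv.opOp T)).unique⟩
  · obtain ⟨x, hx⟩ := hr a.unop
    refine ⟨MulOpposite.op x, MulOpposite.unop_injective ?_⟩
    simp only [MulOpposite.unop_mul, MulOpposite.unop_op]
    rw [← mul_assoc, hx]
  · have hanti : Antitone fun n => Submodule.span Tᵐᵒᵖ {MulOpposite.op (e n)} := by
      refine antitone_nat_of_succ_le fun n => ?_
      rw [Submodule.span_singleton_le_iff_mem, Submodule.mem_span_singleton]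
      exact ⟨MulOpposite.op (e (n + 1)), by rw [smul_eq_mul, ← MulOpposite.op_mul, he]⟩
    obtain ⟨n, hn⟩ := IsArtinian.monotone_stabilizes (R := Tᵐᵒᵖ) (M := Tᵐᵒᵖ)
      ⟨fun n => OrderDual.toDual (Submodule.span Tᵐᵒᵖ {MulOpposite.op (e n)}),
        fun a b hab => hanti hab⟩
    have h1 : Submodule.span Tᵐᵒᵖ {MulOpposite.op (e n)} =
        Submodule.span Tᵐᵒᵖ {MulOpposite.op (e (n + 1))} := hn (n + 1) (Nat.le_succ n)
    have h2 : MulOpposite.op (e n) ∈ Submodule.span Tᵐᵒᵖ {MulOpposite.op (e (n + 1))} := by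
      rw [← h1]
      exact Submodule.mem_span_singleton_self _
    obtain ⟨r, hr'⟩ := Submodule.mem_span_singleton.1 h2
    apply he' n r.unop
    have := congrArg MulOpposite.unop hr'
    simpa using this.symm

end Pool.Agent.Lib.MP_57313b_al.Zf
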