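import Pool.Agent.Lib.MP_57313b_al.Zf.Sc1

-- part Pool.Agent.Lib.MP_57313b_al.Zf.Gap
section

/-!
# Largest optimizer of a supermodular function on monotone sequences
-/

set_option autoImplicit false

namespace Pool.Agent.Lib.MP_57313b_al.Zf

open Filter Topology

set_option linter.unusedSectionVars false

variable {ρ : Type} [Fintype ρ]

/-- a monotone family of subspaces is constant for small parameters -/
lemma gap_stab (T : ℝ → Submodule F (ρ → F)) (hT : ∀ ε ε', ε ≤ ε' → T ε ≤ T ε') :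
    ∃ ε₀ : ℝ, 0 < ε₀ ∧ ∀ ε, 0 < ε → ε ≤ ε₀ → T ε = T ε₀ := by
  obtain ⟨_, ⟨ε₀, h0, rfl⟩, hmin⟩ := WellFounded.has_min
    (wellFounded_lt (α := Submodule F (ρ → F))) (T '' Set.Ioi 0) ⟨T 1, 1, by simp, rfl⟩
  refine ⟨ε₀, h0, fun ε h1 h2 => ?_⟩
  by_contra hne
  exact hmin _ ⟨ε, h1, rfl⟩ (lt_of_le_of_ne (hT _ _ h2) hne)

lemma gap_min (e : ℕ → ℝ) (he : ∀ n, 0 < e n) (j : ℕ) :
    ∃ ε : ℝ, 0 < ε ∧ ∀ n ≤ j, ε ≤ e n := by
  obtain ⟨m, -, hm⟩ := Finset.exists_min_image (Finset.range (j + 1)) e ⟨0, by simp⟩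
  exact ⟨e m, he m, fun n hn => hm n (Finset.mem_range.2 (by omega))⟩

/-- boundedly many joins exhaust the join of all near-optimal sequences up to level `j` -/
lemma gap_join (d : Sq ρ → ℝ) (s : ℝ) (hs : ∀ Λ, Monotone Λ → d Λ ≤ s)
    (hsm : ∀ Λ Λ', Monotone Λ → Monotone Λ' → d Λ + d Λ' ≤ d (Λ ⊔ Λ') + d (Λ ⊓ Λ'))
    (ε : ℝ) (hε : 0 ≤ ε) (Λ₀ : Sq ρ) (h0 : Monotone Λ₀ ∧ s ≤ d Λ₀ + ε) (j k : ℕ) :
    ∃ Λ : Sq ρ, Monotone Λ ∧ s ≤ d Λ + (k + 1) * ε ∧
      (∀ n, Λ n ≤ ⨆ Λ' : {Λ' : Sq ρ // Monotone Λ' ∧ s ≤ d Λ' + ε}, Λ'.1 n) ∧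
      ((∀ n ≤ j, Λ n = ⨆ Λ' : {Λ' : Sq ρ // Monotone Λ' ∧ s ≤ d Λ' + ε}, Λ'.1 n) ∨
        k ≤ ∑ n ∈ Finset.range (j + 1), Module.finrank F (Λ n)) := by
  induction k with
  | zero =>
    refine ⟨Λ₀, h0.1, by simpa using h0.2, fun n => ?_, Or.inr (Nat.zero_le _)⟩
    exact le_iSup (fun Λ' : {Λ' : Sq ρ // Monotone Λ' ∧ s ≤ d Λ' + ε} => Λ'.1 n) ⟨Λ₀, h0⟩
  | succ k ih =>
    obtain ⟨Λ, hm, hd, hle, hk⟩ := ih
    by_cases hall : ∀ n ≤ j, Λ n = ⨆ Λ' : {Λ' : Sq ρ // Monotone Λ' ∧ s ≤ d Λ' + ε}, Λ'.1 n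
    · refine ⟨Λ, hm, ?_, hle, Or.inl hall⟩
      push_cast
      linarith
    · have hk := hk.resolve_left hall
      push Not at hall
      obtain ⟨n, hn, hne⟩ := hall
      have : ∃ Λ' : {Λ' : Sq ρ // Monotone Λ' ∧ s ≤ d Λ' + ε}, ¬ Λ'.1 n ≤ Λ n := by
        by_contra hc
        push Not at hc
        exact hne (le_antisymm (hle n) (iSup_le hc))
      obtain ⟨⟨Λ', hm', hd'⟩, hn'⟩ := this
      refine ⟨Λ ⊔ Λ', hm.sup hm', ?_, fun m => sup_le (hle m) ?_, Or.inr ?_⟩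
      · have h1 := hsm Λ Λ' hm hm'
        have h2 := hs _ (hm.inf hm')
        push_cast
        linarith
      · exact le_iSup (fun Λ' : {Λ' : Sq ρ // Monotone Λ' ∧ s ≤ d Λ' + ε} => Λ'.1 m)
          ⟨Λ', hm', hd'⟩
      · refine Nat.succ_le_of_lt (hk.trans_lt (Finset.sum_lt_sum (fun m _ => ?_)
          ⟨n, Finset.mem_range.2 (by omega), ?_⟩))
        · exact Submodule.finrank_mono le_sup_left
        · exact Submodule.finrank_lt_finrank_of_lt (left_lt_sup.2 hn')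

/-- Let `s` be the supremum of `d` on monotone sequences.  Joins of near-optimal sequences are
near-optimal (`hsm` and `d ≤ s`).  For `ε > 0` let `T ε n` be the join of all `Λ n` with
`d Λ > s - ε`; it decreases with `ε`, so for each `n` it is constant, `= Ψ n`, for small `ε`
(finite dimension).  For every `j` and `δ > 0` a join of boundedly many (at most
`(j+1) * card ρ`, or use compactness: finitely many, chosen after fixing the number by finite
dimension) near-optimal sequences is `δ`-optimal and agrees with `Ψ` up to `j`; with `ht` this gives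
`d Ψ = s`. -/
theorem gap (d : Sq ρ → ℝ) (C : ℝ) (hb : ∀ Λ, Monotone Λ → d Λ ≤ C)
    (hsm : ∀ Λ Λ', Monotone Λ → Monotone Λ' → d Λ + d Λ' ≤ d (Λ ⊔ Λ') + d (Λ ⊓ Λ'))
    (ht : ∀ ε : ℝ, 0 < ε → ∃ j, ∀ Λ Λ', Monotone Λ → Monotone Λ' → (∀ n ≤ j, Λ n = Λ' n) →
      d Λ ≤ d Λ' + ε) :
    ∃ Ψ : Sq ρ, Monotone Ψ ∧ (∀ Λ, Monotone Λ → d Λ ≤ d Ψ) ∧
      ∀ j : ℕ, ∃ ε : ℝ, 0 < ε ∧ ∀ Λ, Monotone Λ → d Ψ ≤ d Λ + ε → ∀ n ≤ j, Λ n ≤ Ψ n := by
  have hne : (d '' {Λ | Monotone Λ}).Nonempty := ⟨d ⊥, ⊥, monotone_const, rfl⟩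
  have hbd : BddAbove (d '' {Λ | Monotone Λ}) := ⟨C, by rintro _ ⟨Λ, h, rfl⟩; exact hb Λ h⟩
  obtain ⟨s, hs, hs'⟩ : ∃ s : ℝ, (∀ Λ, Monotone Λ → d Λ ≤ s) ∧
      ∀ ε : ℝ, 0 < ε → ∃ Λ, Monotone Λ ∧ s ≤ d Λ + ε := by
    refine ⟨sSup (d '' {Λ | Monotone Λ}), fun Λ h => le_csSup hbd ⟨Λ, h, rfl⟩, fun ε hε => ?_⟩
    obtain ⟨_, ⟨Λ, h, rfl⟩, h2⟩ := exists_lt_of_lt_csSup hne
      (show sSup (d '' {Λ | Monotone Λ}) - ε < _ by linarith)
    exact ⟨Λ, h, by linarith⟩
  let T : ℝ → Sq ρ := fun ε n => ⨆ Λ' : {Λ' : Sq ρ // Monotone Λ' ∧ s ≤ d Λ' + ε}, Λ'.1 n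
  have hT : ∀ n ε ε', ε ≤ ε' → T ε n ≤ T ε' n := fun n ε ε' h => iSup_le fun Λ =>
    le_iSup (fun Λ' : {Λ' : Sq ρ // Monotone Λ' ∧ s ≤ d Λ' + ε'} => Λ'.1 n)
      ⟨Λ.1, Λ.2.1, Λ.2.2.trans (by linarith)⟩
  have hTm : ∀ ε, Monotone (T ε) := fun ε n m h => iSup_mono fun Λ => Λ.2.1 h
  choose e he0 he using fun n => gap_stab (fun ε => T ε n) (hT n)
  have hΨ : Monotone fun n => T (e n) n := by
    intro n m h
    have h1 : 0 < min (e n) (e m) := lt_min (he0 n) (he0 m)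
    show T (e n) n ≤ T (e m) m
    rw [← he n _ h1 (min_le_left _ _), ← he m _ h1 (min_le_right _ _)]
    exact hTm _ h
  have hΨs : s ≤ d fun n => T (e n) n := by
    refine le_of_forall_pos_le_add fun δ hδ => ?_
    obtain ⟨j, hj⟩ := ht (δ / 2) (by linarith)
    obtain ⟨ε₁, h1, h1'⟩ := gap_min e he0 j
    set K : ℕ := (j + 1) * Module.finrank F (ρ → F) + 1 with hK
    have hK0 : (0 : ℝ) < K + 1 := by positivity
    have h2 : 0 < min ε₁ (δ / 2 / (K + 1)) := lt_min h1 (by positivity)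
    obtain ⟨Λ₀, h0⟩ := hs' _ h2
    obtain ⟨Λ, hm, hd, -, hk⟩ := gap_join d s hs hsm _ h2.le Λ₀ h0 j K
    have hk := hk.resolve_right (by
      have : ∑ n ∈ Finset.range (j + 1), Module.finrank F (Λ n) ≤
          (j + 1) * Module.finrank F (ρ → F) := by
        refine (Finset.sum_le_card_nsmul _ _ _ fun n _ => Submodule.finrank_le _).trans ?_
        simp
      omega)
    have h3 := hj Λ _ hm hΨ fun n hn =>
      (hk n hn).trans (he n _ h2 ((min_le_left _ _).trans (h1' n hn)))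
    have h4 : (K + 1 : ℝ) * min ε₁ (δ / 2 / (K + 1)) ≤ δ / 2 := by
      rw [mul_comm, ← le_div_iff₀ hK0]
      exact min_le_right _ _
    linarith
  refine ⟨fun n => T (e n) n, hΨ, fun Λ h => (hs Λ h).trans hΨs, fun j => ?_⟩
  obtain ⟨ε, h1, h1'⟩ := gap_min e he0 j
  refine ⟨ε, h1, fun Λ hm hd n hn => le_trans ?_ (hT n _ _ (h1' n hn))⟩
  exact le_iSup (fun Λ' : {Λ' : Sq ρ // Monotone Λ' ∧ s ≤ d Λ' + ε} => Λ'.1 n)
    ⟨Λ, hm, hΨs.trans hd⟩

/-- The span argument.  The spans `T ε` of `{l | γ l < ε}` are constant for small `ε` and are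
spanned by at most `card ρ` vectors, so `γ` vanishes on the limit, which is therefore `⊥`. -/
theorem span_gap (γ : (ρ → F) → ℝ) (h0 : ∀ l, 0 ≤ γ l) (hz : γ 0 = 0)
    (hadd : ∀ l l', γ (l + l') ≤ γ l + γ l') (hsmul : ∀ (c : F) l, γ (c • l) ≤ γ l)
    (hpos : ∀ l, l ≠ 0 → 0 < γ l) : ∃ δ : ℝ, 0 < δ ∧ ∀ l, l ≠ 0 → δ ≤ γ l := by
  obtain ⟨δ, hδ, hst⟩ := gap_stab (fun ε => Submodule.span F {l | γ l < ε})
    fun ε ε' h => Submodule.span_mono fun l (hl : γ l < ε) => hl.trans_le h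
  refine ⟨δ, hδ, fun l hl => ?_⟩
  by_contra hc
  have hN : (0 : ℝ) < Module.finrank F (ρ → F) + 1 := by positivity
  have h2 : 0 < min δ (γ l / (Module.finrank F (ρ → F) + 1)) :=
    lt_min hδ (div_pos (hpos l hl) hN)
  set ε := min δ (γ l / (Module.finrank F (ρ → F) + 1)) with hε
  have hm : l ∈ Submodule.span F {l | γ l < ε} := by
    rw [hst ε h2 (min_le_left _ _)]
    exact Submodule.subset_span (not_le.1 hc)
  obtain ⟨f, hf, hsp, -⟩ := Submodule.exists_fun_fin_finrank_span_eq F {l | γ l < ε}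
  rw [← hsp, Submodule.mem_span_range_iff_exists_fun] at hm
  obtain ⟨c, hcl⟩ := hm
  have h3 : γ l ≤ Module.finrank F (Submodule.span F {l | γ l < ε}) * ε := by
    rw [← hcl]
    refine (Finset.le_sum_of_subadditive γ hz.le hadd _ _).trans ?_
    refine (Finset.sum_le_card_nsmul _ _ ε fun i _ => (hsmul _ _).trans (hf i).le).trans ?_
    simp
  have h4 : (Module.finrank F (Submodule.span F {l | γ l < ε}) : ℝ) ≤ Module.finrank F (ρ → F) :=
    Nat.cast_le.2 (Submodule.finrank_le _)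
  have h5 : ε * (Module.finrank F (ρ → F) + 1) ≤ γ l :=
    (le_div_iff₀ hN).1 (min_le_right _ _)
  have h6 := mul_le_mul_of_nonneg_right h4 h2.le
  linarith

/-- a directed family of nonzero subspaces has a common nonzero vector (take a member of least
dimension) -/
theorem exists_common {T : Type} (r : T → T → Prop) (s : Set T) (hne : s.Nonempty)
    (hd : ∀ a ∈ s, ∀ b ∈ s, ∃ c ∈ s, r c a ∧ r c b) (Θ : T → Submodule F (ρ → F))
    (hm : ∀ a ∈ s, ∀ b ∈ s, r a b → Θ a ≤ Θ b) (h : ∀ a ∈ s, Θ a ≠ ⊥) :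
    ∃ l : ρ → F, l ≠ 0 ∧ ∀ a ∈ s, l ∈ Θ a := by
  obtain ⟨_, ⟨a₀, h0, rfl⟩, hmin⟩ := WellFounded.has_min
    (wellFounded_lt (α := Submodule F (ρ → F))) (Θ '' s) (hne.image _)
  obtain ⟨l, hl, hl0⟩ := (Submodule.ne_bot_iff _).1 (h a₀ h0)
  refine ⟨l, hl0, fun a ha => ?_⟩
  obtain ⟨c, hc, h1, h2⟩ := hd a₀ h0 a ha
  have : Θ c = Θ a₀ := by
    by_contra hne'
    exact hmin _ ⟨c, hc, rfl⟩ (lt_of_le_of_ne (hm c hc a₀ h0 h1) hne')
  exact hm c hc a ha h2 (this ▸ hl)

end Pool.Agent.Lib.MP_57313b_al.Zf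
end

-- part Pool.Agent.Lib.MP_57313b_al.Zf.Index
section

/-!
# Set-theoretic tools
-/

set_option autoImplicit false

namespace Pool.Agent.Lib.MP_57313b_al.Zf

open Filter Topology

set_option linter.unusedSectionVars false

section card
open Cardinal

lemma index_inf : ℵ₀ ≤ (2 : Cardinal.{0}) ^ 𝔠 :=
  aleph0_le_continuum.trans (cantor _).le

lemma index_Iic (a : ((2 : Cardinal.{0}) ^ 𝔠).ord.ToType) : #(Set.Iic a) < 2 ^ 𝔠 := by
  rw [← Set.Iio_insert]
  refine (mk_insert_le).trans_lt ?_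
  exact add_lt_of_lt index_inf (mk_Iio_toType_ord_lt a) (one_lt_aleph0.trans_le index_inf)

lemma index_pow {c : Cardinal.{0}} (hc : c ≤ 𝔠) : ((2 : Cardinal.{0}) ^ 𝔠) ^ c ≤ 2 ^ 𝔠 := by
  rw [← power_mul]
  refine power_le_power_left two_ne_zero ?_
  exact (mul_le_mul_right hc 𝔠).trans (continuum_mul_self).le

lemma index_bdd (s : Set ((2 : Cardinal.{0}) ^ 𝔠).ord.ToType) (hs : #s ≤ 𝔠) :
    ∃ η, ∀ a ∈ s, a < η := by
  by_contra h
  push Not at h
  have h1 : (⋃ a : s, Set.Iic (a : ((2 : Cardinal.{0}) ^ 𝔠).ord.ToType)) = Set.univ := by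
    refine Set.eq_univ_of_forall fun η => ?_
    obtain ⟨a, ha, hη⟩ := h η
    exact Set.mem_iUnion.2 ⟨⟨a, ha⟩, hη⟩
  have h2 := mk_iUnion_le_sum_mk
    (f := fun a : s => Set.Iic (a : ((2 : Cardinal.{0}) ^ 𝔠).ord.ToType))
  rw [h1, mk_univ, mk_ord_toType] at h2
  have h3 := sum_lt_prod (fun a : s => #(Set.Iic (a : ((2 : Cardinal.{0}) ^ 𝔠).ord.ToType)))
    (fun _ => 2 ^ 𝔠) fun a => index_Iic a
  rw [prod_const'] at h3
  exact absurd (h2.trans_lt (h3.trans_le (index_pow hs))) (lt_irrefl _)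

lemma index_code {ι : Type} (h : #ι = 2 ^ 𝔠) :
    #((ℕ → (ℕ × List ι) × (ℕ × List ι)) × ι) ≤ #ι := by
  have h0 : ℵ₀ ≤ #ι := h ▸ index_inf
  have h1 : #(List ι) ≤ #ι := (mk_list_le_max ι).trans (max_le h0 le_rfl)
  have h2 : #(ℕ × List ι) ≤ #ι := by
    rw [mk_prod, lift_id, lift_id, mk_nat]
    exact (mul_le_mul' h0 h1).trans (mul_eq_self h0).le
  have h3 : #((ℕ × List ι) × (ℕ × List ι)) ≤ #ι := by
    rw [mk_prod, lift_id]
    exact (mul_le_mul' h2 h2).trans (mul_eq_self h0).le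
  have h4 : #(ℕ → (ℕ × List ι) × (ℕ × List ι)) ≤ #ι := by
    rw [← power_def, mk_nat]
    refine (power_le_power_right h3).trans ?_
    rw [h]
    exact index_pow aleph0_le_continuum
  rw [mk_prod, lift_id, lift_id]
  exact (mul_le_mul' h4 le_rfl).trans (mul_eq_self h0).le

end card

/-- `ι = (2 ^ 𝔠).ord.ToType`.  Countable sets are bounded since `ℵ₀ < cof (2 ^ 𝔠)`
(`Cardinal.lt_cof_power`); an element of order type `𝔠.ord` has uncountably many predecessors; the
type of codes has cardinality at most `(2 ^ 𝔠) ^ ℵ₀ = 2 ^ 𝔠`, so there is a surjection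
`ι → Code × ι`, whose fibres over a code have full cardinality and are therefore unbounded. -/
theorem exists_index : ∃ (ι : Type) (_ : LinearOrder ι) (_ : WellFoundedLT ι),
    (∀ s : Set ι, s.Countable → ∃ η, ∀ a ∈ s, a < η) ∧ (∃ η₀ : ι, ¬ (Set.Iio η₀).Countable) ∧
      ∃ code : ι → ℕ → (ℕ × List ι) × (ℕ × List ι), ∀ c η, ∃ ζ, η < ζ ∧ code ζ = c := by
  refine ⟨((2 : Cardinal.{0}) ^ Cardinal.continuum).ord.ToType, inferInstance, inferInstance,
    fun s hs => index_bdd s ?_, ?_, ?_⟩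
  · exact (Cardinal.le_aleph0_iff_set_countable.2 hs).trans Cardinal.aleph0_le_continuum
  · have h1 : Cardinal.continuum ≤
        Cardinal.mk ((2 : Cardinal.{0}) ^ Cardinal.continuum).ord.ToType := by
      rw [Cardinal.mk_ord_toType]
      exact (Cardinal.cantor _).le
    obtain ⟨s, hs⟩ := Cardinal.le_mk_iff_exists_set.1 h1
    obtain ⟨η, hη⟩ := index_bdd s hs.le
    refine ⟨η, fun hc => ?_⟩
    have h2 := Cardinal.le_aleph0_iff_set_countable.2 (hc.mono (show s ⊆ Set.Iio η from hη))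
    rw [hs] at h2
    exact absurd h2 (not_le.2 Cardinal.aleph0_lt_continuum)
  · have hι := Cardinal.mk_ord_toType ((2 : Cardinal.{0}) ^ Cardinal.continuum)
    obtain ⟨e⟩ := (Cardinal.le_def _ _).1 (index_code hι)
    classical
    refine ⟨fun ζ => if h : ∃ x, e x = ζ then h.choose.1 else fun _ => ((0, []), (0, [])),
      fun c η => ?_⟩
    by_contra hn
    push Not at hn
    have h1 : ∀ ξ, e (c, ξ) ≤ η := by
      intro ξ
      by_contra hlt
      have hx : ∃ x, e x = e (c, ξ) := ⟨_, rfl⟩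
      refine hn _ (not_le.1 hlt) ?_
      rw [dif_pos hx, e.injective hx.choose_spec]
    have h2 : Cardinal.mk ((2 : Cardinal.{0}) ^ Cardinal.continuum).ord.ToType ≤
        Cardinal.mk (Set.Iic η) := by
      refine Cardinal.mk_le_of_injective (f := fun ξ => (⟨e (c, ξ), h1 ξ⟩ : Set.Iic η)) ?_
      intro ξ ξ' hξ
      have h3 := e.injective (congrArg Subtype.val hξ)
      exact congrArg Prod.snd h3
    rw [hι] at h2
    exact absurd (h2.trans_lt (index_Iic η)) (lt_irrefl _)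

variable {ι : Type} [LinearOrder ι] [WellFoundedLT ι]

/-- restriction of a sequence to the indices below `η` -/
def cut {S : Type} (d : S) (f : ι → S) (η : ι) : ι → S := fun ζ => if ζ < η then f ζ else d

/-- recursion with choice -/
theorem exists_rec {S : Type} (d : S) (Spec : ι → (ι → S) → S → Prop) :
    ∃ f : ι → S, ∀ η, (∃ s, Spec η (cut d f η) s) → Spec η (cut d f η) (f η) := by
  classical
  let stp : ∀ η : ι, (∀ ζ, ζ < η → S) → S := fun η g =>
    if h : ∃ s, Spec η (fun ζ => if hζ : ζ < η then g ζ hζ else d) s then h.choose else d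
  let f : ι → S := (wellFounded_lt (α := ι)).fix stp
  have hf : ∀ η, f η = stp η fun ζ _ => f ζ := fun η => WellFounded.fix_eq _ _ _
  refine ⟨f, fun η h => ?_⟩
  have hc : cut d f η = fun ζ => if _ : ζ < η then f ζ else d := by
    funext ζ
    simp only [cut]
    split_ifs <;> rfl
  rw [hc] at h ⊢
  rw [hf η]
  simp only [stp]
  rw [dif_pos h]
  exact h.choose_spec

/-- Induction along the chain `X₀ ∪ (Y ∩ Iio ζ)`: prove `p (X₀ ∪ (Y ∩ Iic ζ))` for all `ζ` by strong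
induction; a finite subset of `X₀ ∪ (Y ∩ Iio ζ)` lies in `X₀` or in `X₀ ∪ (Y ∩ Iic ζ')` for some
`ζ' < ζ`. -/
theorem chain_ind (p : Set ι → Prop) (X₀ Y : Set ι)
    (lim : ∀ X, (∀ s ⊆ X, s.Finite → ∃ X', s ⊆ X' ∧ X' ⊆ X ∧ p X') → p X) (base : p X₀)
    (step : ∀ ζ ∈ Y, ζ ∉ X₀ → p (X₀ ∪ Y ∩ Set.Iio ζ) → p (insert ζ (X₀ ∪ Y ∩ Set.Iio ζ))) :
    p (X₀ ∪ Y) := by
  have aux : ∀ Z : Set ι, (∀ a ∈ Z, Set.Iic a ⊆ Z) → (∀ a ∈ Z, p (X₀ ∪ Y ∩ Set.Iic a)) →
      p (X₀ ∪ Y ∩ Z) := by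
    intro Z hZ ih
    refine lim _ fun s hs hf => ?_
    rcases (s \ X₀).eq_empty_or_nonempty with h0 | h0
    · exact ⟨X₀, Set.sdiff_eq_empty.1 h0, Set.subset_union_left, base⟩
    · obtain ⟨a, ha, hmax⟩ := Set.exists_max_image (s \ X₀) id (hf.subset Set.sdiff_subset) h0
      have haZ : a ∈ Z := ((hs ha.1).resolve_left ha.2).2
      refine ⟨X₀ ∪ Y ∩ Set.Iic a, fun x hx => ?_, ?_, ih a haZ⟩
      · by_cases hx0 : x ∈ X₀
        · exact Or.inl hx0
        · exact Or.inr ⟨((hs hx).resolve_left hx0).1, hmax x ⟨hx, hx0⟩⟩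
      · exact Set.union_subset_union_right _ (Set.inter_subset_inter_right _ (hZ a haZ))
  have main : ∀ ζ, p (X₀ ∪ Y ∩ Set.Iic ζ) := by
    intro ζ
    induction ζ using WellFoundedLT.induction with
    | ind ζ ih =>
      have h1 : p (X₀ ∪ Y ∩ Set.Iio ζ) :=
        aux _ (fun a ha x hx => lt_of_le_of_lt hx ha) fun a ha => ih a ha
      by_cases hζ : ζ ∈ Y ∧ ζ ∉ X₀
      · have h2 : X₀ ∪ Y ∩ Set.Iic ζ = insert ζ (X₀ ∪ Y ∩ Set.Iio ζ) := by
          ext x
          constructor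
          · rintro (hx | ⟨hx, hx'⟩)
            · exact Or.inr (Or.inl hx)
            · rcases (Set.mem_Iic.1 hx').eq_or_lt with h | h
              · exact Or.inl h
              · exact Or.inr (Or.inr ⟨hx, h⟩)
          · rintro (rfl | hx | ⟨hx, hx'⟩)
            · exact Or.inr ⟨hζ.1, le_rfl⟩
            · exact Or.inl hx
            · exact Or.inr ⟨hx, le_of_lt hx'⟩
        rw [h2]
        exact step ζ hζ.1 hζ.2 h1
      · have h2 : X₀ ∪ Y ∩ Set.Iic ζ = X₀ ∪ Y ∩ Set.Iio ζ := by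
          ext x
          constructor
          · rintro (hx | ⟨hx, hx'⟩)
            · exact Or.inl hx
            · rcases (Set.mem_Iic.1 hx').eq_or_lt with h | h
              · subst h
                by_contra hn
                exact hζ ⟨hx, fun h0 => hn (Or.inl h0)⟩
              · exact Or.inr ⟨hx, h⟩
          · rintro (hx | ⟨hx, hx'⟩)
            · exact Or.inl hx
            · exact Or.inr ⟨hx, le_of_lt hx'⟩
        rw [h2]
        exact h1
  have h := aux Set.univ (fun _ _ => Set.subset_univ _) fun a _ => main a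
  rwa [Set.inter_univ] at h

/-- closing a countable set under a countable-valued function on finite sets -/
theorem exists_closure {α : Type} (Φ : Set α → Set α) (hΦ : ∀ s, s.Finite → (Φ s).Countable)
    (D : Set α) (hD : D.Countable) :
    ∃ X, D ⊆ X ∧ X.Countable ∧ ∀ s ⊆ X, s.Finite → Φ s ⊆ X := by
  let X : ℕ → Set α := fun n =>
    Nat.rec D (fun _ Z => Z ∪ ⋃ s ∈ {s : Set α | s.Finite ∧ s ⊆ Z}, Φ s) n
  have hs : ∀ n, X (n + 1) = X n ∪ ⋃ s ∈ {s : Set α | s.Finite ∧ s ⊆ X n}, Φ s := fun _ => rfl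
  have hm : Monotone X := monotone_nat_of_le_succ fun n => by
    rw [hs]
    exact Set.subset_union_left
  have hc : ∀ n, (X n).Countable := by
    intro n
    induction n with
    | zero => exact hD
    | succ n ih =>
      rw [hs]
      exact ih.union ((Set.countable_ofPred_finite_subset ih).biUnion fun s h => hΦ s h.1)
  refine ⟨⋃ n, X n, Set.subset_iUnion X 0, Set.countable_iUnion hc, fun s h hf => ?_⟩
  have h1 : ∀ a ∈ s, ∃ n, a ∈ X n := fun a ha => Set.mem_iUnion.1 (h ha)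
  choose! N hN using h1
  obtain ⟨n, hn⟩ := (hf.image N).bddAbove
  have h2 : s ⊆ X n := fun a ha => hm (hn ⟨a, ha, rfl⟩) (hN a ha)
  refine Set.Subset.trans ?_ (Set.subset_iUnion X (n + 1))
  rw [hs]
  exact fun x hx => Or.inr (Set.mem_biUnion (show s ∈ {s : Set α | s.Finite ∧ s ⊆ X n} from ⟨hf, h2⟩) hx)

end Pool.Agent.Lib.MP_57313b_al.Zf
end

-- part Pool.Agent.Lib.MP_57313b_al.Zf.Bimod
section

/-!
# Sub-bimodules over a simple ring
-/

set_option autoImplicit false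

namespace Pool.Agent.Lib.MP_57313b_al.Zf

open Filter Topology

set_option linter.unusedSectionVars false

variable {Ω : Type} [Ring Ω]

/-- a sub-bimodule without nonzero central vector vanishes -/
lemma bimod_aux [IsSimpleRing Ω] {ρ : Type} [Fintype ρ] (L : Submodule Ω (ρ → Ω))
    (hL : ∀ v ∈ L, ∀ x : Ω, (fun i => v i * x) ∈ L)
    (h : ∀ u ∈ L, (∀ i x, x * u i = u i * x) → u = 0) : ∀ v ∈ L, v = 0 := by
  classical
  suffices H : ∀ s : Finset ρ, ∀ v ∈ L, (∀ j, j ∉ s → v j = 0) → v = 0 from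
    fun v hv => H Finset.univ v hv (by simp)
  intro s
  induction s using Finset.induction_on with
  | empty => exact fun v _ h0 => funext fun j => h0 j (by simp)
  | insert i s hi ih =>
    intro v hv h0
    have key : ∀ u ∈ L, (∀ j, j ∉ insert i s → u j = 0) → u i = 0 → u = 0 := fun u hu h1 h2 =>
      ih u hu fun j hj => by
        rcases eq_or_ne j i with rfl | hji
        exacts [h2, h1 j (by simp [hji, hj])]
    refine key v hv h0 (by_contra fun hne => ?_)
    have := IsSimpleRing.one_mem_of_ne_zero_mem (TwoSidedIdeal.mk'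
      {t | ∃ u ∈ L, (∀ j, j ∉ insert i s → u j = 0) ∧ u i = t} ⟨0, L.zero_mem, by simp, rfl⟩
      (by
        rintro _ _ ⟨u, hu, a, rfl⟩ ⟨u', hu', a', rfl⟩
        exact ⟨u + u', L.add_mem hu hu', fun j hj => by simp [a j hj, a' j hj], rfl⟩)
      (by
        rintro _ ⟨u, hu, a, rfl⟩
        exact ⟨-u, L.neg_mem hu, fun j hj => by simp [a j hj], rfl⟩)
      (by
        rintro x _ ⟨u, hu, a, rfl⟩
        exact ⟨x • u, L.smul_mem x hu, fun j hj => by simp [a j hj], rfl⟩)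
      (by
        rintro _ x ⟨u, hu, a, rfl⟩
        exact ⟨_, hL u hu x, fun j hj => by simp [a j hj], rfl⟩)) hne
      ((TwoSidedIdeal.mem_mk' _ _ _ _ _ _ _).2 ⟨v, hv, h0, rfl⟩)
    obtain ⟨u, hu, a, e⟩ := (TwoSidedIdeal.mem_mk' _ _ _ _ _ _ _).1 this
    have := h u hu fun j x => sub_eq_zero.1 (congrFun (key _ (L.sub_mem (L.smul_mem x hu)
      (hL u hu x)) (fun j hj => by simp [a j hj]) (by simp [e])) j)
    rw [this] at e
    exact zero_ne_one e

/-- Sub-bimodules of `Ω ^ ρ` are defined over the centre, which is a field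
(`IsSimpleRing.isField_center`).  First show that `L` is spanned by its vectors with central entries:
induction on the support of `v ∈ L`, using a vector `v₀ ∈ L` of minimal nonempty support inside the
support of `v`, normalized by simplicity to have an entry `1` (then `x v₀ - v₀ x` has smaller
support).  Then take a projection matrix over the centre with kernel the space of central vectors of
`L`. -/
theorem bimod [IsSimpleRing Ω] {ρ : Type} [Fintype ρ] (L : Submodule Ω (ρ → Ω))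
    (hL : ∀ v ∈ L, ∀ x : Ω, (fun i => v i * x) ∈ L) :
    ∃ C : Matrix ρ ρ Ω, (∀ i j x, C i j * x = x * C i j) ∧ L = LinearMap.ker C.vecMulLinear := by
  classical
  let := (IsSimpleRing.isField_center Ω).toField
  let L₀ : Submodule (Subring.center Ω) (ρ → Subring.center Ω) :=
    { carrier := {c | (fun i => (c i : Ω)) ∈ L}
      add_mem' := fun a b => L.add_mem a b
      zero_mem' := L.zero_mem
      smul_mem' := fun c _ a => L.smul_mem (c : Ω) a }
  obtain ⟨g, hg⟩ := LinearMap.exists_extend (LinearMap.id : L₀ →ₗ[Subring.center Ω] L₀)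
  let D : ρ → ρ → Subring.center Ω := fun i => g (Pi.single i 1)
  let C : Matrix ρ ρ Ω := fun i j => (Pi.single i 1 : ρ → Ω) j - D i j
  have hC : ∀ i j x, C i j * x = x * C i j := fun i j x => by
    have := Subring.mem_center_iff.1 (D i j).2 x
    simp only [C, sub_mul, mul_sub, this, Pi.single_apply]
    split_ifs <;> simp
  have e : ∀ v : ρ → Ω, v - C.vecMulLinear v = ∑ i, v i • fun j => (D i j : Ω) := fun v => by
    funext j
    change v j - ∑ i, v i * C i j = _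
    simp [C, mul_sub, Pi.single_apply]
  have m : ∀ v : ρ → Ω, v - C.vecMulLinear v ∈ L := fun v =>
    e v ▸ L.sum_mem fun i _ => L.smul_mem _ (g (Pi.single i 1)).2
  have b : ∀ u ∈ L, (∀ i x, x * u i = u i * x) → C.vecMulLinear u = 0 := fun u hu hc => by
    let c : ρ → Subring.center Ω := fun i => ⟨u i, Subring.mem_center_iff.2 (hc i)⟩
    have h1 : (g c : ρ → Subring.center Ω) = c :=
      congrArg Subtype.val (LinearMap.congr_fun hg ⟨c, hu⟩)
    have h2 : (g c : ρ → Subring.center Ω) = ∑ i, c i • D i := by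
      conv_lhs => rw [pi_eq_sum_univ' c, map_sum]
      simp [D]
    rw [← sub_eq_self (a := u), e]
    funext j
    simpa [c] using (congrArg Subtype.val (congrFun (h2.symm.trans h1) j))
  have i : ∀ v, C.vecMulLinear (v - C.vecMulLinear v) = 0 := fun v => by
    rw [e, map_sum]
    exact Finset.sum_eq_zero fun i _ => by
      rw [map_smul, b _ (g (Pi.single i 1)).2 fun j => Subring.mem_center_iff.1 (D i j).2,
        smul_zero]
  refine ⟨C, hC, le_antisymm (fun v hv => bimod_aux (L.map C.vecMulLinear) ?_ ?_ _ ⟨v, hv, rfl⟩)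
    fun v hv => ?_⟩
  · rintro _ ⟨u, hu, rfl⟩ x
    refine ⟨_, hL u hu x, funext fun j => ?_⟩
    simp [Matrix.vecMul, dotProduct, Finset.sum_mul, mul_assoc, hC]
  · rintro _ ⟨u, hu, rfl⟩ hc
    have := i u
    rwa [map_sub, b (C.vecMulLinear u) (by simpa using L.sub_mem hu (m u)) hc, sub_zero] at this
  · simpa [LinearMap.mem_ker.1 hv] using m v

end Pool.Agent.Lib.MP_57313b_al.Zf
end

-- part Pool.Agent.Lib.MP_57313b_al.Zf.Wong
section

/-!
# Wong sequences in a simple rank ring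
-/

set_option autoImplicit false

namespace Pool.Agent.Lib.MP_57313b_al.Zf

open Filter Topology

set_option linter.unusedSectionVars false

variable {Ω : Type} [Ring Ω] [Algebra F Ω] [RK Ω]
variable {E E' : Type} [AddCommGroup E] [Module Ω E] [Amb Ω E] [AddCommGroup E'] [Module Ω E']
  [Amb Ω E']

/-- chains `φ (z 0) = 0`, `φ (z (s+1)) = ψ s (z s)` -/
def chainSol (φ : E →ₗ[Ω] E') (ψ : ℕ → E →ₗ[Ω] E') (N : ℕ) : Submodule Ω (Fin N → E) :=
  ⨅ t : Fin N, LinearMap.ker (φ ∘ₗ LinearMap.proj t -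
    ∑ s : Fin N, if (s : ℕ) + 1 = t then ψ s ∘ₗ LinearMap.proj s else 0)

lemma mem_chainSol {φ : E →ₗ[Ω] E'} {ψ : ℕ → E →ₗ[Ω] E'} {N : ℕ} {z : Fin N → E} :
    z ∈ chainSol φ ψ N ↔
      ∀ t : Fin N, φ (z t) = ∑ s : Fin N, if (s : ℕ) + 1 = t then ψ s (z s) else 0 := by
  simp only [chainSol, Submodule.mem_iInf, LinearMap.mem_ker, LinearMap.sub_apply,
    LinearMap.comp_apply, LinearMap.proj_apply, LinearMap.sum_apply, sub_eq_zero]
  refine forall_congr' fun t => ?_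
  rw [Finset.sum_congr rfl fun s _ => ?_]
  split_ifs <;> rfl

lemma mem_chainSol_succ {φ : E →ₗ[Ω] E'} {ψ : ℕ → E →ₗ[Ω] E'} {N : ℕ} {z : Fin (N + 1) → E} :
    z ∈ chainSol φ ψ (N + 1) ↔
      φ (z 0) = 0 ∧ ∀ s : Fin N, φ (z s.succ) = ψ s (z s.castSucc) := by
  rw [mem_chainSol, Fin.forall_fin_succ]
  refine and_congr (by simp) (forall_congr' fun s => ?_)
  rw [Finset.sum_eq_single s.castSucc]
  · simp
  · intro b _ hb
    rw [if_neg]
    intro h
    exact hb (Fin.ext (by simpa using h))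
  · simp

lemma wong_fg (φ : E →ₗ[Ω] E') (ψ : ℕ → E →ₗ[Ω] E') (N : ℕ) : (chainSol φ ψ N).FG :=
  fg_iInf fun _ => fg_ker _

lemma wong_le (φ : E →ₗ[Ω] E') (ψ : ℕ → E →ₗ[Ω] E') (N : ℕ) :
    (chainSol φ ψ (N + 1)).map (LinearMap.funLeft Ω E Fin.castSucc) ≤ chainSol φ ψ N := by
  rintro _ ⟨v, hv, rfl⟩
  rcases N with _ | N
  · exact mem_chainSol.2 fun t => t.elim0
  · obtain ⟨h0, h1⟩ := mem_chainSol_succ.1 hv
    exact mem_chainSol_succ.2 ⟨h0, fun s => h1 s.castSucc⟩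

lemma wong_step (φ : E →ₗ[Ω] E') (ψ : ℕ → E →ₗ[Ω] E') (N : ℕ) :
    rk (chainSol φ ψ (N + 1)) ≤ rk (LinearMap.ker φ) +
      rk ((chainSol φ ψ (N + 1)).map (LinearMap.funLeft Ω E Fin.castSucc)) := by
  have h1 := rk_map_add (wong_fg φ ψ (N + 1))
    (LinearMap.funLeft Ω E (Fin.castSucc : Fin N → Fin (N + 1)))
  have h2 := rk_le_of_inj (fg_inf_ker (wong_fg φ ψ (N + 1))
    (LinearMap.funLeft Ω E (Fin.castSucc : Fin N → Fin (N + 1)))) (K' := LinearMap.ker φ)
    (LinearMap.proj (Fin.last N)) (fun v hv h => ?_) (fun v hv => ?_)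
  · linarith
  · funext i
    induction i using Fin.lastCases with
    | last => exact h
    | cast i => exact congrFun hv.2 i
  · obtain ⟨h0, h1⟩ := mem_chainSol_succ.1 hv.1
    rcases N with _ | N
    · exact h0
    · have h3 : v (Fin.last N).castSucc = 0 := congrFun hv.2 (Fin.last N)
      have := h1 (Fin.last N)
      rw [h3, map_zero] at this
      exact this

lemma wong_bound (φ : E →ₗ[Ω] E') (ψ : ℕ → E →ₗ[Ω] E') (N : ℕ) :
    rk (chainSol φ ψ N) ≤ N * rk (LinearMap.ker φ) := by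
  induction N with
  | zero =>
    have : chainSol φ ψ 0 = ⊥ := (Submodule.eq_bot_iff _).2 fun _ _ => Subsingleton.elim _ _
    simp [this]
  | succ N ih =>
    have h1 := wong_step φ ψ N
    have h2 := rk_mono (wong_le φ ψ N)
    push_cast
    linarith

/-- Forgetting the last entry maps `chainSol (N+1)` into `chainSol N` with kernel `ker φ`; for
`N = t + 1` the image misses `z` (`rk_lt_of_lt`). -/
lemma rk_chainSol_lt (φ : E →ₗ[Ω] E') (ψ : ℕ → E →ₗ[Ω] E') {t N : ℕ} (hN : t + 2 ≤ N)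
    {z : Fin (t + 1) → E} (hz : z ∈ chainSol φ ψ (t + 1))
    (h : ψ t (z (Fin.last t)) ∉ LinearMap.range φ) :
    rk (chainSol φ ψ N) < N * rk (LinearMap.ker φ) := by
  induction N, hN using Nat.le_induction with
  | base =>
    have h1 := wong_step φ ψ (t + 1)
    have h2 := rk_lt_of_lt ((wong_fg φ ψ (t + 2)).map _) (wong_fg φ ψ (t + 1))
      (lt_of_le_of_ne (wong_le φ ψ (t + 1)) fun e => ?_)
    · have h3 := wong_bound φ ψ (t + 1)
      push_cast at h3 ⊢
      linarith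
    · rw [← e] at hz
      obtain ⟨v, hv, rfl⟩ := hz
      exact h ⟨_, (mem_chainSol_succ.1 hv).2 (Fin.last t)⟩
  | succ N _ ih =>
    have h1 := wong_step φ ψ N
    have h2 := rk_mono (wong_le φ ψ N)
    push_cast
    linarith

/-- diagonal right multiplication -/
def dg {ρ : Type} (Y : ρ → Ω) : (ρ → Ω) →ₗ[Ω] (ρ → Ω) :=
  LinearMap.pi fun e => rm (Y e) ∘ₗ LinearMap.proj e

@[simp] lemma dg_apply {ρ : Type} (Y v : ρ → Ω) (e : ρ) : dg Y v e = v e * Y e := rfl

/-- Let `φ = φ₀.prod (β - dg (y ∘ l) ∘ α)`, `ψ Y = inr ∘ dg (Y ∘ l) ∘ α`, `U` the span of all last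
entries of chains (all lengths, all sequences of `Y`), `L` the span of all `dg (Y ∘ l) (α z)`, `z ∈ U`.
By `hmin` and `rk_chainSol_lt`, for a last entry `z` each `ψ Y z` is `φ z'` and every such `z'` is a
last entry.  So `φ` maps `U` onto `0 × L` and `ker φ ≤ U`; `U = φ ⁻¹ (0 × L)`, `L` is finitely
generated by `bimod`, and `rk U = rk (ker φ) + rk L`. -/
theorem wong [IsSimpleRing Ω] {A ρ : Type} [Fintype ρ] (l : ρ → A) (y : A → Ω)
    (φ₀ : E →ₗ[Ω] E') (α β : E →ₗ[Ω] (ρ → Ω))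
    (hmin : ∀ (r : ℕ) (Y : ℕ → A → Ω),
      (2 ^ r : ℕ) * rk (LinearMap.ker (φ₀.prod (β - dg (y ∘ l) ∘ₗ α))) ≤
        rk (chainSol (φ₀.prod (β - dg (y ∘ l) ∘ₗ α))
          (fun s => LinearMap.inr Ω E' (ρ → Ω) ∘ₗ dg (Y s ∘ l) ∘ₗ α) (2 ^ r))) :
    ∃ L : Submodule Ω (ρ → Ω), (∀ v ∈ L, ∀ Y : A → Ω, dg (Y ∘ l) v ∈ L) ∧
      rk (LinearMap.ker (φ₀.prod (β - dg (y ∘ l) ∘ₗ α))) + rk L ≤
        rk (LinearMap.ker φ₀ ⊓ L.comap α ⊓ L.comap β) := by
  set φ := φ₀.prod (β - dg (y ∘ l) ∘ₗ α) with hφ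
  set ψ : (A → Ω) → E →ₗ[Ω] E' × (ρ → Ω) := fun Y =>
    LinearMap.inr Ω E' (ρ → Ω) ∘ₗ dg (Y ∘ l) ∘ₗ α with hψ
  set T : Set E := {x | ∃ (t : ℕ) (Y : ℕ → A → Ω), ∃ z ∈ chainSol φ (fun s => ψ (Y s)) (t + 1),
    z (Fin.last t) = x} with hT
  have c0 : ∀ x, φ x = 0 → x ∈ T := fun x hx =>
    ⟨0, fun _ _ => 0, fun _ => x, mem_chainSol_succ.2 ⟨hx, fun s => s.elim0⟩, rfl⟩
  have c1 : ∀ x ∈ T, ∀ Y₀, ∃ x' ∈ T, φ x' = ψ Y₀ x := by
    rintro _ ⟨t, Y, z, hz, rfl⟩ Y₀
    have hz' : z ∈ chainSol φ (fun s => ψ (Function.update Y t Y₀ s)) (t + 1) := by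
      obtain ⟨h0, h1⟩ := mem_chainSol_succ.1 hz
      refine mem_chainSol_succ.2 ⟨h0, fun s => ?_⟩
      rw [Function.update_of_ne s.2.ne]
      exact h1 s
    have hr : ψ (Function.update Y t Y₀ t) (z (Fin.last t)) ∈ LinearMap.range φ := by
      by_contra hn
      exact absurd (rk_chainSol_lt φ _ (N := 2 ^ (t + 2)) Nat.lt_two_pow_self.le hz' hn)
        (not_lt.2 (hmin (t + 2) _))
    obtain ⟨x', hx'⟩ := hr
    refine ⟨x', ⟨t + 1, Function.update Y t Y₀, Fin.snoc z x', ?_, Fin.snoc_last _ _⟩, ?_⟩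
    · obtain ⟨h0, h1⟩ := mem_chainSol_succ.1 hz'
      refine mem_chainSol_succ.2 ⟨by simpa using h0, fun s => ?_⟩
      induction s using Fin.lastCases with
      | last => simpa using hx'
      | cast s =>
        rw [Fin.succ_castSucc, Fin.snoc_castSucc, Fin.snoc_castSucc]
        exact h1 s
    · rwa [Function.update_self] at hx'
  set L : Submodule Ω (ρ → Ω) :=
    Submodule.span Ω {v | ∃ x ∈ T, ∃ Y : A → Ω, v = dg (Y ∘ l) (α x)} with hL
  have cl : ∀ v ∈ L, ∀ Y : A → Ω, dg (Y ∘ l) v ∈ L := fun v hv Y => by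
    refine (Submodule.span_le (p := L.comap (dg (Y ∘ l)))).2 ?_ hv
    rintro _ ⟨x, hx, Y', rfl⟩
    refine Submodule.subset_span ⟨x, hx, Y' * Y, funext fun e => ?_⟩
    simp [mul_assoc]
  have fg : L.FG := by
    obtain ⟨C, -, hC⟩ := bimod L fun v hv x => cl v hv fun _ => x
    rw [hC]
    exact fg_ker _
  have c2 : ∀ w ∈ L, ∃ u, α u ∈ L ∧ φ u = (0, w) := fun w hw => by
    have : L ≤ ((L.comap α).map φ).comap (LinearMap.inr Ω E' (ρ → Ω)) := by
      refine Submodule.span_le.2 ?_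
      rintro _ ⟨x, hx, Y, rfl⟩
      obtain ⟨x', h1, h2⟩ := c1 x hx Y
      exact ⟨x', Submodule.subset_span ⟨x', h1, 1, funext fun e => by simp⟩, h2⟩
    exact this hw
  refine ⟨L, cl, ?_⟩
  have h1 := rk_inf_comap (fg_top (Ω := Ω) (E := E))
    ((Submodule.fg_bot (R := Ω) (M := E')).prod fg) φ
  have h2 : Submodule.map φ ⊤ ⊓ (⊥ : Submodule Ω E').prod L = (⊥ : Submodule Ω E').prod L := by
    refine inf_eq_right.2 ?_
    rintro ⟨a, w⟩ ⟨ha, hw⟩
    obtain ⟨u, -, hu⟩ := c2 w hw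
    exact ⟨u, trivial, hu.trans (Prod.ext (Eq.symm ha) rfl)⟩
  rw [h2, rk_prod Submodule.fg_bot fg, rk_bot, zero_add, top_inf_eq, top_inf_eq] at h1
  rw [← h1]
  refine rk_mono fun v hv => ?_
  obtain ⟨hv1, hv2⟩ := hv
  obtain ⟨u, hu1, hu2⟩ := c2 _ hv2
  have h3 : φ (v - u) = 0 := by
    rw [map_sub, hu2, sub_eq_zero]
    exact Prod.ext hv1 rfl
  have h4 : α v ∈ L := by
    have : α (v - u) ∈ L := Submodule.subset_span ⟨_, c0 _ h3, 1, funext fun e => by simp⟩
    simpa using L.add_mem this hu1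
  refine ⟨⟨hv1, h4⟩, ?_⟩
  have h5 : β v - dg (y ∘ l) (α v) ∈ L := hv2
  simpa using L.add_mem h5 (cl _ h4 y)

end Pool.Agent.Lib.MP_57313b_al.Zf
end

-- part Pool.Agent.Lib.MP_57313b_al.Zf.Lin1
section

/-!
# Linear algebra over the ground field: ranks
-/

set_option autoImplicit false

namespace Pool.Agent.Lib.MP_57313b_al.Zf

open Filter Topology

set_option linter.unusedSectionVars false

variable {a b c d n : Type} [Fintype a] [Fintype b] [Fintype c] [Fintype d] [Fintype n]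

/-- rank factorization with one-sided inverses -/
lemma lin1_fac (A : Matrix a b F) : ∃ (P : Matrix a (Fin A.rank) F) (Q : Matrix (Fin A.rank) b F)
    (P' : Matrix (Fin A.rank) a F) (Q' : Matrix b (Fin A.rank) F),
    P * Q = A ∧ P' * A * Q' = 1 := by
  classical
  let f := A.mulVecLin
  let e : LinearMap.range f ≃ₗ[F] (Fin A.rank → F) :=
    (Module.finBasisOfFinrankEq F (LinearMap.range f) (n := A.rank) rfl).equivFun
  let p : (Fin A.rank → F) →ₗ[F] (a → F) := (LinearMap.range f).subtype ∘ₗ e.symm.toLinearMap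
  let q : (b → F) →ₗ[F] (Fin A.rank → F) := e.toLinearMap ∘ₗ f.rangeRestrict
  have hp : LinearMap.ker p = ⊥ :=
    LinearMap.ker_eq_bot.2 ((Submodule.injective_subtype _).comp e.symm.injective)
  have hq : LinearMap.range q = ⊤ :=
    LinearMap.range_eq_top.2 (e.surjective.comp f.surjective_rangeRestrict)
  obtain ⟨p', h1⟩ := p.exists_leftInverse_of_injective hp
  obtain ⟨q', h2⟩ := q.exists_rightInverse_of_surjective hq
  have h3 : p ∘ₗ q = f := by
    ext1 x
    ext1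
    simp [p, q]
  have h4 : LinearMap.toMatrix' p * LinearMap.toMatrix' q = A := by
    rw [← LinearMap.toMatrix'_comp, h3]
    exact LinearMap.toMatrix'_toLin' A
  refine ⟨_, _, LinearMap.toMatrix' p', LinearMap.toMatrix' q', h4, ?_⟩
  calc LinearMap.toMatrix' p' * A * LinearMap.toMatrix' q'
      = LinearMap.toMatrix' p' * (LinearMap.toMatrix' p * LinearMap.toMatrix' q) *
        LinearMap.toMatrix' q' := by rw [h4]
    _ = 1 := by
      rw [← Matrix.mul_assoc, ← LinearMap.toMatrix'_comp, h1, LinearMap.toMatrix'_id,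
        Matrix.one_mul, ← LinearMap.toMatrix'_comp, h2, LinearMap.toMatrix'_id]

lemma lin1_le (P : Matrix a c F) (Q : Matrix c b F) : (P * Q).rank ≤ Fintype.card c :=
  (Matrix.rank_mul_le_left P Q).trans P.rank_le_card_width

lemma lin1_ge [DecidableEq c] (A : Matrix a b F) (P : Matrix c a F) (Q : Matrix b c F)
    (h : P * A * Q = 1) : Fintype.card c ≤ A.rank := by
  rw [← Matrix.rank_one (R := F), ← h]
  exact (Matrix.rank_mul_le_left _ _).trans (Matrix.rank_mul_le_right _ _)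

lemma lin_rank_add_le (A B : Matrix a b F) : (A + B).rank ≤ A.rank + B.rank := by
  obtain ⟨P, Q, -, -, h, -⟩ := lin1_fac A
  obtain ⟨P', Q', -, -, h', -⟩ := lin1_fac B
  have := lin1_le (Matrix.fromCols P P') (Matrix.fromRows Q Q')
  rw [Matrix.fromCols_mul_fromRows, h, h'] at this
  simpa using this

lemma lin_rank_neg (A : Matrix a b F) : (-A).rank = A.rank := by
  rw [← neg_one_smul F A]
  exact Matrix.rank_smul_of_mem_nonZeroDivisors A (by simp)

lemma lin_ginv (A : Matrix a b F) : ∃ B : Matrix b a F, A * B * A = A := by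
  classical
  obtain ⟨P, Q, P', Q', h, h'⟩ := lin1_fac A
  have h1 : P' * P * (Q * Q') = 1 := by
    rw [← h', ← Matrix.mul_assoc, Matrix.mul_assoc P' P, h]
  have h2 : Q * Q' * (P' * P) = 1 := mul_eq_one_comm.1 h1
  refine ⟨Q' * P', ?_⟩
  calc A * (Q' * P') * A = P * Q * (Q' * P') * (P * Q) := by rw [h]
    _ = P * (Q * Q' * (P' * P)) * Q := by simp only [Matrix.mul_assoc]
    _ = A := by rw [h2, Matrix.mul_one, h]

lemma lin_rank_fromBlocks (A : Matrix a b F) (B : Matrix c d F) :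
    (Matrix.fromBlocks A 0 0 B).rank = A.rank + B.rank := by
  classical
  obtain ⟨P, Q, R, S, h, k⟩ := lin1_fac A
  obtain ⟨P', Q', R', S', h', k'⟩ := lin1_fac B
  apply le_antisymm
  · have := lin1_le (Matrix.fromBlocks P 0 0 P') (Matrix.fromBlocks Q 0 0 Q')
    rw [Matrix.fromBlocks_multiply] at this
    simpa [h, h'] using this
  · have := lin1_ge (Matrix.fromBlocks A 0 0 B) (Matrix.fromBlocks R 0 0 R')
      (Matrix.fromBlocks S 0 0 S') (by
        rw [Matrix.fromBlocks_multiply, Matrix.fromBlocks_multiply]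
        simp [k, k'])
    simpa using this

lemma lin_rank_blockDiagonal [DecidableEq n] (A : Matrix a b F) :
    (Matrix.blockDiagonal fun _ : n => A).rank = Fintype.card n * A.rank := by
  classical
  obtain ⟨P, Q, R, S, h, k⟩ := lin1_fac A
  apply le_antisymm
  · have := lin1_le (Matrix.blockDiagonal fun _ : n => P) (Matrix.blockDiagonal fun _ : n => Q)
    rw [← Matrix.blockDiagonal_mul] at this
    simpa [h, mul_comm] using this
  · have := lin1_ge (Matrix.blockDiagonal fun _ : n => A) (Matrix.blockDiagonal fun _ : n => R)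
      (Matrix.blockDiagonal fun _ : n => S) (by
        rw [← Matrix.blockDiagonal_mul, ← Matrix.blockDiagonal_mul]
        simp only [k]
        exact Matrix.blockDiagonal_one)
    simpa [mul_comm] using this

lemma lin1_sum_le {ι : Type} (s : Finset ι) (A : ι → Matrix a b F) :
    (∑ i ∈ s, A i).rank ≤ ∑ i ∈ s, (A i).rank := by
  classical
  induction s using Finset.induction_on with
  | empty => simp
  | insert i s hi ih =>
    rw [Finset.sum_insert hi, Finset.sum_insert hi]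
    exact (lin_rank_add_le _ _).trans (Nat.add_le_add_left ih _)

/-- a block matrix is the sum of its single blocks -/
lemma lin_rank_comp_le (M : Matrix a b (Matrix n n F)) :
    (Matrix.comp a b n n F M).rank ≤ ∑ i, ∑ j, (M i j).rank := by
  classical
  let L : a → Matrix (a × n) n F := fun i => Matrix.of fun p s => if p = (i, s) then 1 else 0
  let R : b → Matrix n (b × n) F := fun j => Matrix.of fun s p => if p = (j, s) then 1 else 0
  have h : Matrix.comp a b n n F M = ∑ i, ∑ j, L i * M i j * R j := by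
    ext ⟨i, s⟩ ⟨j, t⟩
    simp [L, R, Matrix.sum_apply, Matrix.mul_apply, ite_and, Finset.sum_ite_eq]
  rw [h]
  refine (lin1_sum_le _ _).trans (Finset.sum_le_sum fun i _ => ?_)
  refine (lin1_sum_le _ _).trans (Finset.sum_le_sum fun j _ => ?_)
  exact (Matrix.rank_mul_le_left _ _).trans (Matrix.rank_mul_le_right _ _)

lemma lin_rank_le_comp (M : Matrix a b (Matrix n n F)) (i : a) (j : b) :
    (M i j).rank ≤ (Matrix.comp a b n n F M).rank :=
  Matrix.rank_submatrix_le (Matrix.comp a b n n F M) (fun s => (i, s)) (fun t => (j, t))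

lemma lin_factor {x z : Matrix n n F} (h : z.rank ≤ x.rank) :
    ∃ p q : Matrix n n F, z = p * x * q := by
  classical
  obtain ⟨P, Q, -, -, h1, -⟩ := lin1_fac z
  obtain ⟨-, -, R, S, -, k⟩ := lin1_fac x
  let E : Matrix (Fin z.rank) (Fin x.rank) F := (1 : Matrix _ _ F).submatrix (Fin.castLE h) id
  let E' : Matrix (Fin x.rank) (Fin z.rank) F := (1 : Matrix _ _ F).submatrix id (Fin.castLE h)
  have hE : E * E' = 1 := by
    rw [← Matrix.submatrix_mul _ _ _ _ _ Function.bijective_id, Matrix.mul_one,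
      Matrix.submatrix_one _ (Fin.castLE_injective h)]
  refine ⟨P * E * R, S * E' * Q, ?_⟩
  calc z = P * (E * (R * x * S) * E') * Q := by rw [k, Matrix.mul_one, hE, Matrix.mul_one, h1]
    _ = _ := by simp only [Matrix.mul_assoc]

/-- split the identity into `k` diagonal idempotents of rank at most `rank x` -/
lemma lin_one_eq_sum [DecidableEq n] {x : Matrix n n F} {k : ℕ}
    (h : Fintype.card n ≤ k * x.rank) : ∃ p q : Fin k → Matrix n n F, ∑ s, p s * x * q s = 1 := by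
  classical
  obtain ⟨-, -, R, S, -, h1⟩ := lin1_fac x
  obtain ⟨f⟩ : Nonempty (n ↪ Fin k × Fin x.rank) :=
    Function.Embedding.nonempty_of_card_le (by simpa using h)
  let E : Fin k → Matrix n (Fin x.rank) F := fun s =>
    Matrix.of fun i t => if f i = (s, t) then 1 else 0
  refine ⟨fun s => E s * R, fun s => S * (E s).transpose, ?_⟩
  have h2 : ∀ s, E s * R * x * (S * (E s).transpose) = E s * (E s).transpose := fun s => by
    calc _ = E s * (R * x * S) * (E s).transpose := by simp only [Matrix.mul_assoc]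
      _ = _ := by rw [h1, Matrix.mul_one]
  simp only [h2]
  ext i j
  simp only [Matrix.sum_apply, Matrix.mul_apply, Matrix.transpose_apply, E, Matrix.of_apply]
  rw [← Fintype.sum_prod_type (f := fun p : Fin k × Fin x.rank =>
    (if f i = (p.1, p.2) then (1 : F) else 0) * if f j = (p.1, p.2) then 1 else 0)]
  simp [Matrix.one_apply, eq_comm]

end Pool.Agent.Lib.MP_57313b_al.Zf
end

-- part Pool.Agent.Lib.MP_57313b_al.Zf.Nr
section

/-!
# Normalized rank of block matrices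
-/

set_option autoImplicit false

namespace Pool.Agent.Lib.MP_57313b_al.Zf

open Filter Topology

set_option linter.unusedSectionVars false

noncomputable section

/-- matrices of level `n` -/
abbrev Mat (n : ℕ) : Type := Matrix (Ix n) (Ix n) F

/-- normalized rank of a block matrix -/
def nr {a b : Type} [Fintype a] [Fintype b] (n : ℕ) (M : Matrix a b (Mat n)) : ℝ :=
  (Matrix.comp a b (Ix n) (Ix n) F M).rank / 2 ^ n

/-- normalized rank of one matrix -/
def nr1 (n : ℕ) (x : Mat n) : ℝ := x.rank / 2 ^ n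

section nr
variable {a b c d : Type} [Fintype a] [Fintype b] [Fintype c] [Fintype d] {n : ℕ}

lemma card_ix (n : ℕ) : Fintype.card (Ix n) = 2 ^ n := by
  simp

lemma nr_aux_mul (M : Matrix a b (Mat n)) (M' : Matrix b c (Mat n)) :
    Matrix.comp a c (Ix n) (Ix n) F (M * M') =
      Matrix.comp a b (Ix n) (Ix n) F M * Matrix.comp b c (Ix n) (Ix n) F M' := by
  ext i j
  simp only [Matrix.comp_apply, Matrix.mul_apply, Matrix.sum_apply, Fintype.sum_prod_type]

lemma nr_aux_div {x y : ℕ} (h : x ≤ y) : (x : ℝ) / 2 ^ n ≤ (y : ℝ) / 2 ^ n :=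
  div_le_div_of_nonneg_right (by exact_mod_cast h) (by positivity)

lemma nr_nonneg (M : Matrix a b (Mat n)) : 0 ≤ nr n M := by
  unfold nr; positivity

lemma nr_le_card (M : Matrix a b (Mat n)) : nr n M ≤ Fintype.card b := by
  unfold nr
  rw [div_le_iff₀ (by positivity)]
  have := Matrix.rank_le_card_width (Matrix.comp a b (Ix n) (Ix n) F M)
  rw [Fintype.card_prod, card_ix] at this
  exact_mod_cast this

lemma nr_unit (x : Mat n) : nr n (Matrix.of fun (_ _ : Unit) => x) = nr1 n x := by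
  unfold nr nr1
  have : Matrix.comp Unit Unit (Ix n) (Ix n) F (Matrix.of fun (_ _ : Unit) => x) =
      x.submatrix (Equiv.punitProd (Ix n)) (Equiv.punitProd (Ix n)) := rfl
  rw [this, Matrix.rank_submatrix]

lemma nr_add_le (M M' : Matrix a b (Mat n)) : nr n (M + M') ≤ nr n M + nr n M' := by
  unfold nr
  rw [← add_div, ← Nat.cast_add]
  exact nr_aux_div (lin_rank_add_le (Matrix.comp a b (Ix n) (Ix n) F M)
    (Matrix.comp a b (Ix n) (Ix n) F M'))

lemma nr_le_sum (M : Matrix a b (Mat n)) : nr n M ≤ ∑ i, ∑ j, nr1 n (M i j) := by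
  unfold nr nr1
  simp only [← Finset.sum_div]
  have := nr_aux_div (n := n) (lin_rank_comp_le M)
  push_cast at this
  exact this

lemma nr1_le_nr (M : Matrix a b (Mat n)) (i : a) (j : b) : nr1 n (M i j) ≤ nr n M := by
  exact nr_aux_div (lin_rank_le_comp M i j)

lemma nr_mul_left (M : Matrix a b (Mat n)) (M' : Matrix b c (Mat n)) :
    nr n (M * M') ≤ nr n M := by
  unfold nr
  rw [nr_aux_mul]
  exact nr_aux_div (Matrix.rank_mul_le_left _ _)

lemma nr_mul_right (M : Matrix a b (Mat n)) (M' : Matrix b c (Mat n)) :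
    nr n (M * M') ≤ nr n M' := by
  unfold nr
  rw [nr_aux_mul]
  exact nr_aux_div (Matrix.rank_mul_le_right _ _)

lemma nr_block (M : Matrix a b (Mat n)) (M' : Matrix c d (Mat n)) :
    nr n (Matrix.fromBlocks M 0 0 M') = nr n M + nr n M' := by
  unfold nr
  have : Matrix.comp (a ⊕ c) (b ⊕ d) (Ix n) (Ix n) F (Matrix.fromBlocks M 0 0 M') =
      (Matrix.fromBlocks (Matrix.comp a b (Ix n) (Ix n) F M) 0 0
        (Matrix.comp c d (Ix n) (Ix n) F M')).submatrix (Equiv.sumProdDistrib a c (Ix n))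
        (Equiv.sumProdDistrib b d (Ix n)) := by
    ext ⟨i | i, k⟩ ⟨j | j, l⟩ <;> rfl
  rw [this, Matrix.rank_submatrix, lin_rank_fromBlocks, Nat.cast_add, add_div]

lemma nr_ginv (M : Matrix a b (Mat n)) : ∃ M' : Matrix b a (Mat n), M * M' * M = M := by
  obtain ⟨B, hB⟩ := lin_ginv (Matrix.comp a b (Ix n) (Ix n) F M)
  refine ⟨(Matrix.comp b a (Ix n) (Ix n) F).symm B, ?_⟩
  apply (Matrix.comp a b (Ix n) (Ix n) F).injective
  rw [nr_aux_mul, nr_aux_mul, Equiv.apply_symm_apply, hB]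

lemma nr_submatrix {a' b' : Type} [Fintype a'] [Fintype b'] (M : Matrix a b (Mat n)) (e : a' ≃ a)
    (e' : b' ≃ b) : nr n (M.submatrix e e') = nr n M := by
  unfold nr
  have : Matrix.comp a' b' (Ix n) (Ix n) F (M.submatrix e e') =
      (Matrix.comp a b (Ix n) (Ix n) F M).submatrix (e.prodCongr (Equiv.refl (Ix n)))
        (e'.prodCongr (Equiv.refl (Ix n))) := rfl
  rw [this, Matrix.rank_submatrix]

lemma nr1_add_le (x y : Mat n) : nr1 n (x + y) ≤ nr1 n x + nr1 n y := by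
  unfold nr1
  rw [← add_div, ← Nat.cast_add]
  exact nr_aux_div (lin_rank_add_le x y)

lemma nr1_neg (x : Mat n) : nr1 n (-x) = nr1 n x := by
  unfold nr1
  rw [lin_rank_neg]

lemma nr1_mul_left (x y : Mat n) : nr1 n (x * y) ≤ nr1 n x := by
  exact nr_aux_div (Matrix.rank_mul_le_left _ _)

lemma nr1_mul_right (x y : Mat n) : nr1 n (x * y) ≤ nr1 n y := by
  exact nr_aux_div (Matrix.rank_mul_le_right _ _)

lemma nr1_nonneg (x : Mat n) : 0 ≤ nr1 n x := by
  unfold nr1; positivity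

lemma nr1_one (n : ℕ) : nr1 n 1 = 1 := by
  unfold nr1
  rw [Matrix.rank_one, card_ix]
  push_cast
  exact div_self (by positivity)

end nr

end

end Pool.Agent.Lib.MP_57313b_al.Zf
end

-- part Pool.Agent.Lib.MP_57313b_al.Zf.Ultra1
section

/-!
# The rank ultraproduct of matrix algebras
-/

set_option autoImplicit false

namespace Pool.Agent.Lib.MP_57313b_al.Zf

open Filter Topology

set_option linter.unusedSectionVars false

noncomputable section

variable {J : Type} (lv : J → ℕ) (𝒰 : Ultrafilter J)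

/-- the product ring -/
abbrev Pr : Type := ∀ i : J, Mat (lv i)

lemma ultra1_zero (n : ℕ) : nr1 n 0 = 0 := by simp [nr1]

/-- the ideal of null sequences -/
def nul : Ideal (Pr lv) where
  carrier := {x | Tendsto (fun i => nr1 (lv i) (x i)) 𝒰 (𝓝 0)}
  add_mem' := by
    intro x y hx hy
    have h := Tendsto.add hx hy
    rw [add_zero] at h
    exact squeeze_zero (fun i => nr1_nonneg _) (fun i => nr1_add_le _ _) h
  zero_mem' := by
    change Tendsto (fun i => nr1 (lv i) 0) 𝒰 (𝓝 0)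
    simp only [ultra1_zero]
    exact tendsto_const_nhds
  smul_mem' := by
    intro c x hx
    exact squeeze_zero (fun i => nr1_nonneg _) (fun i => nr1_mul_right _ _) hx

instance : (nul lv 𝒰).IsTwoSided :=
  ⟨fun {x} y hx => squeeze_zero (f := fun i => nr1 (lv i) ((x * y) i)) (fun _ => nr1_nonneg _)
    (fun i => nr1_mul_left (x i) (y i)) hx⟩

/-- the rank ultraproduct -/
def Ul : Type := Pr lv ⧸ nul lv 𝒰

instance : Ring (Ul lv 𝒰) := inferInstanceAs (Ring (Pr lv ⧸ nul lv 𝒰))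

instance : Algebra F (Ul lv 𝒰) := inferInstanceAs (Algebra F (Pr lv ⧸ nul lv 𝒰))

/-- the quotient map -/
def mk : Pr lv →ₐ[F] Ul lv 𝒰 := Ideal.Quotient.mkₐ F (nul lv 𝒰)

lemma mk_surj : Function.Surjective (mk lv 𝒰) := Ideal.Quotient.mkₐ_surjective F _

lemma mk_eq_zero {x : Pr lv} :
    mk lv 𝒰 x = 0 ↔ Tendsto (fun i => nr1 (lv i) (x i)) 𝒰 (𝓝 0) :=
  Ideal.Quotient.eq_zero_iff_mem

lemma mk_eq_of_eventually {x y : Pr lv} (h : ∀ᶠ i in (𝒰 : Filter J), x i = y i) :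
    mk lv 𝒰 x = mk lv 𝒰 y := by
  rw [← sub_eq_zero, ← map_sub, mk_eq_zero]
  refine tendsto_const_nhds.congr' (h.mono fun i hi => ?_)
  simp only [Pi.sub_apply, hi, sub_self, ultra1_zero]

/-- a chosen representative -/
def rep (x : Ul lv 𝒰) : Pr lv := (mk_surj lv 𝒰 x).choose

lemma mk_rep (x : Ul lv 𝒰) : mk lv 𝒰 (rep lv 𝒰 x) = x := (mk_surj lv 𝒰 x).choose_spec

/-- the matrix rank function of the ultraproduct -/
def umr {a b : Type} [Fintype a] [Fintype b] (M : Matrix a b (Ul lv 𝒰)) : ℝ :=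
  limUnder (𝒰 : Filter J) fun i => nr (lv i) (M.map fun x => rep lv 𝒰 x i)

/-- bounded families converge along an ultrafilter -/
lemma ultra_tendsto {f : J → ℝ} {C : ℝ} (h : ∀ i, 0 ≤ f i ∧ f i ≤ C) :
    Tendsto f 𝒰 (𝓝 (limUnder (𝒰 : Filter J) f)) := by
  obtain ⟨x, -, hx⟩ := (isCompact_Icc (a := (0 : ℝ)) (b := C)).ultrafilter_le_nhds (𝒰.map f)
    (le_principal_iff.mpr (mem_map.mpr (Eventually.of_forall fun i => h i)))
  exact tendsto_nhds_limUnder ⟨x, hx⟩

lemma ultra1_close {a b : Type} [Fintype a] [Fintype b] {n : ℕ} (M N : Matrix a b (Mat n)) :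
    |nr n M - nr n N| ≤ ∑ i, ∑ j, nr1 n (M i j - N i j) := by
  have h1 := nr_add_le N (M - N)
  have h2 := nr_add_le M (N - M)
  have h3 := nr_le_sum (M - N)
  have h4 := nr_le_sum (N - M)
  rw [add_sub_cancel] at h1 h2
  have h5 : ∑ i, ∑ j, nr1 n ((N - M) i j) = ∑ i, ∑ j, nr1 n ((M - N) i j) := by
    refine Finset.sum_congr rfl fun i _ => Finset.sum_congr rfl fun j _ => ?_
    rw [← nr1_neg, Matrix.sub_apply, Matrix.sub_apply, neg_sub]
  simp only [Matrix.sub_apply] at h3 h4 h5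
  rw [abs_le]
  constructor <;> linarith

/-- any representatives compute the rank (`nr_add_le`, `nr_le_sum`) -/
lemma umr_tendsto {a b : Type} [Fintype a] [Fintype b] (M : Matrix a b (Pr lv)) :
    Tendsto (fun i => nr (lv i) (M.map fun x => x i)) 𝒰 (𝓝 (umr lv 𝒰 (M.map (mk lv 𝒰)))) := by
  have h1 : Tendsto (fun i => nr (lv i) ((M.map (mk lv 𝒰)).map fun x => rep lv 𝒰 x i)) 𝒰
      (𝓝 (umr lv 𝒰 (M.map (mk lv 𝒰)))) :=
    ultra_tendsto 𝒰 (C := Fintype.card b) fun i => ⟨nr_nonneg _, nr_le_card _⟩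
  have h2 : Tendsto (fun i => ∑ p, ∑ q,
      nr1 (lv i) (M p q i - rep lv 𝒰 (mk lv 𝒰 (M p q)) i)) 𝒰 (𝓝 0) := by
    have : (0 : ℝ) = ∑ _p : a, ∑ _q : b, 0 := by simp
    rw [this]
    refine tendsto_finsetSum _ fun p _ => tendsto_finsetSum _ fun q _ => ?_
    exact (mk_eq_zero lv 𝒰 (x := M p q - rep lv 𝒰 (mk lv 𝒰 (M p q)))).mp
      (by rw [map_sub, mk_rep, sub_self])
  have h3 : Tendsto (fun i => nr (lv i) (M.map fun x => x i) -
      nr (lv i) ((M.map (mk lv 𝒰)).map fun x => rep lv 𝒰 x i)) 𝒰 (𝓝 0) :=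
    squeeze_zero_norm (fun i => ultra1_close _ _) h2
  simpa using h3.add h1

lemma ultra1_lift {a b : Type} (A : Matrix a b (Ul lv 𝒰)) :
    ∃ M : Matrix a b (Pr lv), M.map (mk lv 𝒰) = A :=
  ⟨A.map (rep lv 𝒰), by ext i j; exact mk_rep lv 𝒰 _⟩

lemma ultra1_mul {a b c : Type} [Fintype b] (M : Matrix a b (Pr lv)) (N : Matrix b c (Pr lv)) :
    M.map (mk lv 𝒰) * N.map (mk lv 𝒰) = (M * N).map (mk lv 𝒰) :=
  (Matrix.map_mul (f := (mk lv 𝒰).toRingHom)).symm

lemma ultra1_mul_ev {a b c : Type} [Fintype b] (M : Matrix a b (Pr lv))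
    (N : Matrix b c (Pr lv)) (i : J) :
    ((M * N).map fun x => x i) = (M.map fun x => x i) * N.map fun x => x i :=
  Matrix.map_mul (f := Pi.evalRingHom (fun i : J => Mat (lv i)) i)

instance : RK (Ul lv 𝒰) where
  mr := umr lv 𝒰
  mr_nonneg := by
    intro a b _ _ A
    obtain ⟨M, rfl⟩ := ultra1_lift lv 𝒰 A
    exact ge_of_tendsto' (umr_tendsto lv 𝒰 M) fun i => nr_nonneg _
  mr_mul_left := by
    intro a b c _ _ _ A B
    obtain ⟨M, rfl⟩ := ultra1_lift lv 𝒰 A
    obtain ⟨N, rfl⟩ := ultra1_lift lv 𝒰 B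
    rw [ultra1_mul]
    refine le_of_tendsto_of_tendsto' (umr_tendsto lv 𝒰 (M * N)) (umr_tendsto lv 𝒰 M) fun i => ?_
    rw [ultra1_mul_ev]
    exact nr_mul_left _ _
  mr_mul_right := by
    intro a b c _ _ _ A B
    obtain ⟨M, rfl⟩ := ultra1_lift lv 𝒰 A
    obtain ⟨N, rfl⟩ := ultra1_lift lv 𝒰 B
    rw [ultra1_mul]
    refine le_of_tendsto_of_tendsto' (umr_tendsto lv 𝒰 (M * N)) (umr_tendsto lv 𝒰 N) fun i => ?_
    rw [ultra1_mul_ev]
    exact nr_mul_right _ _
  mr_block := by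
    intro a b c d _ _ _ _ A B
    obtain ⟨M, rfl⟩ := ultra1_lift lv 𝒰 A
    obtain ⟨N, rfl⟩ := ultra1_lift lv 𝒰 B
    have e : Matrix.fromBlocks (M.map (mk lv 𝒰)) 0 0 (N.map (mk lv 𝒰)) =
        (Matrix.fromBlocks M 0 0 N).map (mk lv 𝒰) := by
      ext (i | i) (j | j) <;> simp
    rw [e]
    refine tendsto_nhds_unique (umr_tendsto lv 𝒰 (Matrix.fromBlocks M 0 0 N))
      (((umr_tendsto lv 𝒰 M).add (umr_tendsto lv 𝒰 N)).congr fun i => ?_)
    rw [← nr_block]
    congr 1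
    ext1 p q
    rcases p with p | p <;> rcases q with q | q <;> rfl
  mr_one := by
    have e : (Matrix.of fun (_ _ : Unit) => (1 : Ul lv 𝒰)) =
        (Matrix.of fun (_ _ : Unit) => (1 : Pr lv)).map (mk lv 𝒰) := by
      ext i j; simp
    rw [e]
    refine tendsto_nhds_unique (umr_tendsto lv 𝒰 _) (tendsto_const_nhds.congr fun i => ?_)
    exact ((nr_unit (1 : Mat (lv i))).trans (nr1_one _)).symm
  mr_eq_zero := by
    intro a b _ _ A h
    obtain ⟨M, rfl⟩ := ultra1_lift lv 𝒰 A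
    have h1 := umr_tendsto lv 𝒰 M
    rw [h] at h1
    ext p q
    exact (mk_eq_zero lv 𝒰).mpr (squeeze_zero (fun i => nr1_nonneg _)
      (fun i => nr1_le_nr (M.map fun x => x i) p q) h1)
  ginv := by
    intro a b _ _ A
    obtain ⟨M, rfl⟩ := ultra1_lift lv 𝒰 A
    choose N hN using fun i => nr_ginv (M.map fun x => x i)
    refine ⟨(Matrix.of fun q p i => N i q p).map (mk lv 𝒰), ?_⟩
    rw [ultra1_mul, ultra1_mul]
    congr 1
    ext1 p q
    funext i
    have h1 := ultra1_mul_ev lv (M * Matrix.of fun q p i => N i q p) M i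
    rw [ultra1_mul_ev lv M (Matrix.of fun q p i => N i q p) i] at h1
    exact congrFun (congrFun (h1.trans (hN i)) p) q

lemma mr_tendsto {a b : Type} [Fintype a] [Fintype b] (M : Matrix a b (Pr lv)) :
    Tendsto (fun i => nr (lv i) (M.map fun x => x i)) 𝒰 (𝓝 (mr (M.map (mk lv 𝒰)))) :=
  umr_tendsto lv 𝒰 M

lemma r1_tendsto (x : Pr lv) :
    Tendsto (fun i => nr1 (lv i) (x i)) 𝒰 (𝓝 (r1 (mk lv 𝒰 x))) :=
  (mr_tendsto lv 𝒰 (Matrix.of fun (_ _ : Unit) => x)).congr fun i => nr_unit (x i)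

end

end Pool.Agent.Lib.MP_57313b_al.Zf
end
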