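import Pool.Agent.Lib.MP_57313b_al.Zf.Df2
import Pool.Agent.Lib.MP_57313b_al.Zf.Ultra1

-- part Pool.Agent.Lib.MP_57313b_al.Zf.Ex1
section

/-!
# Directions and points
-/

set_option autoImplicit false

namespace Pool.Agent.Lib.MP_57313b_al.Zf

open Filter Topology

set_option linter.unusedSectionVars false

variable {Ω : Type} [Ring Ω] [Algebra F Ω] {G G' : Set (En Ω)}

section dir
variable {𝒰 𝒰' 𝒱 𝒱' : Set (Sub Ω)} {ρ : Type}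

lemma ex1_pw_mono {U U' : Sub Ω} (h : U ≤ U') : pw ρ U ≤ pw ρ U' :=
  fun _ hv => mem_pw.2 fun i => h (mem_pw.1 hv i)

lemma HasDir.mono {Z Z' : Submodule Ω (ρ → Ω)} (h : HasDir 𝒰 Z) (hZ : Z ≤ Z') : HasDir 𝒰 Z' := by
  obtain ⟨l, hl, U, hU, h⟩ := h
  exact ⟨l, hl, U, hU, fun u hu => hZ (h u hu)⟩

lemma HasDir.cof {Z : Submodule Ω (ρ → Ω)} (h : HasDir 𝒰 Z) (h' : Cof 𝒰' 𝒰) : HasDir 𝒰' Z := by
  obtain ⟨l, hl, U, hU, h⟩ := h
  obtain ⟨V, hV, hVU⟩ := h' U hU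
  exact ⟨l, hl, V, hV, fun u hu => h u (hVU hu)⟩

/-- the directions of `Z` form a subspace `Λ`, and one member `U` works for all of them (take a
finite spanning family of `Λ`) -/
lemma exists_dirs [Fintype ρ] (hd : Dct 𝒰) (Z : Submodule Ω (ρ → Ω)) :
    ∃ Λ : Submodule F (ρ → F), (∀ l, l ∈ Λ ↔ ∃ U ∈ 𝒰, ∀ u ∈ U, dir l u ∈ Z) ∧
      ∃ U ∈ 𝒰, ten U Λ ≤ Z := by
  let Λ : Submodule F (ρ → F) :=
    { carrier := {l | ∃ U ∈ 𝒰, ∀ u ∈ U, dir l u ∈ Z}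
      add_mem' := by
        rintro l l' ⟨U, hU, h⟩ ⟨U', hU', h'⟩
        obtain ⟨V, hV, hle⟩ := hd.2 U hU U' hU'
        exact ⟨V, hV, fun u hu => by
          rw [dir_add]; exact Z.add_mem (h u (hle hu).1) (h' u (hle hu).2)⟩
      zero_mem' := let ⟨U, hU⟩ := hd.1; ⟨U, hU, fun u _ => by rw [dir_zero]; exact Z.zero_mem⟩
      smul_mem' := by
        rintro c l ⟨U, hU, h⟩
        exact ⟨U, hU, fun u hu => by rw [dir_smul]; exact h _ (smul_mem_sub c hu)⟩ }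
  refine ⟨Λ, fun _ => Iff.rfl, ?_⟩
  obtain ⟨n, s, hs⟩ := Submodule.fg_iff_exists_fin_generating_family.1 (IsNoetherian.noetherian Λ)
  have h1 : ∀ i, s i ∈ Λ := fun i => hs ▸ Submodule.subset_span ⟨i, rfl⟩
  choose U hU h using h1
  obtain ⟨V, hV, hle⟩ := hd.fin hU
  refine ⟨V, hV, ten_le_iff.2 fun l hl => ?_⟩
  rw [← hs] at hl
  induction hl using Submodule.span_induction with
  | mem l hl => obtain ⟨i, rfl⟩ := hl; exact fun u hu => h i u (hle i hu)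
  | zero => exact fun u _ => by rw [dir_zero]; exact Z.zero_mem
  | add l l' _ _ a b => exact fun u hu => by rw [dir_add]; exact Z.add_mem (a u hu) (b u hu)
  | smul c l _ a => exact fun u hu => by rw [dir_smul]; exact a _ (smul_mem_sub c hu)

lemma Ex.mono (h : Ex G' 𝒰) (hG : G ⊆ G') : Ex G 𝒰 := by
  exact fun ρ _ Z hZ => h ρ Z (hZ.mono hG)

/-- a finer family is again a point -/
lemma Ex.cof (h : Ex G 𝒰) (h' : Cof 𝒰' 𝒰) : Ex G 𝒰' := by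
  intro ρ _ Z hZ hn
  obtain ⟨U, hU, e⟩ := h ρ Z hZ fun hd => hn (hd.cof h')
  obtain ⟨V, hV, hle⟩ := h' U hU
  exact ⟨V, hV, eq_bot_iff.2 (e ▸ inf_le_inf_left _ (ex1_pw_mono hle))⟩

/-- it is enough to check `ρ = Fin r` (reindex with `LinearMap.funLeft`) -/
lemma Ex.of_fin (h : ∀ (r : ℕ) (Z : Submodule Ω (Fin r → Ω)), Df G Z → ¬ HasDir 𝒰 Z →
    ∃ U ∈ 𝒰, Z ⊓ pw (Fin r) U = ⊥) : Ex G 𝒰 := by
  intro ρ _ Z hZ hn
  let e := Fintype.equivFin ρ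
  obtain ⟨U, hU, h⟩ := h _ (Z.comap (LinearMap.funLeft Ω Ω e)) (hZ.comap_sc _) (by
    rintro ⟨l, hl, U, hU, h⟩
    exact hn ⟨l ∘ e, fun h0 => hl (funext fun i => by simpa using congrFun h0 (e.symm i)), U, hU, h⟩)
  refine ⟨U, hU, eq_bot_iff.2 fun v hv => funext fun i => ?_⟩
  have h1 : LinearMap.funLeft Ω Ω e (v ∘ e.symm) = v := funext fun j => by
    simp [LinearMap.funLeft_apply]
  have h2 : v ∘ e.symm ∈ (⊥ : Submodule Ω _) :=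
    h ▸ ⟨by rw [SetLike.mem_coe, Submodule.mem_comap, h1]; exact hv.1,
      mem_pw.2 fun j => mem_pw.1 hv.2 _⟩
  simpa using congrFun ((Submodule.mem_bot Ω).1 h2) (e i)

/-- finite character -/
lemma Ex.of_supp {ι : Type} {w : ℕ → En Ω} {c : ι → En Ω} {X : Set ι}
    (h : ∀ s ⊆ X, s.Finite → Ex (GS w c s) 𝒰) : Ex (GS w c X) 𝒰 := by
  intro ρ _ Z hZ
  obtain ⟨s, hs, hf, hZ⟩ := hZ.supp_gs
  exact h s hs hf ρ Z hZ

/-- the case `ρ = Unit` -/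
lemma Ex.one (h : Ex G 𝒰) {K : Sub Ω} (hK : Df G K) :
    (∃ U ∈ 𝒰, U ≤ K) ∨ ∃ U ∈ 𝒰, U ⊓ K = ⊥ := by
  by_cases hd : HasDir 𝒰 (K.comap (LinearMap.proj () : (Unit → Ω) →ₗ[Ω] Ω))
  · obtain ⟨l, hl, U, hU, h⟩ := hd
    have h0 : l () ≠ 0 := fun h0 => hl (funext fun _ => h0)
    refine Or.inl ⟨U, hU, fun u hu => ?_⟩
    have := smul_mem_sub (l ())⁻¹ (show l () • u ∈ K from h u hu)
    rwa [inv_smul_smul₀ h0] at this
  · obtain ⟨U, hU, e⟩ := h Unit _ (hK.comap_sc _) hd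
    refine Or.inr ⟨U, hU, eq_bot_iff.2 fun u hu => ?_⟩
    have h1 : (fun _ : Unit => u) ∈ (⊥ : Submodule Ω _) := e ▸ ⟨hu.2, mem_pw.2 fun _ => hu.1⟩
    exact congrFun ((Submodule.mem_bot Ω).1 h1) ()

/-- Splitting.  Let `Λ'` be a complement of `Λ` and `M` the projection matrix onto `Λ` along `Λ'`.
`Z ⊓ ten ⊤ Λ'` has no direction; for `v ∈ Z ⊓ pw U` the vector `v - mat M v` lies in it. -/
lemma Ex.spl [Fintype ρ] (h : Ex G 𝒰) (hd : Dct 𝒰) {Z : Submodule Ω (ρ → Ω)} (hZ : Df G Z)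
    {Λ : Submodule F (ρ → F)} (hΛ : ∀ l, l ∈ Λ ↔ ∃ U ∈ 𝒰, ∀ u ∈ U, dir l u ∈ Z) :
    ∃ U ∈ 𝒰, Z ⊓ pw ρ U ≤ ten ⊤ Λ := by
  classical
  obtain ⟨Λ', hc⟩ := Λ.exists_isCompl
  by_cases hn : HasDir 𝒰 (Z ⊓ ten ⊤ Λ')
  · obtain ⟨l, hl, U, hU, h⟩ := hn
    obtain ⟨φ, h1, h2⟩ := exists_perp (Λ := Λ') (l := l) fun h' => hl
      ((Submodule.disjoint_def.1 hc.disjoint) l ((hΛ l).2 ⟨U, hU, fun u hu => (h u hu).1⟩) h')
    refine ⟨U, hU, fun v hv => ?_⟩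
    rw [show v = 0 from funext fun i => by
      have := (mem_ten.1 (h _ (mem_pw.1 hv.2 i)).2).2 φ h1
      rwa [dot_dir, h2, one_smul] at this]
    exact zero_mem _
  obtain ⟨U, hU, e⟩ := h ρ _ (hZ.inf (Df.top.ten Λ')) hn
  obtain ⟨Λ0, h0, U', hU', h1⟩ := exists_dirs hd Z
  obtain rfl : Λ0 = Λ := Submodule.ext fun l => (h0 l).trans (hΛ l).symm
  obtain ⟨V, hV, hle⟩ := hd.2 U hU U' hU'
  obtain ⟨M, m1, m2, m3⟩ := exists_proj_mat hc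
  have r1 : ∀ i, M.row i ∈ Λ0 := fun i => by simpa using m1 (Pi.single i 1)
  have r2 : ∀ i, (1 - M).row i ∈ Λ' := fun i => by
    obtain ⟨a, ha, b, hb, hab⟩ := Submodule.mem_sup.1
      (hc.sup_eq_top ▸ Submodule.mem_top : (Pi.single i 1 : ρ → F) ∈ Λ0 ⊔ Λ')
    have h2 : Matrix.vecMul (Pi.single i 1) (1 - M) = b := by
      rw [← hab, Matrix.vecMul_sub, Matrix.vecMul_one, Matrix.add_vecMul, m2 a ha, m3 b hb]
      simp
    rw [← h2] at hb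
    simpa using hb
  refine ⟨V, hV, fun v hv => ?_⟩
  have h2 : mat (1 - M) v ∈ (⊥ : Submodule Ω _) := e ▸
    ⟨⟨by
      rw [SetLike.mem_coe, mat_sub, mat_one]
      exact Z.sub_mem hv.1 (h1 (mat_mem_ten r1 (ex1_pw_mono (hle.trans inf_le_right) hv.2))),
      mat_mem_ten r2 (ex1_pw_mono le_top hv.2)⟩,
      mat_mem_pw _ (ex1_pw_mono (hle.trans inf_le_left) hv.2)⟩
  rw [Submodule.mem_bot, mat_sub, mat_one, sub_eq_zero] at h2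
  rw [h2]
  exact mat_mem_ten r1 (ex1_pw_mono le_top hv.2)

/-- the image of a member under a nonzero germ into a point contains a member of the point -/
lemma Ex.cof_img (h : Ex G 𝒰) (hb : Base G 𝒱) {f : En Ω} (hf : Dm G f) (hg : Germ f 𝒱 𝒰)
    (hn : NZ f 𝒱) : Cof 𝒰 (img f 𝒱) := by
  rintro _ ⟨V, hV, rfl⟩
  refine (h.one ((hb.2 V hV).map hf)).resolve_right ?_
  rintro ⟨U, hU, e⟩
  obtain ⟨V', hV', h1⟩ := hg U hU
  obtain ⟨W, hW, hle⟩ := hb.1.2 V hV V' hV'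
  refine hn W hW fun u hu => ?_
  have h2 : f u ∈ (⊥ : Sub Ω) := e ▸ ⟨h1 ⟨u, (hle hu).2, rfl⟩, u, (hle hu).1, rfl⟩
  exact h2

lemma Ex.img (h : Ex G 𝒰) {f : En Ω} (hg : Germ f 𝒱 𝒰) : Ex G (img f 𝒱) := by
  refine h.cof fun U hU => ?_
  obtain ⟨V, hV, h1⟩ := hg U hU
  exact ⟨_, ⟨V, hV, rfl⟩, h1⟩

/-- pull back along a map that is injective on a member `V`: consider
`(Z ⊓ pw V).map (ap f)` -/
lemma Ex.of_img {f : En Ω} (h : Ex G (Zf.img f 𝒱)) (hb : Base G 𝒱) (hf : Dm G f)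
    (hi : ∃ V ∈ 𝒱, V ⊓ LinearMap.ker f = ⊥) : Ex G 𝒱 := by
  intro ρ _ Z hZ hn
  obtain ⟨V0, hV0, e0⟩ := hi
  have inj : ∀ v ∈ pw ρ V0, ap f v = 0 → v = 0 := fun v hv h0 => funext fun i =>
    (Submodule.mem_bot Ω).1 (e0 ▸ ⟨mem_pw.1 hv i, congrFun h0 i⟩)
  obtain ⟨_, ⟨V, hV, rfl⟩, e⟩ := h ρ ((Z ⊓ pw ρ V0).map (ap f))
    ((hZ.inf (hb.2 V0 hV0).pw).map hf.ap) (by
      rintro ⟨l, hl, _, ⟨V, hV, rfl⟩, h⟩
      obtain ⟨W, hW, hle⟩ := hb.1.2 V hV V0 hV0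
      refine hn ⟨l, hl, W, hW, fun u hu => ?_⟩
      obtain ⟨z, hz, h1⟩ := h (f u) ⟨u, (hle hu).1, rfl⟩
      rw [← sub_eq_zero.1 (inj (z - dir l u) (sub_mem hz.2 (dir_mem_pw l (hle hu).2))
        (by rw [map_sub, h1, ap_dir, sub_self]))]
      exact hz.1)
  obtain ⟨W, hW, hle⟩ := hb.1.2 V hV V0 hV0
  refine ⟨W, hW, eq_bot_iff.2 fun v hv => ?_⟩
  have h1 := ex1_pw_mono (hle.trans inf_le_right) hv.2
  exact inj v h1 ((Submodule.mem_bot Ω).1 (e ▸ ⟨⟨v, ⟨hv.1, h1⟩, rfl⟩,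
    mem_pw.2 fun i => ⟨v i, (hle (mem_pw.1 hv.2 i)).1, rfl⟩⟩))

lemma NS.not_ng (h : NS G 𝒱) (he : Ex G 𝒰) : ¬ NG G 𝒱 𝒰 := by
  rintro ⟨f, hf, hg, hn⟩
  exact h f hf hn (he.img hg)

lemma NS.img (h : NS G 𝒱) {y : En Ω} (hy : Dm G y) : NS G (img y 𝒱) := by
  intro f hf hn
  rw [← img_comp]
  refine h _ (hf.comp hy) fun V hV hle => hn _ ⟨V, hV, rfl⟩ ?_
  rintro _ ⟨u, hu, rfl⟩
  exact hle hu

lemma NS.not_ex (h : NS G 𝒱) (hp : ⊥ ∉ 𝒱) : ¬ Ex G 𝒱 := by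
  exact fun he => h LinearMap.id (Dm.sc _)
    (fun V hV hle => hp ((eq_bot_iff.2 fun u hu => hle hu : V = ⊥) ▸ hV))
    (he.img fun V hV => ⟨V, hV, (Submodule.map_id V).le⟩)

end dir

end Pool.Agent.Lib.MP_57313b_al.Zf
end

-- part Pool.Agent.Lib.MP_57313b_al.Zf.Cm
section

/-!
# Definable complements and extensions
-/

set_option autoImplicit false

namespace Pool.Agent.Lib.MP_57313b_al.Zf

open Filter Topology

set_option linter.unusedSectionVars false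

variable {Ω : Type} [Ring Ω] [Algebra F Ω]
variable {E E' : Type} [AddCommGroup E] [Module Ω E] [Amb Ω E] [AddCommGroup E']
  [Module Ω E'] [Amb Ω E']
variable {G G' : Set (En Ω)}

lemma cm_transfer (f : E →ₗ[Ω] E') (g : E' →ₗ[Ω] E) [Sc f] [Sc g] (hgf : ∀ v, g (f v) = v)
    (hfg : ∀ v, f (g v) = v)
    (H : ∀ K : Submodule Ω E', Df G K → ∃ C : Submodule Ω E', Df G C ∧ IsCompl K C)
    (K : Submodule Ω E) (h : Df G K) : ∃ C : Submodule Ω E, Df G C ∧ IsCompl K C := by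
  obtain ⟨C, hC, hc⟩ := H (K.comap g) (h.comap_sc g)
  refine ⟨C.comap f, hC.comap_sc f, ?_, ?_⟩
  · rw [Submodule.disjoint_def]
    intro v hv hv'
    have h1 : f v ∈ K.comap g := by
      rw [Submodule.mem_comap, hgf]; exact hv
    have h2 : f v = 0 := Submodule.disjoint_def.1 hc.disjoint _ h1 hv'
    rw [← hgf v, h2, map_zero]
  · rw [codisjoint_iff, eq_top_iff]
    intro v _
    have h1 : f v ∈ K.comap g ⊔ C := by
      rw [codisjoint_iff.1 hc.codisjoint]; trivial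
    obtain ⟨a, ha, c, hc', hac⟩ := Submodule.mem_sup.1 h1
    refine Submodule.mem_sup.2 ⟨g a, ha, g c, ?_, ?_⟩
    · rw [Submodule.mem_comap, hfg]; exact hc'
    · rw [← map_add, hac, hgf]

lemma cm_prod
    (H : ∀ K : Submodule Ω E, Df G K → ∃ C : Submodule Ω E, Df G C ∧ IsCompl K C)
    (H' : ∀ K : Submodule Ω E', Df G K → ∃ C : Submodule Ω E', Df G C ∧ IsCompl K C)
    (K : Submodule Ω (E × E')) (h : Df G K) :
    ∃ C : Submodule Ω (E × E'), Df G C ∧ IsCompl K C := by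
  obtain ⟨C, hC, hc⟩ := H (lf K) h.lf
  obtain ⟨C', hC', hc'⟩ := H' (K.map (LinearMap.snd Ω E E')) (h.map_sc _)
  refine ⟨C.prod C', hC.prod hC', ?_, ?_⟩
  · rw [Submodule.disjoint_def]
    rintro ⟨u, x⟩ hv ⟨hu, hx⟩
    have h1 : x = 0 := Submodule.disjoint_def.1 hc'.disjoint x ⟨(u, x), hv, rfl⟩ hx
    subst h1
    have h2 : u = 0 := Submodule.disjoint_def.1 hc.disjoint u (mem_lf.2 hv) hu
    subst h2
    rfl
  · rw [codisjoint_iff, eq_top_iff]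
    rintro ⟨u, x⟩ _
    have h1 : x ∈ K.map (LinearMap.snd Ω E E') ⊔ C' := by
      rw [codisjoint_iff.1 hc'.codisjoint]; trivial
    obtain ⟨x₁, ⟨⟨u₁, x₁'⟩, hk, rfl⟩, x₂, hx₂, hx⟩ := Submodule.mem_sup.1 h1
    have h2 : u - u₁ ∈ lf K ⊔ C := by
      rw [codisjoint_iff.1 hc.codisjoint]; trivial
    obtain ⟨a, ha, c, hcc, hac⟩ := Submodule.mem_sup.1 h2
    refine Submodule.mem_sup.2 ⟨(u₁, x₁') + (a, 0), K.add_mem hk (mem_lf.1 ha), (c, x₂),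
      ⟨hcc, hx₂⟩, ?_⟩
    refine Prod.ext ?_ ?_
    · change u₁ + a + c = u
      rw [add_assoc, hac]; abel
    · change x₁' + 0 + x₂ = x
      rw [add_zero]; exact hx

lemma cm_fin (hG : CM G) (n : ℕ) :
    ∀ K : Submodule Ω (Fin n → Ω), Df G K →
      ∃ C : Submodule Ω (Fin n → Ω), Df G C ∧ IsCompl K C := by
  induction n with
  | zero =>
    intro K _
    refine ⟨⊥, Df.bot, disjoint_bot_right, ?_⟩
    rw [codisjoint_iff, eq_top_iff]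
    intro v _
    rw [Subsingleton.elim v 0]
    exact Submodule.zero_mem _
  | succ n ih =>
    let c : Fin (n + 1) → ((Fin n → Ω) × Ω →ₗ[Ω] Ω) :=
      Fin.cases (LinearMap.snd Ω (Fin n → Ω) Ω)
        fun j => (LinearMap.proj j : (Fin n → Ω) →ₗ[Ω] Ω) ∘ₗ LinearMap.fst Ω (Fin n → Ω) Ω
    have : ∀ i, Sc (c i) := by
      intro i
      refine Fin.cases ?_ (fun j => ?_) i
      · exact Sc.snd
      · exact Sc.comp _ _
    refine cm_transfer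
      ((LinearMap.funLeft Ω Ω (Fin.succ : Fin n → Fin (n + 1))).prod
        (LinearMap.proj (0 : Fin (n + 1)) : (Fin (n + 1) → Ω) →ₗ[Ω] Ω))
      (LinearMap.pi c) ?_ ?_ (cm_prod ih hG)
    · intro v
      funext i
      refine Fin.cases ?_ (fun j => ?_) i
      · rfl
      · rfl
    · rintro ⟨u, x⟩
      rfl

/-- Complements in every ambient module.  Induction on the number of coordinates: for
`K ≤ E × Ω` take `C' × C''` with `C'` a complement of `lf K` and `C''` a complement of the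
projection of `K` to `Ω`. -/
lemma CM.compl (hG : CM G) {K : Submodule Ω E} (h : Df G K) :
    ∃ C : Submodule Ω E, Df G C ∧ IsCompl K C := by
  have H : ∀ K : Submodule Ω (Amb.I Ω E → Ω), Df G K →
      ∃ C : Submodule Ω (Amb.I Ω E → Ω), Df G C ∧ IsCompl K C := by
    let e := Finite.equivFin (Amb.I Ω E)
    refine cm_transfer (LinearMap.funLeft Ω Ω e.symm) (LinearMap.funLeft Ω Ω e) ?_ ?_
      (cm_fin hG _)
    · intro v
      funext i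
      simp [LinearMap.funLeft_apply]
    · intro v
      funext i
      simp [LinearMap.funLeft_apply]
  exact cm_transfer (Amb.e (Ω := Ω) (E := E)).toLinearMap
    (Amb.e (Ω := Ω) (E := E)).symm.toLinearMap (fun v => by simp) (fun v => by simp) H K h

/-- Extension of a single-valued definable relation to a definable map: add `C × 0` to `T`, where
`C` is a complement of the domain of `T`. -/
lemma CM.ext (hG : CM G) {T : Submodule Ω (E × E')} (h : Df G T)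
    (h0 : ∀ x, (0, x) ∈ T → x = 0) :
    ∃ f : E →ₗ[Ω] E', Dm G f ∧ ∀ v x, (v, x) ∈ T → f v = x := by
  obtain ⟨C, hC, hc⟩ := hG.compl (h.map_sc (LinearMap.fst Ω E E'))
  have hT : Df G (T ⊔ C.prod (⊥ : Submodule Ω E')) := h.sup (hC.prod Df.bot)
  have hb : Function.Bijective (Prod.fst ∘ (T ⊔ C.prod (⊥ : Submodule Ω E')).subtype) := by
    constructor
    · have key : ∀ x, ((0 : E), x) ∈ T ⊔ C.prod (⊥ : Submodule Ω E') → x = 0 := by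
        intro x hx
        obtain ⟨⟨a, y⟩, ha, ⟨c, z⟩, ⟨hcc, hz⟩, hac⟩ := Submodule.mem_sup.1 hx
        have hz0 : z = 0 := hz
        have h1 : a + c = 0 := congrArg Prod.fst hac
        have h2 : y + z = x := congrArg Prod.snd hac
        have h3 : a ∈ C := by
          rw [eq_neg_of_add_eq_zero_left h1]; exact C.neg_mem hcc
        have h4 : a = 0 := Submodule.disjoint_def.1 hc.disjoint a ⟨(a, y), ha, rfl⟩ h3
        subst h4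
        rw [← h2, h0 y ha, hz0, add_zero]
      rintro ⟨⟨u, x⟩, hx⟩ ⟨⟨u', x'⟩, hx'⟩ he
      have h1 : u = u' := he
      subst h1
      have h2 := (T ⊔ C.prod (⊥ : Submodule Ω E')).sub_mem hx hx'
      rw [Prod.mk_sub_mk, sub_self] at h2
      have h3 := sub_eq_zero.1 (key _ h2)
      subst h3
      rfl
    · intro v
      have h1 : v ∈ T.map (LinearMap.fst Ω E E') ⊔ C := by
        rw [codisjoint_iff.1 hc.codisjoint]; trivial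
      obtain ⟨a, ⟨⟨a', y⟩, ha, rfl⟩, c, hcc, hac⟩ := Submodule.mem_sup.1 h1
      exact ⟨⟨(a', y) + (c, 0), Submodule.add_mem_sup ha ⟨hcc, Submodule.zero_mem _⟩⟩, hac⟩
  obtain ⟨f, hf⟩ := Submodule.exists_eq_graph hb
  refine ⟨f, ?_, ?_⟩
  · unfold Dm
    rw [← hf]; exact hT
  · intro v x hx
    have h1 : (v, x) ∈ f.graph := by
      rw [← hf]; exact Submodule.mem_sup_left hx
    exact ((LinearMap.mem_graph_iff _ _).1 h1).symm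

/-- a definable projection onto `K` -/
lemma CM.proj (hG : CM G) {K : Submodule Ω E} (h : Df G K) :
    ∃ π : E →ₗ[Ω] E, Dm G π ∧ (∀ v, π v ∈ K) ∧ ∀ v ∈ K, π v = v := by
  obtain ⟨C, hC, hc⟩ := hG.compl h
  have hT : Df G ((K.comap (LinearMap.snd Ω E E)) ⊓
      C.comap (LinearMap.fst Ω E E - LinearMap.snd Ω E E)) :=
    (h.comap_sc _).inf (hC.comap_sc _)
  obtain ⟨f, hf, hf'⟩ := hG.ext hT (by
    rintro x ⟨h1, h2⟩
    have h3 : (0 : E) - x ∈ C := h2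
    rw [zero_sub, neg_mem_iff] at h3
    exact Submodule.disjoint_def.1 hc.disjoint x h1 h3)
  refine ⟨f, hf, ?_, ?_⟩
  · intro v
    have h1 : v ∈ K ⊔ C := by
      rw [codisjoint_iff.1 hc.codisjoint]; trivial
    obtain ⟨a, ha, c, hcc, hac⟩ := Submodule.mem_sup.1 h1
    have h2 : f v = a := by
      refine hf' v a ⟨ha, ?_⟩
      change v - a ∈ C
      rw [← hac, add_sub_cancel_left]; exact hcc
    rw [h2]; exact ha
  · intro v hv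
    refine hf' v v ⟨hv, ?_⟩
    change v - v ∈ C
    rw [sub_self]; exact C.zero_mem

/-- a definable projection along `K` -/
lemma CM.coproj (hG : CM G) {K : Submodule Ω E} (h : Df G K) :
    ∃ π : E →ₗ[Ω] E, Dm G π ∧ LinearMap.ker π = K ∧ ∀ v, π (π v) = π v := by
  obtain ⟨p, hp, h1, h2⟩ := hG.proj h
  refine ⟨LinearMap.id - p, (Dm.sc _).sub hp, ?_, ?_⟩
  · ext v
    rw [LinearMap.mem_ker, LinearMap.sub_apply, LinearMap.id_apply, sub_eq_zero]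
    constructor
    · intro hv
      rw [hv]; exact h1 v
    · intro hv
      exact (h2 v hv).symm
  · intro v
    simp only [LinearMap.sub_apply, LinearMap.id_apply, map_sub]
    rw [h2 _ (h1 v), sub_self, sub_zero]

/-- a definable inverse of `f` on a submodule `V` where `f` is injective -/
lemma CM.inv (hG : CM G) {f : E →ₗ[Ω] E'} (hf : Dm G f) {V : Submodule Ω E} (hV : Df G V)
    (h0 : ∀ v ∈ V, f v = 0 → v = 0) :
    ∃ g : E' →ₗ[Ω] E, Dm G g ∧ ∀ v ∈ V, g (f v) = v := by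
  have hT : Df G ((V.comap (LinearMap.snd Ω E' E)) ⊓
      f.graph.comap ((LinearMap.snd Ω E' E).prod (LinearMap.fst Ω E' E))) :=
    (hV.comap_sc _).inf (hf.graph.comap_sc _)
  obtain ⟨g, hg, hg'⟩ := hG.ext hT (by
    rintro x ⟨h1, h2⟩
    have h3 : (x, (0 : E')) ∈ f.graph := h2
    exact h0 x h1 ((LinearMap.mem_graph_iff _ _).1 h3).symm)
  refine ⟨g, hg, fun v hv => hg' _ _ ⟨hv, ?_⟩⟩
  change (v, f v) ∈ f.graph
  exact (LinearMap.mem_graph_iff _ _).2 rfl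

/-- a definable generalized inverse -/
lemma CM.ginv (hG : CM G) {f : E →ₗ[Ω] E'} (hf : Dm G f) :
    ∃ g : E' →ₗ[Ω] E, Dm G g ∧ ∀ v, f (g (f v)) = f v := by
  obtain ⟨C, hC, hc⟩ := hG.compl hf.ker
  obtain ⟨g, hg, hg'⟩ := hG.inv hf hC
    (fun v hv h0 => Submodule.disjoint_def.1 hc.disjoint v h0 hv)
  refine ⟨g, hg, fun v => ?_⟩
  have h1 : v ∈ LinearMap.ker f ⊔ C := by
    rw [codisjoint_iff.1 hc.codisjoint]; trivial
  obtain ⟨a, ha, c, hcc, hac⟩ := Submodule.mem_sup.1 h1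
  have h2 : f v = f c := by
    rw [← hac, map_add, LinearMap.mem_ker.1 ha, zero_add]
  rw [h2, hg' c hcc]

end Pool.Agent.Lib.MP_57313b_al.Zf
end

-- part Pool.Agent.Lib.MP_57313b_al.Zf.Ex3
section

/-!
# Construction of germs, maximal filters
-/

set_option autoImplicit false

namespace Pool.Agent.Lib.MP_57313b_al.Zf

open Filter Topology

set_option linter.unusedSectionVars false

variable {Ω : Type} [Ring Ω] [Algebra F Ω]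
variable {E : Type} [AddCommGroup E] [Module Ω E] [Amb Ω E]
variable {G G' : Set (En Ω)} {𝒰 𝒰' 𝒱 𝒱' 𝒲 𝒢 : Set (Sub Ω)} {ρ ρ' : Type} [Fintype ρ] [Fintype ρ']

/-- extend `T ⊓ (⊤ × V₀)` with `CM.ext` -/
lemma tau (hG : CM G) {𝒱 : Set (Submodule Ω E)} (hb : Base G 𝒱) (hd : Dct 𝒰)
    {T : Submodule Ω (Ω × E)} (hT : Df G T) (h0 : ∃ V₀ ∈ 𝒱, V₀ ⊓ rt T = ⊥)
    (h1 : ∀ V ∈ 𝒱, ∃ U ∈ 𝒰, U ≤ dom T V) (h2 : ∀ U ∈ 𝒰, ¬ U ≤ lf T) :
    ∃ τ : Ω →ₗ[Ω] E, Dm G τ ∧ Germ τ 𝒰 𝒱 ∧ NZ τ 𝒰 ∧ ∃ U ∈ 𝒰, ∀ u ∈ U, (u, τ u) ∈ T := by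
  obtain ⟨V₀, hV₀, h0⟩ := h0
  obtain ⟨τ, hτ, he⟩ := hG.ext (hT.inf (Df.top.prod (hb.2 V₀ hV₀))) fun x hx =>
    (Submodule.eq_bot_iff _).1 h0 x ⟨hx.2.2, hx.1⟩
  have key : ∀ V ∈ 𝒱, ∃ U ∈ 𝒰, ∀ u ∈ U, τ u ∈ V ∧ (u, τ u) ∈ T := fun V hV => by
    obtain ⟨V', hV', hle⟩ := hb.1.2 V hV V₀ hV₀
    obtain ⟨U, hU, hU'⟩ := h1 V' hV'
    refine ⟨U, hU, fun u hu => ?_⟩
    obtain ⟨x, hx, hx'⟩ := mem_dom.1 (hU' hu)
    rw [he u x ⟨hx', trivial, (hle hx).2⟩]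
    exact ⟨(hle hx).1, hx'⟩
  obtain ⟨U₀, hU₀, k₀⟩ := key V₀ hV₀
  refine ⟨τ, hτ, fun V hV => ?_, fun U hU hk => ?_, U₀, hU₀, fun u hu => (k₀ u hu).2⟩
  · obtain ⟨U, hU, k⟩ := key V hV
    exact ⟨U, hU, Submodule.map_le_iff_le_comap.2 fun u hu => (k u hu).1⟩
  · obtain ⟨U', hU', hle⟩ := hd.2 U hU U₀ hU₀
    refine h2 U' hU' fun u hu => ?_
    have e : τ u = 0 := hk (hle hu).1
    have := (k₀ u (hle hu).2).2
    rwa [e] at this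

/-- If every `sec N V` has a direction, there is a common direction `l ≠ 0` (`exists_dirs`,
`exists_common`); apply `tau` to `{(v, u) | (u, dir l v) ∈ N}`. -/
lemma germ (hG : CM G) {𝒱 : Set (Submodule Ω E)} (hb : Base G 𝒱) (hd : Dct 𝒰)
    {N : Submodule Ω (E × (ρ → Ω))} (hN : Df G N) (h0 : ∃ V₀ ∈ 𝒱, V₀ ⊓ lf N = ⊥)
    (h1 : ¬ HasDir 𝒰 (rt N)) :
    (∃ V ∈ 𝒱, ¬ HasDir 𝒰 (sec N V)) ∨ ∃ β : Ω →ₗ[Ω] E, Dm G β ∧ Germ β 𝒰 𝒱 ∧ NZ β 𝒰 ∧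
      ∃ l : ρ → F, ∃ U ∈ 𝒰, ∀ v ∈ U, (β v, dir l v) ∈ N := by
  by_cases h : ∃ V ∈ 𝒱, ¬ HasDir 𝒰 (sec N V)
  · exact Or.inl h
  refine Or.inr ?_
  have h : ∀ V ∈ 𝒱, HasDir 𝒰 (sec N V) := fun V hV => not_not.1 fun k => h ⟨V, hV, k⟩
  choose Θ hΘ _ using fun V : Submodule Ω E => exists_dirs hd (sec N V)
  obtain ⟨l, hl, hc⟩ := exists_common (· ≤ ·) 𝒱 hb.1.1
    (fun a ha b hb' => by
      obtain ⟨c, hc, hle⟩ := hb.1.2 a ha b hb'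
      exact ⟨c, hc, hle.trans inf_le_left, hle.trans inf_le_right⟩) Θ
    (fun a _ b _ hab l hl => by
      obtain ⟨U, hU, k⟩ := (hΘ a l).1 hl
      refine (hΘ b l).2 ⟨U, hU, fun u hu => ?_⟩
      obtain ⟨x, hx, hx'⟩ := mem_sec.1 (k u hu)
      exact mem_sec.2 ⟨x, hab hx, hx'⟩)
    (fun a ha e => by
      obtain ⟨l, hl, k⟩ := h a ha
      have := (hΘ a l).2 k
      rw [e] at this
      exact hl this)
  obtain ⟨V₀, hV₀, h0⟩ := h0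
  obtain ⟨τ, h3, h4, h5, U, hU, h6⟩ := tau hG hb hd
    (hN.comap_sc ((LinearMap.snd Ω Ω E).prod (dir l ∘ₗ LinearMap.fst Ω Ω E)))
    ⟨V₀, hV₀, (Submodule.eq_bot_iff _).2 fun x hx => (Submodule.eq_bot_iff _).1 h0 x ⟨hx.1, by
      have : (x, dir l (0 : Ω)) ∈ N := hx.2
      rwa [map_zero] at this⟩⟩
    (fun V hV => by
      obtain ⟨U, hU, k⟩ := (hΘ V l).1 (hc V hV)
      refine ⟨U, hU, fun u hu => ?_⟩
      obtain ⟨x, hx, hx'⟩ := mem_sec.1 (k u hu)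
      exact mem_dom.2 ⟨x, hx, hx'⟩)
    (fun U hU k => h1 ⟨l, hl, U, hU, fun u hu => k hu⟩)
  exact ⟨τ, h3, h4, h5, l, U, hU, h6⟩

/-- `germ` for the family `pws ρ' 𝒱` and the swapped `Z`, then `NG.of_pws` -/
lemma exJ_of_not_ng (hG : CM G) (hb : Base G 𝒰) (hb' : Base G 𝒱) (he : Ex G 𝒰) (he' : Ex G 𝒱)
    (h : ¬ NG G 𝒰 𝒱) : ExJ G 𝒰 𝒱 := by
  intro ρ ρ' _ _ Z hZ h1 h2
  obtain ⟨V₀, hV₀, h0⟩ := he' ρ' (rt Z) hZ.rt h2
  have hN := hZ.comap_sc ((LinearMap.snd Ω (ρ' → Ω) (ρ → Ω)).prod (LinearMap.fst Ω _ _))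
  rcases germ hG (hb'.pws ρ') hb.1 hN ⟨pw ρ' V₀, ⟨V₀, hV₀, rfl⟩, (inf_comm _ _).trans h0⟩ h1 with
    ⟨_, ⟨V, hV, rfl⟩, h3⟩ | ⟨β, h3, h4, h5, -⟩
  · obtain ⟨U, hU, h4⟩ := he ρ _ (hN.sec (hb'.2 V hV).pw) h3
    obtain ⟨V', hV', hle⟩ := hb'.1.2 V hV V₀ hV₀
    refine ⟨U, hU, V', hV', (Submodule.eq_bot_iff _).2 ?_⟩
    rintro ⟨p, q⟩ ⟨hz, hp, hq⟩
    have hq' := mem_pw.1 hq
    have e : p = 0 := (Submodule.eq_bot_iff _).1 h4 p
      ⟨mem_sec.2 ⟨q, mem_pw.2 fun i => (hle (hq' i)).1, hz⟩, hp⟩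
    subst e
    have e : q = 0 := (Submodule.eq_bot_iff _).1 h0 q ⟨hz, mem_pw.2 fun i => (hle (hq' i)).2⟩
    rw [e]
    rfl
  · exact (h (NG.of_pws ⟨β, h3, h4, h5⟩ hb.1)).elim

/-- Zorn's lemma on directed families of nonzero definable left ideals.  For a maximal `𝒢` and `K`
meeting all members, `𝒢 ∪ {K} ∪ {U ⊓ K}` is again such a family. -/
lemma exists_maxF (hb : Base G 𝒰) (hp : ⊥ ∉ 𝒰) : ∃ 𝒢, 𝒰 ⊆ 𝒢 ∧ MaxF G 𝒢 := by
  obtain ⟨𝒢, h1, h2⟩ := zorn_subset_nonempty {𝒢 : Set (Sub Ω) | Base G 𝒢 ∧ ⊥ ∉ 𝒢}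
    (fun c hc hch ⟨x, hx⟩ => by
      refine ⟨⋃₀ c, ⟨⟨⟨?_, ?_⟩, ?_⟩, ?_⟩, fun s hs => Set.subset_sUnion_of_mem hs⟩
      · obtain ⟨U, hU⟩ := (hc hx).1.1.1
        exact ⟨U, x, hx, hU⟩
      · rintro U ⟨a, ha, hU⟩ V ⟨b, hb', hV⟩
        rcases hch.total ha hb' with k | k
        · obtain ⟨W, hW, hle⟩ := (hc hb').1.1.2 U (k hU) V hV
          exact ⟨W, ⟨b, hb', hW⟩, hle⟩
        · obtain ⟨W, hW, hle⟩ := (hc ha).1.1.2 U hU V (k hV)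
          exact ⟨W, ⟨a, ha, hW⟩, hle⟩
      · rintro U ⟨a, ha, hU⟩
        exact (hc ha).1.2 U hU
      · rintro ⟨a, ha, hU⟩
        exact (hc ha).2 hU) 𝒰 ⟨hb, hp⟩
  obtain ⟨⟨⟨⟨U₀, hU₀⟩, hd⟩, hf⟩, h3⟩ := h2.prop
  refine ⟨𝒢, h1, h2.prop.1, h3, fun K hK => ?_⟩
  by_cases h : ∃ U ∈ 𝒢, U ⊓ K = ⊥
  · exact Or.inr h
  refine Or.inl (h2.le_of_ge (y := {X | Df G X ∧ ∃ U ∈ 𝒢, U ⊓ K ≤ X})
    ⟨⟨⟨⟨K, hK, U₀, hU₀, inf_le_right⟩, ?_⟩, fun X hX => hX.1⟩, ?_⟩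
    (fun U hU => ⟨hf U hU, U, hU, inf_le_left⟩) ⟨hK, U₀, hU₀, inf_le_right⟩)
  · rintro X ⟨-, U, hU, hX⟩ Y ⟨-, V, hV, hY⟩
    obtain ⟨W, hW, hle⟩ := hd U hU V hV
    exact ⟨W ⊓ K, ⟨(hf W hW).inf hK, W, hW, le_rfl⟩,
      le_inf ((inf_le_inf_right K (hle.trans inf_le_left)).trans hX)
        ((inf_le_inf_right K (hle.trans inf_le_right)).trans hY)⟩
  · rintro ⟨-, U, hU, hX⟩
    exact h ⟨U, hU, le_bot_iff.1 hX⟩

lemma MaxF.mem (h : MaxF G 𝒢) {K : Sub Ω} (hK : Df G K) (h' : ∀ U ∈ 𝒢, U ⊓ K ≠ ⊥) : K ∈ 𝒢 := by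
  exact (h.max K hK).resolve_right fun ⟨U, hU, e⟩ => h' U hU e

lemma MaxF.fil (h : MaxF G 𝒢) : Fil G 𝒢 := by
  have key : ∀ U ∈ 𝒢, ∀ K, Df G K → U ≤ K → K ∈ 𝒢 := fun U hU K hK hle =>
    h.mem hK fun W hW e => by
      obtain ⟨X, hX, k⟩ := h.base.1.2 W hW U hU
      have : X = ⊥ := le_bot_iff.1 (e ▸ k.trans (inf_le_inf_left W hle))
      exact h.prop (this ▸ hX)
  refine ⟨h.base.2, ?_, fun U hU V hV => ?_, key, h.prop⟩
  · obtain ⟨U, hU⟩ := h.base.1.1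
    exact key U hU ⊤ Df.top le_top
  · obtain ⟨X, hX, k⟩ := h.base.1.2 U hU V hV
    exact key X hX _ ((h.base.2 U hU).inf (h.base.2 V hV)) k

lemma MaxF.uf (h : MaxF G 𝒢) : UF G 𝒢 := by
  intro K₁ K₂ h1 h2 h3
  rcases h.max K₁ h1 with k | ⟨U₁, hU₁, e₁⟩
  · exact Or.inl k
  rcases h.max K₂ h2 with k | ⟨U₂, hU₂, e₂⟩
  · exact Or.inr k
  obtain ⟨U, hU, hle⟩ := h.base.1.2 U₁ hU₁ U₂ hU₂
  have a₁ : K₁ ⊓ U = ⊥ :=
    le_bot_iff.1 (e₁ ▸ le_inf (inf_le_right.trans (hle.trans inf_le_left)) inf_le_left)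
  have a₂ : K₂ ⊓ U = ⊥ :=
    le_bot_iff.1 (e₂ ▸ le_inf (inf_le_right.trans (hle.trans inf_le_right)) inf_le_left)
  have := h3 U hU
  rw [a₁, a₂, bot_sup_eq] at this
  exact (h.prop this).elim

lemma MaxF.zp (h : MaxF G 𝒢) (a : En Ω) : ZP G 𝒢 a := by
  intro K hK
  rcases h.max K hK with k | ⟨U, hU, e⟩
  · exact Or.inl ⟨K, k, le_rfl⟩
  · refine Or.inr ⟨U, hU, 0, fun u hu k => (Submodule.eq_bot_iff _).1 e u ⟨hu, ?_⟩⟩
    simpa using k 0 le_rfl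

lemma Fil.base {𝓕 : Set (Sub Ω)} (h : Fil G 𝓕) : Base G 𝓕 := by
  exact ⟨⟨⟨⊤, h.top⟩, fun U hU V hV => ⟨U ⊓ V, h.inf U hU V hV, le_rfl⟩⟩, h.df⟩

/-- the part of a filter definable over fewer letters -/
lemma Fil.restrict {𝓕 : Set (Sub Ω)} (h : Fil G' 𝓕) (hG : G ⊆ G') :
    Fil G {K | K ∈ 𝓕 ∧ Df G K} := by
  exact ⟨fun _ hU => hU.2, ⟨h.top, Df.top⟩,
    fun U hU V hV => ⟨h.inf U hU.1 V hV.1, hU.2.inf hV.2⟩,
    fun U hU K hK hle => ⟨h.up U hU.1 K (hK.mono hG) hle, hK⟩, fun k => h.prop k.1⟩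

/-- A nonzero germ from a maximal filter to a point can be reversed: it is injective on a member
`V₀`; take `CM.inv` and use `Ex.cof_img`. -/
lemma MaxF.reverse (h : MaxF G 𝒢) (hG : CM G) (hd : Dct 𝒲) (he : Ex G 𝒲) (h' : NG G 𝒢 𝒲) :
    NG G 𝒲 𝒢 := by
  obtain ⟨f, hf, hg, hn⟩ := h'
  obtain ⟨V₀, hV₀, e⟩ := (h.max _ hf.ker).resolve_left fun k => hn _ k le_rfl
  obtain ⟨g, hg', hi⟩ := hG.inv hf (h.base.2 V₀ hV₀) fun v hv k =>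
    (Submodule.eq_bot_iff _).1 e v ⟨hv, k⟩
  have hc := he.cof_img h.base hf hg hn
  refine ⟨g, hg', fun V hV => ?_, fun W hW k => ?_⟩
  · obtain ⟨V', hV', hle⟩ := h.base.1.2 V hV V₀ hV₀
    obtain ⟨W, hW, k⟩ := hc _ ⟨V', hV', rfl⟩
    refine ⟨W, hW, Submodule.map_le_iff_le_comap.2 fun x hx => ?_⟩
    obtain ⟨v, hv, rfl⟩ := k hx
    change g (f v) ∈ V
    rw [hi v (hle hv).2]
    exact (hle hv).1
  · obtain ⟨U, hU, k'⟩ := hg W hW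
    obtain ⟨U', hU', hle⟩ := h.base.1.2 U hU V₀ hV₀
    have : U' = ⊥ := (Submodule.eq_bot_iff _).2 fun u hu =>
      (hi u (hle hu).2).symm.trans (k (k' ⟨u, (hle hu).1, rfl⟩))
    exact h.prop (this ▸ hU')

end Pool.Agent.Lib.MP_57313b_al.Zf
end

-- part Pool.Agent.Lib.MP_57313b_al.Zf.Ten2
section

/-!
# Flags and boxes
-/

set_option autoImplicit false

namespace Pool.Agent.Lib.MP_57313b_al.Zf

open Filter Topology

set_option linter.unusedSectionVars false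

variable {Ω : Type} [Ring Ω] [Algebra F Ω] {ρ : Type} [Fintype ρ]
variable {G : Set (En Ω)}

lemma ten_le_fl (Q : ℕ → Sub Ω) (Λ : Sq ρ) (n : ℕ) : ten (Q n) (Λ n) ≤ fl Q Λ := by
  exact le_iSup (fun n => ten (Q n) (Λ n)) n

lemma fl_le_iff {Q : ℕ → Sub Ω} {Λ : Sq ρ} {Z : Submodule Ω (ρ → Ω)} :
    fl Q Λ ≤ Z ↔ ∀ n, ∀ l ∈ Λ n, ∀ u ∈ Q n, dir l u ∈ Z := by
  simp only [fl, iSup_le_iff, ten_le_iff]

lemma fl_mono (Q : ℕ → Sub Ω) {Λ Λ' : Sq ρ} (h : Λ ≤ Λ') : fl Q Λ ≤ fl Q Λ' := by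
  exact iSup_mono fun n => ten_mono le_rfl (h n)

@[simp] lemma fl_bot (Q : ℕ → Sub Ω) : fl Q (⊥ : Sq ρ) = ⊥ := by
  simp [fl]

lemma fl_sup (Q : ℕ → Sub Ω) (Λ Λ' : Sq ρ) : fl Q (Λ ⊔ Λ') = fl Q Λ ⊔ fl Q Λ' := by
  simp only [fl, Pi.sup_apply, ten_sup, iSup_sup_eq]

/-- monotone sequences of subspaces are eventually constant -/
lemma sq_stab {Λ : Sq ρ} (h : Monotone Λ) : ∃ m, ∀ n, m ≤ n → Λ n = Λ m := by
  obtain ⟨m, hm⟩ := monotone_stabilizes_iff_noetherian.2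
    (inferInstance : IsNoetherian F (ρ → F)) ⟨Λ, h⟩
  exact ⟨m, fun n hn => (hm n hn).symm⟩

/-- for a monotone `Λ` and an antitone `Q` the supremum is finite -/
lemma fl_eq_fin {Q : ℕ → Sub Ω} (hQ : Antitone Q) {Λ : Sq ρ} (h : Monotone Λ) :
    ∃ m : ℕ, fl Q Λ = ⨆ n : Fin m, ten (Q n) (Λ n) := by
  obtain ⟨m, hm⟩ := sq_stab h
  refine ⟨m + 1, le_antisymm (iSup_le fun n => ?_) (iSup_le fun n => ten_le_fl Q Λ n)⟩
  rcases le_total n m with hn | hn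
  · exact le_iSup (fun n : Fin (m + 1) => ten (Q n) (Λ n)) ⟨n, Nat.lt_succ_of_le hn⟩
  · exact (ten_mono (hQ hn) (hm n hn).le).trans
      (le_iSup (fun n : Fin (m + 1) => ten (Q n) (Λ n)) (Fin.last m))

lemma Df.fl {Q : ℕ → Sub Ω} (hQ : Antitone Q) (hd : ∀ n, Df G (Q n)) {Λ : Sq ρ}
    (h : Monotone Λ) : Df G (fl Q Λ) := by
  obtain ⟨m, hm⟩ := fl_eq_fin hQ h
  rw [hm]
  exact Df.iSup fun n => (hd n).ten _

lemma Df.box {P Q : ℕ → Sub Ω} (hP : Antitone P) (hQ : Antitone Q) (dP : ∀ n, Df G (P n))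
    (dQ : ∀ n, Df G (Q n)) {Λ : Sq ρ} (h : Monotone Λ) : Df G (box P Q Λ) := by
  exact (Df.fl hP dP h).prod (Df.fl hQ dQ h)

lemma fl_map_le {P Q : ℕ → Sub Ω} {b : En Ω} (h : ∀ n, (P n).map b ≤ Q n) (Λ : Sq ρ)
    {v : ρ → Ω} (hv : v ∈ fl P Λ) : ap b v ∈ fl Q Λ := by
  refine (fl_le_iff (Z := (fl Q Λ).comap (ap b))).2 (fun n l hl u hu => ?_) hv
  rw [Submodule.mem_comap, ap_dir]
  exact ten_le_fl Q Λ n (dir_mem_ten hl (h n (Submodule.mem_map_of_mem hu)))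

lemma fl_le_pw {Q : ℕ → Sub Ω} (hQ : Antitone Q) {Λ : Sq ρ} {n : ℕ} (h : ∀ k < n, Λ k = ⊥) :
    fl Q Λ ≤ pw ρ (Q n) := by
  refine iSup_le fun k => ?_
  rcases lt_or_ge k n with hk | hk
  · simp [h k hk]
  · exact (ten_mono (hQ hk) le_rfl).trans (ten_le_pw _ _)

/-- the tail estimate -/
lemma fl_le_sup {Q : ℕ → Sub Ω} (hQ : Antitone Q) {Λ Λ' : Sq ρ} {j : ℕ}
    (h : ∀ n ≤ j, Λ n ≤ Λ' n) : fl Q Λ ≤ fl Q Λ' ⊔ pw ρ (Q (j + 1)) := by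
  refine iSup_le fun k => ?_
  rcases le_or_gt k j with hk | hk
  · exact le_sup_of_le_left ((ten_mono le_rfl (h k hk)).trans (ten_le_fl Q Λ' k))
  · exact le_sup_of_le_right ((ten_mono (hQ hk) le_rfl).trans (ten_le_pw _ _))

lemma fl_bf (Λ : Sq ρ) : fl (bf Ω) Λ = ten ⊤ (Λ 0) := by
  refine le_antisymm (iSup_le fun n => ?_) (ten_le_fl (bf Ω) Λ 0)
  rcases n with _ | n
  · exact le_rfl
  · simp [bf]

variable [RK Ω]

lemma fg_ten {U : Sub Ω} (h : U.FG) (Λ : Submodule F (ρ → F)) : (ten U Λ).FG := by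
  obtain ⟨M, -, hM⟩ := exists_ten_eq (Ω := Ω) Λ
  rw [hM]
  exact (fg_pw h).map _

lemma rk_ten {U : Sub Ω} (h : U.FG) (Λ : Submodule F (ρ → F)) :
    rk (ten U Λ) = rk U * Module.finrank F Λ := by
  obtain ⟨M, hi, hM⟩ := exists_ten_eq (Ω := Ω) Λ
  rw [hM, rk_map_of_inj (fg_pw h) _ fun v _ hv => hi (hv.trans (map_zero _).symm), rk_pw h,
    Fintype.card_fin, mul_comm]

lemma fg_fl {Q : ℕ → Sub Ω} (hQ : Flag Q) {Λ : Sq ρ} (h : Monotone Λ) : (fl Q Λ).FG := by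
  obtain ⟨m, hm⟩ := fl_eq_fin hQ.anti h
  rw [hm]
  exact Submodule.fg_iSup _ fun n => fg_ten (hQ.fg n) _

lemma fg_box {P Q : ℕ → Sub Ω} (hP : Flag P) (hQ : Flag Q) {Λ : Sq ρ} (h : Monotone Λ) :
    (box P Q Λ).FG := by
  exact (fg_fl hP h).prod (fg_fl hQ h)

/-- Dual description of `fl`.  Converse: let `M n` be a projection matrix onto `Λ n`; put
`v 0 = v`, `v (n+1) = mat (1 - M n) (v n)`.  Inductively `v n ∈ pw (Q n)`, `v - v n ∈ fl Q Λ` and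
`v n` satisfies the same dual condition; once `Λ` is constant `v (n+1)` has entries in all `Q k`,
so it vanishes (`Flag.eq_zero`). -/
lemma mem_fl {Q : ℕ → Sub Ω} (hQ : Flag Q) {Λ : Sq ρ} (h : Monotone Λ) {v : ρ → Ω} :
    v ∈ fl Q Λ ↔ ∀ n φ, Perp φ (Λ n) → dot φ v ∈ Q (n + 1) := by
  classical
  have fwd : ∀ w ∈ fl Q Λ, ∀ n φ, Perp φ (Λ n) → dot φ w ∈ Q (n + 1) := by
    intro w hw n φ hφ
    refine (fl_le_iff (Z := (Q (n + 1)).comap (dot φ))).2 (fun k l hl u hu => ?_) hw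
    rw [Submodule.mem_comap, dot_dir]
    rcases le_or_gt k n with hk | hk
    · rw [hφ l (h hk hl), zero_smul]
      exact zero_mem _
    · exact smul_mem_sub _ (hQ.anti hk hu)
  refine ⟨fwd v, fun hv => ?_⟩
  have step : ∀ n, ∀ w ∈ fl Q Λ, v - w ∈ pw ρ (Q n) → ∃ w' ∈ fl Q Λ, ∀ j k, Λ k ≤ Λ n →
      (v - w') j ∈ Q (k + 1) := by
    intro n w hw hn
    obtain ⟨Λ', hc⟩ := (Λ n).exists_isCompl
    obtain ⟨M, h1, h2, -⟩ := exists_proj_mat hc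
    refine ⟨w + mat M (v - w), add_mem hw (ten_le_fl Q Λ n (mat_mem_ten (fun i => ?_) hn)),
      fun j k hk => ?_⟩
    · simpa [Matrix.row] using h1 (Pi.single i 1)
    · have e : (v - (w + mat M (v - w))) j = dot (fun i => (1 - M) i j) (v - w) := by
        rw [← sub_sub, ← mat_one (v - w), ← mat_mul, one_mul, ← mat_sub, mat_one]
        rfl
      have hp : Perp (fun i => (1 - M) i j) (Λ k) := fun l hl => by
        have : Matrix.vecMul l (1 - M) j = 0 := by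
          rw [Matrix.vecMul_sub, Matrix.vecMul_one, h2 l (hk hl), sub_self, Pi.zero_apply]
        rw [dotProduct_comm]
        exact this
      rw [e, map_sub]
      exact sub_mem (hv k _ hp) (fwd w hw k _ hp)
  have ind : ∀ n, ∃ w ∈ fl Q Λ, v - w ∈ pw ρ (Q n) := by
    intro n
    induction n with
    | zero => exact ⟨0, zero_mem _, by simp [hQ.zero]⟩
    | succ n ih =>
      obtain ⟨w, hw, hn⟩ := ih
      obtain ⟨w', hw', h1⟩ := step n w hw hn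
      exact ⟨w', hw', mem_pw.2 fun j => h1 j n le_rfl⟩
  obtain ⟨m, hm⟩ := sq_stab h
  obtain ⟨w, hw, hn⟩ := ind m
  obtain ⟨w', hw', h1⟩ := step m w hw hn
  have : v - w' = 0 := funext fun j => hQ.eq_zero fun k => hQ.anti k.le_succ
    (h1 j k ((le_total k m).elim (fun hk => h hk) fun hk => (hm k hk).le))
  rwa [sub_eq_zero.1 this]

lemma fl_inf {Q : ℕ → Sub Ω} (hQ : Flag Q) {Λ Λ' : Sq ρ} (h : Monotone Λ) (h' : Monotone Λ') :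
    fl Q (Λ ⊓ Λ') = fl Q Λ ⊓ fl Q Λ' := by
  refine le_antisymm (le_inf (fl_mono Q inf_le_left) (fl_mono Q inf_le_right)) fun v hv => ?_
  refine (mem_fl hQ (h.inf h')).2 fun n φ hφ => ?_
  obtain ⟨φ₁, φ₂, h1, h2, rfl⟩ := perp_inf hφ
  have : dot (φ₁ + φ₂) v = dot φ₁ v + dot φ₂ v := by
    simp only [dot_apply, Pi.add_apply, add_smul, Finset.sum_add_distrib]
  rw [this]
  exact add_mem ((mem_fl hQ h).1 hv.1 n _ h1) ((mem_fl hQ h').1 hv.2 n _ h2)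

lemma rk_le_fl {Q : ℕ → Sub Ω} (hQ : Flag Q) {Λ : Sq ρ} {n : ℕ} (h : Λ n ≠ ⊥) :
    rk (Q n) ≤ rk (fl Q Λ) := by
  obtain ⟨l, hl, h0⟩ := Submodule.exists_mem_ne_zero_of_ne_bot h
  exact rk_le_of_inj (hQ.fg n) (dir l) (fun u _ hu => dir_eq_zero h0 hu) fun u hu =>
    ten_le_fl Q Λ n (dir_mem_ten hl hu)

/-- a functional vanishing on all `Λ n` kills `fl Q Λ` -/
lemma dot_fl {Q : ℕ → Sub Ω} {Λ : Sq ρ} {φ : ρ → F} (h : ∀ n, Perp φ (Λ n)) {v : ρ → Ω}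
    (hv : v ∈ fl Q Λ) : dot φ v = 0 := by
  refine (fl_le_iff (Z := LinearMap.ker (dot φ))).2 (fun n l hl u _ => ?_) hv
  rw [LinearMap.mem_ker, dot_dir, h n l hl, zero_smul]

end Pool.Agent.Lib.MP_57313b_al.Zf
end

-- part Pool.Agent.Lib.MP_57313b_al.Zf.Gen1
section

/-!
# Generic letters: optimizers
-/

set_option autoImplicit false

namespace Pool.Agent.Lib.MP_57313b_al.Zf

open Filter Topology

set_option linter.unusedSectionVars false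

variable {Ω : Type} [Ring Ω] [Algebra F Ω] [RK Ω]
variable {E : Type} [AddCommGroup E] [Module Ω E] [Amb Ω E]
variable {G G' : Set (En Ω)} {b : En Ω} {P Q : ℕ → Sub Ω} {ρ : Type} [Fintype ρ]

lemma Gen.mono (h : Gen b P Q G') (hG : G ⊆ G') : Gen b P Q G := by
  exact ⟨h.1, fun ρ _ Z hZ => h.2 ρ Z (hZ.mono hG)⟩

lemma Free.mono {x : En Ω} (h : Free x G') (hG : G ⊆ G') : Free x G := Gen.mono h hG

lemma Gl.mono (h : Gl G' b P Q) (hG : G ⊆ G') (dP : ∀ n, Df G (P n)) (dQ : ∀ n, Df G (Q n)) :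
    Gl G b P Q :=
  ⟨h.fP, h.fQ, dP, dQ, h.gen.mono hG⟩

lemma Free.gl {x : En Ω} (h : Free x G) : Gl G x (bf Ω) (bf Ω) :=
  ⟨flag_bf, flag_bf, df_bf, df_bf, h⟩

/-- genericity has finite character -/
lemma Gen.of_fin {ι : Type} {w : ℕ → En Ω} {c : ι → En Ω} {X : Set ι}
    (h : ∀ s ⊆ X, s.Finite → Gen b P Q (GS w c s)) : Gen b P Q (GS w c X) := by
  refine ⟨(h ∅ (Set.empty_subset _) Set.finite_empty).1, fun ρ _ Z hZ => ?_⟩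
  obtain ⟨s, h1, h2, h3⟩ := hZ.supp_gs
  exact (h s h1 h2).2 ρ Z h3

/-- The easy inequality: the map `z ↦ β z - ap b (α z)` sends the left module into `fl Q Λ`
(`rk_le_add`). -/
lemma gen_easy (hP : Flag P) (hQ : Flag Q) (h : ∀ n, (P n).map b ≤ Q n) {Z : Submodule Ω E}
    (hZ : Z.FG) (α β : E →ₗ[Ω] (ρ → Ω)) {Λ : Sq ρ} (hΛ : Monotone Λ) :
    rk (Z ⊓ (box P Q Λ).comap (α.prod β)) ≤
      rk (Z ⊓ (box P Q Λ).comap (α.prod β) ⊓ (ap b).graph.comap (α.prod β)) + rk (fl Q Λ) := by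
  exact rk_le_add (fg_inf hZ (fg_comap (fg_box hP hQ hΛ) _)) (β - ap b ∘ₗ α)
    (fun v hv h0 => ⟨hv, (LinearMap.mem_graph_iff _ _).2 (sub_eq_zero.1 h0)⟩)
    fun v hv => sub_mem hv.2.2 (fl_map_le h Λ hv.2.1)

lemma gen_easy' (hP : Flag P) (hQ : Flag Q) (h : ∀ n, (P n).map b ≤ Q n)
    {Z : Submodule Ω ((ρ → Ω) × (ρ → Ω))} (hZ : Z.FG) {Λ : Sq ρ} (hΛ : Monotone Λ) :
    rk (Z ⊓ box P Q Λ) ≤ rk (Z ⊓ box P Q Λ ⊓ (ap b).graph) + rk (fl Q Λ) := by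
  exact gen_easy hP hQ h hZ (LinearMap.fst Ω _ _) (LinearMap.snd Ω _ _) hΛ

/-- genericity for definable `α`, `β`: apply the definition to `Z.map (α.prod β)` and add the rank
of the kernel on both sides (`rk_inf_comap`) -/
lemma Gen.prime (h : Gen b P Q G) (hP : Flag P) (hQ : Flag Q) {Z : Submodule Ω E} (hZ : Df G Z)
    {α β : E →ₗ[Ω] (ρ → Ω)} (hα : Dm G α) (hβ : Dm G β) {ε : ℝ} (hε : 0 < ε) :
    ∃ Λ : Sq ρ, Monotone Λ ∧ rk (Z ⊓ (ap b).graph.comap (α.prod β)) + rk (fl Q Λ) ≤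
      rk (Z ⊓ (box P Q Λ).comap (α.prod β)) + ε := by
  obtain ⟨Λ, h1, h2⟩ := h.2 ρ _ (hZ.map (hα.prod hβ)) ε hε
  refine ⟨Λ, h1, ?_⟩
  rw [rk_inf_comap hZ.fg (fg_graph _), rk_inf_comap hZ.fg (fg_box hP hQ h1)]
  linarith

lemma gen1_small (hQ : Flag Q) (ρ : Type) [Fintype ρ] {δ : ℝ} (hδ : 0 < δ) :
    ∀ᶠ n in atTop, rk (pw ρ (Q (n + 1))) < δ := by
  have := ((hQ.lim.comp (tendsto_add_atTop_nat 1)).const_mul
    (Fintype.card ρ : ℝ)).eventually_lt_const (by simpa using hδ)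
  filter_upwards [this] with n hn
  rwa [rk_pw (hQ.fg _)]

lemma gen1_box (P Q : ℕ → Sub Ω) {Λ Λ' : Sq ρ} (h : Λ ≤ Λ') : box P Q Λ ≤ box P Q Λ' :=
  Submodule.prod_mono (fl_mono P h) (fl_mono Q h)

/-- `gap` applied to `d Λ = rk (Z ⊓ box P Q Λ) - rk (fl Q Λ)` (use `fl_sup`, `fl_inf`,
`rk_sup_add_inf`, `fl_le_sup`) -/
lemma box_gap (hP : Flag P) (hQ : Flag Q) {Z : Submodule Ω ((ρ → Ω) × (ρ → Ω))} (hZ : Z.FG) :
    ∃ Ψ : Sq ρ, Monotone Ψ ∧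
      (∀ Λ, Monotone Λ →
        rk (Z ⊓ box P Q Λ) - rk (fl Q Λ) ≤ rk (Z ⊓ box P Q Ψ) - rk (fl Q Ψ)) ∧
      ∀ j : ℕ, ∃ ε : ℝ, 0 < ε ∧ ∀ Λ, Monotone Λ →
        rk (Z ⊓ box P Q Ψ) - rk (fl Q Ψ) ≤ rk (Z ⊓ box P Q Λ) - rk (fl Q Λ) + ε →
          ∀ n ≤ j, Λ n ≤ Ψ n := by
  refine gap (fun Λ => rk (Z ⊓ box P Q Λ) - rk (fl Q Λ)) (rk Z) (fun Λ _ => ?_)
    (fun Λ Λ' h h' => ?_) fun ε hε => ?_
  · linarith [rk_nonneg (fl Q Λ), rk_mono (inf_le_left : Z ⊓ box P Q Λ ≤ Z)]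
  · have h1 := rk_sup_add_inf (fg_fl hQ h) (fg_fl hQ h')
    have h2 := rk_sup_add_inf (fg_inf hZ (fg_box hP hQ h)) (fg_inf hZ (fg_box hP hQ h'))
    have h3 : rk (Z ⊓ box P Q Λ ⊔ Z ⊓ box P Q Λ') ≤ rk (Z ⊓ box P Q (Λ ⊔ Λ')) := rk_mono
      (sup_le (inf_le_inf_left _ (gen1_box P Q le_sup_left))
        (inf_le_inf_left _ (gen1_box P Q le_sup_right)))
    have h4 : rk (Z ⊓ box P Q Λ ⊓ (Z ⊓ box P Q Λ')) ≤ rk (Z ⊓ box P Q (Λ ⊓ Λ')) :=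
      rk_mono fun z hz => ⟨hz.1.1, (fl_inf hP h h').ge ⟨hz.1.2.1, hz.2.2.1⟩,
        (fl_inf hQ h h').ge ⟨hz.1.2.2, hz.2.2.2⟩⟩
    rw [fl_sup, fl_inf hQ h h']
    linarith
  · have h3 : 0 < ε / 3 := by positivity
    obtain ⟨j, a1, a2⟩ := ((gen1_small hP ρ h3).and (gen1_small hQ ρ h3)).exists
    refine ⟨j, fun Λ Λ' h h' e => ?_⟩
    have f1 : (pw ρ (P (j + 1))).FG := fg_pw (hP.fg _)
    have f2 : (pw ρ (Q (j + 1))).FG := fg_pw (hQ.fg _)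
    have f3 := fg_box hP hQ h'
    have b1 := (rk_mono (fl_le_sup hQ.anti fun n hn => (e n hn).ge)).trans
      (rk_sup_le (fg_fl hQ h) f2)
    have b2 : rk (Z ⊓ box P Q Λ) ≤
        rk (Z ⊓ (box P Q Λ' ⊔ (pw ρ (P (j + 1))).prod (pw ρ (Q (j + 1))))) := by
      refine rk_mono (inf_le_inf_left _ ?_)
      rw [box, box, Submodule.prod_sup_prod]
      exact Submodule.prod_mono (fl_le_sup hP.anti fun n hn => (e n hn).le)
        (fl_le_sup hQ.anti fun n hn => (e n hn).le)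
    have b3 := rk_inf_le_of_le hZ f3 (f3.sup (f1.prod f2)) le_sup_left
    have b4 := rk_sup_le f3 (f1.prod f2)
    rw [rk_prod f1 f2] at b4
    linarith

/-- the largest optimizer realizes the rank of `Z ⊓ graph` -/
lemma Gen.opt (h : Gen b P Q G) (hP : Flag P) (hQ : Flag Q)
    {Z : Submodule Ω ((ρ → Ω) × (ρ → Ω))} (hZ : Df G Z) :
    ∃ Ψ : Sq ρ, Monotone Ψ ∧ rk (Z ⊓ (ap b).graph) + rk (fl Q Ψ) = rk (Z ⊓ box P Q Ψ) ∧
      ∀ j : ℕ, ∃ ε : ℝ, 0 < ε ∧ ∀ Λ, Monotone Λ →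
        rk (Z ⊓ (ap b).graph) + rk (fl Q Λ) ≤ rk (Z ⊓ box P Q Λ) + ε → ∀ n ≤ j, Λ n ≤ Ψ n := by
  obtain ⟨Ψ, h1, h2, h3⟩ := box_gap hP hQ hZ.fg
  have e : rk (Z ⊓ (ap b).graph) + rk (fl Q Ψ) = rk (Z ⊓ box P Q Ψ) := by
    refine le_antisymm (le_of_forall_pos_le_add fun ε hε => ?_) ?_
    · obtain ⟨Λ, a1, a2⟩ := h.2 ρ Z hZ ε hε
      linarith [h2 Λ a1]
    · exact (gen_easy' hP hQ h.1 hZ.fg h1).trans
        (add_le_add_left (rk_mono (inf_le_inf_right _ inf_le_left)) _)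
  refine ⟨Ψ, h1, e, fun j => ?_⟩
  obtain ⟨ε, a1, a2⟩ := h3 j
  exact ⟨ε, a1, fun Λ a3 a4 => a2 Λ a3 (by linarith)⟩

/-- equality case of the easy inequality, first part -/
lemma opt_le (hP : Flag P) (hQ : Flag Q) (h : ∀ n, (P n).map b ≤ Q n)
    {Z : Submodule Ω ((ρ → Ω) × (ρ → Ω))} (hZ : Z.FG) {Λ : Sq ρ} (hΛ : Monotone Λ)
    (he : rk (Z ⊓ (ap b).graph) + rk (fl Q Λ) ≤ rk (Z ⊓ box P Q Λ)) :
    Z ⊓ (ap b).graph ≤ box P Q Λ := by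
  have h1 := gen_easy' hP hQ h hZ hΛ
  have h2 := eq_of_le_of_rk_le (fg_inf (fg_inf hZ (fg_box hP hQ hΛ)) (fg_graph (ap b)))
    (fg_inf hZ (fg_graph (ap b))) (inf_le_inf_right _ inf_le_left) (by linarith)
  exact h2.ge.trans (inf_le_left.trans inf_le_right)

/-- equality case of the easy inequality, second part: `(p, q) ↦ q - ap b p` maps `Z ⊓ box` onto
`fl Q Λ` -/
lemma opt_onto (hP : Flag P) (hQ : Flag Q) (h : ∀ n, (P n).map b ≤ Q n)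
    {Z : Submodule Ω ((ρ → Ω) × (ρ → Ω))} (hZ : Z.FG) {Λ : Sq ρ} (hΛ : Monotone Λ)
    (he : rk (Z ⊓ (ap b).graph) + rk (fl Q Λ) ≤ rk (Z ⊓ box P Q Λ)) {q : ρ → Ω}
    (hq : q ∈ fl Q Λ) : ∃ p' q', (p', q') ∈ Z ∧ q' - ap b p' = q := by
  have f1 := fg_inf hZ (fg_box hP hQ hΛ)
  have h1 := rk_map_add f1 (LinearMap.snd Ω _ _ - ap b ∘ₗ LinearMap.fst Ω _ _)
  have h2 : rk (Z ⊓ box P Q Λ ⊓ LinearMap.ker (LinearMap.snd Ω _ _ - ap b ∘ₗ LinearMap.fst Ω _ _))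
      ≤ rk (Z ⊓ (ap b).graph) := rk_mono fun z hz =>
    ⟨hz.1.1, (LinearMap.mem_graph_iff _ _).2 (sub_eq_zero.1 (LinearMap.mem_ker.1 hz.2))⟩
  have h3 := eq_of_le_of_rk_le (f1.map (LinearMap.snd Ω _ _ - ap b ∘ₗ LinearMap.fst Ω _ _))
    (fg_fl hQ hΛ) (by
      rintro _ ⟨z, hz, rfl⟩
      exact sub_mem hz.2.2 (fl_map_le h Λ hz.2.1)) (by linarith)
  obtain ⟨z, hz, rfl⟩ := h3.ge hq
  exact ⟨z.1, z.2, hz.1, rfl⟩

end Pool.Agent.Lib.MP_57313b_al.Zf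
end

-- part Pool.Agent.Lib.MP_57313b_al.Zf.Red
section

/-!
# Reduced presentations
-/

set_option autoImplicit false

namespace Pool.Agent.Lib.MP_57313b_al.Zf

open Filter Topology

set_option linter.unusedSectionVars false

variable {Ω : Type} [Ring Ω] [Algebra F Ω] [RK Ω]
variable {E : Type} [AddCommGroup E] [Module Ω E] [Amb Ω E]
variable {G : Set (En Ω)} {b : En Ω} {P Q : ℕ → Sub Ω}

section aux
variable {E' : Type} [AddCommGroup E'] [Module Ω E'] [Amb Ω E']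

/-- counting `Z ⊓ V × X` in two ways -/
lemma red_count {Z : Submodule Ω (E × E')} (hZ : Z.FG) {V : Submodule Ω E} (hV : V.FG)
    {X : Submodule Ω E'} (hX : X.FG) :
    rk (V ⊓ dom Z X) + rk (rt Z ⊓ X) = rk (lf Z ⊓ V) + rk (sec Z V ⊓ X) := by
  have hA : (Z ⊓ V.prod X).FG := fg_inf hZ (hV.prod hX)
  have h1 : rk (Z ⊓ V.prod X) =
      rk ((⊥ : Submodule Ω E).prod (rt Z ⊓ X)) + rk (V ⊓ dom Z X) := by
    refine rk_eq_add hA (LinearMap.fst Ω E E') ?_ ?_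
    · rintro ⟨u, x⟩
      simp only [Submodule.mem_prod, Submodule.mem_bot, Submodule.mem_inf, mem_rt,
        LinearMap.fst_apply]
      constructor
      · rintro ⟨rfl, h1, h2⟩
        exact ⟨⟨h1, V.zero_mem, h2⟩, rfl⟩
      · rintro ⟨⟨h1, -, h2⟩, rfl⟩
        exact ⟨rfl, h1, h2⟩
    · intro u
      simp only [Submodule.mem_inf, mem_dom, Submodule.mem_prod, LinearMap.fst_apply]
      constructor
      · rintro ⟨h1, x, h2, h3⟩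
        exact ⟨(u, x), ⟨h3, h1, h2⟩, rfl⟩
      · rintro ⟨⟨u', x⟩, ⟨h3, h1, h2⟩, rfl⟩
        exact ⟨h1, x, h2, h3⟩
  have h2 : rk (Z ⊓ V.prod X) =
      rk ((lf Z ⊓ V).prod (⊥ : Submodule Ω E')) + rk (sec Z V ⊓ X) := by
    refine rk_eq_add hA (LinearMap.snd Ω E E') ?_ ?_
    · rintro ⟨u, x⟩
      simp only [Submodule.mem_prod, Submodule.mem_bot, Submodule.mem_inf, mem_lf,
        LinearMap.snd_apply]
      constructor
      · rintro ⟨⟨h1, h2⟩, rfl⟩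
        exact ⟨⟨h1, h2, X.zero_mem⟩, rfl⟩
      · rintro ⟨⟨h1, h2, -⟩, rfl⟩
        exact ⟨⟨h1, h2⟩, rfl⟩
    · intro x
      simp only [Submodule.mem_inf, mem_sec, Submodule.mem_prod, LinearMap.snd_apply]
      constructor
      · rintro ⟨⟨u, h1, h3⟩, h2⟩
        exact ⟨(u, x), ⟨h3, h1, h2⟩, rfl⟩
      · rintro ⟨⟨u, x'⟩, ⟨h3, h1, h2⟩, rfl⟩
        exact ⟨⟨u, h1, h3⟩, h2⟩
  rw [rk_prod Submodule.fg_bot (fg_inf (fg_rt hZ) hX), rk_bot] at h1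
  rw [rk_prod (fg_inf (fg_lf hZ) hV) Submodule.fg_bot, rk_bot] at h2
  linarith

/-- membership in `Z ⊔ 0 × X` -/
lemma red_mem {Z : Submodule Ω (E × E')} {X : Submodule Ω E'} {u : E} {x : E'} :
    (u, x) ∈ Z ⊔ (⊥ : Submodule Ω E).prod X ↔ ∃ y ∈ X, (u, x - y) ∈ Z := by
  rw [Submodule.mem_sup]
  constructor
  · rintro ⟨⟨u₁, x₁⟩, h1, ⟨u₂, x₂⟩, ⟨h2, h3⟩, h4⟩
    have h2' : u₂ = 0 := h2
    simp only [Prod.mk_add_mk, Prod.mk.injEq] at h4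
    obtain ⟨h5, h6⟩ := h4
    refine ⟨x₂, h3, ?_⟩
    rw [← h5, ← h6, h2', add_zero, add_sub_cancel_right]
    exact h1
  · rintro ⟨y, h1, h2⟩
    refine ⟨(u, x - y), h2, (0, y), ⟨rfl, h1⟩, ?_⟩
    simp

/-- adding a direct summand that lies in `Z ⊔ B` -/
lemma red_mod {Z B T W : Submodule Ω E} (hZ : Z.FG) (hB : B.FG) (hT : T.FG) (h1 : T ≤ Z ⊔ B)
    (h2 : B ⊓ T = ⊥) (h3 : B ≤ W) (h4 : T ≤ W) : rk (Z ⊓ B) + rk T ≤ rk (Z ⊓ W) := by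
  have e1 := rk_sup_add_inf hZ (hB.sup hT)
  have e2 := rk_sup_add_inf hB hT
  have e3 := rk_sup_add_inf hZ hB
  have e4 : Z ⊔ (B ⊔ T) = Z ⊔ B := by
    rw [← sup_assoc]
    exact sup_eq_left.2 h1
  have e5 : rk (Z ⊓ (B ⊔ T)) ≤ rk (Z ⊓ W) := rk_mono (inf_le_inf_left _ (sup_le h3 h4))
  rw [e4] at e1
  rw [h2, rk_bot] at e2
  linarith

end aux

section aux2
variable {ρ : Type} [Fintype ρ]

lemma red_one_ne : (1 : Ω) ≠ 0 := by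
  intro h
  have h1 : (⊤ : Sub Ω) = ⊥ := by
    rw [eq_bot_iff]
    intro x _
    rw [Submodule.mem_bot, ← mul_one x, h, mul_zero]
  have h2 := rk_top_one (Ω := Ω)
  rw [h1, rk_bot] at h2
  exact zero_ne_one h2

lemma red_box_mono (P Q : ℕ → Sub Ω) {Λ Λ' : Sq ρ} (h : Λ ≤ Λ') : box P Q Λ ≤ box P Q Λ' :=
  Submodule.prod_mono (fl_mono P h) (fl_mono Q h)

/-- the sequence that adds the line of `l` from level `j` on -/
noncomputable def redLine (l : ρ → F) (j : ℕ) : Sq ρ :=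
  fun n => if j ≤ n then Submodule.span F {l} else ⊥

lemma redLine_mono (l : ρ → F) (j : ℕ) : Monotone (redLine l j) := by
  intro m n hmn
  unfold redLine
  by_cases h : j ≤ m
  · rw [if_pos h, if_pos (h.trans hmn)]
  · rw [if_neg h]
    exact bot_le

lemma redLine_fl {Q : ℕ → Sub Ω} (hQ : Antitone Q) (l : ρ → F) (j : ℕ) :
    fl Q (redLine l j) = (Q j).map (dir l) := by
  apply le_antisymm
  · rw [fl_le_iff]
    intro n l' hl' u hu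
    unfold redLine at hl'
    by_cases h : j ≤ n
    · rw [if_pos h, Submodule.mem_span_singleton] at hl'
      obtain ⟨c, rfl⟩ := hl'
      rw [dir_smul]
      exact ⟨c • u, smul_mem_sub c (hQ h hu), rfl⟩
    · rw [if_neg h, Submodule.mem_bot] at hl'
      rw [hl', dir_zero]
      exact Submodule.zero_mem _
  · rintro _ ⟨u, hu, rfl⟩
    refine ten_le_fl Q _ j (dir_mem_ten ?_ hu)
    unfold redLine
    rw [if_pos le_rfl]
    exact Submodule.mem_span_singleton_self l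

/-- a new direction would enlarge the largest optimizer -/
lemma red_dir (hP : Flag P) (hQ : Flag Q) {Z : Submodule Ω ((ρ → Ω) × (ρ → Ω))} (hZ : Z.FG)
    {Ψ : Sq ρ} (hΨ : Monotone Ψ)
    (he : rk (Z ⊓ (ap b).graph) + rk (fl Q Ψ) = rk (Z ⊓ box P Q Ψ))
    (hm : ∀ Λ : Sq ρ, Monotone Λ →
      rk (Z ⊓ (ap b).graph) + rk (fl Q Λ) ≤ rk (Z ⊓ box P Q Λ) → Λ ≤ Ψ)
    (l : ρ → F) (j : ℕ) {T : Submodule Ω ((ρ → Ω) × (ρ → Ω))} (hT : T.FG)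
    (h1 : T ≤ Z ⊔ box P Q Ψ) (h2 : box P Q Ψ ⊓ T = ⊥) (h3 : T ≤ box P Q (redLine l j))
    (h4 : rk ((Q j).map (dir l)) ≤ rk T) : l ∈ Ψ j := by
  have hΛ : Monotone (Ψ ⊔ redLine l j) := hΨ.sup (redLine_mono l j)
  have e1 := red_mod hZ (fg_box hP hQ hΨ) hT h1 h2
    (red_box_mono P Q (le_sup_left : Ψ ≤ Ψ ⊔ redLine l j))
    (h3.trans (red_box_mono P Q le_sup_right))
  have e2 : rk (fl Q (Ψ ⊔ redLine l j)) ≤ rk (fl Q Ψ) + rk ((Q j).map (dir l)) := by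
    rw [fl_sup, redLine_fl hQ.anti]
    exact rk_sup_le (fg_fl hQ hΨ) ((hQ.fg j).map _)
  have e3 := hm _ hΛ (by linarith) j
  refine e3 (Submodule.mem_sup_right ?_)
  unfold redLine
  rw [if_pos le_rfl]
  exact Submodule.mem_span_singleton_self l

/-- the counting identity for an optimizer of a section -/
lemma red_sec (h : Gl G b P Q) {Z : Submodule Ω (E × (ρ → Ω) × (ρ → Ω))} (hZ : Df G Z)
    {V : Submodule Ω E} (hV : Df G V) :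
    ∃ Λ : Sq ρ, Monotone Λ ∧ sec Z V ⊓ (ap b).graph ≤ box P Q Λ ∧
      rk (V ⊓ dom Z (ap b).graph) + rk (rt Z ⊓ (ap b).graph) + rk (fl Q Λ) =
        rk (V ⊓ dom Z (box P Q Λ)) + rk (rt Z ⊓ box P Q Λ) := by
  obtain ⟨Λ, hΛ, he, -⟩ := h.gen.opt h.fP h.fQ (hZ.sec hV)
  refine ⟨Λ, hΛ, opt_le h.fP h.fQ h.gen.1 (hZ.sec hV).fg hΛ he.le, ?_⟩
  have e1 := red_count hZ.fg hV.fg (fg_graph (ap b : (ρ → Ω) →ₗ[Ω] (ρ → Ω)))
  have e2 := red_count hZ.fg hV.fg (fg_box h.fP h.fQ hΛ)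
  linarith

/-- a nonzero combination of a basis of a complement of `Θ` is not in `Θ` -/
lemma red_notMem {Θ C : Submodule F (ρ → F)} (hC : IsCompl Θ C) {ρ' : Type} [Fintype ρ']
    {M : Matrix ρ' ρ F} (hM : Function.Injective (mat M : (ρ' → Ω) →ₗ[Ω] (ρ → Ω)))
    (hM' : ∀ U : Sub Ω, ten U C = (pw ρ' U).map (mat M)) {l : ρ' → F} (hl : l ≠ 0) :
    Matrix.vecMul l M ∉ Θ := by
  intro h
  have h1 : dir (Matrix.vecMul l M) (1 : Ω) ∈ ten (⊤ : Sub Ω) Θ := dir_mem_ten h trivial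
  have h2 : dir (Matrix.vecMul l M) (1 : Ω) ∈ ten (⊤ : Sub Ω) C := by
    rw [hM', ← mat_dir]
    exact ⟨dir l 1, dir_mem_pw l trivial, rfl⟩
  have h3 : dir (Matrix.vecMul l M) (1 : Ω) ∈ ten ((⊤ : Sub Ω) ⊓ ⊤) (Θ ⊓ C) := by
    rw [ten_inf]
    exact ⟨h1, h2⟩
  rw [hC.inf_eq_bot, ten_bot, Submodule.mem_bot, ← mat_dir] at h3
  exact red_one_ne (dir_eq_zero hl (hM (h3.trans (map_zero _).symm)))

end aux2

/-- Let `Z` come from `Df.split`, `Z₀ = rt Z`, `Ψ` the largest optimizer of `Z₀` (`Gen.opt`),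
constant `= Θ` from `j₀` on (`sq_stab`), `C` a complement of `Θ`, `M` the matrix of a basis of `C`
(`exists_ten_eq`), and `N = {(u, p, q) | (u, mat M p, mat M q) ∈ Z ⊔ (⊥ × box Ψ)}`.
* `a`: if `(u, p, ap b p) = (u, p₁, q₁) + (0, p₂, q₂)` then `q₁ - ap b p₁ ∈ fl Q Ψ`; subtract the
  element of `Z₀` given by `opt_onto`.
* `b'`: for `Y ≤ K` let `Λ` be an optimizer of `sec Z Y`, `Y' = Y ⊓ dom Z (box Λ)`.  Counting
  `Z ⊓ Y × graph` and `Z ⊓ Y × box Λ` in two ways gives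
  `rk Y + rk (Z₀ ⊓ graph) + rk (fl Q Λ) = rk Y' + rk (Z₀ ⊓ box Λ)`; with `gen_easy'` this forces
  `Y' = Y` and `Λ` optimal for `Z₀`, so `Λ ≤ Ψ`.
* `c`: an optimizer `Λ` of `sec Z U` is `rk U`-optimal for `Z₀`, so `Λ n ≤ Ψ n` for
  `n ≤ max j j₀`; `opt_le` and `fl_le_sup` give `p ∈ fl P Ψ ⊔ pw (P (max j j₀ + 1))`, and
  `pw U = ten U Θ ⊔ ten U C`.
* `dQ`, `dP`: if `l ≠ 0` and `T = 0 × Q j l` (or `P j l × 0`) lies in `Z₀ ⊔ box Ψ` with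
  `l' = vecMul l M ∉ Θ`, put `Λ n = Ψ n ⊔ (if j ≤ n then span l' else ⊥)`.  By the modular law and a
  functional from `exists_perp` (`dot_fl`), `rk (Z₀ ⊓ box Λ) ≥ rk (Z₀ ⊓ box Ψ) + rk T` and
  `rk (fl Q Λ) ≤ rk (fl Q Ψ) + rk (Q j)`, so `Λ` is optimal and `Λ ≤ Ψ`, a contradiction. -/
theorem red (h : Gl G b P Q) {K : Submodule Ω E} (hK : Df (insert b G) K) :
    ∃ (r : ℕ) (N : Submodule Ω (E × (Fin r → Ω) × (Fin r → Ω))), Red G b P Q K N := by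
  obtain ⟨r, Z, hZ, hKZ⟩ := hK.split
  obtain ⟨Ψ, hΨ, he, hopt⟩ := h.gen.opt h.fP h.fQ hZ.rt
  obtain ⟨j₀, hj₀⟩ := sq_stab hΨ
  obtain ⟨C, hC⟩ := Submodule.exists_isCompl (Ψ j₀)
  obtain ⟨M, hM, hM'⟩ := exists_ten_eq (Ω := Ω) C
  have hm : ∀ Λ : Sq (Fin r), Monotone Λ →
      rk (rt Z ⊓ (ap b).graph) + rk (fl Q Λ) ≤ rk (rt Z ⊓ box P Q Λ) → Λ ≤ Ψ := by
    intro Λ hΛ hle n
    obtain ⟨ε, hε, h1⟩ := hopt n
    exact h1 Λ hΛ (by linarith) n le_rfl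
  have hΘ : ∀ n, Ψ n ≤ Ψ j₀ := by
    intro n
    rcases le_total n j₀ with h1 | h1
    · exact hΨ h1
    · exact (hj₀ n h1).le
  have hdom : dom Z (ap b).graph = K := by
    ext u
    rw [mem_dom, hKZ]
    constructor
    · rintro ⟨⟨p, q⟩, h1, h2⟩
      have h3 : q = ap b p := h1
      exact ⟨p, h3 ▸ h2⟩
    · rintro ⟨p, h1⟩
      exact ⟨(p, ap b p), rfl, h1⟩
  have hmem : ∀ (u : E) (p q : Fin (Module.finrank F C) → Ω),
      (u, p, q) ∈ (Z ⊔ (⊥ : Submodule Ω E).prod (box P Q Ψ)).comap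
        ((LinearMap.id : E →ₗ[Ω] E).prodMap ((mat M).prodMap (mat M))) ↔
      ∃ y ∈ box P Q Ψ, (u, (mat M p, mat M q) - y) ∈ Z := fun u p q => red_mem
  have hperp : ∀ l : Fin (Module.finrank F C) → F, l ≠ 0 → ∀ R : ℕ → Sub Ω, ∀ u : Ω,
      dir (Matrix.vecMul l M) u ∈ fl R Ψ → u = 0 := by
    intro l hl R u hu
    obtain ⟨φ, hφ, hφ'⟩ := exists_perp (red_notMem hC hM hM' hl)
    have h1 := dot_fl (fun n l' hl' => hφ l' (hΘ n hl')) hu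
    rwa [dot_dir, hφ', one_smul] at h1
  refine ⟨Module.finrank F C, (Z ⊔ (⊥ : Submodule Ω E).prod (box P Q Ψ)).comap
    ((LinearMap.id : E →ₗ[Ω] E).prodMap ((mat M).prodMap (mat M))),
    (hZ.sup (Df.bot.prod (Df.box h.fP.anti h.fQ.anti h.dP h.dQ hΨ))).comap_sc _,
    ?_, ?_, ?_, ?_, ?_⟩
  · intro u p hp
    obtain ⟨⟨p₂, q₂⟩, ⟨h1, h2⟩, h3⟩ := (hmem u p _).1 hp
    have h4 : ap b p₂ - q₂ ∈ fl Q Ψ := Submodule.sub_mem _ (fl_map_le h.gen.1 Ψ h1) h2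
    obtain ⟨p', q', h5, h6⟩ := opt_onto h.fP h.fQ h.gen.1 hZ.rt.fg hΨ he.le h4
    refine (hKZ u).2 ⟨mat M p - p₂ - p', ?_⟩
    have h7 := Z.sub_mem h3 (mem_rt.1 h5)
    have h8 : ap b (mat M p - p₂ - p') = mat M (ap b p) - q₂ - q' := by
      rw [map_sub, map_sub, mat_ap, eq_add_of_sub_eq h6]
      abel
    rw [h8]
    simpa using h7
  · intro Y hY hYK u hu
    obtain ⟨Λ, hΛ, -, e1⟩ := red_sec h hZ hY
    rw [hdom, inf_eq_left.2 hYK] at e1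
    have e2 := gen_easy' h.fP h.fQ h.gen.1 hZ.rt.fg hΛ
    have e3 : rk (rt Z ⊓ box P Q Λ ⊓ (ap b).graph) ≤ rk (rt Z ⊓ (ap b).graph) :=
      rk_mono (inf_le_inf_right _ inf_le_left)
    have e4 : rk (Y ⊓ dom Z (box P Q Λ)) ≤ rk Y := rk_mono inf_le_left
    have e5 : Y ⊓ dom Z (box P Q Λ) = Y :=
      eq_of_le_of_rk_le (fg_inf hY.fg (fg_dom hZ.fg (fg_box h.fP h.fQ hΛ))) hY.fg inf_le_left
        (by linarith)
    have e6 : Λ ≤ Ψ := hm Λ hΛ (by linarith)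
    rw [← e5] at hu
    obtain ⟨x, hx, hx'⟩ := mem_dom.1 hu.2
    refine (hmem u 0 0).2 ⟨-x, Submodule.neg_mem _ (red_box_mono P Q e6 hx), ?_⟩
    rw [map_zero, sub_neg_eq_add]
    have e7 : (((0 : Fin r → Ω), (0 : Fin r → Ω)) + x) = x := zero_add x
    rw [e7]
    exact hx'
  · intro j
    obtain ⟨ε, hε, h1⟩ := hopt (max j j₀)
    refine ⟨ε, hε, fun U hU hUε u huK huU => ?_⟩
    obtain ⟨Λ, hΛ, e0, e1⟩ := red_sec h hZ hU
    have e2 := rk_nonneg (U ⊓ dom Z (ap b).graph)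
    have e3 : rk (U ⊓ dom Z (box P Q Λ)) ≤ rk U := rk_mono inf_le_left
    have e4 := h1 Λ hΛ (by linarith)
    obtain ⟨p, hp⟩ := (hKZ u).1 huK
    have e5 : p ∈ fl P Λ := (e0 (x := (p, ap b p)) ⟨mem_sec.2 ⟨u, huU, hp⟩, rfl⟩).1
    have e6 : fl P Ψ ⊔ pw (Fin r) (P (max j j₀ + 1)) ≤
        fl P Ψ ⊔ (pw _ (P j)).map (mat M) := by
      refine sup_le le_sup_left ?_
      rw [← ten_top, ← hC.sup_eq_top, ten_sup, ← hM']
      refine sup_le_sup ?_ (ten_mono (h.fP.anti (by omega)) le_rfl)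
      rw [← hj₀ (max j j₀ + 1) (by omega)]
      exact ten_le_fl P Ψ _
    obtain ⟨p₂, hp₂, _, ⟨p', hp', rfl⟩, e7⟩ :=
      Submodule.mem_sup.1 (e6 (fl_le_sup h.fP.anti e4 e5))
    refine ⟨p', hp', (hmem u p' _).2 ⟨-(p₂, ap b p₂),
      Submodule.neg_mem _ ⟨hp₂, fl_map_le h.gen.1 Ψ hp₂⟩, ?_⟩⟩
    rw [sub_neg_eq_add, mat_ap, Prod.mk_add_mk, ← map_add, add_comm, e7]
    exact hp
  · rintro ⟨l, hl, _, ⟨j, rfl⟩, hdir⟩
    refine red_notMem hC hM hM' hl (hΘ j (red_dir h.fP h.fQ hZ.rt.fg hΨ he hm _ j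
      (T := (⊥ : Submodule Ω (Fin r → Ω)).prod ((Q j).map (dir (Matrix.vecMul l M))))
      (Submodule.fg_bot.prod ((h.fQ.fg j).map _)) ?_ ?_ ?_ ?_))
    · rintro ⟨p, _⟩ ⟨hp, u, hu, rfl⟩
      have hp' : p = 0 := hp
      obtain ⟨y, h1, h2⟩ := (hmem 0 0 (dir l u)).1 (hdir u hu)
      rw [map_zero, mat_dir] at h2
      exact Submodule.mem_sup.2 ⟨_, mem_rt.2 h2, y, h1, by rw [hp', sub_add_cancel]⟩
    · rw [eq_bot_iff]
      rintro ⟨p, _⟩ ⟨⟨-, h1⟩, hp, u, hu, rfl⟩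
      have hp' : p = 0 := hp
      rw [hp', hperp l hl Q u h1, map_zero]
      exact Submodule.zero_mem _
    · unfold box
      rw [redLine_fl h.fQ.anti]
      exact Submodule.prod_mono bot_le le_rfl
    · rw [rk_prod Submodule.fg_bot ((h.fQ.fg j).map _), rk_bot, zero_add]
  · rintro hQP ⟨l, hl, _, ⟨j, rfl⟩, hdir⟩
    refine red_notMem hC hM hM' hl (hΘ j (red_dir h.fP h.fQ hZ.rt.fg hΨ he hm _ j
      (T := ((P j).map (dir (Matrix.vecMul l M))).prod (⊥ : Submodule Ω (Fin r → Ω)))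
      (((h.fP.fg j).map _).prod Submodule.fg_bot) ?_ ?_ ?_ ?_))
    · rintro ⟨_, q⟩ ⟨⟨u, hu, rfl⟩, hq⟩
      have hq' : q = 0 := hq
      obtain ⟨y, h1, h2⟩ := (hmem 0 (dir l u) 0).1 (hdir u hu)
      rw [map_zero, mat_dir] at h2
      exact Submodule.mem_sup.2 ⟨_, mem_rt.2 h2, y, h1, by rw [hq', sub_add_cancel]⟩
    · rw [eq_bot_iff]
      rintro ⟨_, q⟩ ⟨⟨h1, -⟩, ⟨u, hu, rfl⟩, hq⟩
      have hq' : q = 0 := hq
      rw [hq', hperp l hl P u h1, map_zero]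
      exact Submodule.zero_mem _
    · unfold box
      rw [redLine_fl h.fP.anti]
      exact Submodule.prod_mono le_rfl bot_le
    · rw [rk_prod ((h.fP.fg j).map _) Submodule.fg_bot, rk_bot, add_zero,
        rk_map_of_inj (h.fP.fg j) _ fun v _ hv => hperp l hl P v (hv ▸ Submodule.zero_mem _)]
      exact (rk_map_le (h.fQ.fg j) _).trans (hQP j)

lemma Red.lf_le {K : Submodule Ω E} {ρ : Type} [Fintype ρ]
    {N : Submodule Ω (E × (ρ → Ω) × (ρ → Ω))} (h : Red G b P Q K N) : lf N ≤ K := by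
  intro u hu
  refine h.a u 0 ?_
  rw [map_zero]
  exact hu

/-- the largest `G`-definable submodule of `K` -/
theorem exists_largest (h : Gl G b P Q) {K : Submodule Ω E} (hK : Df (insert b G) K) :
    ∃ K₀ : Submodule Ω E, Df G K₀ ∧ K₀ ≤ K ∧ ∀ Y, Df G Y → Y ≤ K → Y ≤ K₀ := by
  obtain ⟨r, N, hN⟩ := red h hK
  exact ⟨lf N, hN.df.lf, hN.lf_le, hN.b'⟩

end Pool.Agent.Lib.MP_57313b_al.Zf
end
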