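import Pool.Agent.Lib.MP_57313b_al.Zf.Ultra3
import Pool.Agent.Lib.MP_57313b_al.Zf.Red

-- part Pool.Agent.Lib.MP_57313b_al.Zf.Jg2
section

/-!
# Descent from the centre to the ground field
-/

set_option autoImplicit false

namespace Pool.Agent.Lib.MP_57313b_al.Zf

open Filter Topology

set_option linter.unusedSectionVars false

variable {Ω : Type} [Ring Ω] [Algebra F Ω] [RK Ω] {A : Type} {w : ℕ → Ω} {y : A → Ω}
variable {τ σ ρ : Type} [Fintype τ] [Fintype σ] [Fintype ρ]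

open Classical in
/-- the graded matrix attached to a family of coefficients -/
noncomputable def jg2G {S : Type} [Zero S] (l : ρ → A) (c : ρ × ρ → S) : Matrix ρ (ρ × ρ) S :=
  Matrix.of fun e q => if l e = l q.2 then c (e, q.1) else 0

open Classical in
lemma jg2_sum {S : Type} [AddCommMonoid S] (l : ρ → A) (v : A → ρ → S) :
    ∑ a ∈ Finset.univ.image l, (fun e => if l e = a then v a e else 0) = fun e => v (l e) e := by
  funext e
  rw [Finset.sum_apply, Finset.sum_ite_eq, if_pos (Finset.mem_image_of_mem _ (Finset.mem_univ e))]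

open Classical in
lemma jg2_vecMul {S : Type} [Ring S] (l : ρ → A) (C : Matrix ρ ρ S) (v : ρ → S) (q : ρ × ρ) :
    Matrix.vecMul v (jg2G l fun k => C k.1 k.2) q =
      Matrix.vecMul (fun e => if l e = l q.2 then v e else 0) C q.1 := by
  simp [jg2G, Matrix.vecMul, dotProduct]

open Classical in
lemma jg2_piece {S : Type} [Ring S] (l : ρ → A) (c : ρ × ρ → S) {v : ρ → S}
    (h : Matrix.vecMul v (jg2G l c) = 0) (a : A) :
    Matrix.vecMul (fun e => if l e = a then v e else 0) (jg2G l c) = 0 := by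
  funext q
  have := congrFun h q
  simp only [jg2G, Matrix.vecMul, dotProduct, Matrix.of_apply, Pi.zero_apply] at this ⊢
  by_cases ha : l q.2 = a
  · subst ha
    refine Eq.trans (Finset.sum_congr rfl fun e _ => ?_) this
    by_cases he : l e = l q.2 <;> simp [he]
  · refine Finset.sum_eq_zero fun e _ => ?_
    by_cases he : l e = l q.2 <;> simp [he, ha]

lemma jg2_ker (l : ρ → A) {L : Submodule Ω (ρ → Ω)}
    (hL : ∀ v ∈ L, ∀ Y : A → Ω, dg (Y ∘ l) v ∈ L) {C : Matrix ρ ρ Ω}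
    (hC : L = LinearMap.ker C.vecMulLinear) :
    L = LinearMap.ker (jg2G l fun k => C k.1 k.2).vecMulLinear := by
  classical
  ext v
  rw [LinearMap.mem_ker, Matrix.vecMulLinear_apply]
  constructor
  · intro hv
    funext q
    have := hL v hv fun a => if a = l q.2 then 1 else 0
    rw [hC, LinearMap.mem_ker, Matrix.vecMulLinear_apply] at this
    rw [jg2_vecMul]
    refine Eq.trans (congrArg (fun u => Matrix.vecMul u C q.1) (funext fun e => ?_))
      (congrFun this q.1)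
    simp
  · intro hv
    have := jg2_sum l fun _ => v
    rw [show v = _ from this.symm]
    refine L.sum_mem fun a ha => ?_
    obtain ⟨e, -, rfl⟩ := Finset.mem_image.1 ha
    rw [hC, LinearMap.mem_ker, Matrix.vecMulLinear_apply]
    funext e'
    exact (jg2_vecMul l C v (e', e)).symm.trans (congrFun hv _)

/-- the pencil of the graded matrix -/
noncomputable def jg2P (l : ρ → A) : Matrix ρ (ρ × ρ) (ℕ ⊕ ρ × ρ →₀ F) :=
  jg2G l fun k => Finsupp.single (Sum.inr k) 1

lemma jg2_evP (l : ρ → A) (c : ρ × ρ → Ω) : ev (jg2P l) (Sum.elim w c) = jg2G l c := by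
  ext e q
  simp only [ev, jg2P, jg2G, Matrix.map_apply, Matrix.of_apply]
  split_ifs <;> simp

/-- the pencil of a scalar matrix times the graded matrix -/
noncomputable def jg2Q (l : ρ → A) (α : Matrix τ ρ F) : Matrix τ (ρ × ρ) (ℕ ⊕ ρ × ρ →₀ F) :=
  Matrix.of fun t q => ∑ e, α t e • jg2P l e q

lemma jg2_evQ (l : ρ → A) (α : Matrix τ ρ F) (c : ρ × ρ → Ω) :
    ev (jg2Q l α) (Sum.elim w c) = α.map (algebraMap F Ω) * jg2G l c := by
  rw [← jg2_evP (w := w)]
  ext t q
  simp [ev, jg2Q, Matrix.mul_apply, Algebra.smul_def]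

lemma jg2_rk (B : Matrix τ σ (ℕ →₀ F)) (α β : Matrix τ ρ F) (l : ρ → A) (c : ρ × ρ → Ω) :
    rk (LinearMap.ker (ev B w).vecMulLinear ⊓
      (LinearMap.ker (jg2G l c).vecMulLinear).comap (mat α) ⊓
      (LinearMap.ker (jg2G l c).vecMulLinear).comap (mat β)) = Fintype.card τ -
      mr (ev ((B.map (Finsupp.mapDomain Sum.inl)).fromCols ((jg2Q l α).fromCols (jg2Q l β)))
        (Sum.elim w c)) := by
  have e : ev ((B.map (Finsupp.mapDomain Sum.inl)).fromCols ((jg2Q l α).fromCols (jg2Q l β)))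
      (Sum.elim w c) = (ev B w).fromCols ((α.map (algebraMap F Ω) * jg2G l c).fromCols
        (β.map (algebraMap F Ω) * jg2G l c)) := by
    rw [← jg2_evQ (w := w), ← jg2_evQ (w := w)]
    ext t (s | q | q)
    · simp [ev, Finsupp.linearCombination_mapDomain, Function.comp_def]
    · rfl
    · rfl
  rw [← rk_ker_vecMul, e]
  congr 1
  ext v
  simp only [Submodule.mem_inf, Submodule.mem_comap, LinearMap.mem_ker, ← vecMul_map,
    Matrix.vecMulLinear_apply, Matrix.vecMul_fromCols, Matrix.vecMul_vecMul, funext_iff,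
    Sum.forall, Sum.elim_inl, Sum.elim_inr, Pi.zero_apply, and_assoc]

lemma jg2_ten (l : ρ → A) (c : ρ × ρ → F) :
    LinearMap.ker (jg2G l fun k => algebraMap F Ω (c k)).vecMulLinear =
      ten ⊤ (LinearMap.ker (jg2G l c).vecMulLinear) := by
  ext v
  rw [mem_ten_ker, ← vecMul_map, LinearMap.mem_ker]
  congr! 3
  ext e q
  simp only [jg2G, Matrix.map_apply, Matrix.of_apply]
  split_ifs <;> simp

open Classical in
/-- Descent.  Take `C` from `bimod` and `C' e (e', e'') = if l e = l e'' then C e e' else 0`; still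
`L = ker C'` (use indicator functions `Y`).  Apply `CTR` with `κ = ρ × ρ`, `c (e, e') = C e e'` to the
pencils of `[ev B w | α C' | β C']` and of `C'`; let `Θ` be the kernel of the scalar matrix replacing
`C'` (`mem_ten_ker`, `vecMul_map`, `rk_ker_vecMul`, `rk_ten`). -/
theorem CTR.descent [IsSimpleRing Ω] (h : CTR w) (B : Matrix τ σ (ℕ →₀ F)) (α β : Matrix τ ρ F)
    (l : ρ → A) (L : Submodule Ω (ρ → Ω)) (hL : ∀ v ∈ L, ∀ Y : A → Ω, dg (Y ∘ l) v ∈ L)
    {ε : ℝ} (hε : 0 < ε) : ∃ Θ : Submodule F (ρ → F),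
      (∀ v ∈ Θ, ∀ a, (fun e => if l e = a then v e else 0) ∈ Θ) ∧
      rk (LinearMap.ker (ev B w).vecMulLinear ⊓ L.comap (mat α) ⊓ L.comap (mat β)) +
          Module.finrank F Θ ≤
        rk (LinearMap.ker (ev B w).vecMulLinear ⊓ (ten ⊤ Θ).comap (mat α) ⊓
          (ten ⊤ Θ).comap (mat β)) + rk L + ε := by
  obtain ⟨C, hc, hC⟩ := bimod L fun v hv x => hL v hv fun _ => x
  obtain ⟨c, h1, h2⟩ := h (ρ × ρ) _ _ _ _
    ((B.map (Finsupp.mapDomain Sum.inl)).fromCols ((jg2Q l α).fromCols (jg2Q l β))) (jg2P l)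
    (fun k => C k.1 k.2) (fun k => hc k.1 k.2) (ε / 2) (half_pos hε)
  refine ⟨LinearMap.ker (jg2G l c).vecMulLinear, fun v hv a => jg2_piece l c hv a, ?_⟩
  have h3 := rk_ten (fg_top (Ω := Ω) (E := Ω)) (LinearMap.ker (jg2G l c).vecMulLinear)
  rw [rk_top_one, one_mul] at h3
  rw [← h3, ← jg2_ten, jg2_ker l hL hC, jg2_rk, jg2_rk, rk_ker_vecMul, rk_ker_vecMul]
  rw [jg2_evP, jg2_evP] at h2
  linarith [(abs_le.1 h1).2, (abs_le.1 h2).1]

open Classical in
/-- a graded subspace gives a submodule that is stable under diagonal multiplication -/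
lemma dg_mem_ten (l : ρ → A) {Θ : Submodule F (ρ → F)}
    (hΘ : ∀ v ∈ Θ, ∀ a, (fun e => if l e = a then v e else 0) ∈ Θ) (Y : A → Ω) {v : ρ → Ω}
    (hv : v ∈ ten ⊤ Θ) : dg (Y ∘ l) v ∈ ten ⊤ Θ := by
  refine ten_le_iff.2 (fun θ hθ u _ => ?_ : ∀ θ ∈ Θ, ∀ u ∈ (⊤ : Sub Ω),
    dir θ u ∈ (ten ⊤ Θ).comap (dg (Y ∘ l))) hv
  have e : dg (Y ∘ l) (dir θ u) = ∑ a ∈ Finset.univ.image l,
      dir (fun e => if l e = a then θ e else 0) (u * Y a) := by
    refine Eq.trans ?_ ((jg2_sum l fun a e => θ e • (u * Y a)).symm.trans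
      (Finset.sum_congr rfl fun a _ => ?_)) <;> funext e
    · simp
    · by_cases he : l e = a <;> simp [he]
  rw [Submodule.mem_comap, e]
  exact Submodule.sum_mem _ fun a _ => dir_mem_ten (hΘ θ hθ a) trivial

end Pool.Agent.Lib.MP_57313b_al.Zf
end

-- part Pool.Agent.Lib.MP_57313b_al.Zf.Jg3
section

/-!
# The hidden letters are jointly free
-/

set_option autoImplicit false

namespace Pool.Agent.Lib.MP_57313b_al.Zf

open Filter Topology

set_option linter.unusedSectionVars false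

variable {Ω : Type} [Ring Ω] [Algebra F Ω] [RK Ω] {A : Type} {w : ℕ → Ω} {y : A → Ω}
variable {τ σ ρ : Type} [Fintype τ] [Fintype σ] [Fintype ρ]

/-- the three lemmas combined, and the equations `σ'` removed -/
lemma jg3_aux [IsSimpleRing Ω] (h : MIN w y) (h' : CTR w) (hw : w 0 = 1) {σ' : Type} [Fintype σ']
    (B : Matrix τ σ (ℕ →₀ F)) (α β : Matrix τ (σ' ⊕ ρ) F) (x : A) (a : σ' → A)
    (ha : ∀ j, a j ≠ x) {S : Submodule Ω (τ → Ω)} (π : (τ → Ω) →ₗ[Ω] (ρ → Ω) × (ρ → Ω))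
    (hS : ∀ z, z ∈ S ↔ (ev B w).vecMulLinear z = 0 ∧
      ∀ j, mat β z (.inl j) = mat α z (.inl j) * y (a j))
    (h1 : ∀ z i, (π z).1 i = mat α z (.inr i)) (h2 : ∀ z i, (π z).2 i = mat β z (.inr i))
    {ε : ℝ} (hε : 0 < ε) : ∃ Λ : Submodule F (ρ → F),
      rk (S ⊓ (ap (rm (y x))).graph.comap π) + rk (ten (⊤ : Sub Ω) Λ) ≤
        rk (S ⊓ ((ten ⊤ Λ).prod (ten ⊤ Λ)).comap π) + ε := by
  classical
  let l : σ' ⊕ ρ → A := Sum.elim a fun _ => x
  obtain ⟨L, hL, e1⟩ := wong l y (ev B w).vecMulLinear (mat α) (mat β) (h.chain hw B α β l)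
  obtain ⟨Θ, hΘ, e2⟩ := h'.descent B α β l L hL hε
  let M : Matrix (σ' ⊕ ρ) ρ F := fun e i => if e = .inr i then 1 else 0
  have hM : ∀ (v : σ' ⊕ ρ → Ω) i, mat M v i = v (.inr i) := fun v i => by
    rw [mat_apply]
    simp [M]
  have fT : (ten (⊤ : Sub Ω) Θ).FG := fg_ten fg_top Θ
  have e3 := rk_map_add fT (mat M)
  have e4 := ten_map_mat (⊤ : Sub Ω) Θ M
  have e5 := rk_ten (fg_top (Ω := Ω) (E := Ω)) Θ
  have e6 : S ⊓ (ap (rm (y x))).graph.comap π ≤
      LinearMap.ker ((ev B w).vecMulLinear.prod (mat β - dg (y ∘ l) ∘ₗ mat α)) := by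
    rintro z ⟨hz, hg⟩
    obtain ⟨z1, z2⟩ := (hS z).1 hz
    refine Prod.ext z1 (funext fun e => sub_eq_zero.2 ?_)
    cases e with
    | inl j => exact z2 j
    | inr i => exact (h2 z i).symm.trans ((congrFun hg i).trans (congrArg (· * y x) (h1 z i)))
  have e7 := rk_le_add (A := S ⊓ ((ten ⊤ (Θ.map M.vecMulLinear)).prod
      (ten ⊤ (Θ.map M.vecMulLinear))).comap π) (B := ten ⊤ Θ ⊓ LinearMap.ker (mat M))
    (fg_inf (fg_inf (fg_ker (ev B w).vecMulLinear) (fg_comap fT (mat α))) (fg_comap fT (mat β)))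
    (dg ((fun c => if c = x then 0 else 1) ∘ l) ∘ₗ (mat β - dg (y ∘ l) ∘ₗ mat α))
    (fun z hz h0 => ⟨(hS z).2 ⟨hz.1.1, fun j => by
        simpa [l, ha j, sub_eq_zero] using congrFun h0 (.inl j)⟩, by
      rw [← e4]
      exact ⟨⟨_, hz.1.2, funext fun i => (hM _ i).trans (h1 z i).symm⟩,
        ⟨_, hz.2, funext fun i => (hM _ i).trans (h2 z i).symm⟩⟩⟩)
    fun z hz => ⟨dg_mem_ten l hΘ _
      ((ten ⊤ Θ).sub_mem (x := mat β z) hz.2 (dg_mem_ten l hΘ y hz.1.2)),
      funext fun i => (hM _ i).trans (by simp [l])⟩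
  refine ⟨Θ.map M.vecMulLinear, ?_⟩
  rw [e4] at e3
  rw [rk_top_one, one_mul] at e5
  linarith [rk_mono e6]

/-- Write `Z` by `Df.elim`.  Let `σ` be the equations with letter `0` or `rm (w k)` (columns of a
matrix `B`), `σ'` the others, with letters `rm (y a)`, `a ≠ x`, and `ρ' = σ' ⊕ ρ` with `l (inr _) = x`,
where the two components of `π` give the last blocks of `α`, `β`.  Combine `MIN.chain`, `wong`,
`CTR.descent`.  The graded `Θ` splits as `Θ' × Λ`; remove the equations `σ'` by `rk_le_add` (the map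
`z ↦ β' z - dg (y ∘ l) (α' z)` goes into `ten ⊤ Θ'`), and pass from the solution module to its image
under `π` by `rk_inf_comap`.  Take the constant sequence `Λ` (`fl_bf`). -/
theorem free_of_min [IsSimpleRing Ω] (h : MIN w y) (h' : CTR w) (hw : w 0 = 1) (x : A) :
    Free (rm (y x)) (Set.range (fun k => rm (w k)) ∪ (fun a => rm (y a)) '' {x}ᶜ) := by
  classical
  refine ⟨fun n => ?_, fun ρ _ Z hZ ε hε => ?_⟩
  · unfold bf
    split_ifs
    exacts [le_top, (Submodule.map_bot _).le]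
  obtain ⟨n, m, g, α, β, π, hg, sα, sβ, sπ, hz⟩ := hZ.elim
  choose α' hα using fun j => Sc.exists_dot (α j)
  choose β' hβ using fun j => Sc.exists_dot (β j)
  obtain ⟨π₁, h1⟩ := Sc.exists_mat (LinearMap.fst Ω _ _ ∘ₗ π)
  obtain ⟨π₂, h2⟩ := Sc.exists_mat (LinearMap.snd Ω _ _ ∘ₗ π)
  let p : Fin m → Prop := fun j => ∃ a, a ≠ x ∧ g j = rm (y a)
  choose a ha using fun j : {j // p j} => j.2
  have hc : ∀ j : {j // ¬ p j}, ∃ c : ℕ →₀ F, g j = rm (Finsupp.linearCombination F w c) := by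
    rintro ⟨j, hj⟩
    rcases hg j with (⟨k, hk⟩ | ⟨c, hc, hk⟩) | h0
    · exact ⟨Finsupp.single k 1, by simp [← hk]⟩
    · exact absurd ⟨c, hc, hk.symm⟩ hj
    · exact ⟨0, h0.trans (LinearMap.ext fun u => by simp)⟩
  choose c hc using hc
  let S : Submodule Ω (Fin n → Ω) := ⨅ j, LinearMap.ker (β j - g j ∘ₗ α j)
  have mS : ∀ z, z ∈ S ↔ ∀ j, β j z = g j (α j z) := fun z => by simp [S, sub_eq_zero]
  have fS : S.FG := fg_iInf fun _ => fg_ker _
  have eZ : Z = S.map π := Submodule.ext fun u => by simp only [hz, Submodule.mem_map, mS]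
  have hB : ∀ z (j : {j // ¬ p j}), (ev (Matrix.of fun t (j : {j // ¬ p j}) =>
      β' j t • Finsupp.single 0 1 - α' j t • c j) w).vecMulLinear z j =
        β j z - g j (α j z) := fun z j => by
    rw [hc, hα, hβ, rm_apply, dot_apply, dot_apply, Finset.sum_mul, ← Finset.sum_sub_distrib]
    simp [ev, Matrix.vecMul, dotProduct, hw, mul_sub]
  obtain ⟨Λ, e⟩ := jg3_aux h h' hw _ (Matrix.of fun t => Sum.elim (fun j => α' j.1 t) (π₁ t))
    (Matrix.of fun t => Sum.elim (fun j => β' j.1 t) (π₂ t)) x a (fun j => (ha j).1) (S := S) π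
    (fun z => by
      have e : ∀ j : {j // p j}, β j z = g j (α j z) ↔
          mat (Matrix.of fun t => Sum.elim (fun j : {j // p j} => β' j.1 t) (π₂ t)) z (.inl j) =
          mat (Matrix.of fun t => Sum.elim (fun j : {j // p j} => α' j.1 t) (π₁ t)) z (.inl j) *
            y (a j) := fun j => by
        rw [(ha j).2, hα, hβ]
        rfl
      rw [mS]
      refine ⟨fun k => ⟨funext fun j => (hB z j).trans (sub_eq_zero.2 (k j)),
        fun j => (e j).1 (k j)⟩, fun k j => ?_⟩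
      by_cases hj : p j
      · exact (e ⟨j, hj⟩).2 (k.2 _)
      · exact sub_eq_zero.1 ((hB z ⟨j, hj⟩).symm.trans (congrFun k.1 _)))
    (fun z i => congrFun (LinearMap.congr_fun h1 z) i)
    (fun z i => congrFun (LinearMap.congr_fun h2 z) i) hε
  refine ⟨fun _ => Λ, monotone_const, ?_⟩
  have fT : (ten (⊤ : Sub Ω) Λ).FG := fg_ten fg_top Λ
  rw [rk_inf_comap fS (fg_graph _), rk_inf_comap fS (fT.prod fT), ← eZ] at e
  unfold box
  rw [fl_bf]
  linarith

end Pool.Agent.Lib.MP_57313b_al.Zf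
end
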