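import Pool.Agent.Lib.MP_57313b_al.Zf.Red
import Pool.Agent.Lib.MP_57313b_al.Zf.Df2

-- part Pool.Agent.Lib.MP_57313b_al.Zf.Dich1
section

/-!
# Maximal filters with scalar germs; transcendental germs
-/

set_option autoImplicit false

namespace Pool.Agent.Lib.MP_57313b_al.Zf

open Filter Topology

set_option linter.unusedSectionVars false

variable {Ω : Type} [Ring Ω] [Algebra F Ω]
variable {G : Set (En Ω)} {𝒢 : Set (Sub Ω)}

/-- Suppose `Z ⊓ pw U ≠ ⊥` for all `U ∈ 𝒢`.  Take a finset `s` minimal such that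
`Z s = Z ⊓ {v | v i = 0 for i ∉ s}` still has this property; `s ≠ ∅`; fix `i₀ ∈ s` and `U₀` with
`Z (s.erase i₀) ⊓ pw U₀ = ⊥`.  Extend `{(v i₀, v) | v ∈ Z s ⊓ pw U₀}` to `τ` (`CM.ext`).  For
`U ≤ U₀` in `𝒢` the projection of `Z s ⊓ pw U` to the coordinate `i₀` is in `𝒢` (`MaxF.mem`), so all
coordinates of `τ` are germs, hence scalars `l i` on a member; `l ≠ 0` is a direction of `Z`. -/
lemma MaxF.ex_of_scalar (h : MaxF G 𝒢) (hG : CM G)
    (hs : ∀ a : En Ω, Dm G a → Germ a 𝒢 𝒢 → ∃ c : F, ∃ U ∈ 𝒢, ∀ u ∈ U, a u = c • u) :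
    Ex G 𝒢 := by
  classical
  intro ρ _ Z hZ hnd
  obtain ⟨Y, hY⟩ : ∃ Y : Finset ρ → Submodule Ω (ρ → Ω), Y = fun s =>
      Z ⊓ Submodule.pi Set.univ fun i => if i ∈ s then ⊤ else ⊥ := ⟨_, rfl⟩
  have hm : ∀ s v, v ∈ Y s ↔ v ∈ Z ∧ ∀ i, i ∉ s → v i = 0 := fun s v => by
    simp only [hY, Submodule.mem_inf, Submodule.mem_pi, Set.mem_univ, true_imp_iff]
    refine and_congr_right fun _ => forall_congr' fun i => ?_
    by_cases e : i ∈ s <;> simp [e]
  have hd : ∀ s, Df G (Y s) := fun s => by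
    rw [hY]
    refine hZ.inf (Df.pi fun i => ?_)
    split_ifs
    exacts [Df.top, Df.bot]
  have key : ∀ s, ∃ U ∈ 𝒢, Y s ⊓ pw ρ U = ⊥ := fun s => by
    induction s using Finset.induction_on with
    | empty =>
      obtain ⟨U, hU⟩ := h.base.1.1
      exact ⟨U, hU, eq_bot_iff.2 fun v hv => funext fun i => ((hm _ v).1 hv.1).2 i (by simp)⟩
    | insert i₀ s _ ih =>
      obtain ⟨U₀, hU₀, h0⟩ := ih
      by_contra hc
      push Not at hc
      have h1 : ∀ v ∈ Y (insert i₀ s), v ∈ pw ρ U₀ → v i₀ = 0 → v = 0 := fun v hv hv' hi => by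
        refine (Submodule.eq_bot_iff _).1 h0 v ⟨(hm _ v).2 ⟨((hm _ v).1 hv).1, fun i hi' => ?_⟩, hv'⟩
        by_cases e : i = i₀
        · rw [e, hi]
        · exact ((hm _ v).1 hv).2 i (by simp [e, hi'])
      obtain ⟨T, hT, hT'⟩ : ∃ T : Submodule Ω (Ω × (ρ → Ω)), Df G T ∧
          ∀ u v, (u, v) ∈ T ↔ v ∈ Y (insert i₀ s) ∧ v i₀ = u :=
        ⟨(Y (insert i₀ s)).map ((LinearMap.proj i₀).prod LinearMap.id), (hd _).map_sc _,
          fun u v => ⟨by rintro ⟨x, hx, ⟨⟩⟩; exact ⟨hx, rfl⟩,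
            by rintro ⟨hx, rfl⟩; exact ⟨v, hx, rfl⟩⟩⟩
      obtain ⟨τ, t1, t2, t3, U₁, hU₁, t4⟩ := tau hG (h.base.pws ρ) h.base.1 hT
        ⟨_, ⟨U₀, hU₀, rfl⟩, eq_bot_iff.2 fun v hv =>
          h1 v ((hT' 0 v).1 hv.2).1 hv.1 ((hT' 0 v).1 hv.2).2⟩
        (by
          rintro _ ⟨U, hU, rfl⟩
          refine ⟨_, h.mem (hT.dom (h.base.2 U hU).pw) fun U' hU' => ?_, le_rfl⟩
          obtain ⟨V, hV, a1⟩ := h.base.1.2 U hU U' hU'
          obtain ⟨V', hV', a2⟩ := h.base.1.2 V hV U₀ hU₀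
          obtain ⟨v, hv, hv0⟩ := (Submodule.ne_bot_iff _).1 (hc V' hV')
          have a3 := mem_pw.1 hv.2
          refine (Submodule.ne_bot_iff _).2 ⟨v i₀, ⟨(a1 (a2 (a3 _)).1).2, mem_dom.2
            ⟨v, mem_pw.2 fun i => (a1 (a2 (a3 i)).1).1, (hT' _ v).2 ⟨hv.1, rfl⟩⟩⟩, fun e => ?_⟩
          exact hv0 (h1 v hv.1 (mem_pw.2 fun i => (a2 (a3 i)).2) e))
        (fun U hU e => h.prop (by
          rwa [← show U = ⊥ from eq_bot_iff.2 fun u hu => ((hT' u 0).1 (e hu)).2.symm]))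
      choose l W hW hl using fun i => hs (LinearMap.proj i ∘ₗ τ) ((Dm.sc _).comp t1) fun V hV => by
        obtain ⟨U, hU, e⟩ := t2 _ ⟨V, hV, rfl⟩
        exact ⟨U, hU, by rintro _ ⟨u, hu, rfl⟩; exact mem_pw.1 (e ⟨u, hu, rfl⟩) i⟩
      obtain ⟨V, hV, a1⟩ := h.base.1.fin hW
      obtain ⟨V', hV', a2⟩ := h.base.1.2 V hV U₁ hU₁
      have e : ∀ u ∈ V', τ u = dir l u := fun u hu => funext fun i => hl i u (a1 i (a2 hu).1)
      refine hnd ⟨l, fun e0 => t3 V' hV' fun u hu => ?_, V', hV', fun u hu => ?_⟩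
      · rw [LinearMap.mem_ker, e u hu, e0, dir_zero]
      · rw [← e u hu]
        exact ((hm _ _).1 ((hT' _ _).1 (t4 u (a2 hu).2)).1).1
  obtain ⟨U, hU, e⟩ := key Finset.univ
  exact ⟨U, hU, eq_bot_iff.2 fun v hv => e.le ⟨(hm _ v).2 ⟨hv.1, by simp⟩, hv.2⟩⟩

/-- `hp` for `ker f` gives `U₀`, `k`.  Let `Z` be the image of `U₀` under
`u ↦ (f (a ^ i u))_{i : Fin (k+2)}` and `Θ` its directions for `img f 𝒢` (`exists_dirs`).  The last
basis vector is not in `Θ` (else `u = 0` but `f (a ^ (k+1) u)` is an arbitrary element of some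
`V.map f ≠ ⊥`).  Take `φ` from `exists_perp`; by `Ex.spl` and `mem_ten`, `f ∘ pol φ a` vanishes on a
member of `𝒢`; the second part of `ZD` then contradicts `NZ f 𝒢`. -/
theorem zf (hb : Base G 𝒢) {a f : En Ω} (ha : Dm G a) (hf : Dm G f) (hz : ZD 𝒢 a)
    (hp : ZP G 𝒢 a) (hn : NZ f 𝒢) : ¬ Ex G (img f 𝒢) := by
  intro he
  rcases hp _ hf.ker with ⟨U, hU, e⟩ | ⟨U₀, hU₀, k, hk⟩
  · exact hn U hU e
  obtain ⟨Φ, hΦ, hΦ'⟩ : ∃ Φ : Ω →ₗ[Ω] (Fin (k + 2) → Ω), Dm G Φ ∧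
      ∀ u i, Φ u i = f ((a ^ (i : ℕ)) u) :=
    ⟨LinearMap.pi fun i => f ∘ₗ a ^ (i : ℕ), Dm.pi fun i => hf.comp (ha.pow _), fun _ _ => rfl⟩
  obtain ⟨Θ, hΘ, -⟩ := exists_dirs (hb.1.img f) (U₀.map Φ)
  have h1 : Pi.single (Fin.last (k + 1)) (1 : F) ∉ Θ := fun h1 => by
    obtain ⟨_, ⟨V, hV, rfl⟩, h2⟩ := (hΘ _).1 h1
    refine hn V hV fun v hv => ?_
    obtain ⟨u, hu, e⟩ := h2 (f v) ⟨v, hv, rfl⟩
    have h3 : u = 0 := hk u hu fun i hi => by
      have := congrFun e ⟨i, by omega⟩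
      rwa [hΦ', dir_apply, Pi.single_eq_of_ne (by simp [Fin.ext_iff]; omega), zero_smul] at this
    have := congrFun e (Fin.last (k + 1))
    rw [h3, map_zero, dir_apply, Pi.single_eq_same, one_smul] at this
    exact this.symm
  obtain ⟨φ, h2, h3⟩ := exists_perp h1
  obtain ⟨_, ⟨V, hV, rfl⟩, h4⟩ := he.spl (hb.1.img f) ((hb.2 U₀ hU₀).map hΦ) hΘ
  choose W hW hW' using fun i : Fin (k + 2) => hz.1.pow i V hV
  obtain ⟨U, hU, a1⟩ := hb.1.fin hW
  obtain ⟨U', hU', a2⟩ := hb.1.2 U hU U₀ hU₀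
  obtain ⟨U'', hU'', a3⟩ := (hz.2 _ φ (by rintro rfl; simp at h3)).2 _ ⟨U', hU', rfl⟩
  refine hn U'' hU'' fun x hx => ?_
  obtain ⟨u, hu, rfl⟩ := a3 hx
  have h5 := (mem_ten.1 (h4 (x := Φ u) ⟨⟨u, (a2 hu).2, rfl⟩, mem_pw.2 fun i =>
    ⟨_, hW' i ⟨u, a1 i (a2 hu).1, rfl⟩, (hΦ' u i).symm⟩⟩)).2 φ h2
  simpa [dot_apply, hΦ', pol, en_smul] using h5

end Pool.Agent.Lib.MP_57313b_al.Zf
end

-- part Pool.Agent.Lib.MP_57313b_al.Zf.Dich2
section

/-!
# The dichotomy for maximal filters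
-/

set_option autoImplicit false

namespace Pool.Agent.Lib.MP_57313b_al.Zf

open Filter Topology

set_option linter.unusedSectionVars false

variable {Ω : Type} [Ring Ω] [Algebra F Ω]
variable {G : Set (En Ω)} {𝒢 : Set (Sub Ω)}

lemma dich2_inj (h : MaxF G 𝒢) {f : En Ω} (hf : Dm G f) (hn : NZ f 𝒢) :
    ∃ U ∈ 𝒢, U ⊓ LinearMap.ker f = ⊥ :=
  (h.max _ hf.ker).resolve_left fun hk => hn _ hk le_rfl

lemma dich2_map (h : MaxF G 𝒢) {f : En Ω} (hf : Dm G f) (hg : Germ f 𝒢 𝒢) (hn : NZ f 𝒢)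
    {U : Sub Ω} (hU : U ∈ 𝒢) : U.map f ∈ 𝒢 := by
  refine h.mem ((h.base.2 U hU).map hf) fun V hV hb => ?_
  obtain ⟨U', hU', hle⟩ := hg V hV
  obtain ⟨W, hW, hWle⟩ := h.base.1.2 U hU U' hU'
  refine hn W hW fun u hu => ?_
  have : f u ∈ V ⊓ U.map f :=
    ⟨hle (Submodule.mem_map_of_mem (hWle hu).2), Submodule.mem_map_of_mem (hWle hu).1⟩
  rw [hb] at this
  exact this

lemma dich2_aeval (h : MaxF G 𝒢) {a : En Ω} (ha : Dm G a) (hg : Germ a 𝒢 𝒢)
    (hs : ¬ ∃ c : F, ∃ U ∈ 𝒢, ∀ u ∈ U, a u = c • u) (n : ℕ) (p : Polynomial F) (hp : p ≠ 0)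
    (hn : p.natDegree = n) :
    Dm G (Polynomial.aeval a p : En Ω) ∧ Germ (Polynomial.aeval a p : En Ω) 𝒢 𝒢 ∧
      NZ (Polynomial.aeval a p : En Ω) 𝒢 := by
  have hal : ∀ c : F, (algebraMap F (En Ω) c : En Ω) = c • LinearMap.id := fun c => by
    rw [Algebra.algebraMap_eq_smul_one]; rfl
  induction n generalizing p with
  | zero =>
    rw [Polynomial.eq_C_of_natDegree_eq_zero hn] at hp ⊢
    have hc : p.coeff 0 ≠ 0 := fun e => hp (by rw [e, map_zero])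
    rw [Polynomial.aeval_C, hal]
    refine ⟨Dm.sc _, fun V hV => ⟨V, hV, ?_⟩, fun U hU hle => h.prop ?_⟩
    · rintro _ ⟨u, hu, rfl⟩
      exact smul_mem_sub _ hu
    · have : U = ⊥ := by
        refine (Submodule.eq_bot_iff _).2 fun u hu => ?_
        have h1 : p.coeff 0 • u = 0 := hle hu
        exact (smul_eq_zero.1 h1).resolve_left hc
      exact this ▸ hU
  | succ n ih =>
    obtain ⟨r, hr⟩ := IsAlgClosed.exists_root p (by
      rw [Polynomial.degree_eq_natDegree hp, hn]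
      exact_mod_cast Nat.succ_ne_zero n)
    obtain ⟨q, rfl⟩ := Polynomial.dvd_iff_isRoot.2 hr
    have hq : q ≠ 0 := right_ne_zero_of_mul hp
    obtain ⟨h1, h2, h3⟩ := ih q hq (by
      rw [Polynomial.natDegree_mul (left_ne_zero_of_mul hp) hq, Polynomial.natDegree_X_sub_C] at hn
      omega)
    have e1 : Dm G (a - r • LinearMap.id : En Ω) := ha.sub (Dm.sc _)
    have e2 : Germ (a - r • LinearMap.id : En Ω) 𝒢 𝒢 := by
      intro V hV
      obtain ⟨U, hU, hle⟩ := hg V hV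
      obtain ⟨W, hW, hWle⟩ := h.base.1.2 U hU V hV
      refine ⟨W, hW, ?_⟩
      rintro _ ⟨u, hu, rfl⟩
      exact V.sub_mem (hle (Submodule.mem_map_of_mem (hWle hu).1)) (smul_mem_sub r (hWle hu).2)
    have e3 : NZ (a - r • LinearMap.id : En Ω) 𝒢 := fun U hU hle =>
      hs ⟨r, U, hU, fun u hu => sub_eq_zero.1 (show a u - r • u = 0 from hle hu)⟩
    rw [map_mul, map_sub, Polynomial.aeval_X, Polynomial.aeval_C, hal]
    exact ⟨e1.comp h1, e2.comp h2, h3.comp h.base.1 h2 (dich2_inj h e1 e3)⟩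

/-- Call `f` good if it is a definable germ `𝒢 → 𝒢` with `NZ f 𝒢`.  A good `f` is injective on a
member (`h.max` for `ker f`) and `U.map f ∈ 𝒢` for `U ∈ 𝒢` (`MaxF.mem`); good maps are closed under
composition (`NZ.comp`).  Each `a - c` is good, nonzero scalars are good, and a nonzero polynomial
over the algebraically closed field `F` is a product of these
(`pol c a = Polynomial.aeval a (∑ s, Polynomial.monomial s (c s))`). -/
lemma MaxF.zd (h : MaxF G 𝒢) {a : En Ω} (ha : Dm G a) (hg : Germ a 𝒢 𝒢)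
    (hs : ¬ ∃ c : F, ∃ U ∈ 𝒢, ∀ u ∈ U, a u = c • u) : ZD 𝒢 a := by
  refine ⟨hg, fun m c hc => ?_⟩
  have hp : (∑ s : Fin m, Polynomial.monomial (s : ℕ) (c s)) ≠ 0 := by
    intro h0
    apply hc
    funext i
    have := congrArg (fun p => Polynomial.coeff p i) h0
    simpa [Polynomial.finsetSum_coeff, Polynomial.coeff_monomial, Fin.val_inj] using this
  have he : pol c a = Polynomial.aeval a (∑ s : Fin m, Polynomial.monomial (s : ℕ) (c s)) := by
    simp [pol, Polynomial.aeval_monomial, Algebra.smul_def]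
  obtain ⟨h1, h2, h3⟩ := dich2_aeval h ha hg hs _ _ hp rfl
  rw [← he] at h1 h2 h3
  refine ⟨dich2_inj h h1 h3, ?_⟩
  rintro _ ⟨U, hU, rfl⟩
  exact ⟨_, dich2_map h h1 h2 h3 hU, le_rfl⟩

theorem MaxF.dich (h : MaxF G 𝒢) (hG : CM G) : Ex G 𝒢 ∨ ∃ a, Dm G a ∧ ZD 𝒢 a := by
  by_cases hs : ∀ a : En Ω, Dm G a → Germ a 𝒢 𝒢 → ∃ c : F, ∃ U ∈ 𝒢, ∀ u ∈ U, a u = c • u
  · exact Or.inl (h.ex_of_scalar hG hs)
  · push Not at hs
    obtain ⟨a, h1, h2, h3⟩ := hs
    refine Or.inr ⟨a, h1, h.zd h1 h2 ?_⟩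
    rintro ⟨c, U, hU, hc⟩
    obtain ⟨u, hu, hne⟩ := h3 c U hU
    exact hne (hc u hu)

end Pool.Agent.Lib.MP_57313b_al.Zf
end

-- part Pool.Agent.Lib.MP_57313b_al.Zf.BaseW1
section

/-!
# The base letters: structure lemma
-/

set_option autoImplicit false

namespace Pool.Agent.Lib.MP_57313b_al.Zf

open Filter Topology

set_option linter.unusedSectionVars false

variable {Ω : Type} [Ring Ω] [Algebra F Ω] [RK Ω] {w : ℕ → En Ω} {G : Set (En Ω)}

/-- the atoms of level `m` -/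
def atom (w : ℕ → En Ω) (m : ℕ) (k : Fin (m + 1)) : En Ω :=
  if (k : ℕ) < m then w k - w (k + 1) else w m

lemma df_WF (h : Set.range w ⊆ G) (n : ℕ) : Df G (WF w n) :=
  (Dm.letter (h ⟨n, rfl⟩)).range

lemma baseW1_ww (h : BW w) (j k : ℕ) (u : Ω) : w j (w k u) = w (max j k) u :=
  LinearMap.congr_fun (h.comp j k) u

lemma BW.rk_WF (h : BW w) (n : ℕ) : rk (WF w n) = 1 / 2 ^ n := h.rank n

lemma BW.flag (h : BW w) : Flag (WF w) := by
  refine ⟨by rw [WF, h.zero, LinearMap.range_id], fun j k hjk => ?_, fun n => fg_range _, ?_⟩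
  · rintro _ ⟨u, rfl⟩
    exact ⟨w k u, by rw [baseW1_ww h, max_eq_right hjk]⟩
  · simp only [h.rk_WF, ← one_div_pow]
    exact tendsto_pow_atTop_nhds_zero_of_lt_one (by norm_num) (by norm_num)

lemma BW.ne (h : BW w) (n : ℕ) : WF w n ≠ ⊥ := by
  intro h0
  have h1 := h.rk_WF n
  rw [h0, rk_bot] at h1
  exact absurd h1 (by positivity : (0 : ℝ) < 1 / 2 ^ n).ne

lemma BW.base (h : BW w) (hG : Set.range w ⊆ G) : Base G (Set.range (WF w)) :=
  base_range h.flag.anti (df_WF hG)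

lemma BW.sum_atom (h : BW w) (m : ℕ) (u : Ω) : ∑ k, atom w m k u = u := by
  rw [Fin.sum_univ_castSucc]
  simp only [atom, Fin.val_castSucc, Fin.is_lt, if_true, Fin.val_last, lt_irrefl, if_false,
    LinearMap.sub_apply]
  rw [Fin.sum_univ_eq_sum_range (fun k => w k u - w (k + 1) u) m,
    Finset.sum_range_sub' fun k => w k u, h.zero, LinearMap.id_apply, sub_add_cancel]

lemma baseW1_atom (h : BW w) {m j : ℕ} (hj : j ≤ m) (k : Fin (m + 1)) (u : Ω) :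
    w j (atom w m k u) = (if j ≤ k then atom w m k u else 0) ∧
      atom w m k (w j u) = if j ≤ k then atom w m k u else 0 := by
  have hk := k.is_lt
  unfold atom
  split_ifs with h1 h2 h2
  · simp only [LinearMap.sub_apply, map_sub, baseW1_ww h, max_eq_right h2, max_eq_left h2,
      max_eq_right (h2.trans (Nat.le_succ _)), max_eq_left (h2.trans (Nat.le_succ _)), and_self]
  · have h3 : (k : ℕ) + 1 ≤ j := by omega
    have h4 : (k : ℕ) ≤ j := by omega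
    simp only [LinearMap.sub_apply, map_sub, baseW1_ww h, max_eq_right h3, max_eq_left h3,
      max_eq_right h4, max_eq_left h4, sub_self, and_self]
  · simp only [baseW1_ww h, max_eq_right hj, max_eq_left hj, and_self]
  · omega

lemma BW.atom_atom (h : BW w) (m : ℕ) (k k' : Fin (m + 1)) (u : Ω) :
    atom w m k (atom w m k' u) = if k = k' then atom w m k u else 0 := by
  have hk := k.is_lt
  have hk' := k'.is_lt
  by_cases h1 : (k : ℕ) < m
  · have e : ∀ x, atom w m k x = w k x - w (k + 1) x := fun x => by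
      simp only [atom, if_pos h1, LinearMap.sub_apply]
    rw [e (atom w m k' u), (baseW1_atom h h1.le k' u).1, (baseW1_atom h h1 k' u).1]
    by_cases h2 : k = k'
    · subst h2
      simp
    · have h3 : (k : ℕ) ≠ k' := fun h3 => h2 (Fin.ext h3)
      rw [if_neg h2]
      by_cases h4 : (k : ℕ) ≤ k'
      · rw [if_pos h4, if_pos (by omega), sub_self]
      · rw [if_neg h4, if_neg (by omega), sub_self]
  · have e : ∀ x, atom w m k x = w m x := fun x => by simp only [atom, if_neg h1]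
    rw [e (atom w m k' u), (baseW1_atom h le_rfl k' u).1]
    by_cases h2 : k = k'
    · subst h2
      rw [if_pos (by omega), if_pos rfl]
    · have h3 : (k : ℕ) ≠ k' := fun h3 => h2 (Fin.ext h3)
      rw [if_neg (by omega), if_neg h2]

lemma BW.w_atom (h : BW w) {m j : ℕ} (hj : j ≤ m) (k : Fin (m + 1)) (u : Ω) :
    w j (atom w m k u) = (if j ≤ k then atom w m k u else 0) ∧
      atom w m k (w j u) = if j ≤ k then atom w m k u else 0 :=
  baseW1_atom h hj k u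

lemma baseW1_scalar (h : BW w) {m : ℕ} {g : En Ω} (hg : g ∈ w '' Set.Iic m ∨ g = 0)
    (k : Fin (m + 1)) : ∃ c : F, ∀ u, g (atom w m k u) = c • atom w m k u ∧
      atom w m k (g u) = c • atom w m k u := by
  rcases hg with ⟨j, hj, rfl⟩ | rfl
  · refine ⟨if j ≤ k then 1 else 0, fun u => ?_⟩
    simpa only [ite_smul, one_smul, zero_smul] using h.w_atom hj k u
  · exact ⟨0, fun u => by simp⟩

lemma baseW1_mat {σ τ : Type} [Fintype σ] (a b : τ → σ → F) (c : τ → F) (z : σ → Ω) (j : τ) :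
    mat (Matrix.of fun i j => b j i - c j * a j i) z j = dot (b j) z - c j • dot (a j) z := by
  simp only [mat_apply, dot_apply, Matrix.of_apply, sub_smul, mul_smul, Finset.sum_sub_distrib,
    Finset.smul_sum]

/-- Structure lemma.  Write `K` with letters among `0, w 0, …, w m` (`Df.supp_range`, `Df.elim`,
`Sc.exists_dot`, `Sc.exists_mat`).  On the atom `k` each letter acts as `0` or `1`, so `z` solves the
pencil iff each `ap (atom k) z` solves a system over `F` (`mem_ten_ker`); then use `ten_map_mat`. -/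
lemma BW.struct (h : BW w) {ρ : Type} [Fintype ρ] {K : Submodule Ω (ρ → Ω)}
    (hK : Df (Set.range w) K) : ∃ (m : ℕ) (S : Fin (m + 1) → Submodule F (ρ → F)),
      ∀ v, v ∈ K ↔ ∀ k, ap (atom w m k) v ∈ ten ⊤ (S k) := by
  obtain ⟨m, hm⟩ := hK.supp_range
  obtain ⟨n, r, g, α, β, π, hg, hα, hβ, hπ, hK⟩ := hm.elim
  choose a ha using fun j => Sc.exists_dot (α j)
  choose b hb using fun j => Sc.exists_dot (β j)
  obtain ⟨M, rfl⟩ := Sc.exists_mat π
  choose c hc using fun k j => baseW1_scalar h (hg j) k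
  refine ⟨m, fun k => (LinearMap.ker (Matrix.vecMulLinear
    (Matrix.of fun i j => b j i - c k j * a j i))).map M.vecMulLinear, fun v => ?_⟩
  simp only [hK, ← ten_map_mat, Submodule.mem_map, mem_ten_ker, ha, hb]
  constructor
  · rintro ⟨z, hz, rfl⟩ k
    refine ⟨ap (atom w m k) z, funext fun j => ?_, mat_ap _ _ _⟩
    rw [baseW1_mat, dot_ap, dot_ap, hz, (hc k j _).2, sub_self, Pi.zero_apply]
  · intro hv
    choose z hz hz' using hv
    refine ⟨∑ k, ap (atom w m k) (z k), fun j => ?_, funext fun i => ?_⟩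
    · simp only [map_sum, dot_ap]
      refine Finset.sum_congr rfl fun k _ => ?_
      have h1 := congrFun (hz k) j
      rw [baseW1_mat, Pi.zero_apply, sub_eq_zero] at h1
      rw [h1, en_smul, (hc k j _).1]
    · simp only [map_sum, mat_ap, hz', Finset.sum_apply, ap_apply, h.atom_atom, if_true,
        h.sum_atom]

end Pool.Agent.Lib.MP_57313b_al.Zf
end

-- part Pool.Agent.Lib.MP_57313b_al.Zf.BaseW2
section

/-!
# The base letters: point, ranks
-/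

set_option autoImplicit false

namespace Pool.Agent.Lib.MP_57313b_al.Zf

open Filter Topology

set_option linter.unusedSectionVars false

variable {Ω : Type} [Ring Ω] [Algebra F Ω] [RK Ω] {w : ℕ → En Ω} {G : Set (En Ω)}

lemma basew2_ww (h : BW w) (j k : ℕ) (u : Ω) : w j (w k u) = w (max j k) u :=
  LinearMap.congr_fun (h.comp j k) u

lemma basew2_mem (h : BW w) (j : ℕ) (v : Ω) :
    v ∈ LinearMap.range (w j - w (j + 1)) ↔ v ∈ WF w j ∧ w (j + 1) v = 0 := by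
  constructor
  · rintro ⟨u, rfl⟩
    refine ⟨sub_mem ⟨u, rfl⟩ (h.flag.anti j.le_succ ⟨u, rfl⟩), ?_⟩
    rw [LinearMap.sub_apply, map_sub, basew2_ww h, basew2_ww h, max_self,
      max_eq_left j.le_succ, sub_self]
  · rintro ⟨⟨u, rfl⟩, hu⟩
    exact ⟨w j u, by rw [LinearMap.sub_apply, hu, basew2_ww h, max_self, sub_zero]⟩

lemma basew2_rk (h : BW w) (j : ℕ) :
    rk (LinearMap.range (w j - w (j + 1))) = 1 / 2 ^ (j + 1) := by
  have := rk_eq_add (h.flag.fg j) (B := WF w (j + 1)) (w (j + 1)) (basew2_mem h j) fun x =>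
    ⟨fun ⟨u, hu⟩ => ⟨w j u, ⟨u, rfl⟩, by rw [basew2_ww h, max_eq_left j.le_succ, hu]⟩,
      fun ⟨v, _, hv⟩ => ⟨v, hv⟩⟩
  rw [h.rk_WF, h.rk_WF] at this
  rw [eq_sub_of_add_eq this.symm, pow_succ]
  field_simp
  norm_num

theorem BW.ex (h : BW w) : Ex (Set.range w) (Set.range (WF w)) := by
  intro ρ _ Z hZ hd
  obtain ⟨m, S, hS⟩ := h.struct hZ
  have h0 : S (Fin.last m) = ⊥ := by
    by_contra h1
    obtain ⟨l, hl, hl0⟩ := Submodule.exists_mem_ne_zero_of_ne_bot h1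
    refine hd ⟨l, hl0, _, ⟨m, rfl⟩, ?_⟩
    rintro _ ⟨u, rfl⟩
    refine (hS _).2 fun k => ?_
    rw [ap_dir, (h.w_atom le_rfl k u).2]
    split_ifs with hk
    · obtain rfl : k = Fin.last m := Fin.ext (le_antisymm (Nat.lt_succ_iff.1 k.2) hk)
      exact dir_mem_ten hl trivial
    · rw [map_zero]; exact zero_mem _
  refine ⟨_, ⟨m, rfl⟩, eq_bot_iff.2 fun v hv => funext fun i => ?_⟩
  have h1 := (hS v).1 hv.1 (Fin.last m)
  rw [h0, ten_bot] at h1
  obtain ⟨u, hu⟩ := mem_pw.1 hv.2 i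
  have h2 : atom w m (Fin.last m) (v i) = 0 := congrFun h1 i
  rwa [atom, Fin.val_last, if_neg (lt_irrefl m), ← hu, basew2_ww h, max_self, hu] at h2

/-- `K` is isomorphic to the product of the `ten (range (atom k)) (S k)` (`rk_pi`, `rk_ten`) -/
theorem BW.dy (h : BW w) : DY (Set.range w) := by
  intro E _ _ _ K hK
  have hK' := hK.map_sc (Amb.e (Ω := Ω) (E := E)).toLinearMap
  rw [← rk_map_of_inj hK.fg (Amb.e (Ω := Ω) (E := E)).toLinearMap fun v _ hv =>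
    (Amb.e (Ω := Ω) (E := E)).map_eq_zero_iff.1 hv]
  obtain ⟨m, S, hS⟩ := h.struct hK'
  rw [rk_eq_of_bij hK'.fg (K' := Submodule.pi Set.univ fun k =>
    ten (LinearMap.range (atom w m k)) (S k)) (LinearMap.pi fun k => ap (atom w m k))
    (fun v _ hv => funext fun i => ?_) fun x => ⟨fun hx => ?_, ?_⟩,
    rk_pi fun k => fg_ten (fg_range _) _]
  · refine Finset.sum_induction _ Dy (fun _ _ => Dy.add) (by simpa using Dy.nat 0) fun k _ => ?_
    rw [rk_ten (fg_range _)]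
    refine Dy.mul_nat ?_ _
    unfold atom
    split_ifs
    · rw [basew2_rk h]; exact Dy.pow _
    · rw [h.rank]; exact Dy.pow _
  · rw [← h.sum_atom m (v i)]
    exact Finset.sum_eq_zero fun k _ => congrFun (congrFun hv k) i
  · have e : ∀ k, ap (atom w m k) (∑ k, x k) = x k := fun k => funext fun i => by
      have : ∀ k', atom w m k (x k' i) = if k = k' then x k i else 0 := fun k' => by
        obtain ⟨u, hu⟩ := mem_pw.1 (ten_le_pw _ _ (hx k' trivial)) i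
        rw [← hu, h.atom_atom]
        split_ifs with e
        · rw [e, hu]
        · rfl
      simp [this]
    exact ⟨∑ k, x k, (hS _).2 fun k => (e k).symm ▸ ten_mono le_top le_rfl (hx k trivial),
      funext e⟩
  · rintro ⟨v, hv, rfl⟩ k -
    exact mem_ten.2 ⟨mem_pw.2 fun i => ⟨v i, rfl⟩, (mem_ten.1 ((hS v).1 hv k)).2⟩

/-- Induction on `k`: for all `j` and `m ≤ 2 ^ k` there is `H ≤ WF w j` of rank `m / 2 ^ (k + j)`;
use `WF w j = WF w (j+1) ⊕ range (w j - w (j+1))`. -/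
theorem BW.exists_rk (h : BW w) {r : ℝ} (hr : Dy r) (h0 : 0 ≤ r) (h1 : r ≤ 1) :
    ∃ H : Sub Ω, Df (Set.range w) H ∧ rk H = r := by
  have dW := df_WF (w := w) subset_rfl
  have key : ∀ k j m : ℕ, m ≤ 2 ^ k →
      ∃ H : Sub Ω, H ≤ WF w j ∧ Df (Set.range w) H ∧ rk H = m / 2 ^ (k + j) := by
    intro k
    induction k with
    | zero =>
      intro j m hm
      interval_cases m
      · exact ⟨⊥, bot_le, Df.bot, by simp⟩
      · exact ⟨_, le_rfl, dW j, by simp [h.rk_WF]⟩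
    | succ k ih =>
      intro j m hm
      rcases le_total m (2 ^ k) with h2 | h2
      · obtain ⟨H, h3, h4, h5⟩ := ih (j + 1) m h2
        exact ⟨H, h3.trans (h.flag.anti j.le_succ), h4, by rw [h5, add_right_comm, add_assoc]⟩
      obtain ⟨m, rfl⟩ := Nat.exists_eq_add_of_le h2
      obtain ⟨H, h3, h4, h5⟩ := ih (j + 1) m (by omega)
      have dA : Df (Set.range w) (LinearMap.range (w j - w (j + 1))) :=
        ((Dm.letter (Set.mem_range_self j)).sub (Dm.letter (Set.mem_range_self (j + 1)))).range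
      have h6 : H ⊓ LinearMap.range (w j - w (j + 1)) = ⊥ := eq_bot_iff.2 fun v hv => by
        obtain ⟨u, rfl⟩ := h3 hv.1
        have := ((basew2_mem h j _).1 hv.2).2
        rwa [basew2_ww h, max_self] at this
      have h7 := rk_sup_add_inf h4.fg dA.fg
      rw [h6, rk_bot, add_zero, h5, basew2_rk h] at h7
      refine ⟨_, sup_le (h3.trans (h.flag.anti j.le_succ)) fun v hv => ((basew2_mem h j v).1 hv).1,
        h4.sup dA, h7.trans ?_⟩
      push_cast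
      field_simp
      ring
  obtain ⟨m, k, rfl⟩ := hr
  have h2 : (0 : ℝ) < 2 ^ k := by positivity
  obtain ⟨m, rfl⟩ := Int.eq_ofNat_of_zero_le (a := m) (by
    exact_mod_cast (div_nonneg_iff.1 h0).elim (·.1) fun h3 => absurd h3.2 h2.not_ge)
  obtain ⟨H, -, h3, h4⟩ := key k 0 m (by exact_mod_cast (div_le_one h2).1 h1)
  exact ⟨H, h3, by simpa using h4⟩

lemma BW.eqv_sub (h : BW w) {k : ℕ → ℕ} (hk : StrictMono k) :
    Eqv (Set.range fun n => WF w (k n)) (Set.range (WF w)) := by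
  constructor
  · rintro _ ⟨n, rfl⟩
    exact ⟨_, ⟨n, rfl⟩, h.flag.anti (hk.id_le n)⟩
  · rintro _ ⟨n, rfl⟩
    exact ⟨_, ⟨k n, rfl⟩, le_rfl⟩

lemma BW.flag_sub (h : BW w) {k : ℕ → ℕ} (hk : StrictMono k) (h0 : k 0 = 0) :
    Flag fun n => WF w (k n) := by
  exact ⟨by rw [h0, h.flag.zero], h.flag.anti.comp_monotone hk.monotone, fun n => h.flag.fg _,
    h.flag.lim.comp hk.tendsto_atTop⟩

end Pool.Agent.Lib.MP_57313b_al.Zf
end

-- part Pool.Agent.Lib.MP_57313b_al.Zf.Tiny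
section

/-!
# Small generic submodules avoid submodules without direction
-/

set_option autoImplicit false

namespace Pool.Agent.Lib.MP_57313b_al.Zf

open Filter Topology

set_option linter.unusedSectionVars false

variable {Ω : Type} [Ring Ω] [Algebra F Ω] [RK Ω] {w : ℕ → En Ω} {G : Set (En Ω)}

/-- the uniform gap for the defects of the directions -/
lemma tiny_gap {ρ : Type} [Fintype ρ] {Z : Submodule Ω (ρ → Ω)} {U : Sub Ω} (hZ : Z.FG)
    (hU : U.FG) (h : ∀ l : ρ → F, l ≠ 0 → ∃ u ∈ U, dir l u ∉ Z) :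
    ∃ δ : ℝ, 0 < δ ∧ ∀ l : ρ → F, l ≠ 0 → δ ≤ rk U - rk (U ⊓ Z.comap (dir l)) := by
  have fg : ∀ l : ρ → F, (U ⊓ Z.comap (dir l)).FG := fun l => fg_inf hU (fg_comap hZ _)
  refine span_gap (fun l : ρ → F => rk U - rk (U ⊓ Z.comap (dir l))) (fun l => ?_) ?_
    (fun l l' => ?_) (fun c l => ?_) fun l hl => ?_
  · exact sub_nonneg.2 (rk_mono inf_le_left)
  · have e : U ⊓ Z.comap (dir (0 : ρ → F)) = U := by
      refine inf_eq_left.2 fun u _ => ?_
      have e0 : dir (0 : ρ → F) u = 0 := by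
        ext i
        simp
      rw [Submodule.mem_comap, e0]
      exact Z.zero_mem
    rw [e, sub_self]
  · have h1 := rk_sup_add_inf (fg l) (fg l')
    have h2 : rk ((U ⊓ Z.comap (dir l)) ⊔ (U ⊓ Z.comap (dir l'))) ≤ rk U :=
      rk_mono (sup_le inf_le_left inf_le_left)
    have h3 : rk ((U ⊓ Z.comap (dir l)) ⊓ (U ⊓ Z.comap (dir l'))) ≤
        rk (U ⊓ Z.comap (dir (l + l'))) := by
      refine rk_mono fun u hu => ⟨hu.1.1, ?_⟩
      have e0 : dir (l + l') u = dir l u + dir l' u := by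
        ext i
        simp [add_smul]
      change dir (l + l') u ∈ Z
      rw [e0]
      exact Z.add_mem hu.1.2 hu.2.2
    linarith
  · have h3 : rk (U ⊓ Z.comap (dir l)) ≤ rk (U ⊓ Z.comap (dir (c • l))) := by
      refine rk_mono fun u hu => ⟨hu.1, ?_⟩
      have e0 : dir (c • l) u = algebraMap F Ω c • dir l u := by
        ext i
        change (c * l i) • u = algebraMap F Ω c * (l i • u)
        rw [mul_smul, Algebra.smul_def]
      change dir (c • l) u ∈ Z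
      rw [e0]
      exact Z.smul_mem _ hu.2
    linarith
  · obtain ⟨u, hu, hn⟩ := h l hl
    refine sub_pos.2 (rk_lt_of_lt (fg l) hU (lt_of_le_of_ne inf_le_left fun e => hn ?_))
    have hu' : u ∈ U ⊓ Z.comap (dir l) := e.symm ▸ hu
    exact hu'.2

/-- the rank of the second factor of the box -/
lemma tiny_snd {ρ : Type} [Fintype ρ] {Z : Submodule Ω (ρ → Ω)} (hZ : Z.FG) (g : En Ω)
    {Λ : Submodule F (ρ → F)} {l : ρ → F} (hl : l ∈ Λ) :
    rk (ten ⊤ Λ ⊓ Z.comap (ap g)) + (rk (LinearMap.range g) -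
      rk (LinearMap.range g ⊓ Z.comap (dir l))) ≤ rk (ten (⊤ : Sub Ω) Λ) := by
  have hU := fg_range g
  have hT : (ten (⊤ : Sub Ω) Λ).FG := fg_ten fg_top Λ
  have h1 := rk_inf_comap hT hZ (ap g)
  have h2 := rk_map_add hT (ap (ρ := ρ) g)
  rw [ten_map_ap, Submodule.map_top] at h1 h2
  have h3 := rk_inf_comap hU hZ (dir l)
  have h4 := rk_map_add hU (dir l : Ω →ₗ[Ω] (ρ → Ω))
  have h5 := rk_inf_le_of_le hZ (hU.map (dir l)) (fg_ten hU Λ) (by
    rintro _ ⟨u, hu, rfl⟩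
    exact dir_mem_ten hl hu)
  rw [inf_comm Z, inf_comm Z] at h5
  linarith

/-- Let `γ l = rk U - rk (U ⊓ Z.comap (dir l))`, `δ₀` from `span_gap`, `δ = δ₀ / (card ρ + 1)`.
Apply genericity of `x` to `T = pw H × Z.comap (ap g)`; with `Λ₀ = Λ 0` (`fl_bf`),
`rk (T ⊓ box) = rk H * dim Λ₀ + dim Λ₀ - (rk (ten U Λ₀) - rk (Z ⊓ ten U Λ₀))` and the bracket is at
least `γ l` for `l ∈ Λ₀` (`rk_inf_le_of_le`).  So `T ⊓ graph = ⊥`. -/
theorem tiny {ρ : Type} [Fintype ρ] {Z : Submodule Ω (ρ → Ω)} {U : Sub Ω} (hZ : Z.FG) (hU : U.FG)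
    (h : ∀ l : ρ → F, l ≠ 0 → ∃ u ∈ U, dir l u ∉ Z) :
    ∃ δ : ℝ, 0 < δ ∧ ∀ (S : Set (En Ω)) (x g : En Ω) (H : Sub Ω), Free x S → Df S Z → Dm S g →
      LinearMap.range g = U → Df S H → rk H < δ → Z ⊓ pw ρ ((H.map x).map g) = ⊥ := by
  obtain ⟨δ, hδ, hgap⟩ := tiny_gap hZ hU h
  have hc : (0 : ℝ) < Fintype.card ρ + 1 := by positivity
  refine ⟨δ / (Fintype.card ρ + 1), div_pos hδ hc, fun S x g H hx dZ dg hg dH hH => ?_⟩
  have hH' : rk (pw ρ H) ≤ δ := by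
    rw [rk_pw dH.fg]
    have h1 := (lt_div_iff₀ hc).1 hH
    have h2 := rk_nonneg H
    linarith [mul_add (rk H) (Fintype.card ρ : ℝ) 1, mul_comm (rk H) (Fintype.card ρ : ℝ)]
  have dC : Df S (Z.comap (ap g)) := dZ.comap dg.ap
  have dT : Df S ((pw ρ H).prod (Z.comap (ap g))) := dH.pw.prod dC
  have key : (pw ρ H).prod (Z.comap (ap g)) ⊓ (ap x).graph = ⊥ := by
    refine eq_bot_of_rk (le_of_forall_pos_le_add fun ε hε => ?_)
    obtain ⟨Λ, -, hΛ⟩ := hx.2 ρ _ dT ε hε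
    have hb : rk ((pw ρ H).prod (Z.comap (ap g)) ⊓ box (bf Ω) (bf Ω) Λ) ≤ rk (fl (bf Ω) Λ) := by
      rw [box, fl_bf]
      by_cases h0 : Λ 0 = ⊥
      · rw [h0, ten_bot, Submodule.prod_bot, inf_bot_eq, rk_bot, rk_bot]
      · obtain ⟨l, hl, hl0⟩ := (Submodule.ne_bot_iff _).1 h0
        have h1 := tiny_snd hZ g hl
        have h2 := hgap l hl0
        rw [hg] at h1
        have hT : (ten (⊤ : Sub Ω) (Λ 0)).FG := fg_ten fg_top _
        have h3 : rk ((pw ρ H).prod (Z.comap (ap g)) ⊓ (ten ⊤ (Λ 0)).prod (ten ⊤ (Λ 0))) ≤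
            rk ((pw ρ H).prod (ten ⊤ (Λ 0) ⊓ Z.comap (ap g))) :=
          rk_mono fun z hz => ⟨hz.1.1, hz.2.2, hz.1.2⟩
        rw [rk_prod (fg_pw dH.fg) (fg_inf hT dC.fg)] at h3
        linarith
    linarith
  refine eq_bot_iff.2 fun v hv => ?_
  have h1 : ∀ i, ∃ u ∈ H, g (x u) = v i := fun i => by
    obtain ⟨_, ⟨u, hu, rfl⟩, e⟩ := mem_pw.1 hv.2 i
    exact ⟨u, hu, e⟩
  choose p hp hv' using h1
  have e : ap g (ap x p) = v := funext hv'
  have h2 : (p, ap x p) ∈ (pw ρ H).prod (Z.comap (ap g)) ⊓ (ap x).graph :=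
    ⟨⟨mem_pw.2 hp, by
      change ap g (ap x p) ∈ Z
      rw [e]
      exact hv.1⟩, rfl⟩
  rw [key, Submodule.mem_bot, Prod.mk_eq_zero] at h2
  rw [Submodule.mem_bot, ← e, h2.2, map_zero]

/-- it is enough to check `ρ = Fin r` -/
lemma Sm.of_fin {Q : ℕ → Sub Ω} (hQ : ∀ n, (Q n).FG)
    (h : ∀ (r : ℕ) (Z : Submodule Ω (Fin r → Ω)), Df G Z → ¬ HasDir (Set.range Q) Z →
      ∀ ε : ℝ, 0 < ε → ∀ᶠ n in atTop, rk (Z ⊓ pw (Fin r) (Q n)) ≤ ε * rk (Q n)) : Sm G Q := by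
  intro ρ _ Z dZ hd ε hε
  let e := Fintype.equivFin ρ
  have dZ' : Df G (Z.comap (LinearMap.funLeft Ω Ω e)) := dZ.comap_sc _
  have hd' : ¬ HasDir (Set.range Q) (Z.comap (LinearMap.funLeft Ω Ω e)) := by
    rintro ⟨l, hl, U, hU, hlU⟩
    refine hd ⟨l ∘ e, fun h0 => hl (funext fun j => ?_), U, hU, fun u hu => hlU u hu⟩
    simpa using congrFun h0 (e.symm j)
  refine (h _ _ dZ' hd' ε hε).mono fun n hn => le_trans ?_ hn
  refine rk_le_of_surj (fg_inf dZ'.fg (fg_pw (hQ n))) (LinearMap.funLeft Ω Ω e) fun v hv => ?_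
  have e0 : LinearMap.funLeft Ω Ω e (v ∘ e.symm) = v := by
    ext i
    simp [LinearMap.funLeft_apply]
  refine ⟨v ∘ e.symm, ⟨?_, mem_pw.2 fun j => mem_pw.1 hv.2 _⟩, e0⟩
  change LinearMap.funLeft Ω Ω e (v ∘ e.symm) ∈ Z
  rw [e0]
  exact hv.1

end Pool.Agent.Lib.MP_57313b_al.Zf
end

-- part Pool.Agent.Lib.MP_57313b_al.Zf.Lim1
section

/-!
# Finite sums of free letters
-/

set_option autoImplicit false

namespace Pool.Agent.Lib.MP_57313b_al.Zf

open Filter Topology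

set_option linter.unusedSectionVars false

variable {Ω : Type} [Ring Ω] [Algebra F Ω] [RK Ω] {G : Set (En Ω)} {ρ : Type} [Fintype ρ]

/-- Induction on `m`, for all `E`, `Z`, `α`, `β`, `ε`.  Step: let `b` be the sum over `l < m`.
`z ↦ (z, ap (y m) (ap (a m) (α z)))` identifies the left module with
`Z₁ ⊓ graph (y m) ⁻¹` where `Z₁ = {(z, s) | z ∈ Z, β z - ap (g m) s = ap b (α z)}` is definable over
`G ∪ y '' Iio m`; `Gen.prime` for `y m` with the maps `ap (a m) ∘ α ∘ fst` and `snd` gives `Λ m`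
(`fl_bf`).  Apply the induction hypothesis to `E × (ρ → Ω)`,
`Z' = {(z, s) | z ∈ Z, s ∈ ten ⊤ (Λ m), ap (a m) (α z) ∈ ten ⊤ (Λ m)}`, `α ∘ fst` and
`β ∘ fst - ap (g m) ∘ snd`.  Finally project to `E`; with `Q' = ⨆ l < m, …` the kernel
`{s ∈ ten ⊤ (Λ m) | ap (g m) s ∈ Q'}` has rank
`dim (Λ m) - rk (Q' ⊔ ten (range (g m)) (Λ m)) + rk Q'`. -/
theorem sum_gen (a g y : ℕ → En Ω) (ha : ∀ l, Dm G (a l)) (hg : ∀ l, Dm G (g l))
    (hy : ∀ l, Free (y l) (G ∪ y '' Set.Iio l)) (m : ℕ) :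
    ∀ (E : Type) [AddCommGroup E] [Module Ω E] [Amb Ω E] (Z : Submodule Ω E)
      (α β : E →ₗ[Ω] (ρ → Ω)), Df G Z → Dm G α → Dm G β → ∀ ε : ℝ, 0 < ε → ∃ Λ : Sq ρ,
      rk (Z ⊓ (ap (∑ l ∈ Finset.range m, g l ∘ₗ y l ∘ₗ a l)).graph.comap (α.prod β)) +
          rk (⨆ l : Fin m, ten (LinearMap.range (g l)) (Λ l)) ≤
        rk (Z ⊓ (⨅ l : Fin m, (ten ⊤ (Λ l)).comap (ap (a l) ∘ₗ α)) ⊓
          (⨆ l : Fin m, ten (LinearMap.range (g l)) (Λ l)).comap β) + ε := by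
  induction m with
  | zero =>
    intro E _ _ _ Z α β _ _ _ ε hε
    refine ⟨⊥, ?_⟩
    rw [iSup_of_empty, iInf_of_empty, rk_bot, add_zero]
    refine (rk_mono fun z hz => ?_).trans (le_add_of_nonneg_right hε.le)
    refine ⟨⟨hz.1, trivial⟩, funext fun i => ?_⟩
    simpa using congrFun ((LinearMap.mem_graph_iff _ _).1 hz.2) i
  | succ m ih =>
    intro E _ _ _ Z α β hZ hα hβ ε hε
    have hG : G ⊆ G ∪ y '' Set.Iio m := Set.subset_union_left
    set b := ∑ l ∈ Finset.range m, g l ∘ₗ y l ∘ₗ a l with hb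
    have db : Dm (G ∪ y '' Set.Iio m) b := Dm.sum _ fun l hl => ((hg l).mono hG).comp
      ((Dm.letter (Or.inr ⟨l, Finset.mem_range.1 hl, rfl⟩)).comp ((ha l).mono hG))
    let f := LinearMap.fst Ω E (ρ → Ω)
    let s := LinearMap.snd Ω E (ρ → Ω)
    have df : Dm G f := Dm.sc _
    have ds : Dm G s := Dm.sc _
    have dα : Dm G (α ∘ₗ f) := hα.comp df
    have dβ : Dm G (β ∘ₗ f - ap (g m) ∘ₗ s) := (hβ.comp df).sub ((hg m).ap.comp ds)
    have dA : Dm G (ap (a m) ∘ₗ α ∘ₗ f) := (ha m).ap.comp dα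
    obtain ⟨Λ', -, h1⟩ := Gen.prime (hy m) flag_bf flag_bf
      (((hZ.comap df).mono hG).inf (db.ap.graph.comap ((dα.prod dβ).mono hG))) (dA.mono hG)
      (ds.mono hG) (half_pos hε)
    rw [box, fl_bf] at h1
    set T : Submodule Ω (ρ → Ω) := ten ⊤ (Λ' 0) with hT
    have dT : Df G T := Df.top.ten _
    have dZ := (hZ.comap df).inf ((dT.prod dT).comap (dA.prod ds))
    obtain ⟨Λ, h2⟩ := ih _ _ _ _ dZ dα dβ _ (half_pos hε)
    set Q : Submodule Ω (ρ → Ω) := ⨆ l : Fin m, ten (LinearMap.range (g l)) (Λ l) with hQ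
    have dQ : Df G Q := Df.iSup fun l => (hg l).range.ten _
    refine ⟨fun l => if l = m then Λ' 0 else Λ l, ?_⟩
    have eQ : (⨆ l : Fin (m + 1), ten (LinearMap.range (g l)) (if (l : ℕ) = m then Λ' 0 else Λ l)) =
        T.map (ap (g m)) ⊔ Q := by
      rw [hT, ten_map_ap, Submodule.map_top]
      refine le_antisymm (iSup_le fun l => ?_) (sup_le ?_ (iSup_le fun l => ?_))
      · induction l using Fin.lastCases with
        | last => simp
        | cast l =>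
          rw [Fin.val_castSucc, if_neg l.2.ne]
          exact le_sup_of_le_right
            (le_iSup (fun l : Fin m => ten (LinearMap.range (g l)) (Λ l)) l)
      · exact le_iSup_of_le (Fin.last m) (by simp)
      · exact le_iSup_of_le l.castSucc (by rw [Fin.val_castSucc, if_neg l.2.ne])
    rw [eQ, Finset.sum_range_succ, ← hb]
    have h3 : rk (Z ⊓ (ap (b + g m ∘ₗ y m ∘ₗ a m)).graph.comap (α.prod β)) ≤ _ :=
      rk_le_of_inj (fg_inf hZ.fg (fg_comap (fg_graph _) _))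
        (K' := (Z.comap f ⊓ (ap b).graph.comap ((α ∘ₗ f).prod (β ∘ₗ f - ap (g m) ∘ₗ s))) ⊓
          (ap (y m)).graph.comap ((ap (a m) ∘ₗ α ∘ₗ f).prod s))
        (LinearMap.id.prod (ap (y m) ∘ₗ ap (a m) ∘ₗ α)) (fun v _ hv => congrArg Prod.fst hv)
        fun v hv => ⟨⟨hv.1, (LinearMap.mem_graph_iff _ _).2 (funext fun i => by
          have := congrFun ((LinearMap.mem_graph_iff _ _).1 hv.2) i
          exact sub_eq_of_eq_add this)⟩, (LinearMap.mem_graph_iff _ _).2 rfl⟩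
    have h4 := rk_le_add (fg_inf (fg_inf dZ.fg (fg_iInf fun l : Fin m =>
        fg_comap (fg_ten fg_top (Λ l)) (ap (a l) ∘ₗ α ∘ₗ f)))
        (fg_comap dQ.fg (β ∘ₗ f - ap (g m) ∘ₗ s)))
      (A := (T ⊓ Q.comap (ap (g m))).map (LinearMap.inr Ω E (ρ → Ω)))
      (B := Z ⊓ (⨅ l : Fin (m + 1), (ten ⊤ (if (l : ℕ) = m then Λ' 0 else Λ l)).comap
        (ap (a l) ∘ₗ α)) ⊓ (T.map (ap (g m)) ⊔ Q).comap β) f ?_ ?_
    · have h5 := rk_map_le (fg_inf dT.fg (fg_comap dQ.fg (ap (g m)))) (LinearMap.inr Ω E (ρ → Ω))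
      have h6 := rk_inf_comap dT.fg dQ.fg (ap (g m))
      have h7 := rk_map_add dT.fg (ap (g m) : (ρ → Ω) →ₗ[Ω] (ρ → Ω))
      have h8 := rk_sup_add_inf (dT.fg.map (ap (g m))) dQ.fg
      rw [inf_right_comm] at h2
      linarith
    · rintro ⟨z, v⟩ ⟨⟨⟨-, -, k1⟩, -⟩, k2⟩ (rfl : z = 0)
      refine ⟨v, ⟨k1, ?_⟩, rfl⟩
      have : β 0 - ap (g m) v ∈ Q := k2
      rwa [map_zero, zero_sub, neg_mem_iff] at this
    · rintro ⟨z, v⟩ ⟨⟨⟨k0, k1, k2⟩, k3⟩, k4⟩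
      refine ⟨⟨k0, (Submodule.mem_iInf _).2 fun l => ?_⟩, ?_⟩
      · induction l using Fin.lastCases with
        | last => rw [Fin.val_last, if_pos rfl]; exact k1
        | cast l =>
          rw [Fin.val_castSucc, if_neg l.2.ne]
          exact (Submodule.mem_iInf _).1 k3 l
      · change β z ∈ T.map (ap (g m)) ⊔ Q
        rw [← add_sub_cancel (ap (g m) v) (β z)]
        exact Submodule.add_mem_sup ⟨v, k2, rfl⟩ k4

end Pool.Agent.Lib.MP_57313b_al.Zf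
end

-- part Pool.Agent.Lib.MP_57313b_al.Zf.Apx
section

/-!
# Approximation by definable submodules
-/

set_option autoImplicit false

namespace Pool.Agent.Lib.MP_57313b_al.Zf

open Filter Topology

set_option linter.unusedSectionVars false

variable {Ω : Type} [Ring Ω] [Algebra F Ω] [RK Ω]
variable {E E' : Type} [AddCommGroup E] [Module Ω E] [Amb Ω E] [AddCommGroup E'] [Module Ω E']
  [Amb Ω E']
variable {G H H' : Set (En Ω)} {ε ε' : ℝ}

lemma Cls.symm {K K' : Submodule Ω E} (h : Cls ε K K') : Cls ε K' K := by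
  unfold Cls
  rw [inf_comm]
  exact ⟨h.2, h.1⟩

lemma Cls.mono {K K' : Submodule Ω E} (h : Cls ε K K') (h' : ε ≤ ε') : Cls ε' K K' := by
  exact ⟨by linarith [h.1], by linarith [h.2]⟩

lemma Cls.trans {K K' K'' : Submodule Ω E} (h : Cls ε K K') (h' : Cls ε' K' K'') (hK : K.FG)
    (hK' : K'.FG) (hK'' : K''.FG) : Cls (ε + ε') K K'' := by
  have key : ∀ {A B C : Submodule Ω E} {e e' : ℝ}, A.FG → B.FG → C.FG → Cls e A B → Cls e' B C →
      rk A ≤ rk (A ⊓ C) + (e + e') := fun {A B C e e'} hA hB hC h1 h2 => by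
    have h3 := rk_inf_le_of_le hA (fg_inf hB hC) hB inf_le_left
    have h4 : rk (A ⊓ (B ⊓ C)) ≤ rk (A ⊓ C) := rk_mono (inf_le_inf_left _ inf_le_right)
    linarith [h1.1, h2.1]
  refine ⟨key hK hK' hK'' h h', ?_⟩
  rw [inf_comm, add_comm ε]
  exact key hK'' hK' hK h'.symm h.symm

/-- `rk_inf_le_of_le` -/
lemma Cls.inf {K K' B : Submodule Ω E} (h : Cls ε K K') (hK : K.FG) (hK' : K'.FG) (hB : B.FG) :
    Cls ε (K ⊓ B) (K' ⊓ B) := by
  have h1 := rk_inf_le_of_le hB (fg_inf hK hK') hK inf_le_left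
  have h2 := rk_inf_le_of_le hB (fg_inf hK hK') hK' inf_le_right
  have h3 : rk (B ⊓ (K ⊓ K')) ≤ rk (K ⊓ B ⊓ (K' ⊓ B)) :=
    rk_mono fun v hv => ⟨⟨hv.2.1, hv.1⟩, hv.2.2, hv.1⟩
  rw [inf_comm B] at h1 h2
  rw [inf_comm B] at h1 h2 h3
  exact ⟨by linarith [h.1], by linarith [h.2]⟩

lemma Cls.rk_le {K K' : Submodule Ω E} (h : Cls ε K K') : rk K ≤ rk K' + ε := by
  linarith [h.1, rk_mono (inf_le_right : K ⊓ K' ≤ K')]

lemma Cls.map {K K' : Submodule Ω E} (h : Cls ε K K') (hK : K.FG) (hK' : K'.FG)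
    (f : E →ₗ[Ω] E') : Cls ε (K.map f) (K'.map f) := by
  have h1 := rk_map_add hK f
  have h2 := rk_map_add hK' f
  have h3 := rk_map_add (fg_inf hK hK') f
  have h4 : rk (K ⊓ K' ⊓ LinearMap.ker f) ≤ rk (K ⊓ LinearMap.ker f) :=
    rk_mono (inf_le_inf_right _ inf_le_left)
  have h5 : rk (K ⊓ K' ⊓ LinearMap.ker f) ≤ rk (K' ⊓ LinearMap.ker f) :=
    rk_mono (inf_le_inf_right _ inf_le_right)
  have h6 : rk ((K ⊓ K').map f) ≤ rk (K.map f ⊓ K'.map f) := rk_mono (Submodule.map_inf_le f)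
  exact ⟨by linarith [h.1], by linarith [h.2]⟩

lemma Cls.comap {K K' : Submodule Ω E'} (h : Cls ε K K') (hK : K.FG) (hK' : K'.FG)
    (f : E →ₗ[Ω] E') : Cls ε (K.comap f) (K'.comap f) := by
  have h1 := rk_inf_comap fg_top hK f
  have h2 := rk_inf_comap fg_top hK' f
  have h3 := rk_inf_comap fg_top (fg_inf hK hK') f
  have h4 := h.inf hK hK' (fg_top.map f)
  have h5 : rk (K ⊓ Submodule.map f ⊤ ⊓ (K' ⊓ Submodule.map f ⊤)) ≤
      rk (Submodule.map f ⊤ ⊓ (K ⊓ K')) := rk_mono fun v hv => ⟨hv.1.2, hv.1.1, hv.2.1⟩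
  rw [top_inf_eq, inf_comm (Submodule.map f ⊤)] at h1 h2
  rw [top_inf_eq, Submodule.comap_inf] at h3
  exact ⟨by linarith [h4.1], by linarith [h4.2]⟩

lemma cls_graph (f g : E →ₗ[Ω] E') : Cls (rk (LinearMap.range (f - g))) f.graph g.graph := by
  constructor
  · refine rk_le_add (fg_graph f) ((f - g) ∘ₗ LinearMap.fst Ω E E') (fun v hv h => ⟨hv, ?_⟩)
      fun v _ => ⟨v.1, rfl⟩
    exact (LinearMap.mem_graph_iff _ _).2
      (((LinearMap.mem_graph_iff _ _).1 hv).trans (sub_eq_zero.1 h))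
  · refine rk_le_add (fg_graph g) ((f - g) ∘ₗ LinearMap.fst Ω E E') (fun v hv h => ⟨?_, hv⟩)
      fun v _ => ⟨v.1, rfl⟩
    exact (LinearMap.mem_graph_iff _ _).2
      (((LinearMap.mem_graph_iff _ _).1 hv).trans (sub_eq_zero.1 h).symm)

lemma Df.apx' {K : Submodule Ω E} (h : Df H K) : Apx H K := by
  refine ⟨h.fg, fun ε hε => ⟨K, h, ?_⟩⟩
  unfold Cls
  rw [inf_idem]
  exact ⟨by linarith, by linarith⟩

lemma Apx.mono {K : Submodule Ω E} (h : Apx H K) (hH : H ⊆ H') : Apx H' K := by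
  refine ⟨h.1, fun ε hε => ?_⟩
  obtain ⟨K', h1, h2⟩ := h.2 ε hε
  exact ⟨K', h1.mono hH, h2⟩

lemma Apx.inf {K K' : Submodule Ω E} (h : Apx H K) (h' : Apx H K') : Apx H (K ⊓ K') := by
  refine ⟨fg_inf h.1 h'.1, fun ε hε => ?_⟩
  obtain ⟨A, h1, h2⟩ := h.2 (ε / 2) (by linarith)
  obtain ⟨B, h3, h4⟩ := h'.2 (ε / 2) (by linarith)
  have h5 := h4.inf h'.1 h3.fg h1.fg
  rw [inf_comm K', inf_comm B] at h5
  exact ⟨A ⊓ B, h1.inf h3, ((h2.inf h.1 h1.fg h'.1).trans h5 (fg_inf h.1 h'.1) (fg_inf h1.fg h'.1)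
    (fg_inf h1.fg h3.fg)).mono (by linarith)⟩

lemma Apx.map {K : Submodule Ω E} (h : Apx H K) (f : E →ₗ[Ω] E') [Sc f] : Apx H (K.map f) := by
  refine ⟨h.1.map f, fun ε hε => ?_⟩
  obtain ⟨A, h1, h2⟩ := h.2 ε hε
  exact ⟨_, h1.map_sc f, h2.map h.1 h1.fg f⟩

lemma Apx.comap {K : Submodule Ω E'} (h : Apx H K) (f : E →ₗ[Ω] E') [Sc f] :
    Apx H (K.comap f) := by
  refine ⟨fg_comap h.1 f, fun ε hε => ?_⟩
  obtain ⟨A, h1, h2⟩ := h.2 ε hε
  exact ⟨_, h1.comap_sc f, h2.comap h.1 h1.fg f⟩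

lemma Apx.of_lim {K : Submodule Ω E} (hK : K.FG)
    (h : ∀ ε : ℝ, 0 < ε → ∃ K', Apx H K' ∧ Cls ε K K') : Apx H K := by
  refine ⟨hK, fun ε hε => ?_⟩
  obtain ⟨A, h1, h2⟩ := h (ε / 2) (by linarith)
  obtain ⟨B, h3, h4⟩ := h1.2 (ε / 2) (by linarith)
  exact ⟨B, h3, (h2.trans h4 hK h1.1 h3.fg).mono (by linarith)⟩

/-- each equation of the pencil is a scalar preimage of the graph of a letter -/
lemma Df.apx {K : Submodule Ω E} (h : Df G K) (hG : ∀ g ∈ G, Apx H g.graph) : Apx H K := by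
  obtain ⟨n, m, g, α, β, π, hg, hα, hβ, hπ, rfl⟩ := h
  refine Apx.map ?_ π
  rw [← Finset.inf_univ_eq_iInf]
  refine Finset.inf_induction Df.top.apx' (fun _ h1 _ h2 => h1.inf h2) fun j _ => ?_
  have e : LinearMap.ker (β j - g j ∘ₗ α j) = (g j).graph.comap ((α j).prod (β j)) := by
    ext v
    simp [sub_eq_zero]
  rw [e]
  refine Apx.comap ?_ _
  rcases hg j with h | h
  · exact hG _ h
  · rw [h]
    exact Df.apx' (Dm.sc 0)

lemma Gen.of_apx {b : En Ω} {P Q : ℕ → Sub Ω} (h : Gen b P Q H) (hP : Flag P) (hQ : Flag Q)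
    (hG : ∀ g ∈ G, Apx H g.graph) : Gen b P Q G := by
  refine ⟨h.1, fun ρ _ Z hZ ε hε => ?_⟩
  obtain ⟨Z', h1, h2⟩ := (hZ.apx hG).2 (ε / 3) (by linarith)
  obtain ⟨Λ, h3, h4⟩ := h.2 ρ Z' h1 (ε / 3) (by linarith)
  have h5 := (h2.inf hZ.fg h1.fg (fg_graph (ap b))).rk_le
  have h6 := (h2.symm.inf h1.fg hZ.fg (fg_box hP hQ h3)).rk_le
  exact ⟨Λ, h3, by linarith⟩

end Pool.Agent.Lib.MP_57313b_al.Zf
end

-- part Pool.Agent.Lib.MP_57313b_al.Zf.Lim2
section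

/-!
# Existence of generic letters
-/

set_option autoImplicit false

namespace Pool.Agent.Lib.MP_57313b_al.Zf

open Filter Topology

set_option linter.unusedSectionVars false

variable {Ω : Type} [Ring Ω] [Algebra F Ω] [RK Ω] {G : Set (En Ω)} {ρ : Type} [Fintype ρ]

/-- `Cpl` for the elements `s m 1` (`rk_range_rm`, `rm_apply_one`) -/
lemma Cpl.lim (h : Cpl Ω) (s : ℕ → En Ω) {Q : ℕ → Sub Ω} (hQ : Flag Q)
    (hs : ∀ m m', m ≤ m' → LinearMap.range (s m' - s m) ≤ Q m) :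
    ∃ b : En Ω, Tendsto (fun m => rk (LinearMap.range (b - s m))) atTop (𝓝 0) := by
  have e : ∀ f f' : En Ω, r1 (f 1 - f' 1) = rk (LinearMap.range (f - f')) := fun f f' => by
    rw [← rk_range_rm, ← LinearMap.sub_apply, rm_apply_one]
  obtain ⟨b, hb⟩ := h (fun m => s m 1) (fun m => rk (Q m)) hQ.lim fun m m' hm => by
    rw [e]
    exact rk_mono (hs m m' hm)
  refine ⟨rm b, ?_⟩
  simpa only [← e, rm_apply, one_mul] using hb

lemma lim2_ten_sup {U : Sub Ω} {Λ : Sq ρ} {Z : Submodule Ω (ρ → Ω)} (s : Finset ℕ)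
    (h : ∀ l ∈ s, ten U (Λ l) ≤ Z) : ten U (s.sup Λ) ≤ Z := by
  induction s using Finset.induction_on with
  | empty => simp
  | insert a s _ ih =>
    rw [Finset.sup_insert, ten_sup]
    exact sup_le (h a (Finset.mem_insert_self _ _))
      (ih fun l hl => h l (Finset.mem_insert_of_mem hl))

/-- the monotone sequence attached to finitely many subspaces -/
noncomputable def lim2Sq (m : ℕ) (Λ : Sq ρ) : Sq ρ :=
  fun n => if n < m then (Finset.range (n + 1)).sup Λ else ⊤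

lemma lim2_mono (m : ℕ) (Λ : Sq ρ) : Monotone (lim2Sq m Λ) := by
  intro n n' h
  unfold lim2Sq
  split_ifs with h1 h2 h2
  · exact Finset.sup_mono (Finset.range_mono (Nat.succ_le_succ h))
  · exact le_top
  · exact absurd (h.trans_lt h2) h1
  · exact le_rfl

lemma lim2_le (m : ℕ) (Λ : Sq ρ) (n : ℕ) : Λ n ≤ lim2Sq m Λ n := by
  unfold lim2Sq
  split_ifs
  · exact Finset.le_sup (f := Λ) (Finset.self_mem_range_succ n)
  · exact le_top

lemma lim2_fl {Q : ℕ → Sub Ω} (hQ : Antitone Q) (m : ℕ) (Λ : Sq ρ) :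
    fl Q (lim2Sq m Λ) ≤ (⨆ l : Fin m, ten (Q l) (Λ l)) ⊔ pw ρ (Q m) := by
  refine iSup_le fun n => ?_
  unfold lim2Sq
  split_ifs with h
  · refine le_sup_of_le_left (lim2_ten_sup _ fun l hl => ?_)
    have hl' : l ≤ n := Nat.lt_succ_iff.1 (Finset.mem_range.1 hl)
    exact (ten_mono (hQ hl') le_rfl).trans
      (le_iSup (fun l : Fin m => ten (Q l) (Λ l)) ⟨l, hl'.trans_lt h⟩)
  · rw [ten_top]
    exact le_sup_of_le_right fun v hv => mem_pw.2 fun i => hQ (not_lt.1 h) (mem_pw.1 hv i)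

lemma lim2_mem {P : ℕ → Sub Ω} (hP : Flag P) {a : ℕ → En Ω}
    (ha : ∀ l, LinearMap.ker (a l) = P (l + 1)) (m : ℕ) (Λ : Sq ρ) {p : ρ → Ω}
    (hp : ∀ l : Fin m, ap (a l) p ∈ ten ⊤ (Λ l)) : p ∈ fl P (lim2Sq m Λ) := by
  refine (mem_fl hP (lim2_mono m Λ)).2 fun n φ hφ => ?_
  by_cases h : n < m
  · have h1 := (mem_ten.1 (hp ⟨n, h⟩)).2 φ fun l hl => hφ l (lim2_le m Λ n hl)
    rw [dot_ap] at h1
    rw [← ha]
    exact h1
  · have h1 : p ∈ ten (⊤ : Sub Ω) (lim2Sq m Λ n) := by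
      simp only [lim2Sq, if_neg h, ten_top, mem_pw, Submodule.mem_top, implies_true]
    rw [(mem_ten.1 h1).2 φ hφ]
    exact zero_mem _

lemma lim2_graph {Z : Submodule Ω ((ρ → Ω) × (ρ → Ω))} (hZ : Z.FG) (b s : En Ω) :
    rk (Z ⊓ (ap b).graph) ≤
      rk (Z ⊓ (ap s).graph) + Fintype.card ρ * rk (LinearMap.range (b - s)) := by
  have h := ((cls_graph (ap (ρ := ρ) b) (ap s)).inf (fg_graph _) (fg_graph _) hZ).rk_le
  rw [inf_comm _ Z, inf_comm _ Z] at h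
  refine h.trans (add_le_add le_rfl ?_)
  rw [← rk_pw (fg_range _)]
  refine rk_mono ?_
  rintro _ ⟨v, rfl⟩
  exact mem_pw.2 fun i => ⟨v i, rfl⟩

lemma lim2_map {P Q : Sub Ω} (hP : P.FG) (hQ : Q.FG) {b : En Ω} {s : ℕ → En Ω}
    (hs : ∀ m, P.map (s m) ≤ Q)
    (hb : Tendsto (fun m => rk (LinearMap.range (b - s m))) atTop (𝓝 0)) : P.map b ≤ Q := by
  have h1 : ∀ m, rk (P.map b ⊔ Q) ≤ rk Q + rk (LinearMap.range (b - s m)) := fun m => by
    refine (rk_mono (sup_le ?_ le_sup_left)).trans (rk_sup_le hQ (fg_range _))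
    rintro _ ⟨u, hu, rfl⟩
    have : b u = s m u + (b - s m) u := by simp
    rw [this]
    exact Submodule.add_mem_sup (hs m ⟨u, hu, rfl⟩) ⟨u, rfl⟩
  have h2 : rk (P.map b ⊔ Q) ≤ rk Q := by
    simpa using ge_of_tendsto' (tendsto_const_nhds.add hb) h1
  exact le_sup_left.trans (eq_of_le_of_rk_le hQ ((hP.map b).sup hQ) le_sup_right h2).ge

/-- Take `a l` with kernel `P (l+1)` (`CM.coproj`), `g l` with range `Q l` (`CM.proj`),
`s m = ∑ l < m, g l ∘ y l ∘ a l`, `b = lim s m`.  `s m` maps `P n` into `Q n`, hence so does `b`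
(`(P n).map b ⊔ Q n` has rank at most `rk (Q n) + rk (range (b - s m))`).  Given `Z`, use
`sum_gen` for a large `m` and `Λ' n = if n < m then ⨆ l ≤ n, Λ l else ⊤`: by `mem_fl`, `mem_ten`,
`dot_ap` the module on the right lies in `Z ⊓ box P Q Λ'`, and
`fl Q Λ' ≤ (⨆ l : Fin m, …) ⊔ pw (Q m)`; the range of `ap (b - s m)` has rank at most
`card ρ * rk (range (b - s m))`. -/
theorem exists_gen (hc : Cpl Ω) (hG : CM G) {P Q : ℕ → Sub Ω} (hP : Flag P) (hQ : Flag Q)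
    (dP : ∀ n, Df G (P n)) (dQ : ∀ n, Df G (Q n)) (y : ℕ → En Ω)
    (hy : ∀ l, Free (y l) (G ∪ y '' Set.Iio l)) :
    ∃ b : En Ω, Gen b P Q G ∧ Apx (G ∪ Set.range y) b.graph := by
  choose a ha ka _ using fun l => hG.coproj (dP (l + 1))
  choose g hg gm gi using fun l => hG.proj (dQ l)
  have rg : ∀ l, LinearMap.range (g l) = Q l := fun l =>
    le_antisymm (by rintro _ ⟨v, rfl⟩; exact gm l v) fun v hv => ⟨v, gi l v hv⟩
  obtain ⟨s, hs⟩ : ∃ s : ℕ → En Ω, ∀ m, s m = ∑ l ∈ Finset.range m, g l ∘ₗ y l ∘ₗ a l :=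
    ⟨_, fun _ => rfl⟩
  obtain ⟨b, hb⟩ := hc.lim s hQ fun m m' hm => by
    rintro _ ⟨v, rfl⟩
    rw [hs, hs, ← Finset.sum_Ico_eq_sub _ hm, LinearMap.sum_apply]
    exact sum_mem fun l hl => hQ.anti (Finset.mem_Ico.1 hl).1 (gm l _)
  refine ⟨b, ⟨fun n => lim2_map (hP.fg n) (hQ.fg n) (fun m => ?_) hb, fun ρ _ Z hZ ε hε => ?_⟩,
    fg_graph _, fun ε hε => ?_⟩
  · rintro _ ⟨u, hu, rfl⟩
    rw [hs, LinearMap.sum_apply]
    refine sum_mem fun l _ => ?_
    rcases le_or_gt n l with h | h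
    · exact hQ.anti h (gm l _)
    · have h0 : a l u = 0 := LinearMap.mem_ker.1 (ka l ▸ hP.anti (Nat.succ_le_of_lt h) hu)
      simp [h0]
  · have h3 : 0 < ε / 3 := by positivity
    have h4 : (Fintype.card ρ : ℝ) * 0 < ε / 3 := by rwa [mul_zero]
    have t1 := (hb.const_mul (Fintype.card ρ : ℝ)).eventually (gt_mem_nhds h4)
    have t2 := (hQ.lim.const_mul (Fintype.card ρ : ℝ)).eventually (gt_mem_nhds h4)
    obtain ⟨m, m1, m2⟩ := (t1.and t2).exists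
    obtain ⟨Λ, hΛ⟩ := sum_gen (ρ := ρ) a g y ha hg hy m _ Z (LinearMap.fst Ω _ _)
      (LinearMap.snd Ω _ _) hZ (Dm.sc _) (Dm.sc _) _ h3
    simp only [rg, ← hs, LinearMap.pair_fst_snd, Submodule.comap_id] at hΛ
    refine ⟨lim2Sq m Λ, lim2_mono m Λ, ?_⟩
    have b1 := lim2_graph hZ.fg b (s m)
    have b2 := (rk_mono (lim2_fl hQ.anti m Λ)).trans (rk_sup_le
      (Submodule.fg_iSup _ fun l : Fin m => fg_ten (hQ.fg l) (Λ l)) (fg_pw (hQ.fg m)))
    rw [rk_pw (hQ.fg m)] at b2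
    have b3 : rk (Z ⊓ (⨅ l : Fin m, (ten ⊤ (Λ l)).comap (ap (a l) ∘ₗ LinearMap.fst Ω _ _)) ⊓
        (⨆ l : Fin m, ten (Q l) (Λ l)).comap (LinearMap.snd Ω _ _)) ≤
        rk (Z ⊓ box P Q (lim2Sq m Λ)) := by
      refine rk_mono fun z hz => ⟨hz.1.1, lim2_mem hP ka m Λ fun l => ?_, ?_⟩
      · exact (Submodule.mem_iInf _).1 hz.1.2 l
      · exact (iSup_le fun l : Fin m => (ten_mono le_rfl (lim2_le m Λ l)).trans
          (ten_le_fl Q _ l) : _ ≤ fl Q (lim2Sq m Λ)) hz.2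
    linarith
  · obtain ⟨m, hm⟩ := (hb.eventually (gt_mem_nhds hε)).exists
    refine ⟨(s m).graph, ?_, (cls_graph b (s m)).mono hm.le⟩
    rw [hs]
    exact Dm.sum _ fun l _ => ((hg l).mono Set.subset_union_left).comp
      ((Dm.letter (Or.inr ⟨l, rfl⟩)).comp ((ha l).mono Set.subset_union_left))

end Pool.Agent.Lib.MP_57313b_al.Zf
end
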