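import Pool.Agent.Lib.MP_57313b_al.Zf.Red
import Pool.Agent.Lib.MP_57313b_al.Zf.Lim2

-- part Pool.Agent.Lib.MP_57313b_al.Zf.Gen2
section

/-!
# Generic letters: one coordinate, exchange, dyadic ranks
-/

set_option autoImplicit false

namespace Pool.Agent.Lib.MP_57313b_al.Zf

open Filter Topology

set_option linter.unusedSectionVars false

variable {Ω : Type} [Ring Ω] [Algebra F Ω] [RK Ω]
variable {E : Type} [AddCommGroup E] [Module Ω E] [Amb Ω E]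
variable {G G' : Set (En Ω)} {b : En Ω} {P Q : ℕ → Sub Ω} {ρ : Type} [Fintype ρ]

/-- One coordinate (`ρ = Unit`): a monotone `Λ` is `⊥`, or jumps to `⊤` at some `k`, and then
`fl P Λ = pw (P k)`. -/
lemma Gen.one (h : Gen b P Q G) (hP : Flag P) (hQ : Flag Q) {Z : Submodule Ω (Ω × Ω)}
    (hZ : Df G Z) : Z ⊓ b.graph = ⊥ ∨
      ∃ k, rk (Z ⊓ b.graph) + rk (Q k) ≤ rk (Z ⊓ (P k).prod (Q k)) := by
  classical
  let π : (Unit → Ω) →ₗ[Ω] Ω := LinearMap.proj ()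
  let ι : Ω →ₗ[Ω] (Unit → Ω) := LinearMap.pi fun _ => LinearMap.id
  have dZ := hZ.comap_sc (π.prodMap π)
  obtain ⟨Ψ, hΨ, he, -⟩ := h.opt hP hQ dZ
  have h1 : rk (Z ⊓ b.graph) ≤ rk (Z.comap (π.prodMap π) ⊓ (ap b).graph) :=
    rk_le_of_inj (fg_inf hZ.fg (fg_graph _)) (ι.prodMap ι)
      (fun v _ hv => Prod.ext (congrFun (congrArg Prod.fst hv) ()) (congrFun (congrArg Prod.snd hv) ()))
      fun v hv => ⟨hv.1, (LinearMap.mem_graph_iff _ _).2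
        (funext fun _ => (LinearMap.mem_graph_iff _ _).1 hv.2)⟩
  have h2 : ∀ k, (∀ j < k, Ψ j = ⊥) →
      rk (Z.comap (π.prodMap π) ⊓ box P Q Ψ) ≤ rk (Z ⊓ (P k).prod (Q k)) := fun k hk =>
    rk_le_of_inj (fg_inf dZ.fg (fg_box hP hQ hΨ)) (π.prodMap π)
      (fun v _ hv => Prod.ext (funext fun _ => congrArg Prod.fst hv)
        (funext fun _ => congrArg Prod.snd hv))
      fun v hv => ⟨hv.1, mem_pw.1 (fl_le_pw hP.anti hk hv.2.1) (),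
        mem_pw.1 (fl_le_pw hQ.anti hk hv.2.2) ()⟩
  by_cases ex : ∃ n, Ψ n ≠ ⊥
  · refine Or.inr ⟨Nat.find ex, ?_⟩
    linarith [h2 _ fun k hk => not_not.1 (Nat.find_min ex hk), rk_le_fl hQ (Nat.find_spec ex)]
  · obtain rfl : Ψ = ⊥ := funext fun n => not_not.1 (not_exists.1 ex n)
    rw [box, fl_bot, fl_bot, Submodule.prod_bot, inf_bot_eq, rk_bot, rk_bot] at he
    exact Or.inl (eq_bot_of_rk (by linarith))

/-- `Gen.one` for `Z = ⊤ × ⊥` -/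
lemma Gen.inj (h : Gen b P Q G) (hP : Flag P) (hQ : Flag Q) (he : ∀ n, rk (P n) ≤ rk (Q n)) :
    Function.Injective b := by
  have dZ : Df G ((⊤ : Sub Ω).prod (⊥ : Sub Ω)) := Df.top.prod Df.bot
  have h0 : (⊤ : Sub Ω).prod ⊥ ⊓ b.graph = ⊥ := (h.one hP hQ dZ).elim id fun ⟨k, hk⟩ => by
    have : rk ((⊤ : Sub Ω).prod (⊥ : Sub Ω) ⊓ (P k).prod (Q k)) ≤ rk (P k) :=
      rk_le_of_inj (fg_inf dZ.fg ((hP.fg k).prod (hQ.fg k))) (LinearMap.fst Ω Ω Ω)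
        (fun v hv e => Prod.ext e hv.1.2) fun v hv => hv.2.1
    exact eq_bot_of_rk (by linarith [he k])
  refine (injective_iff_map_eq_zero b).2 fun u hu => ?_
  have : (u, b u) ∈ (⊤ : Sub Ω).prod ⊥ ⊓ b.graph :=
    ⟨⟨trivial, hu⟩, (LinearMap.mem_graph_iff _ _).2 rfl⟩
  rw [h0] at this
  exact congrArg Prod.fst this

/-- counting the solutions above a submodule `B` -/
lemma gen2_count {K B : Submodule Ω E} {Z C Γ : Submodule Ω (E × (ρ → Ω) × (ρ → Ω))}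
    (h : ∀ u, u ∈ K ↔ ∃ p, (u, p, ap b p) ∈ Z) (hZ : Z.FG) (hC : C.FG) (hΓ : Γ.FG)
    (eC : ∀ z, z ∈ C ↔ z.1 ∈ B) (eΓ : ∀ z, z ∈ Γ ↔ z.2.2 = ap b z.2.1) :
    rk (Z ⊓ C ⊓ Γ) = rk (Z ⊓ LinearMap.ker (LinearMap.fst Ω _ _) ⊓ Γ) + rk (K ⊓ B) := by
  refine rk_eq_add (fg_inf (fg_inf hZ hC) hΓ) (LinearMap.fst Ω _ _) (fun v => ⟨fun hv => ?_,
    fun hv => ⟨⟨hv.1.1.1, hv.2⟩, hv.1.2⟩⟩) fun u => ⟨fun hu => ?_, ?_⟩
  · have e : v.1 = 0 := hv.1.2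
    exact ⟨⟨⟨hv.1.1, (eC v).2 (e ▸ B.zero_mem)⟩, hv.2⟩, e⟩
  · obtain ⟨p, hp⟩ := (h u).1 hu.1
    exact ⟨(u, p, ap b p), ⟨⟨hp, (eC _).2 hu.2⟩, (eΓ _).2 rfl⟩, rfl⟩
  · rintro ⟨⟨u, p, q⟩, ⟨⟨h1, h2⟩, h3⟩, rfl⟩
    obtain rfl : q = ap b p := (eΓ _).1 h3
    exact ⟨(h _).2 ⟨p, h1⟩, (eC _).1 h2⟩

/-- Exchange.  Split off `b₂` from `Z` (`Df.split`), `Z'` over `G`.  With
`k = rk (Z' ⊓ 0 × graph b₂)`: `rk (Z ⊓ B) + k = rk (Z' ⊓ B × graph b₂)` for every finitely generated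
`B`.  Use `Gen.prime` for `b₂` over `insert b₁ G`, then `Gen.prime` for `b₁` over `G` (the box of
`b₂` is definable over `G`), then `gen_easy` for `b₂`. -/
lemma Gen.exchange {b₁ b₂ : En Ω} {P₁ Q₁ P₂ Q₂ : ℕ → Sub Ω} (h₁ : Gen b₁ P₁ Q₁ G)
    (hP₁ : Flag P₁) (hQ₁ : Flag Q₁) (h₂ : Gen b₂ P₂ Q₂ (insert b₁ G)) (hP₂ : Flag P₂)
    (hQ₂ : Flag Q₂) (dP : ∀ n, Df G (P₂ n)) (dQ : ∀ n, Df G (Q₂ n)) :
    Gen b₁ P₁ Q₁ (insert b₂ G) := by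
  refine ⟨h₁.1, fun ρ _ Z hZ ε hε => ?_⟩
  obtain ⟨r, Z', dZ, hZ'⟩ := hZ.split
  let f := LinearMap.fst Ω ((ρ → Ω) × (ρ → Ω)) ((Fin r → Ω) × (Fin r → Ω))
  let s := LinearMap.snd Ω ((ρ → Ω) × (ρ → Ω)) ((Fin r → Ω) × (Fin r → Ω))
  let α₁ := LinearMap.fst Ω _ _ ∘ₗ f
  let β₁ := LinearMap.snd Ω _ _ ∘ₗ f
  let α₂ := LinearMap.fst Ω _ _ ∘ₗ s
  let β₂ := LinearMap.snd Ω _ _ ∘ₗ s
  obtain ⟨Λ₂, m₂, k₂⟩ := h₂.prime hP₂ hQ₂ ((dZ.mono (Set.subset_insert _ _)).inf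
    ((Dm.letter (Set.mem_insert b₁ G)).ap.graph.comap_sc (α₁.prod β₁))) (Dm.sc α₂) (Dm.sc β₂)
    (half_pos hε)
  obtain ⟨Λ₁, m₁, k₁⟩ := h₁.prime hP₁ hQ₁ (dZ.inf
    ((Df.box hP₂.anti hQ₂.anti dP dQ m₂).comap_sc (α₂.prod β₂))) (Dm.sc α₁) (Dm.sc β₁) (half_pos hε)
  have g₁ := fg_comap (fg_box hP₁ hQ₁ m₁) (α₁.prod β₁)
  have g₂ := fg_comap (fg_graph (ap (ρ := Fin r) b₂)) (α₂.prod β₂)
  have k₃ := gen_easy hP₂ hQ₂ h₂.1 (fg_inf dZ.fg g₁) α₂ β₂ m₂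
  have k₄ := gen2_count hZ' dZ.fg g₁ g₂ (B := box P₁ Q₁ Λ₁) (fun _ => Iff.rfl)
    fun _ => LinearMap.mem_graph_iff _ _
  have k₅ := gen2_count hZ' dZ.fg (fg_comap (fg_graph (ap b₁)) (α₁.prod β₁)) g₂
    (B := (ap b₁).graph) (fun _ => Iff.rfl) fun _ => LinearMap.mem_graph_iff _ _
  have k₆ := rk_mono (inf_le_inf_right ((ap b₂).graph.comap (α₂.prod β₂)) (inf_le_left
    (a := Z' ⊓ (box P₁ Q₁ Λ₁).comap (α₁.prod β₁)) (b := (box P₂ Q₂ Λ₂).comap (α₂.prod β₂))))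
  rw [inf_right_comm Z' ((box P₂ Q₂ Λ₂).comap _), inf_right_comm Z' ((box P₂ Q₂ Λ₂).comap _)] at k₁
  exact ⟨Λ₁, m₁, by linarith⟩

lemma gen2_dy (h : Gl G b P Q) (hd : DY G) {Z : Submodule Ω (E × (ρ → Ω) × (ρ → Ω))}
    (hZ : Df G Z) : Dy (rk (Z ⊓ (ap b).graph.comap (LinearMap.snd Ω _ _))) := by
  have dZ := hZ.map_sc (LinearMap.snd Ω _ _)
  obtain ⟨Ψ, hΨ, he, -⟩ := h.gen.opt h.fP h.fQ dZ
  rw [rk_inf_comap hZ.fg (fg_graph _), eq_sub_of_add_eq he]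
  exact (hd _ _ (hZ.inf (Df.ker_sc _))).add ((hd _ _ (dZ.inf
    (Df.box h.fP.anti h.fQ.anti h.dP h.dQ hΨ))).sub (hd _ _ (Df.fl h.fQ.anti h.dQ hΨ)))

/-- Dyadic ranks.  With `Z` from `Df.split`, `rk K = rk (Z ⊓ ⊤ × graph) - rk (rt Z ⊓ graph)` and
`rk (Z ⊓ ⊤ × graph) = rk (lf Z) + rk (sec Z ⊤ ⊓ graph)`; use `Gen.opt` twice. -/
lemma DY.ins (h : Gl G b P Q) (hd : DY G) : DY (insert b G) := by
  intro E _ _ _ K hK
  obtain ⟨r, Z, dZ, hZ⟩ := hK.split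
  have := gen2_count hZ dZ.fg fg_top (fg_comap (fg_graph (ap b)) (LinearMap.snd Ω _ _)) (B := ⊤)
    (fun _ => Iff.rfl) fun _ => LinearMap.mem_graph_iff _ _
  rw [inf_top_eq, inf_top_eq] at this
  rw [eq_sub_of_add_eq' this.symm]
  exact (gen2_dy h hd dZ).sub (gen2_dy h hd (dZ.inf (Df.ker_sc _)))

lemma DY.mono (h : DY G') (hG : G ⊆ G') : DY G := by
  exact fun E _ _ _ K hK => h E K (hK.mono hG)

end Pool.Agent.Lib.MP_57313b_al.Zf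
end

-- part Pool.Agent.Lib.MP_57313b_al.Zf.Ex2
section

/-!
# Pairs of points
-/

set_option autoImplicit false

namespace Pool.Agent.Lib.MP_57313b_al.Zf

open Filter Topology

set_option linter.unusedSectionVars false

variable {Ω : Type} [Ring Ω] [Algebra F Ω]
variable {E : Type} [AddCommGroup E] [Module Ω E] [Amb Ω E]
variable {G G' : Set (En Ω)} {𝒰 𝒰' 𝒱 𝒱' 𝒲 𝒢 : Set (Sub Ω)} {ρ ρ' : Type} [Fintype ρ] [Fintype ρ']

lemma ExJ.mono (h : ExJ G' 𝒰 𝒱) (hG : G ⊆ G') : ExJ G 𝒰 𝒱 := by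
  intro σ σ' _ _ Z hZ
  exact h σ σ' Z (hZ.mono hG)

lemma ExJ.symm (h : ExJ G 𝒰 𝒱) : ExJ G 𝒱 𝒰 := by
  intro σ σ' _ _ Z hZ h1 h2
  let sw : ((σ' → Ω) × (σ → Ω)) →ₗ[Ω] ((σ → Ω) × (σ' → Ω)) :=
    (LinearMap.snd Ω _ _).prod (LinearMap.fst Ω _ _)
  have hZ' : Df G (Z.comap sw) := hZ.comap_sc sw
  have e1 : lf (Z.comap sw) = rt Z := by
    ext u
    simp [sw]
  have e2 : rt (Z.comap sw) = lf Z := by
    ext u
    simp [sw]
  obtain ⟨U, hU, V, hV, hb⟩ := h σ' σ (Z.comap sw) hZ' (e1 ▸ h2) (e2 ▸ h1)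
  refine ⟨V, hV, U, hU, ?_⟩
  rw [eq_bot_iff]
  rintro ⟨p, q⟩ ⟨hz, hp, hq⟩
  have : (q, p) ∈ Z.comap sw ⊓ (pw σ' U).prod (pw σ V) := ⟨hz, hq, hp⟩
  rw [hb, Submodule.mem_bot, Prod.mk_eq_zero] at this
  rw [Submodule.mem_bot, Prod.mk_eq_zero]
  exact ⟨this.2, this.1⟩

/-- take `ρ' = Empty` -/
lemma ExJ.left (h : ExJ G 𝒰 𝒱) : Ex G 𝒰 := by
  intro σ _ Z hZ h1
  have hZ' : Df G (Z.comap (LinearMap.fst Ω (σ → Ω) (Empty → Ω))) := hZ.comap_sc _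
  have e1 : lf (Z.comap (LinearMap.fst Ω (σ → Ω) (Empty → Ω))) = Z := by
    ext u
    simp
  have h2 : ¬ HasDir 𝒱 (rt (Z.comap (LinearMap.fst Ω (σ → Ω) (Empty → Ω)))) := by
    rintro ⟨l, hl, -⟩
    exact hl (Subsingleton.elim _ _)
  obtain ⟨U, hU, V, -, hb⟩ := h σ Empty _ hZ' (e1.symm ▸ h1) h2
  refine ⟨U, hU, ?_⟩
  rw [eq_bot_iff]
  rintro p ⟨hz, hp⟩
  have : (p, (0 : Empty → Ω)) ∈ Z.comap (LinearMap.fst Ω (σ → Ω) (Empty → Ω)) ⊓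
      (pw σ U).prod (pw Empty V) := ⟨hz, hp, Submodule.zero_mem _⟩
  rw [hb, Submodule.mem_bot, Prod.mk_eq_zero] at this
  exact this.1

lemma ExJ.right (h : ExJ G 𝒰 𝒱) : Ex G 𝒱 := h.symm.left

lemma exJ_bot (h : ⊥ ∈ 𝒰) (h' : ⊥ ∈ 𝒱) : ExJ G 𝒰 𝒱 := by
  intro σ σ' _ _ Z _ _ _
  refine ⟨⊥, h, ⊥, h', ?_⟩
  rw [eq_bot_iff]
  rintro ⟨p, q⟩ ⟨-, hp, hq⟩
  rw [Submodule.mem_bot, Prod.mk_eq_zero]
  exact ⟨funext fun i => mem_pw.1 hp i, funext fun i => mem_pw.1 hq i⟩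

lemma ExJ.of_supp {ι : Type} {w : ℕ → En Ω} {c : ι → En Ω} {X : Set ι}
    (h : ∀ s ⊆ X, s.Finite → ExJ (GS w c s) 𝒰 𝒱) : ExJ (GS w c X) 𝒰 𝒱 := by
  intro σ σ' _ _ Z hZ
  obtain ⟨s, hs, hf, hZ'⟩ := hZ.supp_gs
  exact h s hs hf σ σ' Z hZ'

/-- the case `ρ = ρ' = Unit` -/
lemma ExJ.one (h : ExJ G 𝒰 𝒱) {Z : Submodule Ω (Ω × Ω)} (hZ : Df G Z) :
    (∃ U ∈ 𝒰, U ≤ lf Z) ∨ (∃ V ∈ 𝒱, V ≤ rt Z) ∨ ∃ U ∈ 𝒰, ∃ V ∈ 𝒱, Z ⊓ U.prod V = ⊥ := by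
  let e : ((Unit → Ω) × (Unit → Ω)) →ₗ[Ω] (Ω × Ω) :=
    (LinearMap.proj ()).prodMap (LinearMap.proj ())
  have hZ' : Df G (Z.comap e) := hZ.comap_sc e
  by_cases h1 : HasDir 𝒰 (lf (Z.comap e))
  · obtain ⟨l, hl, U, hU, hu⟩ := h1
    have hl' : l () ≠ 0 := fun h0 => hl (funext fun _ => h0)
    refine Or.inl ⟨U, hU, fun u hu' => ?_⟩
    have := hu _ (smul_mem_sub (l ())⁻¹ hu')
    simpa [e, smul_smul, hl'] using this
  by_cases h2 : HasDir 𝒱 (rt (Z.comap e))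
  · obtain ⟨l, hl, U, hU, hu⟩ := h2
    have hl' : l () ≠ 0 := fun h0 => hl (funext fun _ => h0)
    refine Or.inr (Or.inl ⟨U, hU, fun u hu' => ?_⟩)
    have := hu _ (smul_mem_sub (l ())⁻¹ hu')
    simpa [e, smul_smul, hl'] using this
  obtain ⟨U, hU, V, hV, hb⟩ := h Unit Unit _ hZ' h1 h2
  refine Or.inr (Or.inr ⟨U, hU, V, hV, ?_⟩)
  rw [eq_bot_iff]
  rintro ⟨p, q⟩ ⟨hz, hp, hq⟩
  have : ((fun _ => p : Unit → Ω), (fun _ => q : Unit → Ω)) ∈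
      Z.comap e ⊓ (pw Unit U).prod (pw Unit V) :=
    ⟨hz, mem_pw.2 fun _ => hp, mem_pw.2 fun _ => hq⟩
  rw [hb, Submodule.mem_bot, Prod.mk_eq_zero] at this
  rw [Submodule.mem_bot, Prod.mk_eq_zero]
  exact ⟨congrFun this.1 (), congrFun this.2 ()⟩

/-- Let `Λ` be the directions of `lf Z` (`exists_dirs`), `Λ'` a complement, `M` the projection
matrix onto `Λ`.  Apply `h` to `Z ⊓ (ten ⊤ Λ' × ⊤)` and to `(p - mat M p, q)`. -/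
lemma ExJ.split (h : ExJ G 𝒰 𝒱) (hd : Dct 𝒰) {Z : Submodule Ω ((ρ → Ω) × (ρ' → Ω))}
    (hZ : Df G Z) (hr : ¬ HasDir 𝒱 (rt Z)) :
    ∃ U ∈ 𝒰, ∃ V ∈ 𝒱, ∀ p ∈ pw ρ U, ∀ q ∈ pw ρ' V, (p, q) ∈ Z → q = 0 := by
  classical
  by_cases hbot : ⊥ ∈ 𝒰
  · obtain ⟨V, hV, hb⟩ := h.right ρ' (rt Z) hZ.rt hr
    refine ⟨⊥, hbot, V, hV, fun p hp q hq hz => ?_⟩
    have hp0 : p = 0 := funext fun i => mem_pw.1 hp i
    have : q ∈ rt Z ⊓ pw ρ' V := ⟨by rw [hp0] at hz; exact hz, hq⟩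
    rwa [hb, Submodule.mem_bot] at this
  obtain ⟨Λ, hΛ, U₀, hU₀, hle⟩ := exists_dirs hd (lf Z)
  obtain ⟨Λ', hc⟩ := Submodule.exists_isCompl Λ
  obtain ⟨M, hM1, hM2, hM3⟩ := exists_proj_mat hc
  have hZ' : Df G (Z ⊓ (ten ⊤ Λ').prod ⊤) := hZ.inf ((Df.top.ten Λ').prod Df.top)
  have hker : ten (⊤ : Sub Ω) Λ' ≤ LinearMap.ker (mat M) := by
    rw [ten_le_iff]
    intro l hl u _
    rw [LinearMap.mem_ker, mat_dir, hM3 l hl, dir_zero]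
  have h1 : ¬ HasDir 𝒰 (lf (Z ⊓ (ten ⊤ Λ').prod ⊤)) := by
    rintro ⟨l, hl, U, hU, hu⟩
    have hlΛ : l ∈ Λ := (hΛ l).2 ⟨U, hU, fun u hu' => (hu u hu').1⟩
    have hU0 : U = ⊥ := by
      rw [eq_bot_iff]
      intro u hu'
      have h3 : mat M (dir l u) = 0 := hker (hu u hu').2.1
      rw [mat_dir, hM2 l hlΛ] at h3
      exact dir_eq_zero hl h3
    exact hbot (hU0 ▸ hU)
  have h2 : ¬ HasDir 𝒱 (rt (Z ⊓ (ten ⊤ Λ').prod ⊤)) := fun h3 =>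
    hr (h3.mono fun x hx => hx.1)
  obtain ⟨U, hU, V, hV, hb⟩ := h ρ ρ' _ hZ' h1 h2
  obtain ⟨U₁, hU₁, hU₁le⟩ := hd.2 U hU U₀ hU₀
  refine ⟨U₁, hU₁, V, hV, fun p hp q hq hz => ?_⟩
  have hpU : p ∈ pw ρ U := mem_pw.2 fun i => (hU₁le (mem_pw.1 hp i)).1
  have hpU₀ : p ∈ pw ρ U₀ := mem_pw.2 fun i => (hU₁le (mem_pw.1 hp i)).2
  have hrow : ∀ i, M i ∈ Λ := fun i => by
    have := hM1 (Pi.single i 1)
    rwa [Matrix.single_one_vecMul] at this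
  have hrow' : ∀ i, (1 - M : Matrix ρ ρ F) i ∈ Λ' := fun i => by
    have h4 : (Pi.single i 1 : ρ → F) ∈ Λ ⊔ Λ' := by
      rw [hc.sup_eq_top]
      trivial
    obtain ⟨a, ha, b, hb', hab⟩ := Submodule.mem_sup.1 h4
    have h5 : Matrix.vecMul (Pi.single i 1 : ρ → F) M = a := by
      rw [← hab, Matrix.add_vecMul, hM2 a ha, hM3 b hb', add_zero]
    rw [Matrix.single_one_vecMul] at h5
    have h6 : (1 - M : Matrix ρ ρ F) i = b := by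
      have h7 : (1 - M : Matrix ρ ρ F) i = Pi.single i 1 - M.row i := by
        funext j
        simp [Matrix.one_apply, Pi.single_apply, eq_comm, Matrix.row]
      rw [h7, h5, ← hab, add_sub_cancel_left]
    rw [h6]
    exact hb'
  have hA : (mat M p, (0 : ρ' → Ω)) ∈ Z := hle (mat_mem_ten hrow hpU₀)
  have hB : (p - mat M p, q) ∈ Z := by
    have := Z.sub_mem hz hA
    simpa using this
  have hC : p - mat M p ∈ ten (⊤ : Sub Ω) Λ' := by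
    have := mat_mem_ten (U := (⊤ : Sub Ω)) hrow' (v := p) (mem_pw.2 fun _ => trivial)
    rwa [mat_sub, mat_one] at this
  have hD : p - mat M p ∈ pw ρ U := Submodule.sub_mem _ hpU (mat_mem_pw M hpU)
  have : (p - mat M p, q) ∈ (Z ⊓ (ten ⊤ Λ').prod ⊤) ⊓ (pw ρ U).prod (pw ρ' V) :=
    ⟨⟨hB, hC, trivial⟩, hD, hq⟩
  rw [hb, Submodule.mem_bot, Prod.mk_eq_zero] at this
  exact this.2

/-- Two independent points have no nonzero germs into a common point: apply `ExJ.one` to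
`{(p, q) | f p = g q}` and use `Ex.cof_img`. -/
lemma ExJ.two_germs (h : ExJ G 𝒰 𝒱) (hb : Base G 𝒰) (hb' : Base G 𝒱) (he : Ex G 𝒲)
    (hd : Dct 𝒲) (h1 : NG G 𝒰 𝒲) (h2 : NG G 𝒱 𝒲) : False := by
  obtain ⟨f, hf, hfg, hfn⟩ := h1
  obtain ⟨g, hg, hgg, hgn⟩ := h2
  have hZ : Df G (LinearMap.ker (f.coprod (-g))) := (hf.coprod hg.neg).ker
  rcases h.one hZ with ⟨U, hU, hle⟩ | ⟨V, hV, hle⟩ | ⟨U, hU, V, hV, hb0⟩
  · refine hfn U hU fun u hu => ?_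
    simpa using hle hu
  · refine hgn V hV fun u hu => ?_
    simpa using hle hu
  · obtain ⟨W₁, hW₁, h1⟩ := he.cof_img hb hf hfg hfn (U.map f) ⟨U, hU, rfl⟩
    obtain ⟨W₂, hW₂, h2⟩ := he.cof_img hb' hg hgg hgn (V.map g) ⟨V, hV, rfl⟩
    obtain ⟨W, hW, hWle⟩ := hd.2 W₁ hW₁ W₂ hW₂
    have hW0 : W = ⊥ := by
      rw [eq_bot_iff]
      intro x hx
      obtain ⟨u, hu, hux⟩ := h1 (hWle hx).1
      obtain ⟨v, hv, hvx⟩ := h2 (hWle hx).2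
      have : (u, v) ∈ LinearMap.ker (f.coprod (-g)) ⊓ U.prod V := by
        refine ⟨?_, hu, hv⟩
        simp [hux, hvx]
      rw [hb0, Submodule.mem_bot, Prod.mk_eq_zero] at this
      rw [← hux, this.1, map_zero]
      exact Submodule.zero_mem _
    exact hfn.bot_not_mem hfg (hW0 ▸ hW)

lemma ExJ.not_ng (h : ExJ G 𝒰 𝒱) (hb : Base G 𝒰) (hb' : Base G 𝒱) : ¬ NG G 𝒰 𝒱 := by
  intro h1
  have hbot : ⊥ ∉ 𝒱 := by
    obtain ⟨f, -, hfg, hfn⟩ := h1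
    exact hfn.bot_not_mem hfg
  refine h.two_germs hb hb' h.right hb'.1 h1 ⟨LinearMap.id, Dm.sc _, ?_, ?_⟩
  · intro V hV
    exact ⟨V, hV, by simp⟩
  · intro V hV hle
    rw [LinearMap.ker_id, le_bot_iff] at hle
    exact hbot (hle ▸ hV)

end Pool.Agent.Lib.MP_57313b_al.Zf
end

-- part Pool.Agent.Lib.MP_57313b_al.Zf.Inert1
section

/-!
# Inertness of generic letters
-/

set_option autoImplicit false

namespace Pool.Agent.Lib.MP_57313b_al.Zf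

open Filter Topology

set_option linter.unusedSectionVars false

variable {Ω : Type} [Ring Ω] [Algebra F Ω] [RK Ω]
variable {E : Type} [AddCommGroup E] [Module Ω E] [Amb Ω E]
variable {G : Set (En Ω)} {b : En Ω} {P Q : ℕ → Sub Ω} {ρ : Type} [Fintype ρ]

lemma Gl.baseP (h : Gl G b P Q) : Base G (Set.range P) := base_range h.fP.anti h.dP

lemma Gl.baseQ (h : Gl G b P Q) : Base G (Set.range Q) := base_range h.fQ.anti h.dQ

lemma Gl.ap_mem (h : Gl G b P Q) {j : ℕ} {p : ρ → Ω} (hp : p ∈ pw ρ (P j)) :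
    ap b p ∈ pw ρ (Q j) := by
  exact mem_pw.2 fun i => h.gen.1 j ⟨p i, mem_pw.1 hp i, rfl⟩

/-- `ExJ.split` gives `ap b p = 0`, and `b` is injective (`Gen.inj`) -/
lemma MgL.qi (h : MgL G P Q) (hg : Gl G b P Q) : QI G b P Q := by
  intro ρ _ Z hZ hr
  obtain ⟨_, ⟨i, rfl⟩, _, ⟨k, rfl⟩, H⟩ := h.ex.split hg.fP.dct hZ hr
  refine ⟨max i k, fun p hp hz => funext fun a => ?_⟩
  have h0 := H p (mem_pw.2 fun a => hg.fP.anti (le_max_left i k) (mem_pw.1 hp a)) _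
    (mem_pw.2 fun a => hg.fQ.anti (le_max_right i k) (mem_pw.1 (hg.ap_mem hp) a)) hz
  exact hg.gen.inj hg.fP hg.fQ (fun n => (h.eq n).le) ((congrFun h0 a).trans (map_zero b).symm)

/-- `ExJ.split` for the swapped pair -/
lemma MgL.pi (h : MgL G P Q) (hg : Gl G b P Q) : PI G b P := by
  intro ρ _ Z hZ hr
  obtain ⟨_, ⟨i, rfl⟩, _, ⟨k, rfl⟩, H⟩ := h.ex.symm.split hg.fQ.dct
    (hZ.comap_sc ((LinearMap.snd Ω (ρ → Ω) (ρ → Ω)).prod (LinearMap.fst Ω _ _))) hr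
  exact ⟨max i k, fun p hp hz => H _
    (mem_pw.2 fun a => hg.fQ.anti (le_max_left i k) (mem_pw.1 (hg.ap_mem hp) a)) p
    (mem_pw.2 fun a => hg.fP.anti (le_max_right i k) (mem_pw.1 hp a)) hz⟩

/-- Let `n` be the first index with `Λ n ≠ ⊥` and `n' = max n j`.  The left side lies in `lev n'`
(`fl_le_pw`), so its rank is at most `card ρ * rk (P n') + rk (rt Z ⊓ pw (Q n'))`, which is less than
`rk (Q n') ≤ rk (Q n) ≤ rk (fl Q Λ)` when `j` is large. -/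
lemma Sh.sqi (h : Sh G P Q) (hg : Gl G b P Q) {Z : Submodule Ω ((ρ → Ω) × (ρ → Ω))}
    (hZ : Df G Z) (hr : ¬ HasDir (Set.range Q) (rt Z)) :
    ∃ j₀, ∀ j, j₀ ≤ j → ∀ Λ : Sq ρ, Monotone Λ → Λ ≠ ⊥ →
      rk (Z ⊓ lev ρ P Q j ⊓ box P Q Λ) < rk (fl Q Λ) := by
  classical
  have hε : (0 : ℝ) < 1 / (Fintype.card ρ + 2) := by positivity
  obtain ⟨j₀, h1⟩ := eventually_atTop.1 ((h.rat _ hε).and (h.sm ρ _ hZ.rt hr _ hε))
  refine ⟨j₀, fun j hj Λ hΛ h0 => ?_⟩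
  have ex : ∃ n, Λ n ≠ ⊥ := Function.ne_iff.1 h0
  have hn : ∀ k < Nat.find ex, Λ k = ⊥ := fun k hk => not_not.1 (Nat.find_min ex hk)
  have h2 := rk_le_fl hg.fQ (Nat.find_spec ex)
  set n := Nat.find ex
  obtain ⟨h3, h4⟩ := h1 (max n j) (hj.trans (le_max_right _ _))
  have mx : ∀ {R : ℕ → Sub Ω} {v : ρ → Ω}, v ∈ pw ρ (R n) → v ∈ pw ρ (R j) →
      v ∈ pw ρ (R (max n j)) := fun k1 k2 => by
    rcases max_choice n j with e | e <;> rw [e] <;> assumption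
  have h5 := rk_le_add (fg_inf (fg_inf hZ.fg ((hg.dP j).lev (hg.dQ j)).fg) (fg_box hg.fP hg.fQ hΛ))
    (A := (rt Z ⊓ pw ρ (Q (max n j))).map (LinearMap.inr Ω _ _)) (B := pw ρ (P (max n j)))
    (LinearMap.fst Ω _ _) ?_ fun v hv => mx (fl_le_pw hg.fP.anti hn hv.2.1) hv.1.2.1
  · have h6 := rk_map_le (fg_inf hZ.rt.fg (fg_pw (ρ := ρ) (hg.fQ.fg (max n j))))
      (LinearMap.inr Ω (ρ → Ω) _)
    rw [rk_pw (hg.fP.fg _)] at h5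
    have h7 := rk_mono (hg.fQ.anti (le_max_left n j))
    have h8 := rk_pos (h.ne (max n j))
    have h9 := mul_le_mul_of_nonneg_left h3 (Nat.cast_nonneg (α := ℝ) (Fintype.card ρ))
    have h10 : (Fintype.card ρ + 2) * (1 / (Fintype.card ρ + 2) * rk (Q (max n j))) =
        rk (Q (max n j)) := by field_simp
    linarith [mul_pos hε h8]
  · rintro ⟨p, q⟩ hv (rfl : p = 0)
    exact ⟨q, ⟨hv.1.1, mx (fl_le_pw hg.fQ.anti hn hv.2.2) hv.1.2.2⟩, rfl⟩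

/-- `Gen.opt` for `Z ⊓ lev j` and `Sh.sqi` -/
lemma Sh.qi (h : Sh G P Q) (hg : Gl G b P Q) : QI G b P Q := by
  intro ρ _ Z hZ hr
  obtain ⟨j, hj⟩ := h.sqi hg hZ hr
  have dZ := hZ.inf ((hg.dP j).lev (hg.dQ j))
  obtain ⟨Ψ, hΨ, he, -⟩ := hg.gen.opt hg.fP hg.fQ dZ
  refine ⟨j, fun p hp hz => ?_⟩
  obtain rfl : Ψ = ⊥ := by
    by_contra h0
    linarith [hj j le_rfl Ψ hΨ h0, rk_nonneg (Z ⊓ lev ρ P Q j ⊓ (ap b).graph)]
  have := (opt_le hg.fP hg.fQ hg.gen.1 dZ.fg hΨ he.le (x := (p, ap b p))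
    ⟨⟨hz, hp, hg.ap_mem hp⟩, (LinearMap.mem_graph_iff _ _).2 rfl⟩).1
  rwa [fl_bot] at this

lemma Step.qi (h : Step G b P Q) : QI G b P Q :=
  h.ok.elim (fun h' => h'.qi h.gl) fun h' => h'.qi h.gl

variable {K : Submodule Ω E} {N : Submodule Ω (E × (ρ → Ω) × (ρ → Ω))}

/-- `germ` for `{(u, q) | (u, 0, q) ∈ N}` -/
lemma Red.germQ (hN : Red G b P Q K N) (hG : CM G) (hQ : Flag Q) {𝒱 : Set (Submodule Ω E)}
    (hb : Base G 𝒱) (h0 : ∃ V₀ ∈ 𝒱, V₀ ⊓ lf N = ⊥) :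
    (∃ V ∈ 𝒱, ¬ HasDir (Set.range Q) (rt (sec N V))) ∨ ∃ β : Ω →ₗ[Ω] E, Dm G β ∧
      Germ β (Set.range Q) 𝒱 ∧ NZ β (Set.range Q) ∧
      ∃ (l : ρ → F) (j : ℕ), ∀ v ∈ Q j, (β v, 0, dir l v) ∈ N := by
  rcases germ hG hb hQ.dct
    (hN.df.comap_sc ((LinearMap.id : E →ₗ[Ω] E).prodMap (LinearMap.inr Ω (ρ → Ω) (ρ → Ω))))
    h0 hN.dQ with ⟨V, hV, h⟩ | ⟨β, h1, h2, h3, l, _, ⟨j, rfl⟩, h⟩
  · refine Or.inl ⟨V, hV, fun h' => h ?_⟩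
    obtain ⟨l, hl, U, hU, h'⟩ := h'
    exact ⟨l, hl, U, hU, fun u hu => mem_sec.2 ((mem_sec (N := N)).1 (h' u hu))⟩
  · exact Or.inr ⟨β, h1, h2, h3, l, j, h⟩

/-- `germ` for `{(u, p) | (u, p, 0) ∈ N}` -/
lemma Red.germP (hN : Red G b P Q K N) (hG : CM G) (hP : Flag P) (he : ∀ n, rk (Q n) ≤ rk (P n))
    {𝒱 : Set (Submodule Ω E)} (hb : Base G 𝒱) (h0 : ∃ V₀ ∈ 𝒱, V₀ ⊓ lf N = ⊥) :
    (∃ V ∈ 𝒱, ¬ HasDir (Set.range P) (lf (sec N V))) ∨ NG G (Set.range P) 𝒱 := by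
  rcases germ hG hb hP.dct
    (hN.df.comap_sc ((LinearMap.id : E →ₗ[Ω] E).prodMap (LinearMap.inl Ω (ρ → Ω) (ρ → Ω))))
    h0 (hN.dP he) with ⟨V, hV, h⟩ | ⟨β, h1, h2, h3, -⟩
  · refine Or.inl ⟨V, hV, fun h' => h ?_⟩
    obtain ⟨l, hl, U, hU, h'⟩ := h'
    exact ⟨l, hl, U, hU, fun u hu => mem_sec.2 ((mem_sec (N := N)).1 (h' u hu))⟩
  · exact Or.inr ⟨β, h1, h2, h3⟩

/-- from `Red.c` -/
lemma Red.inert (hN : Red G b P Q K N) {V : Submodule Ω E}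
    (h : ∃ j, ∀ p ∈ pw ρ (P j), (p, ap b p) ∈ sec N V → p = 0) :
    ∃ ε : ℝ, 0 < ε ∧ ∀ U : Submodule Ω E, U ≤ V → Df G U → rk U < ε → K ⊓ U ≤ lf N := by
  obtain ⟨j, hj⟩ := h
  obtain ⟨ε, hε, H⟩ := hN.c j
  refine ⟨ε, hε, fun U hU dU hr u hu => ?_⟩
  obtain ⟨p, hp, h1⟩ := H U dU hr u hu.1 hu.2
  obtain rfl := hj p hp (mem_sec.2 ⟨u, hU hu.2, h1⟩)
  rwa [map_zero] at h1

lemma inert1_fin (hN : Red G b P Q K N) {𝒱 : Set (Submodule Ω E)} (hb : Base G 𝒱) (hs : Sml 𝒱)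
    (h0 : ∃ V₀ ∈ 𝒱, V₀ ⊓ lf N = ⊥) {V : Submodule Ω E} (hV : V ∈ 𝒱)
    (h : ∃ j, ∀ p ∈ pw ρ (P j), (p, ap b p) ∈ sec N V → p = 0) : ∃ V ∈ 𝒱, K ⊓ V = ⊥ := by
  obtain ⟨V₀, hV₀, h0⟩ := h0
  obtain ⟨ε, hε, H⟩ := hN.inert h
  obtain ⟨V', hV', h1⟩ := hb.1.2 V hV V₀ hV₀
  obtain ⟨U, hU, h2, h3⟩ := hs.le hb.1 hV' hε
  exact ⟨U, hU, eq_bot_iff.2 (h0 ▸ le_inf (inf_le_right.trans (h2.trans (h1.trans inf_le_right)))
    (H U (h2.trans (h1.trans inf_le_left)) (hb.2 U hU) h3))⟩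

/-- `red`, `Red.germQ`, `hq` for `sec N V`, `Red.inert` -/
theorem inertQ (hg : Gl G b P Q) (hG : CM G) (hq : QI G b P Q) {𝒱 : Set (Submodule Ω E)}
    (hb : Base G 𝒱) (hs : Sml 𝒱) (hK : Df (insert b G) K)
    (h0 : ∀ Y, Df G Y → Y ≤ K → ∃ V ∈ 𝒱, V ⊓ Y = ⊥) (hn : ¬ NG G (Set.range Q) 𝒱) :
    ∃ V ∈ 𝒱, K ⊓ V = ⊥ := by
  obtain ⟨r, N, hN⟩ := red hg hK
  have h1 := h0 _ hN.df.lf hN.lf_le
  rcases hN.germQ hG hg.fQ hb h1 with ⟨V, hV, h⟩ | ⟨β, h2, h3, h4, -⟩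
  · exact inert1_fin hN hb hs h1 hV (hq _ _ (hN.df.sec (hb.2 V hV)) h)
  · exact (hn ⟨β, h2, h3, h4⟩).elim

theorem inertP (hg : Gl G b P Q) (hG : CM G) (hm : MgL G P Q) {𝒱 : Set (Submodule Ω E)}
    (hb : Base G 𝒱) (hs : Sml 𝒱) (hK : Df (insert b G) K)
    (h0 : ∀ Y, Df G Y → Y ≤ K → ∃ V ∈ 𝒱, V ⊓ Y = ⊥) (hn : ¬ NG G (Set.range P) 𝒱) :
    ∃ V ∈ 𝒱, K ⊓ V = ⊥ := by
  obtain ⟨r, N, hN⟩ := red hg hK
  have h1 := h0 _ hN.df.lf hN.lf_le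
  rcases hN.germP hG hg.fP (fun n => (hm.eq n).ge) hb h1 with ⟨V, hV, h⟩ | h
  · exact inert1_fin hN hb hs h1 hV (hm.pi hg _ _ (hN.df.sec (hb.2 V hV)) h)
  · exact (hn h).elim

/-- free letters: `Red.inert` with `j = 1` -/
theorem inertF (hg : Gl G b P Q) (hP : P 1 = ⊥) {𝒱 : Set (Submodule Ω E)}
    (hb : Base G 𝒱) (hs : Sml 𝒱) (hK : Df (insert b G) K)
    (h0 : ∀ Y, Df G Y → Y ≤ K → ∃ V ∈ 𝒱, V ⊓ Y = ⊥) : ∃ V ∈ 𝒱, K ⊓ V = ⊥ := by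
  obtain ⟨r, N, hN⟩ := red hg hK
  obtain ⟨V, hV⟩ := hb.1.1
  refine inert1_fin hN hb hs (h0 _ hN.df.lf hN.lf_le) hV ⟨1, fun p hp _ => funext fun i => ?_⟩
  have := mem_pw.1 hp i
  rwa [hP] at this

end Pool.Agent.Lib.MP_57313b_al.Zf
end

-- part Pool.Agent.Lib.MP_57313b_al.Zf.Inert2
section

/-!
# Almost inertness of shifting letters
-/

set_option autoImplicit false

namespace Pool.Agent.Lib.MP_57313b_al.Zf

open Filter Topology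

set_option linter.unusedSectionVars false

variable {Ω : Type} [Ring Ω] [Algebra F Ω] [RK Ω]
variable {E : Type} [AddCommGroup E] [Module Ω E] [Amb Ω E]
variable {G : Set (En Ω)} {b : En Ω} {P Q : ℕ → Sub Ω} {ρ : Type} [Fintype ρ]

variable {K : Submodule Ω E} {N : Submodule Ω (E × (ρ → Ω) × (ρ → Ω))}

lemma inert2_box_bot (P Q : ℕ → Sub Ω) : box P Q (⊥ : Sq ρ) = ⊥ := by
  rw [box, fl_bot, fl_bot, Submodule.prod_bot]

lemma inert2_fg_lev (hg : Gl G b P Q) (j : ℕ) : (lev ρ P Q j).FG :=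
  (Df.lev (hg.dP j) (hg.dQ j)).fg

/-- an optimizer that vanishes -/
lemma inert2_zero {Z : Submodule Ω ((ρ → Ω) × (ρ → Ω))}
    (h : rk (Z ⊓ (ap b).graph) + rk (fl Q (⊥ : Sq ρ)) = rk (Z ⊓ box P Q (⊥ : Sq ρ))) :
    rk (Z ⊓ (ap b).graph) = 0 := by
  rwa [inert2_box_bot, fl_bot, inf_bot_eq, rk_bot, rk_bot, add_zero] at h

/-- the level of a nonzero box -/
lemma inert2_lev (hg : Gl G b P Q) {Λ : Sq ρ} (hΛ : Λ ≠ ⊥) (j : ℕ) :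
    ∃ n, j ≤ n ∧ rk (Q n) ≤ rk (fl Q Λ) ∧ lev ρ P Q j ⊓ box P Q Λ ≤ lev ρ P Q n := by
  classical
  have hex : ∃ n, Λ n ≠ ⊥ := Function.ne_iff.1 hΛ
  have h1 := rk_le_fl hg.fQ (Nat.find_spec hex)
  have h2 : ∀ k < Nat.find hex, Λ k = ⊥ := fun k hk => not_not.1 (Nat.find_min hex hk)
  rcases le_total j (Nat.find hex) with h | h
  · exact ⟨_, h, h1, inf_le_right.trans
      (Submodule.prod_mono (fl_le_pw hg.fP.anti h2) (fl_le_pw hg.fQ.anti h2))⟩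
  · exact ⟨j, le_rfl, (rk_mono (hg.fQ.anti h)).trans h1, inf_le_left⟩

/-- splitting along the first coordinate -/
lemma inert2_fst {Z : Submodule Ω ((ρ → Ω) × (ρ → Ω))} (hZ : Z.FG) {U : Sub Ω} (hU : U.FG)
    {B : Submodule Ω (ρ → Ω)} (hB : B.FG) (h1 : ∀ z ∈ Z, z.1 ∈ pw ρ U)
    (h2 : ∀ z ∈ Z, z.1 = 0 → z.2 ∈ B) : rk Z ≤ Fintype.card ρ * rk U + rk B := by
  have h := rk_le_add (A := (⊥ : Submodule Ω (ρ → Ω)).prod B) hZ (LinearMap.fst Ω _ _)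
    (fun z hz h0 => ⟨h0, h2 z hz h0⟩) h1
  rw [rk_prod Submodule.fg_bot hB, rk_bot, rk_pw hU] at h
  linarith

/-- Almost inert.  Fix a large `j`, `δ` from `Red.c`, `Z = sec N U ⊓ lev j`.  Then
`rk (K ⊓ U) ≤ rk (lf N ⊓ U) + rk (Z ⊓ graph)`.  Let `Λ` be an optimizer of `Z` (`Gen.opt`); if
`Λ ≠ ⊥` let `n` be its first nonzero index, `n' = max n j`.  Then
`rk (Q n') ≤ rk (fl Q Λ) ≤ rk (Z ⊓ box) ≤ rk U + rk (rt N ⊓ lev n') ≤ rk U + rk (Q n') / 2` (use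
`h.sm` for `rt (rt N)`), and `rk (Z ⊓ box) ≤ card ρ * rk (P n') + rk (fl Q Λ)`, so
`rk (Z ⊓ graph) ≤ card ρ * ε' * rk (Q n') ≤ 2 * card ρ * ε' * rk U`. -/
lemma Sh.ai (h : Sh G P Q) (hg : Gl G b P Q) (hN : Red G b P Q K N) {ε : ℝ} (hε : 0 < ε) :
    ∃ δ : ℝ, 0 < δ ∧ ∀ U : Submodule Ω E, Df G U → rk U < δ →
      rk (K ⊓ U) ≤ rk (lf N ⊓ U) + ε * rk U := by
  obtain ⟨e, he, h1, h2⟩ : ∃ e : ℝ, 0 < e ∧ Fintype.card ρ * e ≤ 1 / 4 ∧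
      2 * (Fintype.card ρ * e) ≤ ε := by
    have c0 : (0 : ℝ) ≤ Fintype.card ρ := Nat.cast_nonneg _
    have m0 : 0 < min ε 1 := lt_min hε one_pos
    have c1 : Fintype.card ρ * (min ε 1 / (4 * (Fintype.card ρ + 1))) ≤ min ε 1 / 4 := by
      rw [mul_div_assoc', div_le_div_iff₀ (by positivity) (by positivity)]
      nlinarith
    exact ⟨min ε 1 / (4 * (Fintype.card ρ + 1)), by positivity,
      by linarith [min_le_right ε 1], by linarith [min_le_left ε 1]⟩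
  obtain ⟨j, hj⟩ := eventually_atTop.1 ((h.rat e he).and
    (h.sm ρ _ hN.df.rt.rt hN.dQ (1 / 4) (by norm_num)))
  obtain ⟨δ, hδ, hc⟩ := hN.c j
  refine ⟨δ, hδ, fun U hU hr => ?_⟩
  have hZ : Df G (sec N U ⊓ lev ρ P Q j) := (hN.df.sec hU).inf (Df.lev (hg.dP j) (hg.dQ j))
  have a1 : K ⊓ U ≤ U ⊓ dom N (lev ρ P Q j ⊓ (ap b).graph) := by
    rintro u ⟨hu, hu'⟩
    obtain ⟨p, hp, hp'⟩ := hc U hU hr u hu hu'
    exact ⟨hu', mem_dom.2 ⟨(p, ap b p), ⟨⟨hp, hg.ap_mem hp⟩, rfl⟩, hp'⟩⟩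
  have a2 := red_count hN.df.fg hU.fg (fg_inf (inert2_fg_lev hg j) (fg_graph (ap b)))
  rw [← inf_assoc (sec N U)] at a2
  have a3 : rk (sec N U ⊓ lev ρ P Q j ⊓ (ap b).graph) ≤ ε * rk U := by
    obtain ⟨Λ, hΛ, hopt, -⟩ := hg.gen.opt hg.fP hg.fQ hZ
    rcases eq_or_ne Λ ⊥ with rfl | h0
    · rw [inert2_zero hopt]
      exact mul_nonneg hε.le (rk_nonneg _)
    obtain ⟨n, hn, b1, b2⟩ := inert2_lev hg h0 j
    obtain ⟨b3, b4⟩ := hj n hn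
    have b5 : sec N U ⊓ lev ρ P Q j ⊓ box P Q Λ ≤ sec N U ⊓ lev ρ P Q n := by
      rw [inf_assoc]
      exact inf_le_inf_left _ b2
    have b6 := red_count hN.df.fg hU.fg (inert2_fg_lev hg n)
    have b7 := inert2_fst (fg_inf hN.df.rt.fg (inert2_fg_lev hg n)) (hg.fP.fg n)
      (fg_inf hN.df.rt.rt.fg (fg_pw (hg.fQ.fg n))) (fun z hz => hz.2.1) fun z hz h0 =>
        ⟨mem_rt.2 (by rw [← h0]; exact hz.1), hz.2.2⟩
    have b8 := inert2_fst (fg_inf hZ.fg (fg_box hg.fP hg.fQ hΛ)) (hg.fP.fg n)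
      (fg_fl hg.fQ hΛ) (fun z hz => (b5 hz).2.1) fun z hz _ => hz.2.2
    have b9 : Fintype.card ρ * rk (P n) ≤ Fintype.card ρ * e * rk (Q n) := by
      rw [mul_assoc]
      exact mul_le_mul_of_nonneg_left b3 (Nat.cast_nonneg _)
    have c1 := rk_mono b5
    have c2 := rk_mono (inf_le_left : U ⊓ dom N (lev ρ P Q n) ≤ U)
    have c3 := rk_nonneg (lf N ⊓ U)
    have c4 := rk_nonneg (sec N U ⊓ lev ρ P Q j ⊓ (ap b).graph)
    have c5 := mul_le_mul_of_nonneg_right h1 (rk_nonneg (Q n))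
    have c6 : rk (Q n) ≤ 2 * rk U := by linarith
    have c7 := mul_le_mul_of_nonneg_left c6 (mul_nonneg (Nat.cast_nonneg (Fintype.card ρ)) he.le)
    have c8 := mul_le_mul_of_nonneg_right h2 (rk_nonneg U)
    linarith
  linarith [rk_mono a1, rk_nonneg (rt N ⊓ (lev ρ P Q j ⊓ (ap b).graph))]

/-- Take `j` from `Sh.sqi` for `sec N V`, and `ε` half the one of `Red.c`.  Let
`N' = N ⊔ (V₀ × ⊥)`, `Z₀ = rt N' ⊓ lev j ≤ sec N V ⊓ lev j`, `Z₁ = sec N' Y ⊓ lev j`.  Every `y ∈ Y`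
has `p ∈ pw (P j)` with `(y, p, ap b p) ∈ N'` (apply `Red.c` to `Y ⊔ V₀`), so
`rk Y ≤ rk (Y ⊓ lf N') + rk (Z₁ ⊓ graph)`.  For an optimizer `Λ` of `Z₁`,
`rk (Y ⊓ lf N') + rk (Z₁ ⊓ box) ≤ rk Y + rk (Z₀ ⊓ box)`; hence `rk (fl Q Λ) ≤ rk (Z₀ ⊓ box)`, so
`Λ = ⊥`, `Z₁ ⊓ graph = ⊥` and `Y ≤ lf N' = V₀ ⊔ lf N`. -/
lemma Sh.qp (h : Sh G P Q) (hg : Gl G b P Q) (hN : Red G b P Q K N) {V : Submodule Ω E}
    (hV : Df G V) (hr : ¬ HasDir (Set.range Q) (rt (sec N V))) :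
    ∃ ε : ℝ, 0 < ε ∧ ∀ V₀ Y : Submodule Ω E, V₀ ≤ V → Df G V₀ → Df G Y → rk V₀ < ε → rk Y < ε →
      Y ≤ V₀ ⊔ K → Y ≤ V₀ ⊔ lf N := by
  obtain ⟨j, hj⟩ := h.sqi hg (hN.df.sec hV) hr
  obtain ⟨δ, hδ, hc⟩ := hN.c j
  refine ⟨δ / 2, half_pos hδ, fun V₀ Y h0 hV₀ hY r0 rY hle => ?_⟩
  obtain ⟨N', dN, hm⟩ : ∃ N' : Submodule Ω (E × (ρ → Ω) × (ρ → Ω)), Df G N' ∧
      ∀ u x, (u, x) ∈ N' ↔ ∃ v ∈ V₀, (u - v, x) ∈ N := by
    refine ⟨N ⊔ V₀.prod ⊥, hN.df.sup (hV₀.prod Df.bot), fun u x => ?_⟩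
    rw [Submodule.mem_sup]
    constructor
    · rintro ⟨⟨u₁, x₁⟩, h1, ⟨v, x₂⟩, ⟨h2, h3⟩, h4⟩
      obtain rfl : x₂ = 0 := h3
      obtain ⟨rfl, rfl⟩ := Prod.mk.inj h4
      exact ⟨v, h2, by simpa using h1⟩
    · rintro ⟨v, h1, h2⟩
      exact ⟨_, h2, (v, 0), ⟨h1, rfl⟩, by simp⟩
  have hZ : Df G (sec N' Y ⊓ lev ρ P Q j) := (dN.sec hY).inf (Df.lev (hg.dP j) (hg.dQ j))
  have a1 : Y ≤ Y ⊓ dom N' (lev ρ P Q j ⊓ (ap b).graph) := by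
    intro y hy
    obtain ⟨v, hv, k, hk, rfl⟩ := Submodule.mem_sup.1 (hle hy)
    have hk' : k ∈ Y ⊔ V₀ := by
      simpa using sub_mem (Submodule.mem_sup_left hy) (Submodule.mem_sup_right (S := Y) hv)
    obtain ⟨p, hp, hp'⟩ := hc _ (hY.sup hV₀) (by linarith [rk_sup_le hY.fg hV₀.fg]) k hk hk'
    exact ⟨hy, mem_dom.2 ⟨(p, ap b p), ⟨⟨hp, hg.ap_mem hp⟩, rfl⟩,
      (hm _ _).2 ⟨v, hv, by simpa using hp'⟩⟩⟩
  have a2 := red_count dN.fg hY.fg (fg_inf (inert2_fg_lev hg j) (fg_graph (ap b)))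
  rw [← inf_assoc (sec N' Y)] at a2
  have a3 := rk_mono a1
  have a4 := rk_nonneg (rt N' ⊓ (lev ρ P Q j ⊓ (ap b).graph))
  obtain ⟨Λ, hΛ, hopt, -⟩ := hg.gen.opt hg.fP hg.fQ hZ
  obtain rfl : Λ = ⊥ := by
    by_contra hne
    have b1 := hj j le_rfl Λ hΛ hne
    have b2 := red_count dN.fg hY.fg (fg_inf (inert2_fg_lev hg j) (fg_box hg.fP hg.fQ hΛ))
    rw [← inf_assoc (sec N' Y)] at b2
    have b3 : rt N' ⊓ (lev ρ P Q j ⊓ box P Q Λ) ≤ sec N V ⊓ lev ρ P Q j ⊓ box P Q Λ := by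
      rw [inf_assoc]
      refine inf_le_inf_right _ fun x hx => ?_
      obtain ⟨v, hv, hv'⟩ := (hm _ _).1 (mem_rt.1 hx)
      exact mem_sec.2 ⟨_, sub_mem V.zero_mem (h0 hv), hv'⟩
    linarith [rk_mono b3, rk_mono (inf_le_left : Y ⊓ dom N' (lev ρ P Q j ⊓ box P Q Λ) ≤ Y)]
  have a5 := inert2_zero hopt
  have a6 := eq_of_le_of_rk_le (fg_inf dN.lf.fg hY.fg) hY.fg inf_le_right (by linarith)
  intro y hy
  rw [← a6] at hy
  obtain ⟨v, hv, hv'⟩ := (hm _ _).1 (mem_lf.1 hy.1)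
  exact Submodule.mem_sup.2 ⟨v, hv, y - v, hv', by simp⟩

end Pool.Agent.Lib.MP_57313b_al.Zf
end

-- part Pool.Agent.Lib.MP_57313b_al.Zf.S1
section

/-!
# One step preserves points, pairs of points and smallness
-/

set_option autoImplicit false

namespace Pool.Agent.Lib.MP_57313b_al.Zf

open Filter Topology

set_option linter.unusedSectionVars false

variable {Ω : Type} [Ring Ω] [Algebra F Ω] [RK Ω]
variable {G : Set (En Ω)} {b : En Ω} {P Q : ℕ → Sub Ω} {𝒰 𝒱 : Set (Sub Ω)}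

lemma s1_aux (he : Ex G 𝒰) {ρ : Type} [Fintype ρ] {Z : Submodule Ω (ρ → Ω)}
    (hd : ¬ HasDir 𝒰 Z) (Y : Submodule Ω (ρ → Ω)) (hY : Df G Y) (hl : Y ≤ Z) :
    ∃ V ∈ pws ρ 𝒰, V ⊓ Y = ⊥ :=
  let ⟨U, h1, h2⟩ := he ρ Y hY fun h => hd (h.mono hl)
  ⟨_, ⟨U, h1, rfl⟩, (inf_comm _ _).trans h2⟩

lemma s1_small {Q' : ℕ → Sub Ω} (hQ : Flag Q') (ρ : Type) [Fintype ρ] {δ : ℝ} (hδ : 0 < δ) :
    ∀ᶠ n in atTop, rk (pw ρ (Q' n)) < δ := by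
  have := (hQ.lim.const_mul (Fintype.card ρ : ℝ)).eventually_lt_const (by simpa using hδ)
  filter_upwards [this] with n hn
  rwa [rk_pw (hQ.fg n)]

/-- Use the family `pws ρ 𝒰`.  Shifting step: `inertQ` with `NS.not_ng`, `NG.of_pws`.  Merging
step: `inertQ` or `inertP` applies unless there are nonzero germs from both flags to `𝒰`, which
`ExJ.two_germs` excludes. -/
theorem s1 (h : Step G b P Q) (hb : Base G 𝒰) (hs : Sml 𝒰) (he : Ex G 𝒰) :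
    Ex (insert b G) 𝒰 := by
  intro ρ _ Z hZ hd
  have hQ := fun hn : ¬ NG G (Set.range Q) 𝒰 => inertQ h.gl h.cm h.qi (hb.pws ρ) (hs.pws hb ρ) hZ
    (s1_aux he hd) fun h' => hn (h'.of_pws h.gl.baseQ.1)
  suffices ∃ V ∈ pws ρ 𝒰, Z ⊓ V = ⊥ by
    obtain ⟨_, ⟨U, h1, rfl⟩, h2⟩ := this
    exact ⟨U, h1, h2⟩
  rcases h.ok with hm | hm
  · by_cases hn : NG G (Set.range Q) 𝒰
    · exact inertP h.gl h.cm hm (hb.pws ρ) (hs.pws hb ρ) hZ (s1_aux he hd) fun h' =>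
        hm.ex.two_germs h.gl.baseP h.gl.baseQ he hb.1 (h'.of_pws h.gl.baseP.1) hn
    · exact hQ hn
  · exact hQ (hm.ns.not_ng he)

theorem s1f (h : Gl G b P Q) (hP : P 1 = ⊥) (hb : Base G 𝒰) (hs : Sml 𝒰) (he : Ex G 𝒰) :
    Ex (insert b G) 𝒰 := by
  intro ρ _ Z hZ hd
  obtain ⟨_, ⟨U, h1, rfl⟩, h2⟩ := inertF h hP (hb.pws ρ) (hs.pws hb ρ) hZ (s1_aux he hd)
  exact ⟨U, h1, h2⟩

/-- Use the family `prods (pws ρ 𝒰) (pws ρ' 𝒱)`, `inertQ` or `inertP`, `NG.of_prods`,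
`NG.of_pws`. -/
theorem s2 (h : Gl G b P Q) (hG : CM G) (hb : Base G 𝒰) (hs : Sml 𝒰) (hb' : Base G 𝒱)
    (hs' : Sml 𝒱) (he : ExJ G 𝒰 𝒱)
    (hk : Sh G P Q ∨ (MgL G P Q ∧ ¬ NG G (Set.range P) 𝒰 ∧ ¬ NG G (Set.range P) 𝒱)) :
    ExJ (insert b G) 𝒰 𝒱 := by
  intro ρ ρ' _ _ Z hZ hd hd'
  have b1 := (hb.pws ρ).prods (hb'.pws ρ')
  have b2 := (hs.pws hb ρ).prods (hb.pws ρ) (hs'.pws hb' ρ') (hb'.pws ρ')
  have h0 : ∀ Y, Df G Y → Y ≤ Z → ∃ V ∈ prods (pws ρ 𝒰) (pws ρ' 𝒱), V ⊓ Y = ⊥ := fun Y hY hl =>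
    let ⟨U, h1, V, h2, h3⟩ := he ρ ρ' Y hY (fun h => hd (h.mono (Submodule.comap_mono hl)))
      fun h => hd' (h.mono (Submodule.comap_mono hl))
    ⟨_, ⟨_, ⟨U, h1, rfl⟩, _, ⟨V, h2, rfl⟩, rfl⟩, (inf_comm _ _).trans h3⟩
  have hn : ∀ {𝒲 : Set (Sub Ω)}, Dct 𝒲 → ¬ NG G 𝒲 𝒰 → ¬ NG G 𝒲 𝒱 →
      ¬ NG G 𝒲 (prods (pws ρ 𝒰) (pws ρ' 𝒱)) := fun hw h1 h2 h3 =>
    (h3.of_prods hw (hb.pws ρ).1.1 (hb'.pws ρ').1.1).elim (fun h => h1 (h.of_pws hw))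
      fun h => h2 (h.of_pws hw)
  suffices ∃ V ∈ prods (pws ρ 𝒰) (pws ρ' 𝒱), Z ⊓ V = ⊥ by
    obtain ⟨_, ⟨_, ⟨U, h1, rfl⟩, _, ⟨V, h2, rfl⟩, rfl⟩, h3⟩ := this
    exact ⟨U, h1, V, h2, h3⟩
  rcases hk with hm | ⟨hm, h1, h2⟩
  · exact inertQ h hG (hm.qi h) b1 b2 hZ h0
      (hn h.baseQ.1 (hm.ns.not_ng he.left) (hm.ns.not_ng he.right))
  · exact inertP h hG hm b1 b2 hZ h0 (hn h.baseP.1 h1 h2)

/-- in a merging step the part `rt N` of a reduced presentation is trivial at a high level -/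
lemma MgL.rt_lev (h : MgL G P Q) (hg : Gl G b P Q) {E : Type} [AddCommGroup E] [Module Ω E]
    [Amb Ω E] {K : Submodule Ω E} {ρ : Type} [Fintype ρ]
    {N : Submodule Ω (E × (ρ → Ω) × (ρ → Ω))} (hN : Red G b P Q K N) :
    ∃ j, lev ρ P Q j ⊓ rt N = ⊥ := by
  obtain ⟨_, ⟨i, rfl⟩, _, ⟨k, rfl⟩, h1⟩ :=
    h.ex ρ ρ _ hN.df.rt (hN.dP fun n => (h.eq n).ge) hN.dQ
  refine ⟨max i k, eq_bot_iff.2 fun z hz => h1.le ⟨hz.2, mem_pw.2 fun e => ?_, mem_pw.2 fun e => ?_⟩⟩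
  · exact hg.fP.anti (le_max_left i k) ((mem_lev.1 hz.1).1 e)
  · exact hg.fQ.anti (le_max_right i k) ((mem_lev.1 hz.1).2 e)

/-- Let `N` be a reduced presentation of `Z`; `lf N ≤ Z` has no direction.  Shifting step: `Sh.ai`
with `U = pw (Q' n)` and `hm` for `lf N`.  Merging step: `germ` for the family
`range (lev ρ P Q)` and the swapped `N` (`MgL.rt_lev`); either some `dom N (lev j)` has no direction,
and it contains `Z ⊓ pw (Q' n)` for large `n` by `Red.c`, or `NG.of_lev` contradicts `hn`. -/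
theorem s4 (h : Step G b P Q) {Q' : ℕ → Sub Ω} (hQ : Flag Q') (hd : ∀ n, Df G (Q' n))
    (hm : Sm G Q') (hn : NS G (Set.range Q')) : Sm (insert b G) Q' := by
  intro ρ _ Z hZ hz ε hε
  obtain ⟨r, N, hN⟩ := red h.gl hZ
  have h1 : ¬ HasDir (Set.range Q') (lf N) := fun h' => hz (h'.mono hN.lf_le)
  rcases h.ok with hk | hk
  · obtain ⟨j₀, h0⟩ := hk.rt_lev h.gl hN
    have hN' := hN.df.comap_sc ((LinearMap.snd Ω ((Fin r → Ω) × (Fin r → Ω)) (ρ → Ω)).prod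
      (LinearMap.fst Ω _ _))
    rcases germ h.cm (base_range (lev_anti h.gl.fP.anti h.gl.fQ.anti)
      fun n => (h.gl.dP n).lev (h.gl.dQ n)) hQ.dct hN' ⟨_, ⟨j₀, rfl⟩, h0⟩ h1 with
      ⟨_, ⟨j, rfl⟩, h2⟩ | ⟨β, h2, h3, h4, -⟩
    · obtain ⟨δ, hδ, h3⟩ := hN.c j
      filter_upwards [hm ρ _ (hN'.sec ((h.gl.dP j).lev (h.gl.dQ j))) h2 ε hε, s1_small hQ ρ hδ]
        with n h4 h5
      refine (rk_mono fun u hu => ?_).trans h4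
      obtain ⟨p, h6, h7⟩ := h3 _ (hd n).pw h5 u hu.1 hu.2
      exact ⟨mem_sec.2 ⟨(p, ap b p), ⟨h6, h.gl.ap_mem h6⟩, h7⟩, hu.2⟩
    · exact ((NG.of_lev ⟨β, h2, h3, h4⟩ hQ.dct).elim (hn.not_ng hk.ex.left)
        (hn.not_ng hk.ex.right)).elim
  · have hc : (0 : ℝ) < Fintype.card ρ + 1 := by positivity
    obtain ⟨δ, hδ, h2⟩ := hk.ai h.gl hN (div_pos (half_pos hε) hc)
    filter_upwards [hm ρ _ hN.df.lf h1 _ (half_pos hε), s1_small hQ ρ hδ] with n h3 h4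
    have h5 := h2 _ (hd n).pw h4
    have h6 := mul_nonneg (div_pos (half_pos hε) hc).le (rk_nonneg (Q' n))
    have h7 : ε / 2 / (Fintype.card ρ + 1) * (Fintype.card ρ * rk (Q' n)) +
        ε / 2 / (Fintype.card ρ + 1) * rk (Q' n) = ε / 2 * rk (Q' n) := by field_simp
    rw [rk_pw (hQ.fg n)] at h5
    linarith

end Pool.Agent.Lib.MP_57313b_al.Zf
end

-- part Pool.Agent.Lib.MP_57313b_al.Zf.S3
section

/-!
# One step preserves the invariant-part property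
-/

set_option autoImplicit false

namespace Pool.Agent.Lib.MP_57313b_al.Zf

open Filter Topology

set_option linter.unusedSectionVars false

variable {Ω : Type} [Ring Ω] [Algebra F Ω] [RK Ω]
variable {G : Set (En Ω)} {b : En Ω} {P Q : ℕ → Sub Ω} {𝒢 : Set (Sub Ω)}

/-- the simultaneous presentation of the first `n` powers -/
noncomputable def s3_M {ρ : Type} (N : Submodule Ω (Ω × (ρ → Ω) × (ρ → Ω))) (a : En Ω) (n : ℕ) :
    Submodule Ω (Ω × (Fin n × ρ → Ω) × (Fin n × ρ → Ω)) :=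
  ⨅ i : Fin n, N.comap ((a ^ (i : ℕ)).prodMap
    ((LinearMap.funLeft Ω Ω (Prod.mk i)).prodMap (LinearMap.funLeft Ω Ω (Prod.mk i))))

lemma s3_mem {ρ : Type} {N : Submodule Ω (Ω × (ρ → Ω) × (ρ → Ω))} {a : En Ω} {n : ℕ} {u : Ω}
    {p q : Fin n × ρ → Ω} : (u, p, q) ∈ s3_M N a n ↔
      ∀ i : Fin n, ((a ^ (i : ℕ)) u, (fun e => p (i, e)), fun e => q (i, e)) ∈ N :=
  Submodule.mem_iInf _

lemma s3_df {ρ : Type} [Fintype ρ] {N : Submodule Ω (Ω × (ρ → Ω) × (ρ → Ω))} (hN : Df G N)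
    {a : En Ω} (ha : Dm G a) (n : ℕ) : Df G (s3_M N a n) :=
  Df.iInf fun i => hN.comap ((ha.pow i).prodMap (Dm.sc _))

/-- a linear relation between the shifted windows of `l` -/
lemma s3_dep {r k : ℕ} (l : Fin (k + r * (k + 1) + 1) × Fin r → F) :
    ∃ c : Fin (r * (k + 1) + 1) → F, c ≠ 0 ∧ ∀ (i : Fin (k + 1)) (e : Fin r),
      ∑ s, c s * l (⟨i + s, by have := i.2; have := s.2; omega⟩, e) = 0 := by
  have h : ¬ LinearIndependent F fun (s : Fin (r * (k + 1) + 1)) (x : Fin (k + 1) × Fin r) =>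
      l (⟨x.1 + s, by have := x.1.2; have := s.2; omega⟩, x.2) := fun h => by
    have := h.fintype_card_le_finrank
    simp only [Fintype.card_fin, Module.finrank_fintype_fun_eq_card, Fintype.card_prod] at this
    rw [mul_comm] at this
    omega
  obtain ⟨c, h1, s, h2⟩ := Fintype.not_linearIndependent_iff.1 h
  refine ⟨c, fun h0 => h2 (congrFun h0 s), fun i e => ?_⟩
  simpa [Finset.sum_apply] using congrFun h1 (i, e)

lemma s3_pol {a : En Ω} {m : ℕ} (c : Fin m → F) (u : Ω) :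
    pol c a u = ∑ s, c s • (a ^ (s : ℕ)) u := by
  simp [pol, LinearMap.sum_apply]

/-- Let `K` contain no member, `N` a reduced presentation of `K` (index type `ρ`), `U₀`, `k₀` from
`hp` for `lf N`, `D = card ρ * (k₀ + 1)`, `m = k₀ + D`, `ρ' = Fin (m+1) × ρ` and
`M = {(u, p, q) | ∀ i, (a ^ i u, p (i, ·), q (i, ·)) ∈ N}`.  Apply `germ` to
`{(u, q) | (u, 0, q) ∈ M}` and the family `𝒢`.
* If `rt (sec M V)` has no direction, `Step.qi` gives `j`; take `U ≤ V ⊓ U₀` in `𝒢` of rank less than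
  the `ε` of `Red.c` and apply `Red.c` to each `U.map (a ^ i)`.
* Otherwise there are `β`, `l`.  The `D + 1` vectors `(l (s + i, ·))_{i ≤ k₀}`, `s ≤ D`, are linearly
  dependent, with coefficients `c`; for `v` in a small member of the flag `u' = pol c a (β v) ∈ U₀`
  has `a ^ i u' ∈ lf N` for `i ≤ k₀`, so `u' = 0` and `β v = 0` by `hi`, contradicting `NZ`. -/
theorem s3 (h : Step G b P Q) (hb : Base G 𝒢) (hs : Sml 𝒢) {a : En Ω} (ha : Dm G a)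
    (hg : Germ a 𝒢 𝒢)
    (hi : ∀ (m : ℕ) (c : Fin m → F), c ≠ 0 → ∃ U ∈ 𝒢, U ⊓ LinearMap.ker (pol c a) = ⊥)
    (hp : ZP G 𝒢 a) : ZP (insert b G) 𝒢 a := by
  intro K hK
  by_cases hm : ∃ U ∈ 𝒢, U ≤ K
  · exact Or.inl hm
  right
  obtain ⟨r, N, hN⟩ := red h.gl hK
  obtain ⟨U, hU, h1⟩ | ⟨U₀, hU₀, k, H₀⟩ := hp _ hN.df.lf
  · exact (hm ⟨U, hU, h1.trans hN.lf_le⟩).elim
  have hM := s3_df hN.df ha (k + r * (k + 1) + 1)
  have key : ∀ u ∈ U₀, (u, 0, 0) ∈ s3_M N a (k + r * (k + 1) + 1) → u = 0 := fun u hu h1 =>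
    H₀ u hu fun i hi => s3_mem.1 h1 ⟨i, by omega⟩
  have hd : ¬ HasDir (Set.range Q) (rt (rt (s3_M N a (k + r * (k + 1) + 1)))) := by
    rintro ⟨l, hl, W, hW, h1⟩
    obtain ⟨⟨i, e⟩, h2⟩ := Function.ne_iff.1 hl
    refine hN.dQ ⟨fun e => l (i, e), fun h0 => h2 (congrFun h0 e), W, hW, fun u hu => ?_⟩
    have := (s3_mem (u := 0) (p := 0) (q := dir l u)).1 (h1 u hu) i
    rw [map_zero] at this
    exact this
  rcases germ h.cm hb h.gl.fQ.dct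
    (hM.comap_sc ((LinearMap.id : Ω →ₗ[Ω] Ω).prodMap (LinearMap.inr Ω _ _)))
    ⟨U₀, hU₀, eq_bot_iff.2 fun u hu => key u hu.1 hu.2⟩ hd with
    ⟨V, hV, h1⟩ | ⟨β, -, h1, h2, l, W, hW, h3⟩
  · obtain ⟨j, hj⟩ := h.qi _ _ (hM.sec (hb.2 V hV)) fun ⟨l, hl, W, hW, h'⟩ =>
      h1 ⟨l, hl, W, hW, fun u hu => mem_sec.2 ((mem_sec (N := s3_M N a _)).1 (h' u hu))⟩
    obtain ⟨ε, hε, H⟩ := hN.c j
    obtain ⟨V', hV', h2⟩ := hb.1.2 V hV U₀ hU₀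
    obtain ⟨U, hU, h3, h4⟩ := hs.le hb.1 hV' hε
    refine ⟨U, hU, k + r * (k + 1), fun u hu h5 => ?_⟩
    have h6 := fun i : Fin (k + r * (k + 1) + 1) => H _ ((hb.2 U hU).map (ha.pow i))
      ((rk_map_le (hb.2 U hU).fg _).trans_lt h4) _ (h5 i (Nat.lt_succ_iff.1 i.2))
      (Submodule.mem_map_of_mem hu)
    choose p h7 h8 using h6
    have h9 : (u, (fun x => p x.1 x.2), ap b fun x => p x.1 x.2) ∈
        s3_M N a (k + r * (k + 1) + 1) := s3_mem.2 h8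
    have h10 := hj _ (mem_pw.2 fun x => mem_pw.1 (h7 x.1) x.2)
      (mem_sec.2 ⟨u, (h2 (h3 hu)).1, h9⟩)
    rw [h10, map_zero] at h9
    exact key u (h2 (h3 hu)).2 h9
  · exfalso
    obtain ⟨c, hc, h4⟩ := s3_dep l
    obtain ⟨U₁, hU₁, h5⟩ := hi _ c hc
    choose T hT h6 using fun s : Fin (r * (k + 1) + 1) => hg.pow s U₀ hU₀
    obtain ⟨V, hV, h7⟩ := hb.1.fin hT
    obtain ⟨V', hV', h8⟩ := hb.1.2 V hV U₁ hU₁
    obtain ⟨W₁, hW₁, h9⟩ := h1 V' hV'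
    obtain ⟨W', hW', h10⟩ := h.gl.fQ.dct.2 W hW W₁ hW₁
    refine h2 W' hW' fun v hv => ?_
    have h11 := h8 (h9 (Submodule.mem_map_of_mem (h10 hv).2))
    have h12 := (s3_mem (u := β v) (p := 0) (q := dir l v)).1 (h3 v (h10 hv).1)
    have h13 : pol c a (β v) = 0 := by
      refine H₀ _ ?_ fun i hi => ?_
      · rw [s3_pol]
        exact U₀.sum_mem fun s _ =>
          smul_mem_sub _ (h6 s (Submodule.mem_map_of_mem (h7 s h11.1)))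
      · have h14 := N.sum_mem (t := Finset.univ) fun (s : Fin (r * (k + 1) + 1)) _ =>
          N.smul_mem (algebraMap F Ω (c s)) (h12 ⟨i + s, by have := s.2; omega⟩)
        rw [mem_lf]
        convert h14 using 1
        refine Prod.ext ?_ (Prod.ext (funext fun e => ?_) (funext fun e => ?_))
        · simp [s3_pol, Prod.fst_sum, pow_add]
        · simp [Prod.fst_sum, Prod.snd_sum]
        · have h15 := h4 ⟨i, by omega⟩ e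
          simp only [Prod.snd_sum, Finset.sum_apply, Prod.smul_snd, Pi.smul_apply,
            algebraMap_smul, dir_apply, smul_smul, ← Finset.sum_smul]
          rw [h15, zero_smul]
          rfl
    exact h5.le ⟨h11.2, h13⟩

end Pool.Agent.Lib.MP_57313b_al.Zf
end

-- part Pool.Agent.Lib.MP_57313b_al.Zf.S5
section

/-!
# One step creates no socle
-/

set_option autoImplicit false

namespace Pool.Agent.Lib.MP_57313b_al.Zf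

open Filter Topology

set_option linter.unusedSectionVars false

variable {Ω : Type} [Ring Ω] [Algebra F Ω] [RK Ω]
variable {G : Set (En Ω)} {b : En Ω} {P Q : ℕ → Sub Ω} {𝓗 : Set (Sub Ω)} {C : Sub Ω} {f : En Ω}

/-- Let `K = ker f ⊓ C` with reduced presentation `N`; `lf N = ⊥`.  Apply `Red.germQ` to `𝓗`.
* No direction: `MgL.qi`, `Red.inert` make `f` injective on a member, and `Ex.of_img`, `Ex.mono`
  contradict `NS.not_ex`.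
* A germ `β`: `f ∘ β` is a nonzero germ from the flag `Q` to `img f 𝓗` (if `f ∘ β` kills `Q j` then
  `(Q j').map β ≤ K` for large `j'`, so it is `⊥`).  By `Ex.cof_img` every `(Q j).map β ⊔ K` contains a
  member `V` of `𝓗`; with `Red.c` for `V ⊔ (Q j).map β` this gives `V ≤ dom N (lev j')`.  Now `tau`
  (with `MgL.rt_lev`) and `NG.of_lev` contradict `hn`. -/
lemma s5_mg (hg : Gl G b P Q) (hG : CM G) (hm : MgL G P Q) (hb : Base G 𝓗) (hs : Sml 𝓗)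
    (hp : ⊥ ∉ 𝓗) (hn : NS G 𝓗) (hC : Df G C) (hle : ∀ V ∈ 𝓗, V ≤ C) (hf : Dm (insert b G) f)
    (h0 : ∀ Y, Df G Y → Y ≤ LinearMap.ker f ⊓ C → Y = ⊥) : ¬ Ex (insert b G) (img f 𝓗) := by
  intro he
  have hGG : G ⊆ insert b G := Set.subset_insert _ _
  obtain ⟨r, N, hN⟩ := red hg (hf.ker.inf (hC.mono hGG))
  have hl : lf N = ⊥ := h0 _ hN.df.lf hN.lf_le
  obtain ⟨V₁, hV₁⟩ := hb.1.1
  rcases hN.germQ hG hg.fQ hb ⟨V₁, hV₁, by rw [hl, inf_bot_eq]⟩ with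
    ⟨V, hV, hr⟩ | ⟨β, dβ, gβ, nβ, l, j₀, hβ⟩
  · obtain ⟨ε, hε, h⟩ := hN.inert (hm.qi hg _ _ (hN.df.sec (hb.2 V hV)) hr)
    obtain ⟨U, hU, h1, h2⟩ := hs.le hb.1 hV hε
    refine hn.not_ex hp ((he.of_img (hb.mono hGG) hf ⟨U, hU, ?_⟩).mono hGG)
    exact eq_bot_iff.2 fun u hu => hl ▸ h U h1 (hb.2 U hU) h2 ⟨⟨hu.2, hle U hU hu.1⟩, hu.1⟩
  have nz : NZ (f ∘ₗ β) (Set.range Q) := by
    rintro _ ⟨j, rfl⟩ hj
    obtain ⟨_, ⟨j₁, rfl⟩, h1⟩ := gβ V₁ hV₁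
    have := h0 _ ((hg.dQ (max j j₁)).map dβ) (by
      rintro _ ⟨q, hq, rfl⟩
      exact ⟨hj (hg.fQ.anti (le_max_left _ _) hq),
        hle V₁ hV₁ (h1 ⟨q, hg.fQ.anti (le_max_right _ _) hq, rfl⟩)⟩)
    exact nβ _ ⟨max j j₁, rfl⟩ (LinearMap.le_ker_iff_map.2 this)
  have cf := he.cof_img (hg.baseQ.mono hGG) (hf.comp (dβ.mono hGG)) ((germ_img f 𝓗).comp gβ) nz
  obtain ⟨j₁, h1⟩ := hm.rt_lev hg hN
  obtain ⟨τ, t1, t2, t3, -⟩ := tau hG (base_range (lev_anti hg.fP.anti hg.fQ.anti)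
    fun n => Df.lev (hg.dP n) (hg.dQ n)) hb.1 hN.df ⟨_, ⟨j₁, rfl⟩, h1⟩ (by
      rintro _ ⟨j', rfl⟩
      obtain ⟨ε, hε, hc⟩ := hN.c j'
      obtain ⟨V₂, hV₂, r2⟩ := hs ε hε
      obtain ⟨_, ⟨j₂, rfl⟩, h2⟩ := gβ V₂ hV₂
      obtain ⟨_, ⟨V, hV, rfl⟩, h3⟩ := cf _ ⟨_, ⟨max j₂ (max j₀ j'), rfl⟩, rfl⟩
      obtain ⟨U, hU, h4⟩ := hb.1.2 V hV V₂ hV₂
      refine ⟨U, hU, fun u hu => ?_⟩
      obtain ⟨q, hq, e⟩ := h3 ⟨u, (h4 hu).1, rfl⟩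
      have m : u - β q ∈ V₂ :=
        V₂.sub_mem (h4 hu).2 (h2 ⟨q, hg.fQ.anti (le_max_left _ _) hq, rfl⟩)
      obtain ⟨p, hp, h5⟩ := hc V₂ (hb.2 _ hV₂) r2 _
        ⟨LinearMap.mem_ker.2 (by rw [map_sub]; exact sub_eq_zero.2 e.symm), hle _ hV₂ m⟩ m
      have h6 := N.add_mem h5
        (hβ q (hg.fQ.anti ((le_max_left _ _).trans (le_max_right _ _)) hq))
      refine mem_dom.2 ⟨(p, ap b p + dir l q), ⟨hp, Submodule.add_mem _ (hg.ap_mem hp)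
        (dir_mem_pw l (hg.fQ.anti ((le_max_right _ _).trans (le_max_right _ _)) hq))⟩, ?_⟩
      simpa using h6)
    fun U hU h => hp (le_bot_iff.1 (h.trans hl.le) ▸ hU)
  rcases NG.of_lev ⟨τ, t1, t2, t3⟩ hb.1 with h | h
  exacts [hn.not_ng hm.ex.left h, hn.not_ng hm.ex.right h]

/-- Take a maximal `𝒢 ⊇ 𝓗` (`exists_maxF`); `NZ f 𝒢` by `h0`, and `Ex (insert b G) (img f 𝒢)` by
`Ex.cof`.  By `MaxF.dich`: either there is a transcendental germ, and `MaxF.zp`, `s3`, `zf` give a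
contradiction; or `Ex G 𝒢`.  Then `Red.germQ` for `𝒢` and `hm.ns.not_ng` give `V ∈ 𝒢` as in `Sh.qp`.
For `V₁ ∈ 𝒢` take a small `V₀ ≤ V₁ ⊓ V ⊓ C` in `𝒢`; `Ex.cof_img` gives a small `Y ∈ 𝓗` with
`Y.map f ≤ V₀.map f`, so `Y ≤ V₀ ⊔ K` and `Y ≤ V₀` by `Sh.qp`.  Thus `Cof 𝓗 𝒢`, and `Ex.cof`
contradicts `NS.not_ex`. -/
lemma s5_sh (hg : Gl G b P Q) (hG : CM G) (hm : Sh G P Q) (hb : Base G 𝓗) (hs : Sml 𝓗)
    (hp : ⊥ ∉ 𝓗) (hn : NS G 𝓗) (hC : Df G C) (hle : ∀ V ∈ 𝓗, V ≤ C) (hf : Dm (insert b G) f)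
    (h0 : ∀ Y, Df G Y → Y ≤ LinearMap.ker f ⊓ C → Y = ⊥) : ¬ Ex (insert b G) (img f 𝓗) := by
  intro he
  have hGG : G ⊆ insert b G := Set.subset_insert _ _
  obtain ⟨𝒢, hsub, hM⟩ := exists_maxF hb hp
  obtain ⟨V₃, hV₃⟩ := hb.1.1
  have cf := Cof.of_subset hsub
  have nz : NZ f 𝒢 := fun U hU h => by
    obtain ⟨W, hW, h1⟩ := hM.base.1.2 U hU V₃ (hsub hV₃)
    exact hM.prop (h0 W (hM.base.2 W hW) (h1.trans (inf_le_inf h (hle _ hV₃))) ▸ hW)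
  have hs' := hs.cof cf
  rcases hM.dich hG with hex | ⟨a, ha, hz⟩
  swap
  · exact zf (hM.base.mono hGG) (ha.mono hGG) hf hz (s3 ⟨hg, hG, Or.inr hm⟩ hM.base hs' ha hz.1
      (fun m c hc => (hz.2 m c hc).1) (hM.zp a)) nz (he.cof (cf.img f))
  obtain ⟨r, N, hN⟩ := red hg (hf.ker.inf (hC.mono hGG))
  have hl : lf N = ⊥ := h0 _ hN.df.lf hN.lf_le
  rcases hN.germQ hG hg.fQ hM.base ⟨V₃, hsub hV₃, by rw [hl, inf_bot_eq]⟩ with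
    ⟨V, hV, hr⟩ | ⟨β, dβ, gβ, nβ, -⟩
  swap
  · exact hm.ns.not_ng hex ⟨β, dβ, gβ, nβ⟩
  obtain ⟨ε, hε, h⟩ := hm.qp hg hN (hM.base.2 V hV) hr
  refine hn.not_ex hp (hex.cof fun V₁ hV₁ => ?_)
  obtain ⟨W, hW, h1⟩ := hM.base.1.2 V₁ hV₁ V hV
  obtain ⟨W', hW', h2⟩ := hM.base.1.2 W hW V₃ (hsub hV₃)
  obtain ⟨V₀, hV₀, h3, r0⟩ := hs'.le hM.base.1 hW' hε
  obtain ⟨_, ⟨Y', hY', rfl⟩, h4⟩ := he.cof_img (hM.base.mono hGG) hf
    ((germ_img f 𝓗).cof_left cf) nz _ ⟨V₀, hV₀, rfl⟩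
  obtain ⟨Y, hY, h5, r1⟩ := hs.le hb.1 hY' hε
  have h6 := (h3.trans h2).trans inf_le_left |>.trans h1
  have := h V₀ Y (h6.trans inf_le_right) (hM.base.2 _ hV₀) (hb.2 _ hY) r0 r1 fun u hu => by
    obtain ⟨v, hv, e⟩ := h4 ⟨u, h5 hu, rfl⟩
    refine Submodule.mem_sup.2 ⟨v, hv, u - v, ⟨LinearMap.mem_ker.2 ?_,
      C.sub_mem (hle _ hY hu) (hle _ hV₃ (h2 (h3 hv)).2)⟩, add_sub_cancel _ _⟩
    rw [map_sub, e, sub_self]
  rw [hl, sup_bot_eq] at this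
  exact ⟨Y, hY, this.trans (h6.trans inf_le_left)⟩

/-- Let `K₀` be the largest `G`-definable submodule of `ker f` (`exists_largest`), `y` a projection
along `K₀` (`CM.coproj`), `C = range y`, `𝓗 = img y 𝓕`.  Then `f ∘ y = f`. -/
theorem s5 (h : Step G b P Q) {𝓕 : Set (Sub Ω)} (hb : Base G 𝓕) (hs : Sml 𝓕) (hn : NS G 𝓕) :
    NS (insert b G) 𝓕 := by
  intro f hf nz he
  obtain ⟨K₀, d0, h1, h2⟩ := exists_largest h.gl hf.ker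
  obtain ⟨y, hy, hk, hi⟩ := h.cm.coproj d0
  have e : f ∘ₗ y = f := LinearMap.ext fun v => by
    have : v - y v ∈ LinearMap.ker f := h1 (hk ▸ LinearMap.mem_ker.2 (by rw [map_sub, hi, sub_self]))
    rw [LinearMap.mem_ker, map_sub] at this
    exact (sub_eq_zero.1 this).symm
  rw [← e, img_comp] at he
  have hp : ⊥ ∉ img y 𝓕 := by
    rintro ⟨U, hU, h3⟩
    exact nz U hU ((LinearMap.le_ker_iff_map.2 h3).trans (hk ▸ h1))
  have hle : ∀ V ∈ img y 𝓕, V ≤ LinearMap.range y := by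
    rintro _ ⟨U, -, rfl⟩
    exact LinearMap.map_le_range
  have h0 : ∀ Y, Df G Y → Y ≤ LinearMap.ker f ⊓ LinearMap.range y → Y = ⊥ := fun Y hY h3 =>
    eq_bot_iff.2 fun v hv => by
      obtain ⟨u, rfl⟩ := (h3 hv).2
      have : y u ∈ LinearMap.ker y := hk ▸ h2 Y hY (h3.trans inf_le_left) hv
      exact (hi u).symm.trans this
  rcases h.ok with hm | hm
  exacts [s5_mg h.gl h.cm hm (hb.img hy) (hs.img hb y) hp (hn.img hy) hy.range hle hf h0 he,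
    s5_sh h.gl h.cm hm (hb.img hy) (hs.img hb y) hp (hn.img hy) hy.range hle hf h0 he]

end Pool.Agent.Lib.MP_57313b_al.Zf
end

-- part Pool.Agent.Lib.MP_57313b_al.Zf.Free1
section

/-!
# Free letters: general position
-/

set_option autoImplicit false

namespace Pool.Agent.Lib.MP_57313b_al.Zf

open Filter Topology

set_option linter.unusedSectionVars false

variable {Ω : Type} [Ring Ω] [Algebra F Ω] [RK Ω] {w : ℕ → En Ω} {G : Set (En Ω)} {x : En Ω}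
variable {E E' E'' : Type} [AddCommGroup E] [Module Ω E] [Amb Ω E] [AddCommGroup E']
  [Module Ω E'] [Amb Ω E'] [AddCommGroup E''] [Module Ω E''] [Amb Ω E'']

lemma Free.inj (h : Free x G) : Function.Injective x := by
  exact Gen.inj h flag_bf flag_bf fun _ => le_rfl

lemma Free.rk_map (h : Free x G) {H : Sub Ω} (hH : H.FG) : rk (H.map x) = rk H := by
  exact rk_map_of_inj hH x fun v _ hv => h.inj (hv.trans (map_zero x).symm)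

/-- general position: `Gen.one` for `H × Y`, and the modular law for the lower bound -/
lemma Free.gs (h : Free x G) {Y H : Sub Ω} (hY : Df G Y) (hH : Df G H) :
    rk (Y ⊓ H.map x) = max 0 (rk Y + rk H - 1) := by
  have hZ : Df G (H.prod Y) := hH.prod hY
  have e1 : rk (H.prod Y ⊓ x.graph) = rk (Y ⊓ H.map x) := by
    refine rk_eq_of_bij (fg_inf hZ.fg (fg_graph x)) (LinearMap.snd Ω Ω Ω) (fun v hv h0 => ?_)
      fun y => ?_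
    · have h1 : v.2 = x v.1 := (LinearMap.mem_graph_iff _ _).1 hv.2
      have h2 : v.2 = 0 := h0
      exact Prod.ext (h.inj (h1.symm.trans (h2.trans (map_zero x).symm))) h2
    · constructor
      · rintro ⟨hy, u, hu, rfl⟩
        exact ⟨(u, x u), ⟨⟨hu, hy⟩, (LinearMap.mem_graph_iff _ _).2 rfl⟩, rfl⟩
      · rintro ⟨v, ⟨hv, hg⟩, rfl⟩
        exact ⟨hv.2, v.1, hv.1, ((LinearMap.mem_graph_iff _ _).1 hg).symm⟩
  have e2 := rk_sup_add_inf hY.fg (hH.fg.map x)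
  have e3 := rk_le_one (Y ⊔ H.map x)
  have e4 := h.rk_map hH.fg
  have e5 := rk_nonneg (Y ⊓ H.map x)
  refine le_antisymm ?_ (max_le e5 (by linarith))
  rcases Gen.one h flag_bf flag_bf hZ with h0 | ⟨k, hk⟩
  · rw [← e1, h0, rk_bot]
    exact le_max_left _ _
  · rw [e1] at hk
    by_cases hk0 : k = 0
    · have h1 := rk_mono (inf_le_left : H.prod Y ⊓ (bf Ω k).prod (bf Ω k) ≤ H.prod Y)
      rw [rk_prod hH.fg hY.fg] at h1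
      have h2 : rk (bf Ω k) = 1 := by simp [bf, hk0]
      exact le_max_of_le_right (by linarith)
    · have h2 : bf Ω k = ⊥ := by simp [bf, hk0]
      rw [h2, Submodule.prod_bot, inf_bot_eq, rk_bot, rk_bot] at hk
      exact le_max_of_le_left (by linarith)

/-- a letter that is free over the supports of three given objects -/
lemma FR.fresh (h : FR G) {K : Submodule Ω E} {K' : Submodule Ω E'} {K'' : Submodule Ω E''}
    (hK : Df G K) (hK' : Df G K') (hK'' : Df G K'') :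
    ∃ S, Df S K ∧ Df S K' ∧ Df S K'' ∧ ∃ x ∈ G, Free x S := by
  obtain ⟨S, h1, f1, d1⟩ := hK.supp
  obtain ⟨S', h2, f2, d2⟩ := hK'.supp
  obtain ⟨S'', h3, f3, d3⟩ := hK''.supp
  obtain ⟨x, hx, hf⟩ := h (S ∪ S' ∪ S'') (Set.union_subset (Set.union_subset h1 h2) h3)
    ((f1.union f2).union f3)
  exact ⟨S ∪ S' ∪ S'', d1.mono (Set.subset_union_left.trans Set.subset_union_left),
    d2.mono (Set.subset_union_right.trans Set.subset_union_left),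
    d3.mono Set.subset_union_right, x, hx, hf⟩

/-- a complement of `K` is `H.map x` with `rk H = 1 - rk K` -/
theorem Good.cm (h : Good w G) (hw : BW w) : CM G := by
  intro K hK
  have k0 := rk_nonneg K
  have k1 := rk_le_one K
  have hd : Dy (1 - rk K) := by simpa using (Dy.nat 1).sub (h.dy Ω K hK)
  obtain ⟨H, hH, hr⟩ := hw.exists_rk hd (by linarith) (by linarith)
  have hH' : Df G H := hH.mono h.base
  obtain ⟨S, dK, dH, -, x, hx, hf⟩ := h.fr.fresh hK hH' hH'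
  have e1 := hf.gs dK dH
  have e2 := hf.rk_map hH'.fg
  have e3 := rk_sup_add_inf hK.fg (hH'.fg.map x)
  have e4 : rk (K ⊓ H.map x) = 0 := by rw [e1, hr]; simp
  refine ⟨H.map x, hH'.map (Dm.letter hx), disjoint_iff.2 (eq_bot_of_rk e4.le),
    codisjoint_iff.2 ?_⟩
  refine eq_of_le_of_rk_le (hK.fg.sup (hH'.fg.map x)) fg_top le_top ?_
  rw [rk_top_one]
  linarith

/-- `Y = V ⊔ (V' ⊓ H.map x)` with `rk H = 1 + t - rk V - rk V'` -/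
theorem Good.ip (h : Good w G) (hw : BW w) {V V' : Sub Ω} (hV : Df G V) (hV' : Df G V')
    (hle : V ≤ V') {t : ℝ} (ht : Dy t) (h1 : rk V ≤ t) (h2 : t ≤ rk V') :
    ∃ Y : Sub Ω, Df G Y ∧ V ≤ Y ∧ Y ≤ V' ∧ rk Y = t := by
  have k0 := rk_nonneg V
  have k1 := rk_le_one V'
  have hd : Dy (1 + t - rk V - rk V') := by
    simpa using (((Dy.nat 1).add ht).sub (h.dy Ω V hV)).sub (h.dy Ω V' hV')
  obtain ⟨H, hH, hr⟩ := hw.exists_rk hd (by linarith) (by linarith)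
  have hH' : Df G H := hH.mono h.base
  obtain ⟨S, dV, dV', dH, x, hx, hf⟩ := h.fr.fresh hV hV' hH'
  have e1 := hf.gs dV dH
  have e2 := hf.gs dV' dH
  have dC : Df G (V' ⊓ H.map x) := hV'.inf (hH'.map (Dm.letter hx))
  have e3 := rk_sup_add_inf hV.fg dC.fg
  rw [← inf_assoc, inf_eq_left.2 hle, e1, e2, max_eq_left (by linarith),
    max_eq_right (by linarith)] at e3
  exact ⟨V ⊔ (V' ⊓ H.map x), hV.sup dC, le_sup_left, sup_le hle inf_le_left, by linarith⟩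

/-- halving: for `V ∈ 𝒢` take `Y ≤ V` of half the rank; either `Y ∈ 𝒢` or some `U ⊓ V` has at most
half the rank of `V` -/
theorem Good.sml (h : Good w G) (hw : BW w) {𝒢 : Set (Sub Ω)} (hm : MaxF G 𝒢) : Sml 𝒢 := by
  have key : ∀ n : ℕ, ∃ U ∈ 𝒢, rk U ≤ (1 / 2) ^ n := by
    intro n
    induction n with
    | zero =>
      obtain ⟨U, hU⟩ := hm.base.1.1
      exact ⟨U, hU, by simpa using rk_le_one U⟩
    | succ n ih =>
      obtain ⟨V, hV, hr⟩ := ih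
      have dV := hm.base.2 V hV
      have k0 := rk_nonneg V
      obtain ⟨Y, dY, -, hY, hrY⟩ := h.ip hw Df.bot dV bot_le (h.dy Ω V dV).half
        (by rw [rk_bot]; linarith) (by linarith)
      rcases hm.max Y dY with hY' | ⟨U, hU, hUY⟩
      · exact ⟨Y, hY', by rw [pow_succ]; linarith⟩
      · obtain ⟨W, hW, hle⟩ := hm.base.1.2 U hU V hV
        have e1 := rk_sup_add_inf (hm.base.2 W hW).fg dY.fg
        have e2 : W ⊓ Y = ⊥ :=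
          eq_bot_iff.2 (hUY ▸ inf_le_inf_right Y (hle.trans inf_le_left))
        have e3 : rk (W ⊔ Y) ≤ rk V := rk_mono (sup_le (hle.trans inf_le_right) hY)
        rw [e2, rk_bot] at e1
        exact ⟨W, hW, by rw [pow_succ]; linarith⟩
  intro ε hε
  obtain ⟨n, hn⟩ := exists_pow_lt_of_lt_one hε (by norm_num : (1 / 2 : ℝ) < 1)
  obtain ⟨U, hU, hr⟩ := key n
  exact ⟨U, hU, hr.trans_lt hn⟩

end Pool.Agent.Lib.MP_57313b_al.Zf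
end

-- part Pool.Agent.Lib.MP_57313b_al.Zf.Smc
section

/-!
# Small cofinal sequences
-/

set_option autoImplicit false

namespace Pool.Agent.Lib.MP_57313b_al.Zf

open Filter Topology

set_option linter.unusedSectionVars false

variable {Ω : Type} [Ring Ω] [Algebra F Ω] [RK Ω] {w : ℕ → En Ω} {G : Set (En Ω)}

/-- `Q' = V ⊔ (H.map x).map g` where `g` is a projection onto `U` (`CM.proj`), `H` has small
positive dyadic rank `h ≤ rk U`, `x` is free over all supports (so the second summand has rank `h` by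
`Free.gs` for `ker g`), and `V ≤ U` is a member of rank much smaller than `h`
(`rk_inf_le_of_le`). -/
theorem Good.sms (h : Good w G) (hw : BW w) {𝒰 : Set (Sub Ω)} (hb : Base G 𝒰) (hs : Sml 𝒰)
    (hp : ⊥ ∉ 𝒰) {σ : Type} [Finite σ] {r : σ → ℕ} {Z : ∀ s, Submodule Ω (Fin (r s) → Ω)}
    (hZ : ∀ s, Df G (Z s)) (hd : ∀ s, ¬ HasDir 𝒰 (Z s)) {U : Sub Ω} (hU : U ∈ 𝒰) {ε : ℝ}
    (hε : 0 < ε) : ∃ Q' : Sub Ω, Df G Q' ∧ Q' ≤ U ∧ (∃ V ∈ 𝒰, V ≤ Q') ∧ rk Q' ≤ ε ∧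
      ∀ s, rk (Z s ⊓ pw (Fin (r s)) Q') ≤ ε * rk Q' := by
  have hUd : Df G U := hb.2 U hU
  have hU0 : 0 < rk U := rk_pos fun e => hp (e ▸ hU)
  obtain ⟨g, hg, hg1, hg2⟩ := (h.cm hw).proj hUd
  have hrg : LinearMap.range g = U := by
    refine le_antisymm ?_ fun v hv => ⟨v, hg2 v hv⟩
    rintro _ ⟨v, rfl⟩
    exact hg1 v
  have ht := fun s => tiny (hZ s).fg hUd.fg fun l hl => by
    by_contra hc
    exact hd s ⟨l, hl, U, hU, fun u hu => by_contra fun hn => hc ⟨u, hu, hn⟩⟩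
  choose δ hδ ht using ht
  obtain ⟨k, hk1, hk2, hk3⟩ : ∃ k : ℕ, (1 : ℝ) / 2 ^ k < rk U ∧ (1 : ℝ) / 2 ^ k < ε / 2 ∧
      ∀ s, (1 : ℝ) / 2 ^ k < δ s := by
    have h0 : Tendsto (fun k : ℕ => (1 : ℝ) / 2 ^ k) atTop (𝓝 0) := by
      simpa using tendsto_pow_atTop_nhds_zero_of_lt_one (r := (1 : ℝ) / 2) (by norm_num)
        (by norm_num)
    exact ((h0.eventually (gt_mem_nhds hU0)).and ((h0.eventually (gt_mem_nhds (half_pos hε))).and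
      (eventually_all.2 fun s => h0.eventually (gt_mem_nhds (hδ s))))).exists
  have hH : Df G (WF w k) := df_WF h.base k
  have hHr : rk (WF w k) = 1 / 2 ^ k := hw.rk_WF k
  choose S hS1 hS2 hS3 using fun s => (hZ s).supp
  obtain ⟨S₁, a1, a2, a3⟩ := Df.supp hg
  obtain ⟨S₂, b1, b2, b3⟩ := hH.supp
  obtain ⟨x, hxG, hx⟩ := h.fr ((⋃ s, S s) ∪ (S₁ ∪ S₂))
    (Set.union_subset (Set.iUnion_subset hS1) (Set.union_subset a1 b1))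
    ((Set.finite_iUnion hS2).union (a2.union b2))
  have hgS : Dm ((⋃ s, S s) ∪ (S₁ ∪ S₂)) g :=
    Df.mono a3 (Set.subset_union_left.trans Set.subset_union_right)
  have hHS : Df ((⋃ s, S s) ∪ (S₁ ∪ S₂)) (WF w k) :=
    b3.mono (Set.subset_union_right.trans Set.subset_union_right)
  have hYd : Df G (((WF w k).map x).map g) := (hH.map (Dm.letter hxG)).map hg
  have hY0 : ∀ s, Z s ⊓ pw (Fin (r s)) (((WF w k).map x).map g) = ⊥ := fun s =>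
    ht s _ x g _ hx ((hS3 s).mono ((Set.subset_iUnion S s).trans Set.subset_union_left)) hgS hrg
      hHS (hHr ▸ hk3 s)
  have hYr : rk (((WF w k).map x).map g) = 1 / 2 ^ k := by
    have e1 := rk_map_add (hH.map (Dm.letter hxG)).fg g
    have e2 := hx.gs hgS.ker hHS
    have e3 := rk_map_add (fg_top (Ω := Ω) (E := Ω)) g
    rw [Submodule.map_top, hrg, top_inf_eq, rk_top_one] at e3
    rw [hx.rk_map hH.fg, inf_comm, e2, max_eq_left (by linarith)] at e1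
    linarith
  have hYU : ((WF w k).map x).map g ≤ U := by
    rintro _ ⟨v, -, rfl⟩
    exact hg1 v
  generalize ((WF w k).map x).map g = Y at hYd hY0 hYr hYU
  have hη : (0 : ℝ) < 1 / 2 ^ k := by positivity
  generalize (1 : ℝ) / 2 ^ k = η at *
  obtain ⟨R, hR⟩ := Finite.exists_le r
  obtain ⟨V, hV, hVU, hVr⟩ := hs.le hb.1 hU (ε := min (ε / 2) (ε * η / (R + 1)))
    (lt_min (half_pos hε) (by positivity))
  have hVd : Df G V := hb.2 V hV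
  have v1 : rk V < ε / 2 := hVr.trans_le (min_le_left _ _)
  have v2 : rk V * (R + 1) < ε * η :=
    (lt_div_iff₀ (by positivity)).1 (hVr.trans_le (min_le_right _ _))
  have v0 := rk_nonneg V
  have q1 := rk_sup_le hVd.fg hYd.fg
  have q2 : rk Y ≤ rk (V ⊔ Y) := rk_mono le_sup_right
  refine ⟨V ⊔ Y, hVd.sup hYd, sup_le hVU hYU, ⟨V, hV, le_sup_left⟩, by linarith, fun s => ?_⟩
  have e := rk_inf_le_of_le (hZ s).fg (fg_pw hYd.fg) (fg_pw (hVd.sup hYd).fg)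
    (ex0_pw_mono (ρ := Fin (r s)) (le_sup_right : Y ≤ V ⊔ Y))
  rw [hY0 s, rk_bot, rk_pw hYd.fg, rk_pw (hVd.sup hYd).fg, Fintype.card_fin] at e
  have r0 : (0 : ℝ) ≤ r s := Nat.cast_nonneg _
  have r1 : (r s : ℝ) ≤ R := Nat.cast_le.2 (hR s)
  have m1 := mul_le_mul_of_nonneg_left q1 r0
  have m2 := mul_le_mul_of_nonneg_right r1 v0
  have m3 := mul_le_mul_of_nonneg_left (hYr ▸ q2) hε.le
  linarith

/-- Enumerate `𝒰` and the countably many definable `Z` without direction (`countable_df`); build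
`Q (n+1)` from `Q n` with `Good.sms` for the first `n` of them. -/
theorem Good.smc (h : Good w G) (hw : BW w) (hc : G.Countable) {𝒰 : Set (Sub Ω)} (hb : Base G 𝒰)
    (hs : Sml 𝒰) (hp : ⊥ ∉ 𝒰) :
    ∃ Q : ℕ → Sub Ω, Flag Q ∧ (∀ n, Df G (Q n)) ∧ Eqv (Set.range Q) 𝒰 ∧ (∀ n, Q n ≠ ⊥) ∧
      (∀ n, rk (Q (n + 1)) ≤ rk (Q n) / (n + 2)) ∧ Sm G Q := by
  obtain ⟨u, hu⟩ := ((countable_df hc).mono fun U hU => hb.2 U hU).exists_eq_range hb.1.1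
  let T : Type := Σ r : ℕ, {Z : Submodule Ω (Fin r → Ω) // Df G Z ∧ ¬ HasDir 𝒰 Z}
  have : ∀ r : ℕ, Countable {Z : Submodule Ω (Fin r → Ω) // Df G Z ∧ ¬ HasDir 𝒰 Z} := fun r =>
    ((countable_df (E := Fin r → Ω) hc).mono fun _ hZ => hZ.1).to_subtype
  obtain ⟨f, hf⟩ := exists_injective_nat T
  let A : Type := {Q : Sub Ω // Df G Q ∧ ∃ V ∈ 𝒰, V ≤ Q}
  have hne : ∀ a : A, a.1 ≠ ⊥ := by
    rintro ⟨Q, hQ, V, hV, hle⟩ e
    exact hp (le_bot_iff.1 (hle.trans (le_of_eq e)) ▸ hV)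
  have hstep : ∀ (n : ℕ) (a : A), ∃ a' : A, a'.1 ≤ a.1 ∧ a'.1 ≤ u n ∧
      rk a'.1 ≤ rk a.1 / (n + 2) ∧
      ∀ t : T, f t ≤ n → rk (t.2.1 ⊓ pw (Fin t.1) a'.1) ≤ 1 / (n + 2) * rk a'.1 := by
    intro n a
    obtain ⟨V, hV, hle⟩ := a.2.2
    obtain ⟨U, hU, hU'⟩ := hb.1.2 V hV (u n) (hu ▸ Set.mem_range_self n)
    have : Finite {t : T // f t ≤ n} :=
      ((Set.finite_Iic n).preimage hf.injOn).to_subtype
    have h0 := rk_pos (hne a)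
    obtain ⟨Q', q1, q2, q3, q4, q5⟩ := h.sms hw hb hs hp (σ := {t : T // f t ≤ n})
      (r := fun t => t.1.1) (Z := fun t => t.1.2.1) (fun t => t.1.2.2.1) (fun t => t.1.2.2.2) hU
      (ε := rk a.1 / (n + 2)) (by positivity)
    refine ⟨⟨Q', q1, q3⟩, q2.trans (hU'.trans (inf_le_left.trans hle)),
      q2.trans (hU'.trans inf_le_right), q4, fun t ht => (q5 ⟨t, ht⟩).trans ?_⟩
    exact mul_le_mul_of_nonneg_right
      (div_le_div_of_nonneg_right (rk_le_one _) (by positivity)) (rk_nonneg _)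
  choose nx n1 n2 n3 n4 using hstep
  obtain ⟨U₀, hU₀⟩ := hb.1.1
  let a : ℕ → A := fun n => Nat.rec ⟨⊤, Df.top, U₀, hU₀, le_top⟩ nx n
  have ha : ∀ n, a (n + 1) = nx n (a n) := fun _ => rfl
  have h0 : Tendsto (fun n : ℕ => (1 : ℝ) / (n + 2)) atTop (𝓝 0) :=
    tendsto_const_nhds.div_atTop (tendsto_atTop_add_const_right _ _ tendsto_natCast_atTop_atTop)
  have hcof : Cof (Set.range fun n => (a n).1) 𝒰 := by
    intro V hV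
    rw [hu] at hV
    obtain ⟨n, rfl⟩ := hV
    exact ⟨_, ⟨n + 1, rfl⟩, n2 n (a n)⟩
  refine ⟨fun n => (a n).1, ⟨rfl, antitone_nat_of_succ_le fun n => n1 n (a n),
    fun n => (a n).2.1.fg, ?_⟩, fun n => (a n).2.1, ⟨hcof, ?_⟩, fun n => hne (a n),
    fun n => n3 n (a n), Sm.of_fin (fun n => (a n).2.1.fg) fun r Z hZ hd ε hε => ?_⟩
  · rw [← tendsto_add_atTop_iff_nat 1]
    refine squeeze_zero (fun n => rk_nonneg _) (fun n => (n3 n (a n)).trans ?_) h0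
    exact div_le_div_of_nonneg_right (rk_le_one _) (by positivity)
  · rintro _ ⟨n, rfl⟩
    exact (a n).2.2
  · let t : T := ⟨r, Z, hZ, fun hh => hd (hh.cof hcof)⟩
    obtain ⟨N, hN⟩ := eventually_atTop.1
      ((h0.eventually (gt_mem_nhds hε)).and (eventually_ge_atTop (f t)))
    refine eventually_atTop.2 ⟨N + 1, fun n hn => ?_⟩
    obtain ⟨m, rfl⟩ : ∃ m, n = m + 1 := ⟨n - 1, by omega⟩
    obtain ⟨e1, e2⟩ := hN m (by omega)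
    exact (n4 m (a m) t e2).trans (mul_le_mul_of_nonneg_right e1.le (rk_nonneg _))

end Pool.Agent.Lib.MP_57313b_al.Zf
end
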