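import Pool.Agent.Lib.MP_57313b_al.Zf.Smc
import Pool.Agent.Lib.MP_57313b_al.Zf.Fin
import Pool.Agent.Lib.MP_57313b_al.Zf.Ultra1
import Pool.Agent.Lib.MP_57313b_al.Zf.Lim2

-- part Pool.Agent.Lib.MP_57313b_al.Zf.Dr
section

/-!
# The ring of definable maps
-/

set_option autoImplicit false

namespace Pool.Agent.Lib.MP_57313b_al.Zf

open Filter Topology

set_option linter.unusedSectionVars false

variable {Ω : Type} [Ring Ω] [Algebra F Ω] [RK Ω] {w : ℕ → En Ω} {G : Set (En Ω)}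

/-- the ring of definable maps -/
def DR (G : Set (En Ω)) : Subring (Module.End Ω Ω) where
  carrier := {f | Dm G f}
  mul_mem' := fun h h' => Dm.mul h h'
  one_mem' := Dm.sc (1 : En Ω)
  add_mem' := fun h h' => Dm.add h h'
  zero_mem' := Dm.sc (0 : En Ω)
  neg_mem' := fun h => Dm.neg h

lemma mem_DR {f : En Ω} : f ∈ DR G ↔ Dm G f := Iff.rfl

/-- `CM.ginv` -/
theorem dr_reg (h : CM G) (a : DR G) : ∃ x : DR G, a * x * a = a := by
  obtain ⟨g, hg, h1⟩ := h.ginv (f := a.1) a.2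
  exact ⟨⟨g, hg⟩, Subtype.ext (LinearMap.ext h1)⟩

/-- `CM.ginv` for `e.coprod f` -/
lemma dr_sup (h : CM G) (e f : DR G) : ∃ s t : DR G,
    LinearMap.range (e * s + f * t).1 = LinearMap.range e.1 ⊔ LinearMap.range f.1 := by
  obtain ⟨g, hg, h1⟩ := h.ginv (Dm.coprod (f := e.1) (g := f.1) e.2 f.2)
  refine ⟨⟨LinearMap.fst Ω Ω Ω ∘ₗ g, (Dm.sc _).comp hg⟩,
    ⟨LinearMap.snd Ω Ω Ω ∘ₗ g, (Dm.sc _).comp hg⟩, ?_⟩
  rw [← LinearMap.range_coprod]
  apply le_antisymm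
  · rintro _ ⟨v, rfl⟩
    exact ⟨g v, rfl⟩
  · rintro _ ⟨v, rfl⟩
    exact ⟨_, h1 v⟩

/-- `CM.ginv` for `e.prod f` -/
lemma dr_inf (h : CM G) (e f : DR G) : ∃ s t : DR G,
    LinearMap.ker (s * e + t * f).1 = LinearMap.ker e.1 ⊓ LinearMap.ker f.1 := by
  obtain ⟨g, hg, h1⟩ := h.ginv (Dm.prod (f := e.1) (g := f.1) e.2 f.2)
  refine ⟨⟨g ∘ₗ LinearMap.inl Ω Ω Ω, hg.comp (Dm.sc _)⟩,
    ⟨g ∘ₗ LinearMap.inr Ω Ω Ω, hg.comp (Dm.sc _)⟩, ?_⟩
  rw [← LinearMap.ker_prod]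
  have h2 : ∀ v, g (e.1 v, 0) + g (0, f.1 v) = g (LinearMap.prod e.1 f.1 v) := fun v => by
    rw [← map_add]
    simp
  ext v
  change g (e.1 v, 0) + g (0, f.1 v) = 0 ↔ LinearMap.prod e.1 f.1 v = 0
  rw [h2]
  refine ⟨fun h3 => ?_, fun h3 => by rw [h3, map_zero]⟩
  rw [← h1 v, h3, map_zero]

lemma dr_le (h : CM G) {e f : DR G} (hle : LinearMap.ker e.1 ≤ LinearMap.ker f.1) :
    ∃ s : DR G, f = s * e := by
  obtain ⟨x, hx⟩ := dr_reg h e
  refine ⟨f * x, Subtype.ext (LinearMap.ext fun v => ?_)⟩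
  have h1 : e.1 (x.1 (e.1 v)) = e.1 v := LinearMap.congr_fun (congrArg Subtype.val hx) v
  have h2 : f.1 (v - x.1 (e.1 v)) = 0 := hle (by
    rw [LinearMap.mem_ker, map_sub, h1, sub_self])
  rw [map_sub, sub_eq_zero] at h2
  exact h2

/-- Let `y ≠ 0` lie in a two-sided ideal `J`, `r = rk (range y) > 0`.  By induction there is
`e ∈ J` with `rk (range e) ≥ min 1 (n * r)`: for a fresh free letter `x` use `Free.gs` for `range e`
and `(range y).map x = range (x * y)`, and `dr_sup`.  A surjective `e` has a right inverse by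
regularity. -/
theorem dr_simple (h : Good w G) (hw : BW w) : IsSimpleRing (DR G) := by
  have hc := h.cm hw
  have hnt : Nontrivial (DR G) := by
    refine ⟨⟨1, 0, fun h1 => hw.ne 0 (eq_bot_iff.2 fun v _ => ?_)⟩⟩
    exact LinearMap.congr_fun (congrArg Subtype.val h1) v
  refine IsSimpleRing.of_eq_bot_or_eq_top fun J => ?_
  rw [or_iff_not_imp_left]
  intro hJ
  obtain ⟨y, hy, hy0⟩ : ∃ y ∈ J, y ≠ 0 := by
    by_contra h1
    push Not at h1
    exact hJ (eq_bot_iff.2 fun y hy => (TwoSidedIdeal.mem_bot _).2 (h1 y hy))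
  have hr : 0 < rk (LinearMap.range y.1) :=
    rk_pos fun h1 => hy0 (Subtype.ext (LinearMap.range_eq_bot.1 h1))
  have key : ∀ n : ℕ, ∃ e ∈ J, min 1 (n * rk (LinearMap.range y.1)) ≤ rk (LinearMap.range e.1) := by
    intro n
    induction n with
    | zero => exact ⟨0, J.zero_mem, (min_le_right _ _).trans (by simp)⟩
    | succ n ih =>
      obtain ⟨e, he, hn⟩ := ih
      have d1 : Df G (LinearMap.range e.1) := Dm.range e.2
      have d2 : Df G (LinearMap.range y.1) := Dm.range y.2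
      obtain ⟨S, s1, s2, -, x, hx, hf⟩ := h.fr.fresh d1 d2 d2
      obtain ⟨s, t, hst⟩ := dr_sup hc e (⟨x, Dm.letter hx⟩ * y)
      refine ⟨_, J.add_mem (J.mul_mem_right _ s he)
        (J.mul_mem_right _ t (J.mul_mem_left ⟨x, Dm.letter hx⟩ _ hy)), ?_⟩
      have e1 : LinearMap.range ((⟨x, Dm.letter hx⟩ : DR G) * y).1 =
          (LinearMap.range y.1).map x := LinearMap.range_comp _ _
      have e2 := rk_sup_add_inf d1.fg (d2.fg.map x)
      rw [hf.gs s1 s2, hf.rk_map d2.fg] at e2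
      rw [hst, e1]
      push_cast
      rcases le_total 0 (rk (LinearMap.range e.1) + rk (LinearMap.range y.1) - 1) with h1 | h1
      · rw [max_eq_right h1] at e2
        exact (min_le_left _ _).trans (by linarith)
      · rw [max_eq_left h1] at e2
        rcases min_le_iff.1 hn with h2 | h2
        · linarith
        · exact (min_le_right _ _).trans (by linarith)
  obtain ⟨n, hn⟩ := exists_nat_ge (1 / rk (LinearMap.range y.1))
  obtain ⟨e, he, h1⟩ := key n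
  rw [min_eq_left ((div_le_iff₀ hr).1 hn)] at h1
  have h2 : LinearMap.range e.1 = ⊤ :=
    eq_of_le_of_rk_le (fg_range _) fg_top le_top (by rwa [rk_top_one])
  obtain ⟨x, hx⟩ := dr_reg hc e
  have h3 : e * x = 1 := Subtype.ext (LinearMap.ext fun v => by
    obtain ⟨u, rfl⟩ := LinearMap.range_eq_top.1 h2 v
    exact LinearMap.congr_fun (congrArg Subtype.val hx) u)
  exact (J.one_mem_iff).1 (h3 ▸ J.mul_mem_right _ x he)

/-- the maps that kill a member of the base flag -/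
def dr_M (G : Set (En Ω)) (hw : BW w) : Ideal (DR G) where
  carrier := {x | ∃ j, WF w j ≤ LinearMap.ker x.1}
  zero_mem' := ⟨0, fun _ _ => rfl⟩
  add_mem' := by
    rintro a b ⟨j, hj⟩ ⟨k, hk⟩
    refine ⟨max j k, fun v hv => ?_⟩
    have h1 : a.1 v = 0 := hj (hw.flag.anti (le_max_left j k) hv)
    have h2 : b.1 v = 0 := hk (hw.flag.anti (le_max_right j k) hv)
    change a.1 v + b.1 v = 0
    rw [h1, h2, add_zero]
  smul_mem' := by
    rintro c a ⟨j, hj⟩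
    refine ⟨j, fun v hv => ?_⟩
    have h1 : a.1 v = 0 := hj hv
    change c.1 (a.1 v) = 0
    rw [h1, map_zero]

/-- the filter of a left ideal -/
def dr_F (I : Ideal (DR G)) : Set (Sub Ω) := {K | Df G K ∧ ∃ y ∈ I, LinearMap.ker y.1 ≤ K}

lemma dr_mem (h : CM G) {I : Ideal (DR G)} {y : DR G} : y ∈ I ↔ LinearMap.ker y.1 ∈ dr_F I := by
  refine ⟨fun hy => ⟨Dm.ker y.2, y, hy, le_rfl⟩, ?_⟩
  rintro ⟨-, z, hz, hle⟩
  obtain ⟨s, rfl⟩ := dr_le h hle
  exact I.mul_mem_left s hz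

lemma dr_fil (h : CM G) {I : Ideal (DR G)} (hI : I ≠ ⊤) : Fil G (dr_F I) where
  df := fun _ hU => hU.1
  top := ⟨Df.top, 0, I.zero_mem, le_top⟩
  inf := by
    rintro U ⟨dU, y, hy, h1⟩ V ⟨dV, z, hz, h2⟩
    obtain ⟨s, t, hst⟩ := dr_inf h y z
    exact ⟨dU.inf dV, _, I.add_mem (I.mul_mem_left s hy) (I.mul_mem_left t hz),
      hst ▸ inf_le_inf h1 h2⟩
  up := by
    rintro U ⟨-, y, hy, h1⟩ K dK h2
    exact ⟨dK, y, hy, h1.trans h2⟩
  prop := by
    rintro ⟨-, y, hy, h1⟩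
    exact hI ((Ideal.eq_top_iff_one I).2
      ((dr_mem h).2 ⟨Dm.ker (1 : DR G).2, y, hy, h1.trans bot_le⟩))

lemma dr_uf (h : CM G) {I : Ideal (DR G)} (hI : I ≠ ⊤)
    (hu : ∀ a b : DR G, a ∉ I → b ∉ I → ∃ r s : DR G, r * a - s * b ∈ I ∧ r * a ∉ I) :
    UF G (dr_F I) := by
  intro K₁ K₂ d₁ d₂ hK
  obtain ⟨a, da, rfl, -⟩ := h.coproj d₁
  obtain ⟨b, db, rfl, -⟩ := h.coproj d₂
  by_contra hn
  push Not at hn
  obtain ⟨r, s, h1, h2⟩ := hu ⟨a, da⟩ ⟨b, db⟩ (fun h1 => hn.1 ((dr_mem h).1 h1))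
    fun h1 => hn.2 ((dr_mem h).1 h1)
  refine h2 ((dr_mem h).2 ((dr_fil h hI).up _ (hK _ ((dr_mem h).1 h1)) _
    (Dm.ker (Dm.mul r.2 da)) (sup_le ?_ ?_)))
  · rintro v ⟨hv, -⟩
    have h3 : a v = 0 := hv
    change r.1 (a v) = 0
    rw [h3, map_zero]
  · rintro v ⟨hv, hv'⟩
    have h3 : b v = 0 := hv
    have h4 : r.1 (a v) - s.1 (b v) = 0 := hv'
    rw [h3, map_zero, sub_zero] at h4
    exact h4

/-- `M = {x | ∃ j, WF w j ≤ ker x}` is a maximal left ideal (`Ex.one`, `CM.inv`).  For a proper left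
ideal `I` the set `𝓕 = {K | Df G K ∧ ∃ y ∈ I, ker y ≤ K}` is a filter (`dr_inf`), `y ∈ I` iff
`ker y ∈ 𝓕` (`dr_le`), every definable `K` is a kernel (`CM.coproj`), and the uniformity hypothesis
gives `UF`. -/
theorem dr_onePt (h : Good w G) (hw : BW w) (he : Ex G (Set.range (WF w)))
    (hm : ∀ 𝓕 : Set (Sub Ω), Fil G 𝓕 → UF G 𝓕 → NG G 𝓕 (Set.range (WF w))) : OnePt (DR G) := by
  have hc := h.cm hw
  refine ⟨dr_M G hw, Ideal.isMaximal_iff.2 ⟨?_, ?_⟩, fun I hI hu => ?_⟩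
  · rintro ⟨j, hj⟩
    exact hw.ne j (eq_bot_iff.2 fun v hv => hj hv)
  · intro J x hJ hx hxJ
    rcases he.one (Dm.ker x.2) with ⟨_, ⟨j, rfl⟩, hj⟩ | ⟨_, ⟨j, rfl⟩, hj⟩
    · exact (hx ⟨j, hj⟩).elim
    · obtain ⟨g, hg, h1⟩ := hc.inv (f := x.1) x.2 (df_WF h.base j) fun v hv h0 =>
        (Submodule.mem_bot Ω).1 (hj ▸ Submodule.mem_inf.2 ⟨hv, h0⟩)
      have h2 : 1 - (⟨g, hg⟩ : DR G) * x ∈ dr_M G hw :=
        ⟨j, fun v hv => sub_eq_zero.2 (h1 v hv).symm⟩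
      simpa using J.add_mem (hJ h2) (J.mul_mem_left ⟨g, hg⟩ hxJ)
  · have hf := dr_fil hc hI
    obtain ⟨f, d, hg, hn⟩ := hm _ hf (dr_uf hc hI hu)
    refine ⟨⟨f, d⟩, fun h1 => hn _ ((dr_mem hc).1 h1) le_rfl, ?_⟩
    rintro x ⟨j, hj⟩
    obtain ⟨U, hU, h1⟩ := hg _ ⟨j, rfl⟩
    exact (dr_mem hc).2 (hf.up U hU _ (Dm.ker (Dm.mul x.2 d)) fun v hv =>
      hj (h1 ⟨v, hv, rfl⟩))

/-- the base letters as elements of the ring -/
def drw (h : Set.range w ⊆ G) (n : ℕ) : DR G := ⟨w n, Dm.letter (h ⟨n, rfl⟩)⟩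

lemma drw_mul (h : Set.range w ⊆ G) (hw : BW w) (j k : ℕ) :
    drw h j * drw h k = drw h (max j k) := Subtype.ext (hw.comp j k)

/-- compare the ranks of the ranges -/
lemma drw_ne (h : Set.range w ⊆ G) (hw : BW w) (n : ℕ) (r : DR G) :
    drw h n ≠ drw h (n + 1) * r := by
  intro h1
  have h2 : LinearMap.range (w n) ≤ LinearMap.range (w (n + 1)) := by
    rintro _ ⟨v, rfl⟩
    exact ⟨r.1 v, (LinearMap.congr_fun (congrArg Subtype.val h1) v).symm⟩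
  have h3 := rk_mono h2
  rw [hw.rank, hw.rank, pow_succ, ← div_div] at h3
  have h4 : (0 : ℝ) < 1 / 2 ^ n := by positivity
  linarith

end Pool.Agent.Lib.MP_57313b_al.Zf
end

-- part Pool.Agent.Lib.MP_57313b_al.Zf.SysEx
section

/-!
# The transfinite construction
-/

set_option autoImplicit false

namespace Pool.Agent.Lib.MP_57313b_al.Zf

open Filter Topology

set_option linter.unusedSectionVars false

variable {Ω : Type} [Ring Ω] [Algebra F Ω] [RK Ω] {w : ℕ → En Ω}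

lemma mg_bf (G : Set (En Ω)) : Mg w G (bf Ω) (bf Ω) :=
  ⟨⟨fun _ => rfl, exJ_bot ⟨1, rfl⟩ ⟨1, rfl⟩⟩, Or.inl rfl⟩

/-- an enumeration of the left ideals definable from the base letters and a list of letters -/
lemma exists_enum (w : ℕ → En Ω) : ∃ enum : List (En Ω) → ℕ → Sub Ω, ∀ (L : List (En Ω))
    (K : Sub Ω), Df (Set.range w ∪ {x | x ∈ L}) K → ∃ n, enum L n = K := by
  have h : ∀ L : List (En Ω), ∃ e : ℕ → Sub Ω,
      {K : Sub Ω | Df (Set.range w ∪ {x | x ∈ L}) K} = Set.range e := fun L =>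
    (countable_df ((Set.countable_range w).union L.finite_toSet.countable)).exists_eq_range
      ⟨⊤, Df.top⟩
  choose e he using h
  exact ⟨e, fun L K hK => (he L).le hK⟩

/-- the rule applies -/
structure SysExR (w : ℕ → En Ω) {ι : Type} [LinearOrder ι] (η₀ η : ι) (f : ι → En Ω)
    (P Q : ℕ → Sub Ω) (D : Set ι) : Prop where
  le : η₀ ≤ η
  lt : D ⊆ Set.Iio η
  fP : Flag P
  fQ : Flag Q
  dP : ∀ n, Df (GS w f D) (P n)
  dQ : ∀ n, Df (GS w f D) (Q n)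
  cm : CM (GS w f (Set.Iio η))
  ok : Mg w (GS w f (Set.Iio η)) P Q ∨ Sh (GS w f (Set.Iio η)) P Q

/-- the data of a stage -/
structure SysExD (w : ℕ → En Ω) {ι : Type} [LinearOrder ι] (η₀ η : ι) (f : ι → En Ω)
    (P' Q' : ℕ → Sub Ω) (D' : Set ι) (P Q : ℕ → Sub Ω) (D : Set ι) : Prop where
  lt : D ⊆ Set.Iio η
  sub : D ⊆ D'
  fP : Flag P
  fQ : Flag Q
  dP : ∀ n, Df (GS w f D) (P n)
  dQ : ∀ n, Df (GS w f D) (Q n)
  free : η < η₀ → P = bf Ω ∧ Q = bf Ω ∧ D = ∅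
  ok : Mg w (GS w f (Set.Iio η)) P Q ∨ Sh (GS w f (Set.Iio η)) P Q
  cm : CM (GS w f (Set.Iio η)) ∨ P = bf Ω ∧ Q = bf Ω
  book : SysExR w η₀ η f P' Q' D' → P = P' ∧ Q = Q'

lemma sysEx_data (w : ℕ → En Ω) {ι : Type} [LinearOrder ι] (η₀ η : ι) (f : ι → En Ω)
    (P' Q' : ℕ → Sub Ω) (D' : Set ι) : ∃ P Q D, SysExD w η₀ η f P' Q' D' P Q D := by
  by_cases h : SysExR w η₀ η f P' Q' D'
  · exact ⟨P', Q', D', h.lt, le_rfl, h.fP, h.fQ, h.dP, h.dQ, fun h' => absurd h.le h'.not_ge, h.ok,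
      Or.inl h.cm, fun _ => ⟨rfl, rfl⟩⟩
  · exact ⟨bf Ω, bf Ω, ∅, Set.empty_subset _, Set.empty_subset _, flag_bf, flag_bf, df_bf, df_bf,
      fun _ => ⟨rfl, rfl, rfl⟩, Or.inl (mg_bf _), Or.inr ⟨rfl, rfl⟩, fun h' => absurd h' h⟩

lemma sysEx_cut (w : ℕ → En Ω) {ι : Type} [LinearOrder ι] (b : ι → En Ω) {η : ι} {X : Set ι}
    (h : X ⊆ Set.Iio η) : GS w (cut 0 b η) X = GS w b X := by
  rw [GS, GS, Set.image_congr fun a ha => show cut 0 b η a = b a from if_pos (h ha)]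

/-- one step: the specification can be met -/
lemma sysEx_step (hc : Cpl Ω) {ι : Type} [LinearOrder ι] (y : ι × ℕ → En Ω)
    (hy : ∀ x, Free (y x) (Set.range w ∪ y '' {x}ᶜ)) (η : ι) {G : Set (En Ω)}
    (hG : ∀ g ∈ G, Apx (Set.range w ∪ y '' {a | a.1 < η}) g.graph) {P Q : ℕ → Sub Ω}
    (fP : Flag P) (fQ : Flag Q) (dP : ∀ n, Df G (P n)) (dQ : ∀ n, Df G (Q n))
    (cm : CM G ∨ P = bf Ω ∧ Q = bf Ω) :
    ∃ s, Gen s P Q G ∧ Apx (Set.range w ∪ y '' {a | a.1 ≤ η}) s.graph := by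
  have h1 : ∀ l, Free (y (η, l)) (G ∪ (fun l => y (η, l)) '' Set.Iio l) := fun l => by
    refine Gen.of_apx (hy (η, l)) flag_bf flag_bf ?_
    rintro g (hg | ⟨l', hl, rfl⟩)
    · refine (hG g hg).mono (Set.union_subset_union_right _ (Set.image_mono ?_))
      rintro a ha rfl
      exact lt_irrefl η ha
    · exact Df.apx' (Dm.letter (Or.inr ⟨(η, l'), fun h => (ne_of_lt hl) (congrArg Prod.snd h), rfl⟩))
  have h2 : ∀ l, Apx (Set.range w ∪ y '' {a | a.1 ≤ η}) (y (η, l)).graph := fun l =>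
    Df.apx' (Dm.letter (Or.inr ⟨(η, l), le_refl η, rfl⟩))
  rcases cm with cm | ⟨rfl, rfl⟩
  · obtain ⟨s, h3, h4⟩ := exists_gen hc cm fP fQ dP dQ _ h1
    refine ⟨s, h3, Apx.of_lim h4.1 fun ε hε => ?_⟩
    obtain ⟨K, h5, h6⟩ := h4.2 ε hε
    refine ⟨K, h5.apx ?_, h6⟩
    rintro g (hg | ⟨l, rfl⟩)
    · exact (hG g hg).mono (Set.union_subset_union_right _ (Set.image_mono fun a ha => le_of_lt ha))
    · exact h2 l
  · exact ⟨y (η, 0), (h1 0).mono Set.subset_union_left, h2 0⟩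

lemma sysEx_code {enum : List (En Ω) → ℕ → Sub Ω} (he : ∀ (L : List (En Ω)) (K : Sub Ω),
    Df (Set.range w ∪ {x | x ∈ L}) K → ∃ n, enum L n = K) {ι : Type} {b : ι → En Ω} {D : Set ι}
    {K : Sub Ω} (h : Df (GS w b D) K) : ∃ c : ℕ × List ι, (∀ a ∈ c.2, a ∈ D) ∧
      enum (c.2.map b) c.1 = K ∧ Df (GS w b {a | a ∈ c.2}) K := by
  obtain ⟨s, h1, h2, h3⟩ := h.supp_gs
  have e : {a | a ∈ h2.toFinset.toList} = s := by ext; simp
  have e' : {x | x ∈ h2.toFinset.toList.map b} = b '' s := by ext; simp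
  obtain ⟨n, hn⟩ := he (h2.toFinset.toList.map b) K (by rw [e']; exact h3)
  exact ⟨(n, h2.toFinset.toList), fun a ha => h1 (e.le ha), hn, by rw [e]; exact h3⟩

/-- For `f : ι → En Ω` and `η` let `P' n = enum ((code η n).1.2.map f) (code η n).1.1`, similarly
`Q'`, and `D` the set of all entries of the lists in `code η`.  Say that the rule applies at `(η, f)`
if `η₀ ≤ η`, `D ⊆ Iio η`, both are flags definable over `GS w f D`, `CM (GS w f (Iio η))` and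
`Mg ∨ Sh` over `GS w f (Iio η)`; then the data of the stage are `(P', Q', D)`, else
`(bf, bf, ∅)`.  Let `H η = range w ∪ y '' {a | a.1 ≤ η}`.  Use `exists_rec` with the specification
`Gen s P Q (GS w f (Iio η)) ∧ Apx (H η) s.graph`.  The data at `(η, cut 0 b η)` and the sets
`GS w _ X` for `X ⊆ Iio η` are the same for `b` and `cut 0 b η`.  By strong induction the
specification can be met: the letters `y (η, l)` are free over `GS w b (Iio η) ∪ {y (η, l') | l' < l}`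
by `Gen.of_apx`; use `exists_gen` if the rule applies (then `Apx` is transferred with `Df.apx`,
`Apx.of_lim`) and `y (η, 0)` otherwise.  For `book` use `Df.supp_gs` to find the lists. -/
theorem exists_sys (hw : BW w) (hc : Cpl Ω) {ι : Type} [LinearOrder ι] [WellFoundedLT ι]
    (hb : ∀ s : Set ι, s.Countable → ∃ η, ∀ a ∈ s, a < η) (η₀ : ι)
    (hu : ¬ (Set.Iio η₀).Countable) (code : ι → ℕ → (ℕ × List ι) × (ℕ × List ι))
    (hcode : ∀ c η, ∃ ζ, η < ζ ∧ code ζ = c) (y : ι × ℕ → En Ω)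
    (hy : ∀ x, Free (y x) (Set.range w ∪ y '' {x}ᶜ)) : Nonempty (Sys w ι) := by
  obtain ⟨enum, he⟩ := exists_enum w
  choose P Q D hT using fun (η : ι) (f : ι → En Ω) => sysEx_data w η₀ η f
    (fun n => enum ((code η n).1.2.map f) (code η n).1.1)
    (fun n => enum ((code η n).2.2.map f) (code η n).2.1)
    (⋃ n, {a | a ∈ (code η n).1.2} ∪ {a | a ∈ (code η n).2.2})
  obtain ⟨b, hb'⟩ := exists_rec (ι := ι) (0 : En Ω) fun η f s =>
    Gen s (P η f) (Q η f) (GS w f (Set.Iio η)) ∧ Apx (Set.range w ∪ y '' {a | a.1 ≤ η}) s.graph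
  have key : ∀ η, Gen (b η) (P η (cut 0 b η)) (Q η (cut 0 b η)) (GS w (cut 0 b η) (Set.Iio η)) ∧
      Apx (Set.range w ∪ y '' {a | a.1 ≤ η}) (b η).graph := fun η => by
    induction η using WellFoundedLT.induction with
    | ind η ih =>
      have h := hT η (cut 0 b η)
      refine hb' η (sysEx_step hc y hy η ?_ h.fP h.fQ (fun n => (h.dP n).mono (gs_mono _ _ h.lt))
        (fun n => (h.dQ n).mono (gs_mono _ _ h.lt)) h.cm)
      rw [sysEx_cut w b le_rfl]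
      rintro g (hg | ⟨ζ, hζ, rfl⟩)
      · exact Df.apx' (Dm.letter (Or.inl hg))
      · exact (ih ζ hζ).2.mono (Set.union_subset_union_right _
          (Set.image_mono fun a ha => lt_of_le_of_lt ha hζ))
  refine ⟨⟨b, fun η => P η (cut 0 b η), fun η => Q η (cut 0 b η), fun η => D η (cut 0 b η), η₀, hu,
    fun η => (hT η _).lt, fun η => Set.Countable.mono (hT η _).sub (Set.countable_iUnion fun n =>
      (List.finite_toSet _).countable.union (List.finite_toSet _).countable),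
    fun η => (hT η _).fP, fun η => (hT η _).fQ,
    fun η n => sysEx_cut w b (hT η _).lt ▸ (hT η _).dP n,
    fun η n => sysEx_cut w b (hT η _).lt ▸ (hT η _).dQ n,
    fun η => sysEx_cut w b (η := η) le_rfl ▸ (key η).1, fun η h => (hT η _).free h,
    fun η => sysEx_cut w b (η := η) le_rfl ▸ (hT η _).ok, fun P' Q' D' hD fP fQ dP dQ => ?_⟩⟩
  choose c₁ a₁ e₁ d₁ using fun n => sysEx_code he (dP n)
  choose c₂ a₂ e₂ d₂ using fun n => sysEx_code he (dQ n)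
  obtain ⟨ζ, hζ⟩ := hb _ (hD.insert η₀)
  obtain ⟨η, h1, h2⟩ := hcode (fun n => (c₁ n, c₂ n)) ζ
  have h3 : D' ⊆ Set.Iio η := fun a ha => (hζ a (Or.inr ha)).trans h1
  have h0 : η₀ ≤ η := ((hζ η₀ (Or.inl rfl)).trans h1).le
  refine ⟨η, h0, h3, fun cm ok => ?_⟩
  have h := (hT η (cut 0 b η)).book
  have m : ∀ L : List ι, (∀ a ∈ L, a ∈ D') → L.map (cut 0 b η) = L.map b := fun L hL =>
    List.map_congr_left fun a ha => if_pos (h3 (hL a ha))
  simp only [h2, m _ (a₁ _), m _ (a₂ _), e₁, e₂] at h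
  have h4 : (⋃ n, {a | a ∈ (c₁ n).2} ∪ {a | a ∈ (c₂ n).2}) ⊆ Set.Iio η :=
    Set.iUnion_subset fun n => Set.union_subset (fun a ha => h3 (a₁ n a ha))
      fun a ha => h3 (a₂ n a ha)
  refine h ⟨h0, h4, fP, fQ, fun n => ?_, fun n => ?_, ?_, ?_⟩
  · rw [sysEx_cut w b h4]
    exact (d₁ n).mono (gs_mono _ _ (Set.subset_iUnion_of_subset n Set.subset_union_left))
  · rw [sysEx_cut w b h4]
    exact (d₂ n).mono (gs_mono _ _ (Set.subset_iUnion_of_subset n Set.subset_union_right))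
  · rwa [sysEx_cut w b le_rfl]
  · rwa [sysEx_cut w b le_rfl]

end Pool.Agent.Lib.MP_57313b_al.Zf
end
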