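import Pool.Agent.Lib.MP_57313b_al.Zf.Ultra1
import Pool.Agent.Lib.MP_57313b_al.Zf.Df2

-- part Pool.Agent.Lib.MP_57313b_al.Zf.Jg1
section

/-!
# Maximal rank bounds the modules of chains
-/

set_option autoImplicit false

namespace Pool.Agent.Lib.MP_57313b_al.Zf

open Filter Topology

set_option linter.unusedSectionVars false

variable {Ω : Type} [Ring Ω] [Algebra F Ω] [RK Ω] {A : Type} {w : ℕ → Ω} {y : A → Ω}
variable {τ σ ρ : Type} [Fintype τ] [Fintype σ] [Fintype ρ]

lemma vecMul_map (M : Matrix τ ρ F) (v : τ → Ω) :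
    (M.map (algebraMap F Ω)).vecMulLinear v = mat M v := by
  funext j
  rw [mat_apply]
  simp only [Matrix.vecMulLinear_apply, Matrix.vecMul, dotProduct, Matrix.map_apply]
  refine Finset.sum_congr rfl fun i _ => ?_
  rw [← Algebra.commutes, Algebra.smul_def]

/-- the pencil with left block `B` and right block `β - α y` -/
noncomputable def jg1_p (B : Matrix τ σ (ℕ →₀ F)) (α β : Matrix τ ρ F) (l : ρ → A) :
    Matrix τ (σ ⊕ ρ) (ℕ ⊕ A →₀ F) :=
  Matrix.of fun t => Sum.elim (fun s => (B t s).mapDomain Sum.inl)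
    (fun e => β t e • Finsupp.single (Sum.inl 0) 1 - α t e • Finsupp.single (Sum.inr (l e)) 1)

lemma jg1_inl {S : Type} [AddCommGroup S] [Module F S] (B : Matrix τ σ (ℕ →₀ F))
    (α β : Matrix τ ρ F) (l : ρ → A) (u : ℕ → S) (x : A → S) (t : τ) (s : σ) :
    ev (jg1_p B α β l) (Sum.elim u x) t (Sum.inl s) = Finsupp.linearCombination F u (B t s) := by
  simp only [ev, jg1_p, Matrix.map_apply, Matrix.of_apply, Sum.elim_inl]
  rw [Finsupp.linearCombination_mapDomain]
  rfl

lemma jg1_inr {S : Type} [AddCommGroup S] [Module F S] (B : Matrix τ σ (ℕ →₀ F))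
    (α β : Matrix τ ρ F) (l : ρ → A) (u : ℕ → S) (x : A → S) (t : τ) (e : ρ) :
    ev (jg1_p B α β l) (Sum.elim u x) t (Sum.inr e) = β t e • u 0 - α t e • x (l e) := by
  simp only [ev, jg1_p, Matrix.map_apply, Matrix.of_apply, Sum.elim_inr, map_sub, map_smul,
    Finsupp.linearCombination_single, one_smul, Sum.elim_inl]

lemma jg1_diag {I : Type} [DecidableEq I] (c : ℕ →₀ F) (i j : I) :
    (Finsupp.linearCombination F (fun k => Matrix.diagonal fun _ : I => w k) c) i j =
      if i = j then Finsupp.linearCombination F w c else 0 := by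
  induction c using Finsupp.induction_linear with
  | zero => simp
  | add f g hf hg =>
    rw [map_add, map_add, Matrix.add_apply, hf, hg]
    split_ifs <;> simp
  | single a b =>
    simp only [Finsupp.linearCombination_single, Matrix.smul_apply, Matrix.diagonal_apply]
    split_ifs <;> simp

lemma jg1_ker (hw : w 0 = 1) (B : Matrix τ σ (ℕ →₀ F)) (α β : Matrix τ ρ F) (l : ρ → A) :
    LinearMap.ker ((ev B w).vecMulLinear.prod (mat β - dg (y ∘ l) ∘ₗ mat α)) =
      LinearMap.ker (ev (jg1_p B α β l) (Sum.elim w y)).vecMulLinear := by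
  ext v
  have h1 : ∀ s, (ev (jg1_p B α β l) (Sum.elim w y)).vecMulLinear v (Sum.inl s) =
      (ev B w).vecMulLinear v s := fun s => by
    simp only [Matrix.vecMulLinear_apply, Matrix.vecMul, dotProduct, jg1_inl]
    rfl
  have h2 : ∀ e, (ev (jg1_p B α β l) (Sum.elim w y)).vecMulLinear v (Sum.inr e) =
      (mat β - dg (y ∘ l) ∘ₗ mat α : (τ → Ω) →ₗ[Ω] (ρ → Ω)) v e := fun e => by
    simp only [Matrix.vecMulLinear_apply, Matrix.vecMul, dotProduct, jg1_inr, hw,
      LinearMap.sub_apply, LinearMap.comp_apply, Pi.sub_apply, dg_apply, mat_apply,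
      Function.comp_apply, mul_sub, Finset.sum_sub_distrib, Finset.sum_mul, mul_smul_comm,
      mul_one, smul_mul_assoc]
  rw [LinearMap.ker_prod, Submodule.mem_inf, LinearMap.mem_ker, LinearMap.mem_ker,
    LinearMap.mem_ker]
  constructor
  · rintro ⟨a, b⟩
    funext c
    rcases c with s | e
    · rw [h1, a]; rfl
    · rw [h2, b]; rfl
  · intro h
    refine ⟨funext fun s => ?_, funext fun e => ?_⟩
    · rw [← h1, h]; rfl
    · rw [← h2, h]; rfl

/-- the blown-up letters -/
def jg1_X {I : Type} [DecidableEq I] {N : ℕ} (ι : I ≃ Fin N) (y : A → Ω) (Y : ℕ → A → Ω) (a : A) :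
    Matrix I I Ω :=
  Matrix.of fun i j => (if i = j then y a else 0) +
    (if (ι i : ℕ) + 1 = ι j then Y (ι i) a else 0)

/-- regrouping coordinates -/
def jg1_f {I : Type} {N : ℕ} (ι : I ≃ Fin N) : (τ × I → Ω) →ₗ[Ω] (Fin N → τ → Ω) :=
  LinearMap.pi fun n => LinearMap.pi fun t => LinearMap.proj (t, ι.symm n)

lemma jg1_f_apply {I : Type} {N : ℕ} (ι : I ≃ Fin N) (v : τ × I → Ω) (n : Fin N) (t : τ) :
    jg1_f ι v n t = v (t, ι.symm n) := rfl

lemma jg1_chain {I : Type} [Fintype I] [DecidableEq I] {N : ℕ} (ι : I ≃ Fin N) (hw : w 0 = 1)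
    (B : Matrix τ σ (ℕ →₀ F)) (α β : Matrix τ ρ F) (l : ρ → A) (Y : ℕ → A → Ω)
    (v : τ × I → Ω)
    (hv : (Matrix.comp τ (σ ⊕ ρ) I I Ω (ev (jg1_p B α β l)
      (Sum.elim (fun k => Matrix.diagonal fun _ => w k) (jg1_X ι y Y)))).vecMulLinear v = 0) :
    jg1_f ι v ∈ chainSol ((ev B w).vecMulLinear.prod (mat β - dg (y ∘ l) ∘ₗ mat α))
      (fun s => LinearMap.inr Ω (σ → Ω) (ρ → Ω) ∘ₗ dg (Y s ∘ l) ∘ₗ mat α) N := by
  rw [mem_chainSol]
  intro n
  refine Prod.ext (funext fun s => ?_) (funext fun e => ?_)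
  · have h := congrFun hv (Sum.inl s, ι.symm n)
    simp only [Matrix.vecMulLinear_apply, Matrix.vecMul, dotProduct, Matrix.comp_apply, jg1_inl,
      jg1_diag, Fintype.sum_prod_type, mul_ite, mul_zero, Finset.sum_ite_eq', Finset.mem_univ,
      if_true, Pi.zero_apply] at h
    have h0 : (∑ m : Fin N, if (m : ℕ) + 1 = n then
        (LinearMap.inr Ω (σ → Ω) (ρ → Ω) ∘ₗ dg (Y m ∘ l) ∘ₗ mat α) (jg1_f ι v m) else 0).1 = 0 := by
      rw [Prod.fst_sum]
      refine Finset.sum_eq_zero fun m _ => ?_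
      split_ifs <;> rfl
    rw [h0]
    exact h
  · have h := congrFun hv (Sum.inr e, ι.symm n)
    simp only [Matrix.vecMulLinear_apply, Matrix.vecMul, dotProduct, Matrix.comp_apply, jg1_inr,
      Fintype.sum_prod_type, Pi.zero_apply, Matrix.sub_apply, Matrix.smul_apply,
      Matrix.diagonal_apply, hw, jg1_X, Matrix.of_apply, Equiv.apply_symm_apply, mul_sub,
      Finset.sum_sub_distrib, mul_smul_comm, mul_add, smul_add, Finset.sum_add_distrib, mul_ite,
      mul_zero, mul_one, smul_ite, smul_zero, Finset.sum_ite_eq', Finset.mem_univ, if_true] at h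
    have h0 : (∑ m : Fin N, if (m : ℕ) + 1 = n then
        (LinearMap.inr Ω (σ → Ω) (ρ → Ω) ∘ₗ dg (Y m ∘ l) ∘ₗ mat α) (jg1_f ι v m) else 0).2 e =
        ∑ t : τ, ∑ i : I, if (ι i : ℕ) + 1 = n then α t e • (v (t, i) * Y (ι i) (l e)) else 0 := by
      rw [Prod.snd_sum, Finset.sum_apply, Finset.sum_comm, ← ι.sum_comp]
      refine Finset.sum_congr rfl fun i _ => ?_
      split_ifs
      · simp only [LinearMap.comp_apply, LinearMap.inr_apply, dg_apply, mat_apply, jg1_f_apply,
          Function.comp_apply, Equiv.symm_apply_apply, Finset.sum_mul, smul_mul_assoc]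
      · simp
    rw [h0]
    change (mat β - dg (y ∘ l) ∘ₗ mat α : (τ → Ω) →ₗ[Ω] (ρ → Ω)) (jg1_f ι v n) e = _
    simp only [LinearMap.sub_apply, LinearMap.comp_apply,
      Pi.sub_apply, dg_apply, mat_apply, jg1_f_apply, Function.comp_apply, Finset.sum_mul,
      smul_mul_assoc]
    rw [sub_eq_zero] at h
    rw [h]
    abel

/-- `MIN` for the pencil `p : Matrix τ (σ ⊕ ρ) _` with left block `B` (letters `Sum.inl k`) and
right block `β t e • single (inl 0) - α t e • single (inr (l e))`, and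
`X a = of fun s t => if s = t then y a else if ι s + 1 = ι t then Y (ι s) a else 0` for an
equivalence `ι : Ix r ≃ Fin (2 ^ r)`.  The kernel of right multiplication by the blown-up matrix is
isomorphic to the module of chains; use `rk_ker_vecMul` twice. -/
theorem MIN.chain (h : MIN w y) (hw : w 0 = 1) (B : Matrix τ σ (ℕ →₀ F)) (α β : Matrix τ ρ F)
    (l : ρ → A) (r : ℕ) (Y : ℕ → A → Ω) :
    (2 ^ r : ℕ) * rk (LinearMap.ker ((ev B w).vecMulLinear.prod (mat β - dg (y ∘ l) ∘ₗ mat α))) ≤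
      rk (chainSol ((ev B w).vecMulLinear.prod (mat β - dg (y ∘ l) ∘ₗ mat α))
        (fun s => LinearMap.inr Ω (σ → Ω) (ρ → Ω) ∘ₗ dg (Y s ∘ l) ∘ₗ mat α) (2 ^ r)) := by
  classical
  have hc : Fintype.card (Ix r) = 2 ^ r := by simp [Ix]
  let ι : Ix r ≃ Fin (2 ^ r) := Fintype.equivFinOfCardEq hc
  have h1 := h τ (σ ⊕ ρ) (jg1_p B α β l) r (jg1_X ι y Y)
  have h2 := rk_le_of_inj (fg_ker (Matrix.comp τ (σ ⊕ ρ) (Ix r) (Ix r) Ω (ev (jg1_p B α β l)
      (Sum.elim (fun k => Matrix.diagonal fun _ => w k) (jg1_X ι y Y)))).vecMulLinear)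
    (jg1_f ι) (fun v _ hv => by
      funext ⟨t, i⟩
      have := congrFun (congrFun hv (ι i)) t
      rw [jg1_f_apply, Equiv.symm_apply_apply] at this
      exact this) (fun v hv => jg1_chain ι hw B α β l Y v hv)
  rw [rk_ker_vecMul, Fintype.card_prod, hc] at h2
  rw [jg1_ker hw, rk_ker_vecMul]
  refine le_trans ?_ h2
  push_cast
  linarith

end Pool.Agent.Lib.MP_57313b_al.Zf
end

-- part Pool.Agent.Lib.MP_57313b_al.Zf.Lin2
section

/-!
# Linear algebra over the ground field: commutators and lines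
-/

set_option autoImplicit false

namespace Pool.Agent.Lib.MP_57313b_al.Zf

open Filter Topology

set_option linter.unusedSectionVars false

variable {a b c d n : Type} [Fintype a] [Fintype b] [Fintype c] [Fintype d] [Fintype n]

lemma lin2_step {V : Type} [AddCommGroup V] [Module F V] (f : V →ₗ[F] V) {U : Submodule F V}
    (h1 : Disjoint U (LinearMap.ker f)) (h2 : Disjoint U (U.map f)) {v : V}
    (hv : v ∉ U ⊔ U.map f) (hc : ∀ c : F, f v - c • v ∉ U ⊔ U.map f) :
    Disjoint (U ⊔ F ∙ v) (LinearMap.ker f) ∧ Disjoint (U ⊔ F ∙ v) ((U ⊔ F ∙ v).map f) := by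
  have hU : ∀ u ∈ U, u ∈ U ⊔ U.map f := fun u hu => Submodule.mem_sup_left hu
  have hf : ∀ u ∈ U, f u ∈ U ⊔ U.map f := fun u hu =>
    Submodule.mem_sup_right (Submodule.mem_map_of_mem hu)
  have key : ∀ (r s : F), r • f v - s • v ∈ U ⊔ U.map f → r = 0 ∧ s = 0 := by
    intro r s h
    have hr : r = 0 := by
      by_contra hr
      refine hc (r⁻¹ * s) ?_
      have := Submodule.smul_mem _ r⁻¹ h
      rwa [smul_sub, smul_smul, smul_smul, inv_mul_cancel₀ hr, one_smul] at this
    refine ⟨hr, ?_⟩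
    by_contra hs
    rw [hr, zero_smul, zero_sub, Submodule.neg_mem_iff, Submodule.smul_mem_iff _ hs] at h
    exact hv h
  have dec : ∀ w ∈ U ⊔ F ∙ v, ∃ u ∈ U, ∃ r : F, w = u + r • v := by
    intro w hw
    obtain ⟨u, hu, x, hx, rfl⟩ := Submodule.mem_sup.1 hw
    obtain ⟨r, rfl⟩ := Submodule.mem_span_singleton.1 hx
    exact ⟨u, hu, r, rfl⟩
  constructor
  · rw [Submodule.disjoint_def]
    intro w hw hk
    obtain ⟨u, hu, r, rfl⟩ := dec w hw
    rw [LinearMap.mem_ker, map_add, map_smul] at hk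
    have hr : r = 0 := by
      refine (key r 0 ?_).1
      rw [zero_smul, sub_zero, eq_neg_of_add_eq_zero_right hk]
      exact Submodule.neg_mem _ (hf u hu)
    rw [hr, zero_smul, add_zero] at hk ⊢
    exact Submodule.disjoint_def.1 h1 u hu hk
  · rw [Submodule.disjoint_def]
    intro w hw hk
    obtain ⟨u, hu, r, rfl⟩ := dec w hw
    obtain ⟨w', hw', e⟩ := Submodule.mem_map.1 hk
    obtain ⟨u', hu', s, rfl⟩ := dec w' hw'
    rw [map_add, map_smul] at e
    have h0 : s = 0 ∧ r = 0 := by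
      refine key s r ?_
      have e2 : s • f v - r • v = u - f u' := by
        rw [sub_eq_sub_iff_add_eq_add, add_comm, e]
      rw [e2]
      exact Submodule.sub_mem _ (hU u hu) (hf u' hu')
    rw [h0.1, h0.2, zero_smul, zero_smul, add_zero, add_zero] at e
    rw [h0.2, zero_smul, add_zero]
    exact Submodule.disjoint_def.1 h2 u hu ⟨u', hu', e⟩

lemma lin2_range {V : Type} [AddCommGroup V] [Module F V] (f : V →ₗ[F] V) {T : Submodule F V}
    (h : ∀ v ∉ T, ∃ c : F, f v - c • v ∈ T) :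
    ∃ (c : F) (v : V), ∀ x, f x - c • x ∈ T ⊔ F ∙ v := by
  by_cases hT : ∀ v, v ∈ T
  · exact ⟨0, 0, fun x => Submodule.mem_sup_left (hT _)⟩
  push Not at hT
  obtain ⟨v, hv⟩ := hT
  obtain ⟨c, hc⟩ := h v hv
  have hvv : v ∈ T ⊔ F ∙ v := Submodule.mem_sup_right (Submodule.mem_span_singleton_self v)
  have h1 : ∀ x ∉ T, x ∈ T ⊔ F ∙ v → f x ∈ T ⊔ F ∙ v := by
    intro x hx hx'
    obtain ⟨r, hr⟩ := h x hx
    have := Submodule.add_mem _ (Submodule.mem_sup_left hr) (Submodule.smul_mem _ r hx')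
    rwa [sub_add_cancel] at this
  refine ⟨c, v, fun x => ?_⟩
  by_cases hx : x ∈ T ⊔ F ∙ v
  · refine Submodule.sub_mem _ ?_ (Submodule.smul_mem _ c hx)
    by_cases hxT : x ∈ T
    · have h2 := h1 (x + v) (fun hh => hv ((Submodule.add_mem_iff_right _ hxT).1 hh))
        (Submodule.add_mem _ hx hvv)
      rw [map_add] at h2
      exact (Submodule.add_mem_iff_left _ (h1 v hv hvv)).1 h2
    · exact h1 x hxT hx
  · obtain ⟨r, hr⟩ := h x fun hh => hx (Submodule.mem_sup_left hh)
    obtain ⟨s, hs⟩ := h (x + v) fun hh =>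
      hx ((Submodule.add_mem_iff_left _ hvv).1 (Submodule.mem_sup_left hh))
    have h3 : (r - s) • x + (c - s) • v ∈ T := by
      have := Submodule.sub_mem _ (Submodule.sub_mem _ hs hr) hc
      convert this using 1
      rw [map_add]; module
    have h4 : r = s := by
      by_contra hne
      have h5 := (Submodule.add_mem_iff_left _ (Submodule.smul_mem _ (c - s) hvv)).1
        (Submodule.mem_sup_left h3)
      exact hx ((Submodule.smul_mem_iff _ (sub_ne_zero.2 hne)).1 h5)
    have h6 : c = s := by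
      by_contra hne
      rw [h4, sub_self, zero_smul, zero_add, Submodule.smul_mem_iff _ (sub_ne_zero.2 hne)] at h3
      exact hv h3
    rw [h6, ← h4]
    exact Submodule.mem_sup_left hr

lemma lin2_central {V : Type} [AddCommGroup V] [Module F V] [FiniteDimensional F V]
    (f : V →ₗ[F] V) : ∃ (c : F) (p : V →ₗ[F] V),
      Module.finrank F (LinearMap.range (f - c • LinearMap.id)) ≤
        2 * Module.finrank F (LinearMap.range (f ∘ₗ p - p ∘ₗ f)) + 1 := by
  obtain ⟨U, ⟨h1, h2⟩, hmax⟩ := set_has_maximal_iff_noetherian.2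
    (inferInstance : IsNoetherian F V)
    {U : Submodule F V | Disjoint U (LinearMap.ker f) ∧ Disjoint U (U.map f)}
    ⟨⊥, disjoint_bot_left, disjoint_bot_left⟩
  have h3 : ∀ v ∉ U ⊔ U.map f, ∃ c : F, f v - c • v ∈ U ⊔ U.map f := by
    intro v hv
    by_contra hc
    push Not at hc
    refine hmax _ (lin2_step f h1 h2 hv hc) (lt_of_le_of_ne le_sup_left fun e => hv ?_)
    refine Submodule.mem_sup_left ?_
    rw [e]
    exact Submodule.mem_sup_right (Submodule.mem_span_singleton_self v)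
  obtain ⟨c, v, hc⟩ := lin2_range f h3
  obtain ⟨W, hW, hcW⟩ := h2.symm.exists_isCompl
  refine ⟨c, U.projection W hcW.symm, ?_⟩
  have e1 : LinearMap.range (f - c • LinearMap.id) ≤ (U ⊔ U.map f) ⊔ F ∙ v := by
    rintro _ ⟨x, rfl⟩
    exact hc x
  have e2 : U.map f ≤
      LinearMap.range (f ∘ₗ U.projection W hcW.symm - U.projection W hcW.symm ∘ₗ f) := by
    rintro _ ⟨u, hu, rfl⟩
    refine ⟨u, ?_⟩
    have a1 : U.projection W hcW.symm u = u := Submodule.projection_apply_left _ ⟨u, hu⟩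
    have a2 : U.projection W hcW.symm (f u) = 0 :=
      (Submodule.projection_apply_eq_zero_iff _).2 (hW (Submodule.mem_map_of_mem hu))
    rw [LinearMap.sub_apply, LinearMap.comp_apply, LinearMap.comp_apply, a1, a2, sub_zero]
  have e3 : Module.finrank F (U.map f) = Module.finrank F U := by
    rw [← LinearMap.range_domRestrict]
    exact LinearMap.finrank_range_of_inj (LinearMap.injective_domRestrict_iff.2 h1)
  have e4 := Submodule.finrank_mono e1
  have e5 := Submodule.finrank_mono e2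
  have e6 := Submodule.finrank_add_le_finrank_add_finrank (U ⊔ U.map f) (F ∙ v)
  have e7 := Submodule.finrank_add_le_finrank_add_finrank U (U.map f)
  have e8 : Module.finrank F (F ∙ v) ≤ 1 := by
    simpa using finrank_span_le_card (R := F) ({v} : Set V)
  omega

/-- View `z` as an endomorphism of `V = F ^ n`.  Take a subspace `U` of largest dimension `k` with
`z` injective on `U` and `U ⊓ z U = ⊥`; `T = U ⊔ z U` has dimension `2 k`.  For `v ∉ T` maximality
gives `c` with `z v - c v ∈ T`.  If `dim V / T ≥ 2` the scalar does not depend on `v`, so the range of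
`z - c` lies in `T`; otherwise `dim V ≤ 2 k + 1`.  For `y` a projection onto `U` killing `z U`, the
commutator is injective on `U`. -/
lemma lin_central [DecidableEq n] (z : Matrix n n F) : ∃ (c : F) (y : Matrix n n F),
    (z - c • (1 : Matrix n n F)).rank ≤ 2 * (z * y - y * z).rank + 1 := by
  obtain ⟨c, p, h⟩ := lin2_central (Matrix.toLin' z)
  refine ⟨c, LinearMap.toMatrix' p, ?_⟩
  have r : ∀ M : Matrix n n F, M.rank = Module.finrank F (LinearMap.range (Matrix.toLin' M)) :=
    fun _ => rfl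
  rw [r, r, map_sub, map_sub, map_smul, Matrix.toLin'_one, Matrix.toLin'_mul, Matrix.toLin'_mul,
    Matrix.toLin'_toMatrix']
  exact h

/-- Let `A * A' * A = A` and `A' * A * A' = A'` (replace `A'` by `A' * A * A'`), `e = A * A'`,
`C = e * B * A'`, so `C * e = C`.  If `1 + t • C` is invertible then
`rank (A + t • B) ≥ rank (e * (A + t • B) * A') = rank ((1 + t • C) * e) = rank A`; the polynomial
`det (1 + X • C)` has value `1` at `0`, so it has finitely many roots. -/
lemma lin_line (A B : Matrix a b F) : {t : F | (A + t • B).rank < A.rank}.Finite := by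
  classical
  obtain ⟨A₀, h₀⟩ := lin_ginv A
  have hA : A * (A₀ * A * A₀) * A = A := by
    rw [← Matrix.mul_assoc, ← Matrix.mul_assoc, h₀, h₀]
  have hA' : A₀ * A * A₀ * A * (A₀ * A * A₀) = A₀ * A * A₀ := by
    have e : A₀ * A * A₀ * A = A₀ * A := by
      rw [Matrix.mul_assoc A₀ A A₀, Matrix.mul_assoc A₀ (A * A₀) A, h₀]
    rw [e, ← Matrix.mul_assoc, ← Matrix.mul_assoc, e]
  generalize A₀ * A * A₀ = A' at hA hA'
  set C := A * A' * B * A' with hC
  let p : Polynomial F := (1 + (Polynomial.X : Polynomial F) • C.map Polynomial.C).det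
  have hp : ∀ t, p.eval t = (1 + t • C).det := by
    intro t
    have := (Polynomial.evalRingHom t).map_det
      (1 + (Polynomial.X : Polynomial F) • C.map Polynomial.C)
    rw [Polynomial.coe_evalRingHom] at this
    rw [this]
    congr 1
    ext i j
    by_cases h : i = j <;> simp [h, mul_comm t]
  have hp0 : p ≠ 0 := by
    intro h
    have := hp 0
    simp [h] at this
  refine (Polynomial.finite_setOfPred_isRoot hp0).subset fun t ht => ?_
  by_contra hr
  have hu : IsUnit (1 + t • C).det := by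
    rw [← hp]
    exact isUnit_iff_ne_zero.2 hr
  have e : A * A' * (A + t • B) * A' = (1 + t • C) * (A * A') := by
    rw [Matrix.mul_add, hA, Matrix.add_mul, Matrix.add_mul, Matrix.one_mul, Matrix.mul_smul,
      Matrix.smul_mul, Matrix.smul_mul, hC, Matrix.mul_assoc (A * A' * B) A' (A * A'),
      ← Matrix.mul_assoc A' A A', hA']
  have e1 : (A * A' * (A + t • B) * A').rank ≤ (A + t • B).rank :=
    (Matrix.rank_mul_le_left _ _).trans (Matrix.rank_mul_le_right _ _)
  rw [e, Matrix.rank_mul_eq_right_of_isUnit_det _ _ hu] at e1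
  have e2 : A.rank ≤ (A * A').rank := by
    conv_lhs => rw [← hA]
    exact Matrix.rank_mul_le_left _ _
  exact absurd ht (not_lt.2 (e2.trans e1))

/-- Induction on `s`: join a common maximizer and a maximizer of the new function by a line and
avoid finitely many parameters (`F` is infinite). -/
lemma lin_common_max {V σ : Type} [AddCommGroup V] [Module F V] (s : Finset σ) (g : σ → V → ℕ)
    (hb : ∀ i, ∃ C, ∀ x, g i x ≤ C)
    (hl : ∀ i x v, {t : F | g i (x + t • v) < g i x}.Finite) :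
    ∃ x, ∀ i ∈ s, ∀ x', g i x' ≤ g i x := by
  classical
  induction s using Finset.induction_on with
  | empty => exact ⟨0, fun i hi => absurd hi (Finset.notMem_empty i)⟩
  | insert j s _ ih =>
    obtain ⟨x, hx⟩ := ih
    obtain ⟨v, hv⟩ : ∃ v, ∀ x', g j x' ≤ g j v := by
      obtain ⟨C, hC⟩ := hb j
      have hbd : BddAbove (Set.range (g j)) := ⟨C, by rintro _ ⟨y, rfl⟩; exact hC y⟩
      obtain ⟨v, hv⟩ := Nat.sSup_mem (Set.range_nonempty (g j)) hbd
      exact ⟨v, fun x' => hv ▸ le_csSup hbd ⟨x', rfl⟩⟩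
    have f1 : (⋃ i ∈ s, {t : F | g i (x + t • (v - x)) < g i x}).Finite :=
      s.finite_toSet.biUnion fun i _ => hl i x (v - x)
    have f2 : ((fun t : F => 1 - t) ⁻¹' {t : F | g j (v + t • (x - v)) < g j v}).Finite :=
      (hl j v (x - v)).preimage sub_right_injective.injOn
    obtain ⟨t, ht⟩ := (f1.union f2).exists_notMem
    rw [Set.mem_union, not_or] at ht
    refine ⟨x + t • (v - x), fun i hi x' => ?_⟩
    rcases Finset.mem_insert.1 hi with rfl | hi
    · have e : x + t • (v - x) = v + (1 - t) • (x - v) := by module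
      rw [e]
      exact (hv x').trans (not_lt.1 ht.2)
    · exact (hx i hi x').trans (not_lt.1 fun h => ht.1 (Set.mem_biUnion hi h))

end Pool.Agent.Lib.MP_57313b_al.Zf
end

-- part Pool.Agent.Lib.MP_57313b_al.Zf.Ultra2
section

/-!
# The ultraproduct is simple, complete, and has scalar centre
-/

set_option autoImplicit false

namespace Pool.Agent.Lib.MP_57313b_al.Zf

open Filter Topology

set_option linter.unusedSectionVars false

variable {J : Type} {lv : J → ℕ} {𝒰 : Ultrafilter J}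

/-- a nonzero element has rank `> 1 / k` for some `k`; use `lin_one_eq_sum` at almost all indices -/
theorem ul_simple : IsSimpleRing (Ul lv 𝒰) := by
  classical
  have : Nontrivial (Ul lv 𝒰) := by
    refine ⟨1, 0, fun h => ?_⟩
    rw [← map_one (mk lv 𝒰), mk_eq_zero] at h
    simp only [Pi.one_apply, nr1_one] at h
    exact one_ne_zero (tendsto_nhds_unique tendsto_const_nhds h)
  refine IsSimpleRing.of_eq_bot_or_eq_top fun I => ?_
  rw [or_iff_not_imp_left, ← I.one_mem_iff]
  intro hI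
  obtain ⟨x, hx, hx0⟩ := SetLike.exists_of_lt (bot_lt_iff_ne_bot.2 hI)
  obtain ⟨x, rfl⟩ := mk_surj lv 𝒰 x
  have h1 := r1_tendsto lv 𝒰 x
  have h2 : 0 < r1 (mk lv 𝒰 x) := by
    refine lt_of_le_of_ne (ge_of_tendsto' h1 fun i => nr1_nonneg _) fun h => hx0 ?_
    rw [← h] at h1
    exact (TwoSidedIdeal.mem_bot _).2 ((mk_eq_zero lv 𝒰).2 h1)
  obtain ⟨k, hk⟩ := exists_nat_one_div_lt h2
  have h3 : ∀ i, ∃ p q : Fin (k + 1) → Mat (lv i),
      1 / ((k : ℝ) + 1) < nr1 (lv i) (x i) → ∑ s, p s * x i * q s = 1 := fun i => by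
    by_cases h : 1 / ((k : ℝ) + 1) < nr1 (lv i) (x i)
    · rw [nr1, div_lt_div_iff₀ (by positivity) (by positivity), one_mul, mul_comm] at h
      obtain ⟨p, q, hpq⟩ := lin_one_eq_sum (x := x i) (k := k + 1) (by
        rw [card_ix]
        exact_mod_cast h.le)
      exact ⟨p, q, fun _ => hpq⟩
    · exact ⟨0, 0, fun h' => (h h').elim⟩
  choose p q hpq using h3
  have h4 : mk lv 𝒰 (∑ s, (fun i => p i s) * x * fun i => q i s) = mk lv 𝒰 1 := by
    refine mk_eq_of_eventually lv 𝒰 ?_
    filter_upwards [h1.eventually (lt_mem_nhds hk)] with i hi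
    rw [Finset.sum_apply]
    exact hpq i hi
  rw [map_one, map_sum] at h4
  rw [← h4]
  refine sum_mem fun s _ => ?_
  rw [map_mul, map_mul]
  exact I.mul_mem_right _ _ (I.mul_mem_left _ _ hx)

/-- `lin_central` at every index -/
theorem ul_center (h : Tendsto lv 𝒰 atTop) {z : Ul lv 𝒰} (hz : ∀ x, z * x = x * z) :
    ∃ c : J → F, z = mk lv 𝒰 fun i => c i • (1 : Mat (lv i)) := by
  obtain ⟨z, rfl⟩ := mk_surj lv 𝒰 z
  choose c y hc using fun i => lin_central (z i)
  refine ⟨c, ?_⟩
  rw [← sub_eq_zero, ← map_sub, mk_eq_zero]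
  have h1 : mk lv 𝒰 (z * y - y * z) = 0 := by rw [map_sub, map_mul, map_mul, hz, sub_self]
  rw [mk_eq_zero] at h1
  have h2 : Tendsto (fun i => (1 / 2 : ℝ) ^ lv i) 𝒰 (𝓝 0) :=
    (tendsto_pow_atTop_nhds_zero_of_lt_one (by norm_num) (by norm_num)).comp h
  have h3 := (h1.const_mul 2).add h2
  rw [mul_zero, add_zero] at h3
  refine squeeze_zero (fun i => nr1_nonneg _) (fun i => ?_) h3
  have h4 : ((z i - c i • (1 : Mat (lv i))).rank : ℝ) ≤ 2 * (z i * y i - y i * z i).rank + 1 := by
    exact_mod_cast hc i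
  rw [nr1, nr1, one_div_pow, ← mul_div_assoc, ← add_div]
  exact div_le_div_of_nonneg_right h4 (by positivity)

/-- Diagonal argument.  With representatives `s' m`, let `k i` be the largest `k ≤ lv i` such that
`nr1 (s' m' i - s' m i) ≤ r m + 1 / (m + 1)` for all `m ≤ m' ≤ k` (`Nat.findGreatest`), and
`b i = s' (k i) i`.  For each `m`, almost all `i` have `k i ≥ m`. -/
theorem ul_cpl (h : Tendsto lv 𝒰 atTop) : Cpl (Ul lv 𝒰) := by
  classical
  intro s r hr hs
  choose t ht using fun m => mk_surj lv 𝒰 (s m)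
  let A : J → ℕ → Prop := fun i k => ∀ m' ≤ k, ∀ m ≤ m',
    nr1 (lv i) (t m' i - t m i) ≤ r m + 1 / ((m : ℝ) + 1)
  have hA : ∀ k, ∀ᶠ i in (𝒰 : Filter J), A i k := fun k => by
    refine (eventually_all_finite (Set.finite_Iic k)).2 fun m' _ =>
      (eventually_all_finite (Set.finite_Iic m')).2 fun m hm => ?_
    have h1 := r1_tendsto lv 𝒰 (t m' - t m)
    rw [map_sub, ht, ht] at h1
    refine h1.eventually (ge_mem_nhds ((hs m m' hm).trans_lt ?_))
    exact lt_add_of_pos_right _ (by positivity)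
  refine ⟨mk lv 𝒰 fun i => t (Nat.findGreatest (A i) (lv i)) i, ?_⟩
  have h2 := hr.add tendsto_one_div_add_atTop_nhds_zero_nat
  rw [add_zero] at h2
  refine squeeze_zero (fun m => RK.mr_nonneg _) (fun m => ?_) h2
  rw [← ht, ← map_sub]
  refine le_of_tendsto (r1_tendsto lv 𝒰 _) ?_
  filter_upwards [hA m, h.eventually_ge_atTop m] with i h3 h4
  exact Nat.findGreatest_spec h4 h3 _ le_rfl m (Nat.le_findGreatest h4 h3)

end Pool.Agent.Lib.MP_57313b_al.Zf
end

-- part Pool.Agent.Lib.MP_57313b_al.Zf.Blow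
section

/-!
# Blow-ups of matrix levels
-/

set_option autoImplicit false

namespace Pool.Agent.Lib.MP_57313b_al.Zf

open Filter Topology

set_option linter.unusedSectionVars false

noncomputable section

/-- the base idempotents of level `n` -/
def wm (k n : ℕ) : Mat n :=
  Matrix.diagonal fun s => if ∀ i : Fin n, (i : ℕ) < k → s i = false then 1 else 0

/-- splitting of the index set -/
def ixEquiv (n r : ℕ) : Ix r × Ix n ≃ Ix (n + r) :=
  (Equiv.prodComm _ _).trans (Fin.appendEquiv n r)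

/-- blow-up: block matrices over level `n` are matrices of level `n + r` -/
def bl (n r : ℕ) : Matrix (Ix r) (Ix r) (Mat n) ≃ₐ[F] Mat (n + r) :=
  (Matrix.compAlgEquiv (Ix r) (Ix n) F F).trans (Matrix.reindexAlgEquiv F F (ixEquiv n r))

lemma blow_apply (n r : ℕ) (M : Matrix (Ix r) (Ix r) (Mat n)) (p q : Ix r × Ix n) :
    bl n r M (ixEquiv n r p) (ixEquiv n r q) = M p.1 q.1 p.2 q.2 := by
  simp [bl, Matrix.comp]

/-- exchange of the last two factors -/
def blow_swap (a b c : Type) : (a × b) × c ≃ (a × c) × b where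
  toFun z := ((z.1.1, z.2), z.1.2)
  invFun z := ((z.1.1, z.2), z.1.2)
  left_inv _ := rfl
  right_inv _ := rfl

/-- constant diagonal block matrices -/
def blow_diag (n r : ℕ) : Mat n →ₗ[F] Matrix (Ix r) (Ix r) (Mat n) where
  toFun x := Matrix.diagonal fun _ => x
  map_add' _ _ := (Matrix.diagonal_add _ _).symm
  map_smul' c x := Matrix.diagonal_smul c fun _ : Ix r => x

lemma wm_zero (n : ℕ) : wm 0 n = 1 := by
  simp [wm]

lemma wm_mul (j k n : ℕ) : wm j n * wm k n = wm (max j k) n := by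
  rw [wm, wm, wm, Matrix.diagonal_mul_diagonal]
  congr 1
  funext s
  simp only [lt_max_iff, or_imp, forall_and]
  split_ifs with h1 h2 h3 <;> simp_all

lemma nr1_wm {k n : ℕ} (h : k ≤ n) : nr1 n (wm k n) = 1 / 2 ^ k := by
  classical
  obtain ⟨r, rfl⟩ := Nat.exists_eq_add_of_le h
  have h1 : Fintype.card {s : Ix (k + r) //
      (if ∀ i : Fin (k + r), (i : ℕ) < k → s i = false then (1 : F) else 0) ≠ 0} = 2 ^ r := by
    rw [Fintype.card_of_subtype (Fintype.piFinset fun i : Fin (k + r) =>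
      if (i : ℕ) < k then ({false} : Finset Bool) else Finset.univ), Fintype.card_piFinset]
    · have e : ∀ i : Fin (k + r),
          (if (i : ℕ) < k then ({false} : Finset Bool) else Finset.univ).card =
            if (i : ℕ) < k then 1 else 2 := fun i => by split_ifs <;> simp
      simp only [e]
      rw [Fin.prod_univ_add]
      simp
    · intro s
      rw [Fintype.mem_piFinset, ne_eq, ite_eq_right_iff, Classical.not_imp, and_iff_left one_ne_zero]
      refine forall_congr' fun i => ?_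
      split_ifs with hi <;> simp [hi]
  rw [nr1, wm, Matrix.rank_diagonal, h1, pow_add]
  push_cast
  field_simp

lemma bl_wm {k n : ℕ} (h : k ≤ n) (r : ℕ) :
    bl n r (Matrix.diagonal fun _ => wm k n) = wm k (n + r) := by
  ext s t
  obtain ⟨⟨p, x⟩, rfl⟩ := (ixEquiv n r).surjective s
  obtain ⟨⟨q, y⟩, rfl⟩ := (ixEquiv n r).surjective t
  have e : (∀ i : Fin (n + r), (i : ℕ) < k → ixEquiv n r (p, x) i = false) ↔
      ∀ i : Fin n, (i : ℕ) < k → x i = false := by
    have e1 : ∀ i : Fin n, ixEquiv n r (p, x) (Fin.castAdd r i) = x i := fun i =>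
      Fin.append_left x p i
    constructor
    · intro h1 i hi
      rw [← e1]
      exact h1 _ hi
    · intro h1 i hi
      have := e1 ⟨i, lt_of_lt_of_le hi h⟩
      exact this.trans (h1 _ hi)
  rw [blow_apply]
  simp only [wm, Matrix.diagonal_apply, EmbeddingLike.apply_eq_iff_eq, Prod.mk.injEq, e]
  by_cases hp : p = q <;> simp [hp, Matrix.diagonal_apply]

variable {a b : Type} [Fintype a] [Fintype b]

/-- the two flattenings differ by a reindexing -/
lemma nr_bl (n r : ℕ) (M : Matrix a b (Matrix (Ix r) (Ix r) (Mat n))) :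
    nr n (Matrix.comp a b (Ix r) (Ix r) (Mat n) M) = 2 ^ r * nr (n + r) (M.map (bl n r)) := by
  have e : Matrix.comp (a × Ix r) (b × Ix r) (Ix n) (Ix n) F
      (Matrix.comp a b (Ix r) (Ix r) (Mat n) M) =
      (Matrix.comp a b (Ix (n + r)) (Ix (n + r)) F (M.map (bl n r))).submatrix
        ((Equiv.prodAssoc _ _ _).trans (Equiv.prodCongr (Equiv.refl a) (ixEquiv n r)))
        ((Equiv.prodAssoc _ _ _).trans (Equiv.prodCongr (Equiv.refl b) (ixEquiv n r))) := by
    ext ⟨⟨i, p⟩, x⟩ ⟨⟨j, q⟩, y⟩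
    exact (blow_apply n r (M i j) (p, x) (q, y)).symm
  rw [nr, nr, e, Matrix.rank_submatrix, pow_add]
  field_simp

/-- `lin_rank_blockDiagonal` after a reindexing -/
lemma nr_diag (n r : ℕ) (M : Matrix a b (Mat n)) :
    nr n (Matrix.comp a b (Ix r) (Ix r) (Mat n) (M.map fun x => Matrix.diagonal fun _ => x)) =
      2 ^ r * nr n M := by
  have e : Matrix.comp (a × Ix r) (b × Ix r) (Ix n) (Ix n) F
      (Matrix.comp a b (Ix r) (Ix r) (Mat n) (M.map fun x => Matrix.diagonal fun _ => x)) =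
      (Matrix.blockDiagonal fun _ : Ix r => Matrix.comp a b (Ix n) (Ix n) F M).submatrix
        (blow_swap a (Ix r) (Ix n)) (blow_swap b (Ix r) (Ix n)) := by
    ext ⟨⟨i, p⟩, x⟩ ⟨⟨j, q⟩, y⟩
    show (Matrix.diagonal (fun _ => M i j) : Matrix (Ix r) (Ix r) (Mat n)) p q x y =
      if p = q then M i j x y else 0
    rw [Matrix.diagonal_apply]
    split_ifs <;> rfl
  rw [nr, nr, e, Matrix.rank_submatrix, lin_rank_blockDiagonal, card_ix]
  push_cast
  ring

lemma ev_map {L S S' : Type} [AddCommGroup S] [Module F S] [AddCommGroup S'] [Module F S']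
    (p : Matrix a b (L →₀ F)) (val : L → S) (f : S →ₗ[F] S') :
    (ev p val).map f = ev p (f ∘ val) := by
  ext i j
  exact Finsupp.apply_linearCombination F f val (p i j)

/-- only the base letters up to some `m` occur in a pencil -/
lemma ev_supp {L : Type} (p : Matrix a b (ℕ ⊕ L →₀ F)) : ∃ m : ℕ, ∀ (S : Type) [AddCommGroup S]
    [Module F S] (u u' : ℕ → S) (X : L → S), (∀ k ≤ m, u k = u' k) →
      ev p (Sum.elim u X) = ev p (Sum.elim u' X) := by
  classical
  let s : Finset (ℕ ⊕ L) := Finset.univ.biUnion fun i => Finset.univ.biUnion fun j => (p i j).support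
  refine ⟨s.sup (Sum.elim id fun _ => 0), fun S _ _ u u' X h => ?_⟩
  ext i j
  show Finsupp.linearCombination F _ (p i j) = Finsupp.linearCombination F _ (p i j)
  rw [Finsupp.linearCombination_apply, Finsupp.linearCombination_apply]
  refine Finsupp.sum_congr fun x hx => ?_
  cases x with
  | inr l => rfl
  | inl k =>
    have hk : Sum.inl k ∈ s := Finset.mem_biUnion.2 ⟨i, Finset.mem_univ _,
      Finset.mem_biUnion.2 ⟨j, Finset.mem_univ _, hx⟩⟩
    have := Finset.le_sup (f := Sum.elim id fun _ : L => 0) hk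
    rw [Sum.elim_inl, Sum.elim_inl, h k this]

/-- blow-up of a point of a pencil -/
lemma nr_ev_bl {L : Type} (p : Matrix a b (ℕ ⊕ L →₀ F)) : ∃ m : ℕ, ∀ n, m ≤ n → ∀ (r : ℕ)
    (X : L → Matrix (Ix r) (Ix r) (Mat n)),
    nr n (Matrix.comp a b (Ix r) (Ix r) (Mat n)
        (ev p (Sum.elim (fun k => Matrix.diagonal fun _ => wm k n) X))) =
      2 ^ r * nr (n + r) (ev p (Sum.elim (fun k => wm k (n + r)) fun l => bl n r (X l))) := by
  obtain ⟨m, hm⟩ := ev_supp p
  refine ⟨m, fun n hn r X => ?_⟩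
  have e := ev_map p (Sum.elim (fun k => Matrix.diagonal fun _ => wm k n) X)
    (bl n r).toLinearMap
  have e' : ((bl n r).toLinearMap ∘ Sum.elim (fun k => Matrix.diagonal fun _ => wm k n) X) =
      Sum.elim (fun k => bl n r (Matrix.diagonal fun _ => wm k n)) fun l => bl n r (X l) := by
    funext x
    cases x <;> rfl
  rw [e', hm _ _ (fun k => wm k (n + r)) _ fun k hk => bl_wm (hk.trans hn) r] at e
  rw [nr_bl, ← e]
  rfl

/-- a diagonal blow-up keeps the normalized rank -/
lemma nr_ev_diag {L : Type} (p : Matrix a b (ℕ ⊕ L →₀ F)) : ∃ m : ℕ, ∀ n, m ≤ n → ∀ (r : ℕ)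
    (X : L → Mat n),
    nr (n + r) (ev p (Sum.elim (fun k => wm k (n + r))
        fun l => bl n r (Matrix.diagonal fun _ => X l))) =
      nr n (ev p (Sum.elim (fun k => wm k n) X)) := by
  obtain ⟨m, hm⟩ := nr_ev_bl p
  refine ⟨m, fun n hn r X => ?_⟩
  have h := hm n hn r fun l => Matrix.diagonal fun _ => X l
  have e := ev_map p (Sum.elim (fun k => wm k n) X) (blow_diag n r)
  have e' : (blow_diag n r ∘ Sum.elim (fun k => wm k n) X) =
      Sum.elim (fun k => Matrix.diagonal fun _ => wm k n)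
        fun l => Matrix.diagonal fun _ => X l := by
    funext x
    cases x <;> rfl
  rw [e'] at e
  rw [← e] at h
  have h2 := (nr_diag n r (ev p (Sum.elim (fun k => wm k n) X))).symm.trans h
  exact (mul_left_cancel₀ (by positivity) h2).symm

/-- the rank of a pencil along a line (`lin_line`) -/
lemma ev_line {L : Type} (p : Matrix a b (ℕ ⊕ L →₀ F)) (n : ℕ) (X V : L → Mat n) :
    {t : F | (Matrix.comp a b (Ix n) (Ix n) F
        (ev p (Sum.elim (fun k => wm k n) (X + t • V)))).rank <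
      (Matrix.comp a b (Ix n) (Ix n) F (ev p (Sum.elim (fun k => wm k n) X))).rank}.Finite := by
  have e : ∀ t : F, Matrix.comp a b (Ix n) (Ix n) F
      (ev p (Sum.elim (fun k => wm k n) (X + t • V))) =
      Matrix.comp a b (Ix n) (Ix n) F (ev p (Sum.elim (fun k => wm k n) X)) +
        t • Matrix.comp a b (Ix n) (Ix n) F (ev p (Sum.elim (fun _ => 0) V)) := fun t => by
    ext ⟨i, x⟩ ⟨j, y⟩
    have : Finsupp.linearCombination F (Sum.elim (fun k => wm k n) (X + t • V)) (p i j) =
        Finsupp.linearCombination F (Sum.elim (fun k => wm k n) X) (p i j) +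
          t • Finsupp.linearCombination F (Sum.elim (fun _ => 0) V) (p i j) := by
      simp only [Finsupp.linearCombination_apply, Finsupp.sum, Finset.smul_sum,
        ← Finset.sum_add_distrib]
      refine Finset.sum_congr rfl fun z _ => ?_
      cases z with
      | inl k => simp
      | inr l => simp [smul_comm t]
    exact congrFun (congrFun this x) y
  simp only [e]
  exact lin_line _ _

end

end Pool.Agent.Lib.MP_57313b_al.Zf
end

-- part Pool.Agent.Lib.MP_57313b_al.Zf.Ultra3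
section

/-!
# The base ring with its letters
-/

set_option autoImplicit false

namespace Pool.Agent.Lib.MP_57313b_al.Zf

open Filter Topology

set_option linter.unusedSectionVars false

noncomputable section

variable {J : Type} (lv : J → ℕ) (𝒰 : Ultrafilter J)

/-- the base idempotents in the ultraproduct -/
def uw (k : ℕ) : Ul lv 𝒰 := mk lv 𝒰 fun i => wm k (lv i)

variable {lv 𝒰}

lemma uw_zero : uw lv 𝒰 0 = 1 := by
  rw [← map_one (mk lv 𝒰)]
  exact congrArg (mk lv 𝒰) (funext fun i => wm_zero _)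

lemma uw_mul (j k : ℕ) : uw lv 𝒰 j * uw lv 𝒰 k = uw lv 𝒰 (max j k) := by
  rw [uw, uw, ← map_mul]
  exact congrArg (mk lv 𝒰) (funext fun i => wm_mul _ _ _)

lemma r1_uw (h : Tendsto lv 𝒰 atTop) (k : ℕ) : r1 (uw lv 𝒰 k) = 1 / 2 ^ k := by
  refine tendsto_nhds_unique (r1_tendsto lv 𝒰 fun i => wm k (lv i)) ?_
  refine tendsto_const_nhds.congr' ?_
  filter_upwards [h.eventually_ge_atTop k] with i hi
  exact (nr1_wm hi).symm

section aux
variable {a b L : Type} [Fintype a] [Fintype b]

/-- the rank of a pencil in the ultraproduct is the limit of the ranks at the levels -/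
lemma u3_ev (p : Matrix a b (ℕ ⊕ L →₀ F)) (y : L → Pr lv) :
    Tendsto (fun i => nr (lv i) (ev p (Sum.elim (fun k => wm k (lv i)) fun l => y l i))) 𝒰
      (𝓝 (mr (ev p (Sum.elim (uw lv 𝒰) fun l => mk lv 𝒰 (y l))))) := by
  have h := mr_tendsto lv 𝒰 (ev p (Sum.elim (fun k (i : J) => wm k (lv i)) y))
  have h1 := ev_map p (Sum.elim (fun k (i : J) => wm k (lv i)) y) (mk lv 𝒰).toLinearMap
  have h2 := fun i => ev_map p (Sum.elim (fun k (i : J) => wm k (lv i)) y)
    (LinearMap.proj (R := F) (φ := fun i : J => Mat (lv i)) i)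
  rw [Sum.comp_elim] at h1
  simp only [Sum.comp_elim] at h2
  refine (congrArg (fun M => 𝓝 (mr M)) h1).symm ▸ h.congr fun i => congrArg (nr (lv i)) (h2 i)

lemma u3_comp {S S' : Type} [Ring S] [Algebra F S] [Ring S'] [Algebra F S'] {r : ℕ}
    (p : Matrix a b (ℕ ⊕ L →₀ F)) (w : ℕ → S) (X : L → Matrix (Ix r) (Ix r) S) (f : S →ₗ[F] S') :
    (Matrix.comp a b (Ix r) (Ix r) S
      (ev p (Sum.elim (fun k => Matrix.diagonal fun _ => w k) X))).map f =
    Matrix.comp a b (Ix r) (Ix r) S'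
      (ev p (Sum.elim (fun k => Matrix.diagonal fun _ => f (w k)) fun l => (X l).map f)) := by
  have h1 := ev_map p (Sum.elim (fun k => Matrix.diagonal fun _ : Ix r => w k) X)
    (f.mapMatrix : Matrix (Ix r) (Ix r) S →ₗ[F] Matrix (Ix r) (Ix r) S')
  have h2 : (f.mapMatrix : Matrix (Ix r) (Ix r) S →ₗ[F] Matrix (Ix r) (Ix r) S') ∘
      Sum.elim (fun k => Matrix.diagonal fun _ : Ix r => w k) X =
      Sum.elim (fun k => Matrix.diagonal fun _ => f (w k)) fun l => (X l).map f := by
    funext x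
    rcases x with k | l
    · exact Matrix.diagonal_map (map_zero f)
    · rfl
  rw [← h2, ← h1]
  rfl

/-- every value of the normalized rank is taken again at all higher levels -/
lemma u3_up (p : Matrix a b (ℕ ⊕ L →₀ F)) : ∃ m : ℕ, ∀ n n', m ≤ n → n ≤ n' →
    ∀ X : L → Mat n, ∃ X' : L → Mat n',
      nr n' (ev p (Sum.elim (fun k => wm k n') X')) = nr n (ev p (Sum.elim (fun k => wm k n) X)) := by
  obtain ⟨m, hm⟩ := nr_ev_diag p
  refine ⟨m, fun n n' h1 h2 X => ?_⟩
  obtain ⟨r, rfl⟩ := Nat.exists_eq_add_of_le h2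
  exact ⟨_, hm n h1 r X⟩

/-- at scalar points the normalized rank does not depend on the level -/
lemma u3_sc (p : Matrix a b (ℕ ⊕ L →₀ F)) : ∃ m : ℕ, ∀ n, m ≤ n → ∀ c : L → F,
    nr n (ev p (Sum.elim (fun k => wm k n) fun l => c l • (1 : Mat n))) =
      nr m (ev p (Sum.elim (fun k => wm k m) fun l => c l • (1 : Mat m))) := by
  obtain ⟨m, hm⟩ := nr_ev_diag p
  refine ⟨m, fun n h1 c => ?_⟩
  obtain ⟨r, rfl⟩ := Nat.exists_eq_add_of_le h1
  rw [← hm m le_rfl r]
  congr 3
  funext l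
  have h2 : (Matrix.diagonal fun _ : Ix r => c l • (1 : Mat m)) =
      c l • (1 : Matrix (Ix r) (Ix r) (Mat m)) := by
    rw [← Matrix.diagonal_one (n := Ix r), ← Matrix.diagonal_smul]
    rfl
  rw [h2, map_smul, map_one]

lemma u3_ctr (h : Tendsto lv 𝒰 atTop) (p : Matrix a b (ℕ ⊕ L →₀ F)) (c : L → J → F) :
    Tendsto (fun i => mr (ev p (Sum.elim (uw lv 𝒰) fun l => algebraMap F (Ul lv 𝒰) (c l i)))) 𝒰
      (𝓝 (mr (ev p (Sum.elim (uw lv 𝒰) fun l => mk lv 𝒰 fun i => c l i • (1 : Mat (lv i)))))) := by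
  obtain ⟨m, hm⟩ := u3_sc p
  have h1 : ∀ d : L → F, mr (ev p (Sum.elim (uw lv 𝒰) fun l => algebraMap F (Ul lv 𝒰) (d l))) =
      nr m (ev p (Sum.elim (fun k => wm k m) fun l => d l • (1 : Mat m))) := fun d => by
    have h2 : (fun l => algebraMap F (Ul lv 𝒰) (d l)) =
        fun l => mk lv 𝒰 fun i => d l • (1 : Mat (lv i)) := funext fun l => by
      rw [← (mk lv 𝒰).commutes, Algebra.algebraMap_eq_smul_one]
      rfl
    rw [h2]
    refine tendsto_nhds_unique (u3_ev p fun l i => d l • (1 : Mat (lv i))) ?_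
    refine tendsto_const_nhds.congr' ?_
    filter_upwards [h.eventually_ge_atTop m] with i hi
    exact (hm _ hi d).symm
  refine (u3_ev p fun l i => c l i • (1 : Mat (lv i))).congr' ?_
  filter_upwards [h.eventually_ge_atTop m] with i hi
  rw [h1]
  exact hm _ hi fun l => c l i

end aux

/-- Let `μ n` be the largest normalized rank of `p` at points of level `n`.  By `nr_ev_diag` it is
monotone for `n ≥ m`, and it is bounded, so it converges to some `μ'`; by `hy` the right side is
`2 ^ r * μ'`.  By `nr_ev_bl` the left side is a limit of numbers `≤ 2 ^ r * μ (lv i + r)`. -/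
theorem ul_min (h : Tendsto lv 𝒰 atTop) {A : Type} (y : A → Pr lv)
    (hy : ∀ (a b : Type) [Fintype a] [Fintype b] (p : Matrix a b (ℕ ⊕ A →₀ F)),
      ∀ᶠ i in (𝒰 : Filter J), ∀ X : A → Mat (lv i),
        nr (lv i) (ev p (Sum.elim (fun k => wm k (lv i)) X)) ≤
          nr (lv i) (ev p (Sum.elim (fun k => wm k (lv i)) fun l => y l i))) :
    MIN (uw lv 𝒰) fun l => mk lv 𝒰 (y l) := by
  intro a b _ _ p r X
  obtain ⟨m, hm⟩ := u3_up p
  obtain ⟨m', hm'⟩ := nr_ev_bl p
  have h1 : ∀ n, m ≤ n → ∀ X : A → Mat n, nr n (ev p (Sum.elim (fun k => wm k n) X)) ≤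
      mr (ev p (Sum.elim (uw lv 𝒰) fun l => mk lv 𝒰 (y l))) := fun n hn X => by
    refine ge_of_tendsto (u3_ev p y) ?_
    filter_upwards [h.eventually_ge_atTop n, hy a b p] with i h2 h3
    obtain ⟨X', h4⟩ := hm n _ hn h2 X
    exact h4 ▸ h3 X'
  have h2 := mr_tendsto lv 𝒰 (Matrix.comp a b (Ix r) (Ix r) (Pr lv)
    (ev p (Sum.elim (fun k => Matrix.diagonal fun _ i => wm k (lv i))
      fun l => (X l).map (rep lv 𝒰))))
  have h3 := u3_comp p (fun k (i : J) => wm k (lv i)) (fun l => (X l).map (rep lv 𝒰))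
    (mk lv 𝒰).toLinearMap
  have h4 : (fun l => ((X l).map (rep lv 𝒰)).map (mk lv 𝒰).toLinearMap) = X := by
    funext l
    ext s t
    exact mk_rep lv 𝒰 _
  rw [h4] at h3
  refine le_of_tendsto ((congrArg (fun M => 𝓝 (mr M)) h3) ▸ h2) ?_
  filter_upwards [h.eventually_ge_atTop m, h.eventually_ge_atTop m'] with i h5 h6
  have h7 := u3_comp p (fun k (i : J) => wm k (lv i)) (fun l => (X l).map (rep lv 𝒰))
    (LinearMap.proj (R := F) (φ := fun i : J => Mat (lv i)) i)
  refine (congrArg (nr (lv i)) h7).trans_le ((hm' _ h6 r _).trans_le ?_)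
  exact mul_le_mul_of_nonneg_left (h1 _ (h5.trans (Nat.le_add_right _ _)) _) (by positivity)

/-- Write `c k = mk (fun i => l i k • 1)` (`ul_center`).  For fixed `l : κ → F` the normalized rank
of `p` at the scalars `l` does not depend on the level `n ≥ m` (`nr_ev_diag`), so it equals the rank
in the ultraproduct.  Hence `mr (p (w, l i))` tends to `mr (p (w, c))` along `𝒰`. -/
theorem ul_ctr (h : Tendsto lv 𝒰 atTop) : CTR (uw lv 𝒰) := by
  intro κ a b a' b' _ _ _ _ p p' c hc ε hε
  choose l hl using fun k => ul_center h (hc k)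
  obtain rfl : c = fun k => mk lv 𝒰 fun i => l k i • (1 : Mat (lv i)) := funext hl
  obtain ⟨i, h1, h2⟩ := ((Metric.tendsto_nhds.1 (u3_ctr h p l) ε hε).and
    (Metric.tendsto_nhds.1 (u3_ctr h p' l) ε hε)).exists
  exact ⟨fun k => l k i, h1.le, h2.le⟩

/-- pencils of a fixed shape type -/
def Pen (A : Type) : Type := Σ a b : ℕ, Matrix (Fin a) (Fin b) (ℕ ⊕ A →₀ F)

/-- `J = ℕ × Finset (Pen A)`, `𝒰 = Ultrafilter.of atTop`, `lv = Prod.fst`; at the index `(n, T)`
take a common maximizer for the pencils in `T` (`lin_common_max`, `ev_line`).  Reindex a general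
pencil to `Fin a`, `Fin b` with `nr_submatrix`. -/
theorem exists_raw (A : Type) : ∃ (Ω : Type) (_ : Ring Ω) (_ : Algebra F Ω) (_ : RK Ω) (w : ℕ → Ω)
    (y : A → Ω), IsSimpleRing Ω ∧ Cpl Ω ∧ w 0 = 1 ∧ (∀ j k, w j * w k = w (max j k)) ∧
      (∀ n, r1 (w n) = 1 / 2 ^ n) ∧ MIN w y ∧ CTR w := by
  classical
  have hm : ∀ i : ℕ × Finset (Pen A), ∃ Y : A → Mat i.1, ∀ p ∈ i.2, ∀ X : A → Mat i.1,
      (Matrix.comp _ _ (Ix i.1) (Ix i.1) F (ev p.2.2 (Sum.elim (fun k => wm k i.1) X))).rank ≤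
      (Matrix.comp _ _ (Ix i.1) (Ix i.1) F (ev p.2.2 (Sum.elim (fun k => wm k i.1) Y))).rank :=
    fun i => lin_common_max i.2 (fun (p : Pen A) (X : A → Mat i.1) =>
      (Matrix.comp _ _ (Ix i.1) (Ix i.1) F (ev p.2.2 (Sum.elim (fun k => wm k i.1) X))).rank)
      (fun p => ⟨_, fun X => Matrix.rank_le_card_width _⟩) fun p X V => ev_line p.2.2 i.1 X V
  choose Y hY using hm
  let 𝒰 : Ultrafilter (ℕ × Finset (Pen A)) := Ultrafilter.of atTop
  have hU : ∀ j : ℕ × Finset (Pen A), ∀ᶠ i in (𝒰 : Filter _), j ≤ i := fun j =>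
    Ultrafilter.of_le _ (eventually_ge_atTop j)
  have h : Tendsto (Prod.fst : ℕ × Finset (Pen A) → ℕ) 𝒰 atTop :=
    tendsto_atTop.2 fun n => (hU (n, ∅)).mono fun i hi => hi.1
  refine ⟨Ul Prod.fst 𝒰, inferInstance, inferInstance, inferInstance, uw Prod.fst 𝒰,
    fun l => mk Prod.fst 𝒰 fun i => Y i l, ul_simple, ul_cpl h, uw_zero, uw_mul, r1_uw h,
    ul_min h (fun l i => Y i l) fun a b _ _ p => ?_, ul_ctr h⟩
  let p' : Pen A := ⟨_, _, p.submatrix (Fintype.equivFin a).symm (Fintype.equivFin b).symm⟩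
  filter_upwards [hU (0, {p'})] with i hi X
  have h1 := hY i p' (Finset.singleton_subset_iff.1 hi.2) X
  rw [← nr_submatrix _ (Fintype.equivFin a).symm (Fintype.equivFin b).symm,
    ← nr_submatrix (ev p (Sum.elim _ fun l => Y i l)) (Fintype.equivFin a).symm
      (Fintype.equivFin b).symm]
  exact div_le_div_of_nonneg_right (Nat.cast_le.2 h1) (by positivity)

end

end Pool.Agent.Lib.MP_57313b_al.Zf
end
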