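import Pool.Agent.Lib.MP_57313b_al.Zf.Ultra1
import Pool.Agent.Lib.MP_57313b_al.Zf.Smc
import Pool.Agent.Lib.MP_57313b_al.Zf.Red
import Pool.Agent.Lib.MP_57313b_al.Zf.SysEx
import Pool.Agent.Lib.MP_57313b_al.Zf.Jg3
import Pool.Agent.Lib.MP_57313b_al.Zf.Ultra3

-- part Pool.Agent.Lib.MP_57313b_al.Zf.Glob1
section

/-!
# Global genericity, closed and full sets
-/

set_option autoImplicit false

namespace Pool.Agent.Lib.MP_57313b_al.Zf

open Filter Topology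

set_option linter.unusedSectionVars false

variable {Ω : Type} [Ring Ω] [Algebra F Ω] [RK Ω] {w : ℕ → En Ω}
variable {ι : Type} [LinearOrder ι] [WellFoundedLT ι] (S : Sys w ι)

namespace Sys

lemma cl_Iio (η : ι) : S.Cl (Set.Iio η) := by
  exact fun ζ hζ x hx => lt_trans (S.dep_lt ζ hx) hζ

lemma cl_univ : S.Cl Set.univ := by
  exact fun _ _ => Set.subset_univ _

variable {S}

lemma Cl.union {X Y : Set ι} (h : S.Cl X) (h' : S.Cl Y) : S.Cl (X ∪ Y) := by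
  rintro η (hη | hη)
  · exact (h η hη).trans Set.subset_union_left
  · exact (h' η hη).trans Set.subset_union_right

lemma Cl.inter {X Y : Set ι} (h : S.Cl X) (h' : S.Cl Y) : S.Cl (X ∩ Y) := by
  exact fun η hη => Set.subset_inter (h η hη.1) (h' η hη.2)

lemma Cl.insert_free {X : Set ι} (h : S.Cl X) {x : ι} (hx : x < S.η₀) : S.Cl (insert x X) := by
  rintro η (rfl | hη)
  · rw [(S.free _ hx).2.2]
    exact Set.empty_subset _
  · exact (h η hη).trans (Set.subset_insert _ _)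

/-- `exists_closure` -/
lemma exists_cl {D : Set ι} (hD : D.Countable) : ∃ X, D ⊆ X ∧ X.Countable ∧ S.Cl X := by
  obtain ⟨X, h1, h2, h3⟩ := exists_closure (fun s => ⋃ η ∈ s, S.dep η)
    (fun s hs => hs.countable.biUnion fun η _ => S.dep_cnt η) D hD
  refine ⟨X, h1, h2, fun η hη => ?_⟩
  simpa using h3 {η} (Set.singleton_subset_iff.2 hη) (Set.finite_singleton η)

lemma exists_fresh {X : Set ι} (hX : X.Countable) : ∃ x, x < S.η₀ ∧ x ∉ X := by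
  by_contra h
  push Not at h
  exact S.unc (hX.mono fun x hx => h x hx)

lemma full_of_Iio {X : Set ι} (h : Set.Iio S.η₀ ⊆ X) : S.Full X := by
  intro s _ hs
  obtain ⟨Y, h1, h2, h3⟩ := exists_cl (S := S) hs.countable
  obtain ⟨x, h4, h5⟩ := exists_fresh (S := S) h2
  exact ⟨Y, h3, h1, x, h h4, h4, h5⟩

/-- if `ζ ≤ η₀` the new indices are free, so `Y ∪ (s \ X)` is closed -/
lemma Full.union_Iio {X : Set ι} (h : S.Full X) (ζ : ι) : S.Full (X ∪ Set.Iio ζ) := by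
  rcases le_or_gt S.η₀ ζ with h0 | h0
  · exact full_of_Iio fun x hx => Or.inr (lt_of_lt_of_le hx h0)
  intro s h1 h2
  obtain ⟨Y, h3, h4, x, h5, h6, h7⟩ := h (s ∩ X) Set.inter_subset_right (h2.inter_of_left X)
  refine ⟨Y ∪ s \ X, ?_, fun y hy => ?_, x, Or.inl h5, h6, ?_⟩
  · rintro η (hη | hη)
    · exact (h3 η hη).trans Set.subset_union_left
    · rw [(S.free η (lt_trans ((h1 hη.1).resolve_left hη.2) h0)).2.2]
      exact Set.empty_subset _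
  · by_cases hy' : y ∈ X
    · exact Or.inl (h4 ⟨hy, hy'⟩)
    · exact Or.inr ⟨hy, hy'⟩
  · rintro (h8 | h8)
    · exact h7 h8
    · exact h8.2 h5

/-- `chain_ind` from `Iio η` along `X` with `Gen.exchange` and `Gen.of_fin`; at a step `ζ > η`,
`insert η (Iio η ∪ X ∩ Iio ζ) ⊆ Iio ζ` and `dep ζ ⊆ X ∩ Iio ζ` -/
theorem gen_cl {X : Set ι} (hX : S.Cl X) {η : ι} (hη : η ∉ X) :
    Gen (S.b η) (S.P η) (S.Q η) (S.G X) := by
  have key := chain_ind (fun Y => Gen (S.b η) (S.P η) (S.Q η) (S.G Y)) (Set.Iio η) X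
    (fun Y hY => Gen.of_fin fun s h1 h2 => by
      obtain ⟨Y', h3, -, h4⟩ := hY s h1 h2
      exact h4.mono (gs_mono _ _ h3)) (S.gen η) fun ζ hζ hζ' ih => by
    have h1 : η < ζ := lt_of_le_of_ne (not_lt.1 hζ') fun h => hη (h ▸ hζ)
    have hd : S.dep ζ ⊆ Set.Iio η ∪ X ∩ Set.Iio ζ := fun x hx =>
      Or.inr ⟨hX ζ hζ hx, S.dep_lt ζ hx⟩
    change Gen _ _ _ (GS w S.b _)
    rw [gs_insert]
    refine ih.exchange (S.fP η) (S.fQ η) ((S.gen ζ).mono ?_) (S.fP ζ) (S.fQ ζ)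
      (fun n => (S.dP ζ n).mono (gs_mono _ _ hd)) fun n => (S.dQ ζ n).mono (gs_mono _ _ hd)
    refine Set.insert_subset (gs_mem _ _ h1) (gs_mono _ _ ?_)
    rintro x (hx | hx)
    · exact lt_trans hx h1
    · exact hx.2
  exact key.mono (gs_mono _ _ Set.subset_union_right)

theorem gl {X : Set ι} (hX : S.Cl X) {η : ι} (hη : η ∉ X) (hd : S.dep η ⊆ X) :
    Gl (S.G X) (S.b η) (S.P η) (S.Q η) := by
  exact ⟨S.fP η, S.fQ η, fun n => (S.dP η n).mono (gs_mono _ _ hd),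
    fun n => (S.dQ η n).mono (gs_mono _ _ hd), gen_cl hX hη⟩

theorem free_cl {X : Set ι} (hX : S.Cl X) {x : ι} (hx : x < S.η₀) (hx' : x ∉ X) :
    Free (S.b x) (S.G X) := by
  have h := gen_cl hX hx'
  rwa [(S.free x hx).1, (S.free x hx).2.1] at h

/-- `chain_ind` from `∅` along `univ` with `DY.ins` -/
theorem dy (hw : BW w) (X : Set ι) : DY (S.G X) := by
  have key := chain_ind (fun Y => DY (S.G Y)) ∅ Set.univ (fun Y hY E _ _ _ K hK => by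
      obtain ⟨s, h1, h2, h3⟩ := hK.supp_gs
      obtain ⟨Y', h4, -, h5⟩ := hY s h1 h2
      exact h5 E K (h3.mono (gs_mono _ _ h4)))
    (by
      change DY (GS w S.b ∅)
      rw [gs_empty]
      exact hw.dy) fun ζ _ _ ih => by
    rw [Set.empty_union, Set.univ_inter] at ih ⊢
    change DY (GS w S.b _)
    rw [gs_insert]
    exact DY.ins (gl (S.cl_Iio ζ) (lt_irrefl ζ) (S.dep_lt ζ)) ih
  exact key.mono (gs_mono _ _ (by simp))

theorem Full.good (hw : BW w) {X : Set ι} (h : S.Full X) : Good w (S.G X) := by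
  refine ⟨gs_base _ _ _, fun T h1 h2 => ?_, dy hw X⟩
  obtain ⟨s, h3, h4, h5⟩ := (Set.exists_subset_image_finite_and (f := S.b) (s := X)
    (p := fun U => T \ Set.range w ⊆ U)).1
      ⟨_, fun x hx => (h1 hx.1).resolve_left hx.2, h2.subset Set.sdiff_subset, subset_rfl⟩
  obtain ⟨Y, h6, h7, x, h8, h9, h10⟩ := h s h3 h4
  refine ⟨S.b x, gs_mem _ _ h8, (free_cl h6 h9 h10).mono fun g hg => ?_⟩
  by_cases hg' : g ∈ Set.range w
  · exact Or.inl hg'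
  · exact Or.inr (Set.image_mono h7 (h5 ⟨hg, hg'⟩))

theorem Full.cm (hw : BW w) {X : Set ι} (h : S.Full X) : CM (S.G X) := (h.good hw).cm hw

/-- Closure under requests: `exists_closure` for
`Φ s = Y s ∪ {x s} ∪ ⋃ {wit t | ov t s}` with `Y s` countable closed containing `s` and `x s` a fresh
free index. -/
theorem exists_full {T : Type} (ov : T → Set ι → Prop)
    (hf : ∀ t X, ov t X → ∃ s ⊆ X, s.Finite ∧ ov t s)
    (hc : ∀ s : Set ι, s.Finite → {t | ov t s}.Countable) (wit : T → Set ι)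
    (hw : ∀ t, (wit t).Countable) {D : Set ι} (hD : D.Countable) :
    ∃ X, D ⊆ X ∧ X.Countable ∧ S.Cl X ∧ S.Full X ∧ ∀ t, ov t X → wit t ⊆ X := by
  have h1 : ∀ s : Set ι, ∃ (Y : Set ι) (x : ι), s.Finite →
      s ⊆ Y ∧ Y.Countable ∧ S.Cl Y ∧ x < S.η₀ ∧ x ∉ Y := fun s => by
    by_cases hs : s.Finite
    · obtain ⟨Y, h1, h2, h3⟩ := exists_cl (S := S) hs.countable
      obtain ⟨x, h4, h5⟩ := exists_fresh (S := S) h2
      exact ⟨Y, x, fun _ => ⟨h1, h2, h3, h4, h5⟩⟩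
    · exact ⟨∅, S.η₀, fun h => absurd h hs⟩
  choose Y x h1 using h1
  obtain ⟨X, x1, x2, x3⟩ := exists_closure
    (fun s => insert (x s) (Y s) ∪ ⋃ t ∈ {t | ov t s}, wit t)
    (fun s hs => ((h1 s hs).2.1.insert _).union ((hc s hs).biUnion fun t _ => hw t)) D hD
  refine ⟨X, x1, x2, fun η hη y hy => ?_, fun s h2 h3 => ?_, fun t ht y hy => ?_⟩
  · have h4 := h1 {η} (Set.finite_singleton η)
    exact x3 {η} (Set.singleton_subset_iff.2 hη) (Set.finite_singleton η)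
      (Or.inl (Or.inr (h4.2.2.1 η (h4.1 rfl) hy)))
  · have h4 := h1 s h3
    exact ⟨Y s, h4.2.2.1, h4.1, x s, x3 s h2 h3 (Or.inl (Or.inl rfl)), h4.2.2.2⟩
  · obtain ⟨s, h2, h3, h4⟩ := hf t X ht
    exact x3 s h2 h3 (Or.inr (Set.mem_biUnion h4 hy))

/-- the largest submodule definable over a closed set: `chain_ind` from `X` along `univ` with
`exists_largest` -/
theorem largest {X : Set ι} (hX : S.Cl X) {K : Sub Ω} (hK : Df (S.G Set.univ) K) :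
    ∃ K₀ : Sub Ω, Df (S.G X) K₀ ∧ K₀ ≤ K ∧ ∀ Y, Df (S.G X) Y → Y ≤ K → Y ≤ K₀ := by
  have key := chain_ind (fun Y => ∀ K : Sub Ω, Df (S.G Y) K →
      ∃ K₀ : Sub Ω, Df (S.G X) K₀ ∧ K₀ ≤ K ∧ ∀ Y, Df (S.G X) Y → Y ≤ K → Y ≤ K₀) X Set.univ
    (fun Y hY K hK => by
      obtain ⟨s, h1, h2, h3⟩ := hK.supp_gs
      obtain ⟨Y', h4, -, h5⟩ := hY s h1 h2
      exact h5 K (h3.mono (gs_mono _ _ h4)))
    (fun K hK => ⟨K, hK, le_rfl, fun _ _ h => h⟩) fun ζ _ hζ ih K hK => by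
    rw [Set.univ_inter] at ih hK
    change Df (GS w S.b _) K at hK
    rw [gs_insert] at hK
    obtain ⟨K₁, h1, h2, h3⟩ := exists_largest (gl (hX.union (S.cl_Iio ζ))
      (fun h => h.elim hζ (lt_irrefl ζ)) fun x hx => Or.inr (S.dep_lt ζ hx)) hK
    obtain ⟨K₀, h4, h5, h6⟩ := ih K₁ h1
    exact ⟨K₀, h4, h5.trans h2, fun Y hY h =>
      h6 Y hY (h3 Y (hY.mono (gs_mono _ _ Set.subset_union_left)) h)⟩
  exact key K (by rwa [Set.union_univ])

end Sys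

end Pool.Agent.Lib.MP_57313b_al.Zf
end

-- part Pool.Agent.Lib.MP_57313b_al.Zf.Glob2
section

/-!
# The hypotheses of a stage go up
-/

set_option autoImplicit false

namespace Pool.Agent.Lib.MP_57313b_al.Zf

open Filter Topology

set_option linter.unusedSectionVars false

variable {Ω : Type} [Ring Ω] [Algebra F Ω] [RK Ω] {w : ℕ → En Ω}
variable {ι : Type} [LinearOrder ι] [WellFoundedLT ι] {S : Sys w ι}

lemma MgL.mono {G G' : Set (En Ω)} {P Q : ℕ → Sub Ω} (h : MgL G' P Q) (hG : G ⊆ G') :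
    MgL G P Q := ⟨h.eq, h.ex.mono hG⟩

lemma Sm.mono {G G' : Set (En Ω)} {Q : ℕ → Sub Ω} (h : Sm G' Q) (hG : G ⊆ G') : Sm G Q := by
  intro ρ _ Z hZ
  exact h ρ Z (hZ.mono hG)

namespace Sys

/-- finite character of `Sm` and `NS` together -/
lemma smns_lim {Q : ℕ → Sub Ω} {X : Set ι}
    (h : ∀ s ⊆ X, s.Finite → ∃ X', s ⊆ X' ∧ X' ⊆ X ∧
      (Sm (S.G X') Q ∧ NS (S.G X') (Set.range Q))) :
    Sm (S.G X) Q ∧ NS (S.G X) (Set.range Q) := by
  constructor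
  · intro ρ _ Z hZ
    obtain ⟨s, h1, h2, h3⟩ := hZ.supp_gs
    obtain ⟨X', h4, -, h6, -⟩ := h s h1 h2
    exact h6 ρ Z (h3.mono (gs_mono _ _ h4))
  · intro f hf hn he
    obtain ⟨s, h1, h2, h3⟩ := Df.supp_gs hf
    obtain ⟨X', h4, h5, -, h6⟩ := h s h1 h2
    exact h6 f (Df.mono h3 (gs_mono _ _ h4)) hn (he.mono (gs_mono _ _ h5))

/-- a step below `η`, from the hypotheses of stage `η` -/
lemma step_below (hw : BW w) {η : ι} (hC : S.CC η) {X : Set ι} (hX : S.Cl X) (hF : S.Full X)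
    (hle : X ⊆ Set.Iio η) (hd : S.dep η ⊆ X) : Step (S.G X) (S.b η) (S.P η) (S.Q η) := by
  refine ⟨gl hX (fun h => lt_irrefl η (hle h)) hd, hF.cm hw, ?_⟩
  rcases S.ok η with h | h
  · exact Or.inl (h.1.mono (gs_mono _ _ hle))
  · exact Or.inr (hC h X hX hF hle hd)

/-- the sets met in the chain from `Iio ζ` along `X` -/
lemma glob2_chain {ζ η : ι} {X : Set ι} (hX : S.Cl X) (hζ : ζ ∉ X) (h0 : S.η₀ ≤ ζ) (hη : η ∈ X)
    (hη' : η ∉ Set.Iio ζ) : ζ < η ∧ S.Cl (Set.Iio ζ ∪ X ∩ Set.Iio η) ∧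
      S.Full (Set.Iio ζ ∪ X ∩ Set.Iio η) ∧ Set.Iio ζ ∪ X ∩ Set.Iio η ⊆ Set.Iio η ∧
      S.dep η ⊆ Set.Iio ζ ∪ X ∩ Set.Iio η := by
  have h1 : ζ < η := lt_of_le_of_ne (not_lt.1 hη') fun h => hζ (h ▸ hη)
  refine ⟨h1, (S.cl_Iio ζ).union (hX.inter (S.cl_Iio η)), full_of_Iio fun x hx =>
    Or.inl (lt_of_lt_of_le hx h0), ?_, fun x hx => Or.inr ⟨hX η hη hx, S.dep_lt η hx⟩⟩
  rintro x (hx | hx)
  · exact lt_trans hx h1
  · exact hx.2

lemma glob2_baseP (ζ : ι) {X : Set ι} (h : S.dep ζ ⊆ X) : Base (S.G X) (Set.range (S.P ζ)) :=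
  base_range (S.fP ζ).anti fun n => (S.dP ζ n).mono (gs_mono _ _ h)

lemma glob2_baseQ (ζ : ι) {X : Set ι} (h : S.dep ζ ⊆ X) : Base (S.G X) (Set.range (S.Q ζ)) :=
  base_range (S.fQ ζ).anti fun n => (S.dQ ζ n).mono (gs_mono _ _ h)

lemma glob2_germ (ζ : ι) : Germ (S.b ζ) (Set.range (S.P ζ)) (Set.range (S.Q ζ)) := by
  rintro _ ⟨n, rfl⟩
  exact ⟨_, ⟨n, rfl⟩, (S.gen ζ).1 n⟩

/-- Upward preservation for a merging stage `ζ`.  If `P ζ 1 = ⊥` then also `Q ζ 1 = ⊥` and `exJ_bot`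
applies; this covers `ζ < η₀`.  Otherwise use `chain_ind` from `Iio ζ` along `X` with `s2`.  At a step
`η > ζ` put `X' = Iio ζ ∪ X ∩ Iio η ⊆ Iio η`.  If stage `η` is shifting use `hC`.  If it is merging
with `P η 1 = ⊥` use `NG.bot_not_mem`.  Otherwise `Q η`, `Q ζ` are both equivalent to the base flag;
a nonzero germ from `P η` to `Q ζ`, or to `P ζ` followed by the injective germ `b ζ` (defined over
`Iio η`), contradicts `ExJ.not_ng` over `Iio η`. -/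
theorem mg_up (hw : BW w) {ζ : ι} {X : Set ι} (hC : ∀ η ∈ X, S.CC η) (hX : S.Cl X)
    (hle : Set.Iio ζ ⊆ X) (hζ : ζ ∉ X) (h : Mg w (S.G (Set.Iio ζ)) (S.P ζ) (S.Q ζ)) :
    MgL (S.G X) (S.P ζ) (S.Q ζ) := by
  refine ⟨h.1.eq, ?_⟩
  by_cases hP : S.P ζ 1 = ⊥
  · refine exJ_bot ⟨1, hP⟩ ⟨1, eq_bot_of_rk ?_⟩
    rw [← h.1.eq, hP, rk_bot]
  have hW := h.2.resolve_left hP
  have h0 : S.η₀ ≤ ζ := not_lt.1 fun h' => hP (by rw [(S.free ζ h').1]; rfl)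
  have key := chain_ind (fun Y => ExJ (S.G Y) (Set.range (S.P ζ)) (Set.range (S.Q ζ)))
    (Set.Iio ζ) X (fun Y hY => ExJ.of_supp fun s h1 h2 => by
      obtain ⟨Y', h3, -, h4⟩ := hY s h1 h2
      exact h4.mono (gs_mono _ _ h3)) h.1.ex fun η hη hη' ih => by
    obtain ⟨h1, h2, h3, h4, h5⟩ := glob2_chain hX hζ h0 hη hη'
    have hd : S.dep ζ ⊆ Set.Iio ζ ∪ X ∩ Set.Iio η := fun x hx => Or.inl (S.dep_lt ζ hx)
    have hs := step_below hw (hC η hη) h2 h3 h4 h5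
    change ExJ (GS w S.b _) _ _
    rw [gs_insert]
    refine s2 hs.gl hs.cm (glob2_baseP ζ hd) (S.fP ζ).sml (glob2_baseQ ζ hd) (S.fQ ζ).sml ih ?_
    rcases S.ok η with h6 | h6
    · refine Or.inr ⟨h6.1.mono (gs_mono _ _ h4), ?_⟩
      rcases h6.2 with h7 | h7
      · exact ⟨fun h8 => h8.bot_not_mem ⟨1, h7⟩, fun h8 => h8.bot_not_mem ⟨1, h7⟩⟩
      have h9 : ¬ NG (S.G (Set.Iio η)) (Set.range (S.P η)) (Set.range (S.Q ζ)) := fun h8 =>
        h6.1.ex.not_ng (glob2_baseP η (S.dep_lt η)) (glob2_baseQ η (S.dep_lt η))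
          (h8.cof (hW.1.trans h7.2))
      refine ⟨fun h8 => h9 ?_, fun h8 => h9 (h8.mono (gs_mono _ _ h4))⟩
      refine (h8.mono (gs_mono _ _ h4)).comp (S.fP η).dct (Dm.letter (gs_mem _ _ h1))
        (glob2_germ ζ) ⟨_, ⟨0, rfl⟩, ?_⟩
      rw [LinearMap.ker_eq_bot.2
        ((S.gen ζ).inj (S.fP ζ) (S.fQ ζ) fun n => (h.1.eq n).le), inf_bot_eq]
    · exact Or.inl (hC η hη h6 _ h2 h3 h4 h5)
  rwa [Set.union_eq_self_of_subset_left hle] at key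

/-- Upward preservation for a shifting stage (`η₀ ≤ ζ` since `Q ζ 1 ≠ ⊥`): `chain_ind` with `s4`,
`s5`, `step_below`, `smns_lim`. -/
theorem sh_up (hw : BW w) {ζ : ι} {X : Set ι} (hC : ∀ η ∈ X, S.CC η) (hX : S.Cl X)
    (hle : Set.Iio ζ ⊆ X) (hζ : ζ ∉ X) (h : Sh (S.G (Set.Iio ζ)) (S.P ζ) (S.Q ζ)) :
    Sh (S.G X) (S.P ζ) (S.Q ζ) := by
  have h0 : S.η₀ ≤ ζ := not_lt.1 fun h' => h.ne 1 (by rw [(S.free ζ h').2.1]; rfl)
  have key := chain_ind (fun Y => Sm (S.G Y) (S.Q ζ) ∧ NS (S.G Y) (Set.range (S.Q ζ)))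
    (Set.Iio ζ) X (fun Y hY => smns_lim hY) ⟨h.sm, h.ns⟩ fun η hη hη' ih => by
    obtain ⟨-, h2, h3, h4, h5⟩ := glob2_chain hX hζ h0 hη hη'
    have hd : S.dep ζ ⊆ Set.Iio ζ ∪ X ∩ Set.Iio η := fun x hx => Or.inl (S.dep_lt ζ hx)
    have hs := step_below hw (hC η hη) h2 h3 h4 h5
    change Sm (GS w S.b _) _ ∧ NS (GS w S.b _) _
    rw [gs_insert]
    exact ⟨s4 hs (S.fQ ζ) (fun n => (S.dQ ζ n).mono (gs_mono _ _ hd)) ih.1 ih.2,
      s5 hs (glob2_baseQ ζ hd) (S.fQ ζ).sml ih.2⟩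
  rw [Set.union_eq_self_of_subset_left hle] at key
  exact ⟨h.rat, h.ne, key.1, key.2⟩

/-- a step of the chain `X ∪ Iio ζ` inside a lower set `J` -/
theorem step_rel (hw : BW w) {J : Set ι} (hJ : IsLowerSet J) (hC : ∀ η ∈ J, S.CC η) {X : Set ι}
    (hX : S.Cl X) (hF : S.Full X) (hle : X ⊆ J) {ζ : ι} (hζ : ζ ∈ J) (hζ' : ζ ∉ X) :
    Step (S.G (X ∪ J ∩ Set.Iio ζ)) (S.b ζ) (S.P ζ) (S.Q ζ) := by
  have e : J ∩ Set.Iio ζ = Set.Iio ζ := Set.inter_eq_right.2 fun x hx => hJ (le_of_lt hx) hζ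
  rw [e]
  have h1 : S.Cl (X ∪ Set.Iio ζ) := hX.union (S.cl_Iio ζ)
  have h2 : ζ ∉ X ∪ Set.Iio ζ := by
    rintro (h | h)
    · exact hζ' h
    · exact lt_irrefl ζ h
  have h3 : ∀ η ∈ X ∪ Set.Iio ζ, S.CC η := by
    rintro η (h | h)
    · exact hC η (hle h)
    · exact hC η (hJ (le_of_lt h) hζ)
  refine ⟨gl h1 h2 fun x hx => Or.inr (S.dep_lt ζ hx), (hF.union_Iio ζ).cm hw, ?_⟩
  rcases S.ok ζ with h | h
  · exact Or.inl (mg_up hw h3 h1 Set.subset_union_right h2 h)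
  · exact Or.inr (sh_up hw h3 h1 Set.subset_union_right h2 h)

end Sys

end Pool.Agent.Lib.MP_57313b_al.Zf
end

-- part Pool.Agent.Lib.MP_57313b_al.Zf.Glob3
section

/-!
# The hypotheses of all stages hold over all closed full sets
-/

set_option autoImplicit false

namespace Pool.Agent.Lib.MP_57313b_al.Zf

open Filter Topology

set_option linter.unusedSectionVars false

variable {Ω : Type} [Ring Ω] [Algebra F Ω] [RK Ω] {w : ℕ → En Ω}
variable {ι : Type} [LinearOrder ι] [WellFoundedLT ι] {S : Sys w ι}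

namespace Sys

/-- points stay points: `chain_ind` from `X` along `J` with `s1` -/
theorem ex_rel (hw : BW w) {J : Set ι} (hJ : IsLowerSet J) (hC : ∀ η ∈ J, S.CC η) {X : Set ι}
    (hX : S.Cl X) (hF : S.Full X) (hle : X ⊆ J) {𝒰 : Set (Sub Ω)} (hb : Base (S.G X) 𝒰)
    (hs : Sml 𝒰) (he : Ex (S.G X) 𝒰) : Ex (S.G J) 𝒰 := by
  have key := chain_ind (fun Y => Ex (S.G Y) 𝒰) X J (fun Y hY => Ex.of_supp fun s h1 h2 => by
      obtain ⟨Y', h3, -, h4⟩ := hY s h1 h2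
      exact h4.mono (gs_mono _ _ h3)) he fun ζ hζ hζ' ih => by
    change Ex (GS w S.b _) _
    rw [gs_insert]
    exact s1 (step_rel hw hJ hC hX hF hle hζ hζ')
      (hb.mono (gs_mono _ _ Set.subset_union_left)) hs ih
  rwa [Set.union_eq_self_of_subset_left hle] at key

/-- strong induction on `η`, with `ex_rel` for `J = Iio η` and the family `img f (range (Q η))` -/
theorem cc (hw : BW w) (η : ι) : S.CC η := by
  induction η using WellFoundedLT.induction with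
  | ind η ih =>
  intro h X hX hF hle hd
  refine ⟨h.rat, h.ne, h.sm.mono (gs_mono _ _ hle), fun f hf hn he => ?_⟩
  exact h.ns f (hf.mono (gs_mono _ _ hle)) hn (ex_rel hw (isLowerSet_Iio η) ih hX hF hle
    ((glob2_baseQ η hd).img hf) ((S.fQ η).sml.img (glob2_baseQ η hd) f) he)

theorem ex_up (hw : BW w) {J : Set ι} (hJ : IsLowerSet J) {X : Set ι} (hX : S.Cl X)
    (hF : S.Full X) (hle : X ⊆ J) {𝒰 : Set (Sub Ω)} (hb : Base (S.G X) 𝒰) (hs : Sml 𝒰)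
    (he : Ex (S.G X) 𝒰) : Ex (S.G J) 𝒰 :=
  ex_rel hw hJ (fun η _ => cc hw η) hX hF hle hb hs he

/-- `chain_ind` from `X` along `univ` with `s3` -/
theorem zp_up (hw : BW w) {X : Set ι} (hX : S.Cl X) (hF : S.Full X) {𝒢 : Set (Sub Ω)}
    (hb : Base (S.G X) 𝒢) (hs : Sml 𝒢) {a : En Ω} (ha : Dm (S.G X) a) (hg : Germ a 𝒢 𝒢)
    (hi : ∀ (m : ℕ) (c : Fin m → F), c ≠ 0 → ∃ U ∈ 𝒢, U ⊓ LinearMap.ker (pol c a) = ⊥)
    (hp : ZP (S.G X) 𝒢 a) : ZP (S.G Set.univ) 𝒢 a := by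
  have key := chain_ind (fun Y => ZP (S.G Y) 𝒢 a) X Set.univ (fun Y hY K hK => by
      obtain ⟨s, h1, h2, h3⟩ := hK.supp_gs
      obtain ⟨Y', h4, -, h5⟩ := hY s h1 h2
      exact h5 K (h3.mono (gs_mono _ _ h4))) hp fun ζ hζ hζ' ih => by
    change ZP (GS w S.b _) _ _
    rw [gs_insert]
    exact s3 (step_rel hw isLowerSet_univ (fun η _ => cc hw η) hX hF (Set.subset_univ _) hζ hζ')
      (hb.mono (gs_mono _ _ Set.subset_union_left)) hs
      (ha.mono (gs_mono _ _ Set.subset_union_left)) hg hi ih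
  rwa [Set.union_univ] at key

/-- `NS` descends from `J` to `X` by `ex_up`; then `chain_ind` with `s4`, `s5` -/
theorem sm_up (hw : BW w) {J : Set ι} (hJ : IsLowerSet J) {X : Set ι} (hX : S.Cl X)
    (hF : S.Full X) (hle : X ⊆ J) {Q : ℕ → Sub Ω} (hQ : Flag Q) (hd : ∀ n, Df (S.G X) (Q n))
    (hm : Sm (S.G X) Q) (hn : NS (S.G J) (Set.range Q)) : Sm (S.G J) Q := by
  have hb : Base (S.G X) (Set.range Q) := base_range hQ.anti hd
  have hn' : NS (S.G X) (Set.range Q) := fun f hf h1 he =>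
    hn f (hf.mono (gs_mono _ _ hle)) h1
      (ex_up hw hJ hX hF hle (hb.img hf) (hQ.sml.img hb f) he)
  have key := chain_ind (fun Y => Sm (S.G Y) Q ∧ NS (S.G Y) (Set.range Q)) X J
    (fun Y hY => smns_lim hY) ⟨hm, hn'⟩ fun ζ hζ hζ' ih => by
    have hs := step_rel hw hJ (fun η _ => cc hw η) hX hF hle hζ hζ'
    change Sm (GS w S.b _) _ ∧ NS (GS w S.b _) _
    rw [gs_insert]
    exact ⟨s4 hs hQ (fun n => (hd n).mono (gs_mono _ _ Set.subset_union_left)) ih.1 ih.2,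
      s5 hs (hb.mono (gs_mono _ _ Set.subset_union_left)) hQ.sml ih.2⟩
  rw [Set.union_eq_self_of_subset_left hle] at key
  exact key.1

/-- `BW.ex`, then `chain_ind` from `∅` along `Iio η₀` with `s1f`, then `ex_up` -/
theorem ex_W (hw : BW w) : Ex (S.G Set.univ) (Set.range (WF w)) := by
  have key := chain_ind (fun Y => Ex (S.G Y) (Set.range (WF w))) ∅ (Set.Iio S.η₀)
    (fun Y hY => Ex.of_supp fun s h1 h2 => by
      obtain ⟨Y', h3, -, h4⟩ := hY s h1 h2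
      exact h4.mono (gs_mono _ _ h3))
    (by
      change Ex (GS w S.b ∅) _
      rw [gs_empty]
      exact hw.ex) fun ζ hζ _ ih => by
    have e : (∅ : Set ι) ∪ Set.Iio S.η₀ ∩ Set.Iio ζ = Set.Iio ζ := by
      rw [Set.empty_union]
      exact Set.inter_eq_right.2 fun x hx => lt_trans hx hζ
    rw [e] at ih ⊢
    change Ex (GS w S.b _) _
    rw [gs_insert]
    exact s1f (gl (S.cl_Iio ζ) (lt_irrefl ζ) (S.dep_lt ζ)) (by rw [(S.free ζ hζ).1]; rfl)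
      (hw.base (gs_base _ _ _)) hw.flag.sml ih
  rw [Set.empty_union] at key
  exact ex_up hw isLowerSet_univ (S.cl_Iio _) (full_of_Iio subset_rfl) (Set.subset_univ _)
    (hw.base (gs_base _ _ _)) hw.flag.sml key

end Sys

end Pool.Agent.Lib.MP_57313b_al.Zf
end

-- part Pool.Agent.Lib.MP_57313b_al.Zf.Free2
section

/-!
# Free letters: flags and uniform filters
-/

set_option autoImplicit false

namespace Pool.Agent.Lib.MP_57313b_al.Zf

open Filter Topology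

set_option linter.unusedSectionVars false

variable {Ω : Type} [Ring Ω] [Algebra F Ω] [RK Ω] {w : ℕ → En Ω} {G : Set (En Ω)} {x : En Ω}
variable {E E' E'' : Type} [AddCommGroup E] [Module Ω E] [Amb Ω E] [AddCommGroup E']
  [Module Ω E'] [Amb Ω E'] [AddCommGroup E''] [Module Ω E''] [Amb Ω E'']

lemma free2_pow {δ : ℝ} (hδ : 0 < δ) (j : ℕ) : ∃ k : ℕ, j < k ∧ 1 / 2 ^ k ≤ δ := by
  obtain ⟨k, hk⟩ := exists_pow_lt_of_lt_one hδ (by norm_num : (1 / 2 : ℝ) < 1)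
  refine ⟨k + j + 1, by omega, ?_⟩
  have h1 : (1 / 2 : ℝ) ^ (k + j + 1) ≤ (1 / 2) ^ k :=
    pow_le_pow_of_le_one (by norm_num) (by norm_num) (by omega)
  rw [one_div_pow] at h1 hk
  rw [one_div_pow] at h1
  exact h1.trans hk.le

/-- one step of the construction of a flag -/
lemma free2_step (h : Good w G) (hw : BW w) {𝒰 : Set (Sub Ω)} (hb : Base G 𝒰) (hs : Sml 𝒰)
    (hp : ⊥ ∉ 𝒰) {V U : Sub Ω} (hV : V ∈ 𝒰) (hU : U ∈ 𝒰) (j : ℕ) :
    ∃ (Y : Sub Ω) (k : ℕ), Df G Y ∧ (∃ W ∈ 𝒰, W ≤ Y) ∧ rk Y = 1 / 2 ^ k ∧ Y ≤ V ⊓ U ∧ j < k := by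
  obtain ⟨V₁, hV₁, hle⟩ := hb.1.2 V hV U hU
  have hpos : 0 < rk V₁ := rk_pos fun e => hp (e ▸ hV₁)
  obtain ⟨k, hjk, hk⟩ := free2_pow hpos j
  obtain ⟨W, hW, hWk⟩ := hs (1 / 2 ^ k) (by positivity)
  obtain ⟨V₂, hV₂, hle₂⟩ := hb.1.2 W hW V₁ hV₁
  obtain ⟨Y, hY, h1, h2, h3⟩ := h.ip hw (hb.2 _ hV₂) (hb.2 _ hV₁) (hle₂.trans inf_le_right)
    (Dy.pow k) ((rk_mono (hle₂.trans inf_le_left)).trans hWk.le) hk
  exact ⟨Y, k, hY, ⟨V₂, hV₂, h1⟩, h3, h2.trans hle, hjk⟩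

/-- Enumerate `𝒰` as `U n`.  Recursively choose `k (n+1) > k n` with
`1 / 2 ^ k (n+1) ≤ rk (P n ⊓ U n)`, a member `V ≤ P n ⊓ U n` of smaller rank, and `P (n+1)` between
them by `Good.ip`. -/
theorem Good.flag (h : Good w G) (hw : BW w) {𝒰 : Set (Sub Ω)} (hb : Base G 𝒰)
    (hc : 𝒰.Countable) (hs : Sml 𝒰) (hp : ⊥ ∉ 𝒰) :
    ∃ (P : ℕ → Sub Ω) (k : ℕ → ℕ), Flag P ∧ (∀ n, Df G (P n)) ∧ Eqv (Set.range P) 𝒰 ∧
      StrictMono k ∧ k 0 = 0 ∧ ∀ n, rk (P n) = 1 / 2 ^ k n := by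
  obtain ⟨U, hU⟩ := hc.exists_eq_range hb.1.1
  have hmem : ∀ n, U n ∈ 𝒰 := fun n => hU ▸ Set.mem_range_self n
  let T : Type := {p : Sub Ω × ℕ // Df G p.1 ∧ (∃ W ∈ 𝒰, W ≤ p.1) ∧ rk p.1 = 1 / 2 ^ p.2}
  have step : ∀ (n : ℕ) (p : T), ∃ q : T, q.1.1 ≤ p.1.1 ⊓ U n ∧ p.1.2 < q.1.2 := by
    rintro n ⟨⟨A, j⟩, hA, ⟨V, hV, hVA⟩, hr⟩
    obtain ⟨Y, k, h1, h2, h3, h4, h5⟩ := free2_step h hw hb hs hp hV (hmem n) j
    exact ⟨⟨(Y, k), h1, h2, h3⟩, h4.trans (inf_le_inf_right _ hVA), h5⟩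
  choose f hf using step
  let s : ℕ → T := fun n =>
    Nat.rec (⟨(⊤, 0), Df.top, ⟨U 0, hmem 0, le_top⟩, by simp⟩ : T) (fun n p => f n p) n
  have hs1 : ∀ n, s (n + 1) = f n (s n) := fun n => rfl
  have hk : StrictMono fun n => (s n).1.2 :=
    strictMono_nat_of_lt_succ fun n => by
      rw [hs1]
      exact (hf n (s n)).2
  refine ⟨fun n => (s n).1.1, fun n => (s n).1.2, ⟨rfl, ?_, fun n => (s n).2.1.fg, ?_⟩,
    fun n => (s n).2.1, ⟨?_, ?_⟩, hk, rfl, fun n => (s n).2.2.2⟩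
  · refine antitone_nat_of_succ_le fun n => ?_
    rw [hs1]
    exact (hf n (s n)).1.trans inf_le_left
  · have h1 : Tendsto (fun k : ℕ => (1 / 2 : ℝ) ^ k) atTop (𝓝 0) :=
      tendsto_pow_atTop_nhds_zero_of_lt_one (by norm_num) (by norm_num)
    refine (h1.comp hk.tendsto_atTop).congr fun n => ?_
    rw [(s n).2.2.2, Function.comp_apply, one_div_pow]
  · intro V hV
    rw [hU] at hV
    obtain ⟨n, rfl⟩ := hV
    refine ⟨_, ⟨n + 1, rfl⟩, ?_⟩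
    change (s (n + 1)).1.1 ≤ U n
    rw [hs1]
    exact (hf n (s n)).1.trans inf_le_right
  · rintro _ ⟨n, rfl⟩
    exact (s n).2.2.1

/-- Suppose all members have rank `≥ δ`.  Take `H` of rank `1 - 1 / 2 ^ k` with
`2 / 2 ^ k ≤ δ`, `K₁ = H.map x₁`, `K₂ = H.map x₂`.  For `V ∈ 𝓕` definable over `G₀`, `Free.gs` shows
`(K₁ ⊓ V) ⊔ (K₂ ⊓ V) = V` and `V ≰ Kᵢ`. -/
theorem uf_small (hw : BW w) {G₀ : Set (En Ω)} (h0 : Set.range w ⊆ G₀) {x₁ x₂ : En Ω}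
    (h1 : Free x₁ G₀) (h2 : Free x₂ (insert x₁ G₀)) (hG : insert x₂ (insert x₁ G₀) ⊆ G)
    {𝓕 : Set (Sub Ω)} (hf : Fil G 𝓕) (hu : UF G 𝓕)
    (hg : ∀ U ∈ 𝓕, ∃ V ∈ 𝓕, Df G₀ V ∧ V ≤ U) : Sml 𝓕 := by
  intro δ hδ
  by_contra hcon
  have hbig : ∀ U ∈ 𝓕, δ ≤ rk U := fun U hU => not_lt.1 fun hlt => hcon ⟨U, hU, hlt⟩
  obtain ⟨k, -, hk⟩ := free2_pow (half_pos hδ) 0
  have hη : (0 : ℝ) < 1 / 2 ^ k := by positivity
  have hδ1 : δ ≤ 1 := (hbig _ hf.top).trans (rk_le_one _)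
  obtain ⟨H, hH, hr⟩ := hw.exists_rk (r := 1 - 1 / 2 ^ k)
    (by simpa using (Dy.nat 1).sub (Dy.pow k)) (by linarith) (by linarith)
  have s1 : G₀ ⊆ insert x₁ G₀ := Set.subset_insert _ _
  have s2 : insert x₁ G₀ ⊆ G := (Set.subset_insert _ _).trans hG
  have hH0 : Df G₀ H := hH.mono h0
  have hK₁ : Df (insert x₁ G₀) (H.map x₁) := (hH0.mono s1).map (Dm.letter (Set.mem_insert _ _))
  have hK₂ : Df G (H.map x₂) :=
    (hH0.mono (s1.trans s2)).map (Dm.letter (hG (Set.mem_insert _ _)))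
  have e1 : ∀ V ∈ 𝓕, Df G₀ V → rk (V ⊓ H.map x₁) = rk V - 1 / 2 ^ k := by
    intro V hV hV0
    have := hbig V hV
    rw [h1.gs hV0 hH0, hr, max_eq_right (by linarith)]
    ring
  have e2 : ∀ V ∈ 𝓕, Df G₀ V → rk (V ⊓ H.map x₂) = rk V - 1 / 2 ^ k := by
    intro V hV hV0
    have := hbig V hV
    rw [h2.gs (hV0.mono s1) (hH0.mono s1), hr, max_eq_right (by linarith)]
    ring
  have e3 : ∀ V ∈ 𝓕, Df G₀ V → (V ⊓ H.map x₁) ⊔ (V ⊓ H.map x₂) = V := by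
    intro V hV hV0
    have hb := hbig V hV
    have f1 : (V ⊓ H.map x₁).FG := ((hV0.mono s1).inf hK₁).fg
    have f2 : (V ⊓ H.map x₂).FG := ((hV0.mono (s1.trans s2)).inf hK₂).fg
    have a1 := rk_sup_add_inf f1 f2
    have a2 : (V ⊓ H.map x₁) ⊓ (V ⊓ H.map x₂) = (V ⊓ H.map x₁) ⊓ H.map x₂ := by
      rw [← inf_assoc, inf_right_comm V, inf_idem]
    have a3 := h2.gs ((hV0.mono s1).inf hK₁) (hH0.mono s1)
    rw [e1 V hV hV0, hr, max_eq_right (by linarith)] at a3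
    rw [a2, a3, e1 V hV hV0, e2 V hV hV0] at a1
    exact eq_of_le_of_rk_le (f1.sup f2) hV0.fg (sup_le inf_le_left inf_le_left) (by linarith)
  have key := hu (H.map x₁) (H.map x₂) (hK₁.mono s2) hK₂ fun U hU => by
    obtain ⟨V, hV, hV0, hle⟩ := hg U hU
    refine hf.up V hV _ (((hK₁.mono s2).inf (hf.df U hU)).sup (hK₂.inf (hf.df U hU))) ?_
    rw [← e3 V hV hV0]
    exact sup_le_sup (le_inf inf_le_right (inf_le_left.trans hle))
      (le_inf inf_le_right (inf_le_left.trans hle))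
  rcases key with hK | hK
  · obtain ⟨V, hV, hV0, hle⟩ := hg _ hK
    have := e1 V hV hV0
    rw [inf_eq_left.2 hle] at this
    linarith
  · obtain ⟨V, hV, hV0, hle⟩ := hg _ hK
    have := e2 V hV hV0
    rw [inf_eq_left.2 hle] at this
    linarith

/-- no member of the flag `Q` is covered by `p ↦ φ (p, c p)` on `P 1` -/
lemma free2_not_le {G₀ : Set (En Ω)} {c : En Ω} {P Q : ℕ → Sub Ω} (h : Gl G₀ c P Q)
    (hlt : ∀ k, rk (P 1 ⊓ P k) < rk (Q k)) {φ : Ω × Ω →ₗ[Ω] Ω} (hφ : Dm G₀ φ) {m : ℕ}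
    (h0 : ∀ q, φ (0, q) ∈ Q m → q ∈ Q m) (hle : ∀ q ∈ Q m, ∃ p ∈ P 1, φ (p, c p) = q) :
    False := by
  have hZ : Df G₀ ((P 1).comap (LinearMap.fst Ω Ω Ω) ⊓ (Q m).comap φ) :=
    ((h.dP 1).comap_sc _).inf ((h.dQ m).comap hφ)
  set Z := (P 1).comap (LinearMap.fst Ω Ω Ω) ⊓ (Q m).comap φ with hZd
  have a1 : rk (Q m) ≤ rk (Z ⊓ c.graph) := by
    refine rk_le_of_surj (fg_inf hZ.fg (fg_graph c)) φ fun q hq => ?_
    obtain ⟨p, hp, e⟩ := hle q hq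
    exact ⟨(p, c p), ⟨⟨hp, by simpa [e] using hq⟩, by simp⟩, e⟩
  rcases h.gen.one h.fP h.fQ hZ with hb | ⟨k, hk⟩
  · rw [hb, rk_bot] at a1
    have := hlt m
    have := rk_nonneg (P 1 ⊓ P m)
    linarith
  · have a2 : rk (Z ⊓ (P k).prod (Q k)) ≤ rk ((⊥ : Sub Ω).prod (Q m)) + rk (P 1 ⊓ P k) := by
      refine rk_le_add (fg_inf hZ.fg ((h.fP.fg k).prod (h.fQ.fg k))) (LinearMap.fst Ω Ω Ω)
        ?_ ?_
      · rintro ⟨p, q⟩ ⟨⟨-, hq⟩, -⟩ hp
        obtain rfl : p = 0 := hp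
        exact ⟨rfl, h0 q hq⟩
      · rintro ⟨p, q⟩ ⟨⟨hp, -⟩, hp', -⟩
        exact ⟨hp, hp'⟩
    rw [rk_prod Submodule.fg_bot (h.fQ.fg m), rk_bot] at a2
    have := hlt k
    linarith

/-- `K₁ = (P 1).map (1 - c)`, `K₂ = (P 1).map c`.  For `n ≥ 1`,
`Q (n+1) = P n ≤ (K₁ ⊓ Q n) ⊔ (K₂ ⊓ Q n)`.  No `Q m` lies in `K₂` (or `K₁`): `Gen.one` for
`P 1 × Q m` (or `{(p, q) | p ∈ P 1, p - q ∈ Q m}`) gives a rank at most
`rk (P 1 ⊓ P k) + rk (Q m ⊓ Q k) - rk (Q k) < rk (Q m)`. -/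
theorem shift_not_uf {G₀ : Set (En Ω)} {c : En Ω} {P Q : ℕ → Sub Ω} (h : Gl G₀ c P Q)
    (hP : ∀ n, 1 ≤ n → P n = Q (n + 1)) (hQ : ∀ n, rk (Q (n + 1)) < rk (Q n))
    (hG : insert c G₀ ⊆ G) {𝓕 : Set (Sub Ω)} (hf : Fil G 𝓕) (he : Eqv (Set.range Q) 𝓕) :
    ¬ UF G 𝓕 := by
  intro hu
  have hlt : ∀ k, rk (P 1 ⊓ P k) < rk (Q k) := by
    intro k
    rcases Nat.eq_zero_or_pos k with rfl | hk
    · have a1 : rk (P 1 ⊓ P 0) ≤ rk (P 1) := rk_mono inf_le_left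
      rw [hP 1 le_rfl] at a1 ⊢
      exact a1.trans_lt ((hQ 1).trans (hQ 0))
    · have a1 : rk (P 1 ⊓ P k) ≤ rk (P k) := rk_mono inf_le_right
      rw [hP k hk] at a1 ⊢
      exact a1.trans_lt (hQ k)
  have s0 : G₀ ⊆ G := (Set.subset_insert _ _).trans hG
  have hc : Dm G c := Dm.letter (hG (Set.mem_insert _ _))
  have hK₁ : Df G ((P 1).map (LinearMap.id - c)) := ((h.dP 1).mono s0).map ((Dm.sc _).sub hc)
  have hK₂ : Df G ((P 1).map c) := ((h.dP 1).mono s0).map hc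
  have key := hu _ _ hK₁ hK₂ fun U hU => by
    obtain ⟨_, ⟨n, rfl⟩, hn⟩ := he.1 U hU
    obtain ⟨W, hW, hWle⟩ := he.2 _ ⟨n + 1 + 1, rfl⟩
    refine hf.up W hW _ ((hK₁.inf (hf.df U hU)).sup (hK₂.inf (hf.df U hU))) (hWle.trans ?_)
    intro p hp
    have hp' : p ∈ P (n + 1) := by rwa [hP (n + 1) (by omega)]
    have hp1 : p ∈ P 1 := h.fP.anti (by omega) hp'
    have hcp : c p ∈ U := hn (h.fQ.anti (Nat.le_succ n) (h.gen.1 (n + 1) ⟨p, hp', rfl⟩))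
    have hpU : p ∈ U := hn (h.fQ.anti (by omega) hp)
    have e : p = (p - c p) + c p := by abel
    rw [e]
    exact Submodule.add_mem_sup ⟨⟨p, hp1, rfl⟩, U.sub_mem hpU hcp⟩ ⟨⟨p, hp1, rfl⟩, hcp⟩
  rcases key with hK | hK
  · obtain ⟨_, ⟨m, rfl⟩, hm⟩ := he.1 _ hK
    refine free2_not_le h hlt (φ := LinearMap.fst Ω Ω Ω - LinearMap.snd Ω Ω Ω)
      ((Dm.sc _).sub (Dm.sc _)) (m := m) (fun q hq => by simpa using hq) fun q hq => ?_
    obtain ⟨p, hp, e⟩ := hm hq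
    exact ⟨p, hp, e⟩
  · obtain ⟨_, ⟨m, rfl⟩, hm⟩ := he.1 _ hK
    refine free2_not_le h hlt (φ := LinearMap.snd Ω Ω Ω) (Dm.sc _) (m := m) (fun q hq => hq)
      fun q hq => ?_
    obtain ⟨p, hp, e⟩ := hm hq
    exact ⟨p, hp, e⟩

end Pool.Agent.Lib.MP_57313b_al.Zf
end

-- part Pool.Agent.Lib.MP_57313b_al.Zf.Keys1
section

/-!
# Countably generated filters
-/

set_option autoImplicit false

namespace Pool.Agent.Lib.MP_57313b_al.Zf

open Filter Topology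

set_option linter.unusedSectionVars false

variable {Ω : Type} [Ring Ω] [Algebra F Ω] [RK Ω] {w : ℕ → En Ω}
variable {ι : Type} [LinearOrder ι] [WellFoundedLT ι] {S : Sys w ι}

namespace Sys

/-- countably many definable left ideals have a countable support -/
lemma exists_supp {𝒰 : Set (Sub Ω)} (hc : 𝒰.Countable) (hd : ∀ U ∈ 𝒰, Df (S.G Set.univ) U) :
    ∃ D : Set ι, D.Countable ∧ ∀ U ∈ 𝒰, Df (S.G D) U := by
  have h : ∀ U : 𝒰, ∃ s : Set ι, s.Finite ∧ Df (S.G s) U.1 := fun U => by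
    obtain ⟨s, -, h1, h2⟩ := (hd U.1 U.2).supp_gs
    exact ⟨s, h1, h2⟩
  choose s h1 h2 using h
  have := hc.to_subtype
  exact ⟨⋃ U, s U, Set.countable_iUnion fun U => (h1 U).countable, fun U hU =>
    (h2 ⟨U, hU⟩).mono (gs_mono _ _ (Set.subset_iUnion s ⟨U, hU⟩))⟩

/-- Take `P`, `k` from `Good.flag`, `Q n = WF w (k n)`, and `η` from `book`.  If there is no nonzero
germ from `P` to `Q` over `Iio η`, then `exJ_of_not_ng` gives `Mg`, so `b η` is an injective germ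
from `P` to `Q` (`Gen.inj`). -/
theorem key1 (hw : BW w) {𝒰 : Set (Sub Ω)} (hb : Base (S.G Set.univ) 𝒰) (hc : 𝒰.Countable)
    (hs : Sml 𝒰) (hp : ⊥ ∉ 𝒰) (he : Ex (S.G Set.univ) 𝒰) :
    NG (S.G Set.univ) 𝒰 (Set.range (WF w)) := by
  obtain ⟨P, k, hP, dP, hE, hk, hk0, hr⟩ :=
    ((full_of_Iio (S := S) (Set.subset_univ _)).good hw).flag hw hb hc hs hp
  obtain ⟨D, hD, hD'⟩ := exists_supp (S := S) (Set.countable_range P) (by
    rintro _ ⟨n, rfl⟩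
    exact dP n)
  have dP' : ∀ n, Df (S.G D) (P n) := fun n => hD' _ ⟨n, rfl⟩
  obtain ⟨η, h0, hle, hη⟩ := S.book P (fun n => WF w (k n)) D hD hP (hw.flag_sub hk hk0) dP'
    fun n => df_WF (gs_base _ _ _) _
  have hF : S.Full (Set.Iio η) := full_of_Iio fun x hx => lt_of_lt_of_le hx h0
  refine NG.eqv (NG.cof ?_ (hw.eqv_sub hk).1) hE
  by_contra hn
  have hJ : ExJ (S.G (Set.Iio η)) (Set.range P) (Set.range fun n => WF w (k n)) :=
    exJ_of_not_ng (hF.cm hw) (base_range hP.anti fun n => (dP' n).mono (gs_mono _ _ hle))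
      (base_range (hw.flag_sub hk hk0).anti fun n => df_WF (gs_base _ _ _) _)
      ((he.cof hE.1).mono (gs_mono _ _ (Set.subset_univ _)))
      (((ex_W hw).cof (hw.eqv_sub hk).1).mono (gs_mono _ _ (Set.subset_univ _)))
      fun h => hn (h.mono (gs_mono _ _ (Set.subset_univ _)))
  have heq : ∀ n, rk (P n) = rk (WF w (k n)) := fun n => by rw [hr, hw.rk_WF]
  obtain ⟨e1, e2⟩ := hη (hF.cm hw) (Or.inl ⟨⟨heq, hJ⟩, Or.inr (hw.eqv_sub hk)⟩)
  have hg := glob2_germ (S := S) η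
  have hi := (S.gen η).inj (S.fP η) (S.fQ η) fun n => by rw [e1, e2, heq]
  rw [e1, e2] at hg
  refine hn ⟨S.b η, Dm.letter (gs_mem _ _ (Set.mem_univ η)), hg, ?_⟩
  rintro _ ⟨n, rfl⟩ h
  rw [LinearMap.ker_eq_bot.2 hi, le_bot_iff] at h
  have := hr n
  rw [h, rk_bot] at this
  exact absurd this (by positivity)

/-- Enlarge `X` to a countable closed full set (`exists_full`), take `Q` from `Good.smc` for the
members definable over it, `P n = if n = 0 then ⊤ else Q (n+1)`, and `η` from `book`.  If `NS` holds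
over `Iio η` then `Sh` holds (`sm_up`), so stage `η` is a shift and `shift_not_uf` contradicts `hu`.
Otherwise some `img f (range Q)` is a point over `Iio η`, hence over `univ` (`ex_up`); compose `f`
with the germ from `key1` (`Ex.one` for its kernel, `NG.comp`). -/
theorem key2 (hw : BW w) {𝓕 : Set (Sub Ω)} (hf : Fil (S.G Set.univ) 𝓕)
    (hu : UF (S.G Set.univ) 𝓕) (hs : Sml 𝓕) {X : Set ι} (hX : X.Countable)
    (hg : ∀ U ∈ 𝓕, ∃ V ∈ 𝓕, Df (S.G X) V ∧ V ≤ U) :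
    NG (S.G Set.univ) 𝓕 (Set.range (WF w)) := by
  obtain ⟨X', hle, hX', hC, hF, -⟩ := exists_full (S := S) (T := Empty) (fun _ _ => False)
    (fun t => t.elim) (fun _ _ => Set.to_countable _) (fun _ => ∅) (fun t => t.elim) hX
  have hu' : S.G X' ⊆ S.G Set.univ := gs_mono _ _ (Set.subset_univ _)
  have hf' := hf.restrict hu'
  have hE0 : Eqv {K | K ∈ 𝓕 ∧ Df (S.G X') K} 𝓕 := ⟨fun U hU => by
    obtain ⟨V, h1, h2, h3⟩ := hg U hU
    exact ⟨V, ⟨h1, h2.mono (gs_mono _ _ hle)⟩, h3⟩, Cof.of_subset fun K hK => hK.1⟩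
  obtain ⟨Q, hQ, dQ, hE, hne, hr, hm⟩ := (hF.good hw).smc hw (gs_countable _ _ hX') hf'.base
    (hs.cof hE0.1) hf'.prop
  have hE' := hE.trans hE0
  have hlt : ∀ n, rk (Q (n + 1)) < rk (Q n) := fun n => by
    refine lt_of_le_of_lt (hr n) (div_lt_self (rk_pos (hne n)) ?_)
    have : (0 : ℝ) ≤ n := n.cast_nonneg
    linarith
  let P : ℕ → Sub Ω := fun n => if n = 0 then ⊤ else Q (n + 1)
  have hP1 : ∀ n, 1 ≤ n → P n = Q (n + 1) := fun n hn => if_neg (by omega)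
  have hP : Flag P := by
    refine ⟨rfl, antitone_nat_of_succ_le fun n => ?_, fun n => ?_, ?_⟩
    · rcases Nat.eq_zero_or_pos n with rfl | hn
      · exact le_top
      · rw [hP1 n hn, hP1 (n + 1) (by omega)]
        exact hQ.anti (by omega)
    · rcases Nat.eq_zero_or_pos n with rfl | hn
      · exact fg_top
      · rw [hP1 n hn]
        exact hQ.fg _
    · refine (hQ.lim.comp (tendsto_add_atTop_nat 1)).congr' ?_
      filter_upwards [eventually_ge_atTop 1] with n hn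
      rw [hP1 n hn]
      rfl
  have dP : ∀ n, Df (S.G X') (P n) := fun n => by
    rcases Nat.eq_zero_or_pos n with rfl | hn
    · exact Df.top
    · rw [hP1 n hn]
      exact dQ _
  obtain ⟨η, h0, hle', hη⟩ := S.book P Q X' hX' hP hQ dP dQ
  have hFη : S.Full (Set.Iio η) := full_of_Iio fun x hx => lt_of_lt_of_le hx h0
  have hη' : S.G (Set.Iio η) ⊆ S.G Set.univ := gs_mono _ _ (Set.subset_univ _)
  have hb : Base (S.G (Set.Iio η)) (Set.range Q) :=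
    base_range hQ.anti fun n => (dQ n).mono (gs_mono _ _ hle')
  by_cases hn : NS (S.G (Set.Iio η)) (Set.range Q)
  · have hrat : ∀ ε : ℝ, 0 < ε → ∀ᶠ n in atTop, rk (P n) ≤ ε * rk (Q n) := fun ε hε => by
      obtain ⟨m, hm'⟩ := exists_nat_one_div_lt hε
      filter_upwards [eventually_ge_atTop 1, eventually_ge_atTop m] with n h1 h2
      rw [hP1 n h1]
      refine (hr n).trans ?_
      rw [div_eq_mul_one_div, mul_comm]
      refine mul_le_mul_of_nonneg_right (le_trans ?_ hm'.le) (rk_nonneg _)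
      have : (m : ℝ) ≤ n := by exact_mod_cast h2
      exact one_div_le_one_div_of_le (by positivity) (by linarith)
    obtain ⟨e1, e2⟩ := hη (hFη.cm hw) (Or.inr
      ⟨hrat, hne, sm_up hw (isLowerSet_Iio η) hC hF hle' hQ dQ hm hn, hn⟩)
    have hgl := gl (S.cl_Iio η) (lt_irrefl η) (S.dep_lt η)
    rw [e1, e2] at hgl
    exact absurd hu (shift_not_uf hgl hP1 hlt
      (Set.insert_subset (gs_mem _ _ (Set.mem_univ η)) hη') hf hE')
  · simp only [NS, not_forall, not_not] at hn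
    obtain ⟨f, h1, h2, h3⟩ := hn
    have h4 := ex_up hw isLowerSet_univ (S.cl_Iio η) hFη (Set.subset_univ _) (hb.img h1)
      (hQ.sml.img hb f) h3
    have h5 : ⊥ ∉ img f (Set.range Q) := h2.bot_not_mem (germ_img f _)
    obtain ⟨r, r1, r2, r3⟩ := key1 hw ((hb.img h1).mono hη')
      ((Set.countable_range Q).image _) (hQ.sml.img hb f) h5 h4
    have h6 : NG (S.G Set.univ) (Set.range Q) (img f (Set.range Q)) :=
      ⟨f, h1.mono hη', germ_img f _, h2⟩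
    refine (h6.comp hQ.dct r1 r2 ?_).eqv hE'
    exact (h4.one r1.ker).resolve_left fun ⟨U, hU, h⟩ => r3 U hU h

end Sys

end Pool.Agent.Lib.MP_57313b_al.Zf
end

-- part Pool.Agent.Lib.MP_57313b_al.Zf.Keys2
section

/-!
# Every uniform filter has a nonzero germ to the base point
-/

set_option autoImplicit false

namespace Pool.Agent.Lib.MP_57313b_al.Zf

open Filter Topology

set_option linter.unusedSectionVars false

variable {Ω : Type} [Ring Ω] [Algebra F Ω] [RK Ω] {w : ℕ → En Ω}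
variable {ι : Type} [LinearOrder ι] [WellFoundedLT ι] {S : Sys w ι}

namespace Sys

/-- members of small rank have a countable support -/
lemma keys2_small {𝒢 : Set (Sub Ω)} (hb : Base (S.G Set.univ) 𝒢) (hs : Sml 𝒢) :
    ∃ D : Set ι, D.Countable ∧ ∀ X, D ⊆ X → Sml {K | K ∈ 𝒢 ∧ Df (S.G X) K} := by
  have h : ∀ n : ℕ, ∃ U ∈ 𝒢, rk U < 1 / ((n : ℝ) + 1) := fun n => hs _ (by positivity)
  choose U h1 h2 using h
  obtain ⟨D, hD, hD'⟩ := exists_supp (S := S) (Set.countable_range U) (by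
    rintro _ ⟨n, rfl⟩
    exact hb.2 _ (h1 n))
  refine ⟨D, hD, fun X hX ε hε => ?_⟩
  obtain ⟨n, hn⟩ := exists_nat_one_div_lt hε
  exact ⟨U n, ⟨h1 n, (hD' _ ⟨n, rfl⟩).mono (gs_mono _ _ hX)⟩, (h2 n).trans hn⟩

/-- closure under witnesses for definable submodules -/
lemma keys2_close {E : ℕ → Type} [∀ r, AddCommGroup (E r)] [∀ r, Module Ω (E r)]
    [∀ r, Amb Ω (E r)] (p : ∀ r, Submodule Ω (E r) → Set ι → Prop)
    (hm : ∀ r Z X Y, p r Z X → X ⊆ Y → p r Z Y)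
    (h : ∀ r Z, Df (S.G Set.univ) Z → ∃ s : Set ι, s.Finite ∧ p r Z s) {D : Set ι}
    (hD : D.Countable) : ∃ X, D ⊆ X ∧ X.Countable ∧ S.Cl X ∧ S.Full X ∧
      ∀ r Z, Df (S.G X) Z → p r Z X := by
  have h' : ∀ t : Σ r, Submodule Ω (E r), ∃ s : Set ι, s.Finite ∧
      (Df (S.G Set.univ) t.2 → p t.1 t.2 s) := fun t => by
    by_cases ht : Df (S.G Set.univ) t.2
    · obtain ⟨s, h1, h2⟩ := h _ _ ht
      exact ⟨s, h1, fun _ => h2⟩
    · exact ⟨∅, Set.finite_empty, fun h => absurd h ht⟩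
  choose wit h1 h2 using h'
  obtain ⟨X, x1, x2, x3, x4, x5⟩ := exists_full (S := S)
    (fun (t : Σ r, Submodule Ω (E r)) X => Df (S.G X) t.2) (fun t X ht => ht.supp_gs)
    (fun s hs => by
      have : {t : Σ r, Submodule Ω (E r) | Df (S.G s) t.2} =
          ⋃ r, Sigma.mk r '' {Z | Df (S.G s) Z} := by
        ext ⟨r, Z⟩
        simp only [Set.mem_ofPred_eq, Set.mem_iUnion, Set.mem_image]
        constructor
        · exact fun h => ⟨r, Z, h, rfl⟩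
        · rintro ⟨r', Z', h, e⟩
          cases e
          exact h
      rw [this]
      exact Set.countable_iUnion fun r =>
        (countable_df (gs_countable _ _ hs.countable)).image _)
    wit (fun t => (h1 t).countable) hD
  exact ⟨X, x1, x2, x3, x4, fun r Z hZ => hm r Z _ _
    (h2 ⟨r, Z⟩ (hZ.mono (gs_mono _ _ (Set.subset_univ _)))) (x5 ⟨r, Z⟩ hZ)⟩

/-- Maximal filters are countably generated.  `𝒢` is small (`Good.sml`); let `D` contain supports of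
members of rank `< 1 / (n+1)`.  By `MaxF.dich`:
* `Ex`: close under witnesses for all `Z ≤ Fin r → Ω` (a member giving a direction or a trivial
  intersection), so the part `𝒢₀` definable over `X` is a point over `X` (`Ex.of_fin`), hence over
  `univ` (`ex_up`); use `Ex.one`.
* a transcendental germ `a`: put its support into `D` and close under witnesses of maximality, so
  `MaxF (S.G X) 𝒢₀`, and `ZP` over `univ` by `zp_up`.  For `K ∈ 𝒢` the second alternative is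
  impossible since `U ⊓ ⨅ i ≤ k, K.comap (a ^ i) ∈ 𝒢`. -/
theorem max_cg (hw : BW w) {𝒢 : Set (Sub Ω)} (hm : MaxF (S.G Set.univ) 𝒢) :
    ∃ X : Set ι, X.Countable ∧ ∀ U ∈ 𝒢, ∃ V ∈ 𝒢, Df (S.G X) V ∧ V ≤ U := by
  have hu : S.Full Set.univ := full_of_Iio (Set.subset_univ _)
  have hf := hm.fil
  obtain ⟨D, hD, hD'⟩ := keys2_small hm.base ((hu.good hw).sml hw hm)
  rcases hm.dich (hu.cm hw) with he | ⟨a, ha, hz⟩
  · obtain ⟨X, x1, x2, x3, x4, x5⟩ := keys2_close (S := S) (E := fun r => Fin r → Ω)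
      (fun r Z X => ∃ U ∈ 𝒢, Df (S.G X) U ∧
        ((∃ l : Fin r → F, l ≠ 0 ∧ ∀ u ∈ U, dir l u ∈ Z) ∨ Z ⊓ pw (Fin r) U = ⊥))
      (fun r Z X Y ⟨U, h1, h2, h3⟩ h => ⟨U, h1, h2.mono (gs_mono _ _ h), h3⟩)
      (fun r Z hZ => by
        by_cases hd : HasDir 𝒢 Z
        · obtain ⟨l, h1, U, h2, h3⟩ := hd
          obtain ⟨s, -, h4, h5⟩ := (hf.df U h2).supp_gs
          exact ⟨s, h4, U, h2, h5, Or.inl ⟨l, h1, h3⟩⟩
        · obtain ⟨U, h2, h3⟩ := he _ Z hZ hd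
          obtain ⟨s, -, h4, h5⟩ := (hf.df U h2).supp_gs
          exact ⟨s, h4, U, h2, h5, Or.inr h3⟩) hD
    have hf' := hf.restrict (gs_mono w S.b (Set.subset_univ X))
    have he' : Ex (S.G X) {K | K ∈ 𝒢 ∧ Df (S.G X) K} := Ex.of_fin fun r Z hZ hd => by
      obtain ⟨U, h1, h2, ⟨l, h3, h4⟩ | h3⟩ := x5 r Z hZ
      · exact absurd ⟨l, h3, U, ⟨h1, h2⟩, h4⟩ hd
      · exact ⟨U, ⟨h1, h2⟩, h3⟩
    have he'' := ex_up hw isLowerSet_univ x3 x4 (Set.subset_univ _) hf'.base (hD' X x1) he'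
    refine ⟨X, x2, fun U hU => ?_⟩
    rcases he''.one (hf.df U hU) with ⟨V, h1, h2⟩ | ⟨V, h1, h2⟩
    · exact ⟨V, h1.1, h1.2, h2⟩
    · exact absurd (h2 ▸ hf.inf V h1.1 U hU) hf.prop
  · obtain ⟨s, -, hs, ha'⟩ := Df.supp_gs ha
    obtain ⟨X, x1, x2, x3, x4, x5⟩ := keys2_close (S := S) (E := fun _ => Ω)
      (fun _ K X => K ∈ 𝒢 ∨ ∃ U ∈ 𝒢, Df (S.G X) U ∧ U ⊓ K = ⊥)
      (fun r Z X Y h h' => h.imp id fun ⟨U, h1, h2, h3⟩ => ⟨U, h1, h2.mono (gs_mono _ _ h'), h3⟩)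
      (fun r K hK => by
        rcases hm.max K hK with h | ⟨U, h1, h2⟩
        · exact ⟨∅, Set.finite_empty, Or.inl h⟩
        · obtain ⟨s, -, h4, h5⟩ := (hf.df U h1).supp_gs
          exact ⟨s, h4, Or.inr ⟨U, h1, h5, h2⟩⟩) (hD.union hs.countable)
    have hf' := hf.restrict (gs_mono w S.b (Set.subset_univ X))
    have haX : Dm (S.G X) a := Df.mono ha' (gs_mono _ _ (Set.subset_union_right.trans x1))
    have hm' : MaxF (S.G X) {K | K ∈ 𝒢 ∧ Df (S.G X) K} := ⟨hf'.base, hf'.prop, fun K hK =>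
      (x5 0 K hK).imp (fun h => ⟨h, hK⟩) fun ⟨U, h1, h2, h3⟩ => ⟨U, ⟨h1, h2⟩, h3⟩⟩
    have hc : ∀ (f : En Ω), Dm (S.G Set.univ) f → Germ f 𝒢 𝒢 → ∀ U ∈ 𝒢, U.comap f ∈ 𝒢 :=
      fun f h1 h2 U hU => by
        obtain ⟨V, h3, h4⟩ := h2 U hU
        exact hf.up V h3 _ ((hf.df U hU).comap h1) (Submodule.map_le_iff_le_comap.1 h4)
    have hz' := zp_up hw x3 x4 hf'.base (hD' X (Set.subset_union_left.trans x1)) haX
      (fun U hU => ⟨U.comap a, ⟨hc a ha hz.1 U hU.1, hU.2.comap haX⟩, Submodule.map_comap_le _ _⟩)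
      (fun m c hc' => (hm'.max _ (haX.pol c).ker).resolve_left fun h => by
        obtain ⟨U, h1, h2⟩ := (hz.2 m c hc').1
        exact hf.prop (h2 ▸ hf.inf U h1 _ h.1)) (hm'.zp a)
    refine ⟨X, x2, fun K hK => ?_⟩
    rcases hz' K (hf.df K hK) with ⟨V, h1, h2⟩ | ⟨U, h1, k, h2⟩
    · exact ⟨V, h1.1, h1.2, h2⟩
    · obtain ⟨V, h3, h4⟩ := hm.base.1.fin (U := fun i : Fin (k + 1) => K.comap (a ^ (i : ℕ)))
        fun i => hc _ (ha.pow i) (hz.1.pow i) K hK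
      refine absurd ?_ hf.prop
      have : U ⊓ V = ⊥ := eq_bot_iff.2 fun u hu =>
        h2 u hu.1 fun i hi => h4 ⟨i, Nat.lt_succ_of_le hi⟩ hu.2
      exact this ▸ hf.inf U h1.1 V h3

theorem max_ng (hw : BW w) {𝒢 : Set (Sub Ω)} (hm : MaxF (S.G Set.univ) 𝒢) :
    NG (S.G Set.univ) 𝒢 (Set.range (WF w)) := by
  obtain ⟨X, hX, hg⟩ := max_cg hw hm
  exact key2 hw hm.fil hm.uf (((full_of_Iio (Set.subset_univ _)).good hw).sml hw hm) hX hg

/-- For definable `K ∉ 𝓕` let `y` be a projection along `K`, `𝒢 ⊇ img y 𝓕` maximal, `c` the reverse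
(`MaxF.reverse`) of the germ from `max_ng`. -/
lemma exists_rev (hw : BW w) {𝓕 : Set (Sub Ω)} (hf : Fil (S.G Set.univ) 𝓕) {K : Sub Ω}
    (hK : Df (S.G Set.univ) K) (hn : K ∉ 𝓕) : ∃ c : En Ω, Dm (S.G Set.univ) c ∧
      (∀ V ∈ 𝓕, ∃ j, (WF w j).map c ≤ V ⊔ K) ∧ ∀ j, ¬ (WF w j).map c ≤ K := by
  have hu : S.Full Set.univ := full_of_Iio (Set.subset_univ _)
  obtain ⟨y, y1, y2, y3⟩ := (hu.cm hw).coproj hK
  obtain ⟨𝒢, g1, g2⟩ := exists_maxF (hf.base.img y1) (by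
    rintro ⟨V, h1, h2⟩
    refine hn (hf.up V h1 K hK ?_)
    rw [← y2]
    exact LinearMap.le_ker_iff_map.2 h2)
  obtain ⟨c, c1, c2, c3⟩ := g2.reverse (hu.cm hw) hw.flag.dct (ex_W hw) (max_ng hw g2)
  refine ⟨c, c1, fun V hV => ?_, fun j hj => ?_⟩
  · obtain ⟨_, ⟨j, rfl⟩, h⟩ := c2 _ (g1 ⟨V, hV, rfl⟩)
    refine ⟨j, h.trans ?_⟩
    rintro _ ⟨v, hv, rfl⟩
    have : y v = v - (v - y v) := by abel
    rw [this]
    refine Submodule.sub_mem _ (Submodule.mem_sup_left hv) (Submodule.mem_sup_right ?_)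
    rw [← y2, LinearMap.mem_ker, map_sub, y3, sub_self]
  · obtain ⟨_, ⟨j', rfl⟩, h⟩ := c2 _ (g1 ⟨⊤, hf.top, rfl⟩)
    refine c3 _ ⟨max j j', rfl⟩ fun u hu => ?_
    obtain ⟨v, -, hv⟩ := h ⟨u, hw.flag.anti (le_max_right j j') hu, rfl⟩
    have h1 : c u ∈ K := hj ⟨u, hw.flag.anti (le_max_left j j') hu, rfl⟩
    rw [← y2, LinearMap.mem_ker, ← hv, y3] at h1
    rw [LinearMap.mem_ker, ← hv, h1]

/-- All filters are countably generated.  Close under the supports of the maps `c` of `exists_rev`.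
For `U ∈ 𝓕` let `V` be its largest submodule definable over `X` (`largest`); if `V ∉ 𝓕` then
`(WF w j).map c ≤ U` is definable over `X`, so it lies in `V`. -/
theorem fil_cg (hw : BW w) {𝓕 : Set (Sub Ω)} (hf : Fil (S.G Set.univ) 𝓕) :
    ∃ X : Set ι, X.Countable ∧ S.Cl X ∧ ∀ U ∈ 𝓕, ∃ V ∈ 𝓕, Df (S.G X) V ∧ V ≤ U := by
  obtain ⟨X, -, x2, x3, -, x5⟩ := keys2_close (S := S) (E := fun _ => Ω)
    (fun _ K X => K ∈ 𝓕 ∨ ∃ c : En Ω, Dm (S.G X) c ∧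
      (∀ V ∈ 𝓕, ∃ j, (WF w j).map c ≤ V ⊔ K) ∧ ∀ j, ¬ (WF w j).map c ≤ K)
    (fun r Z X Y h h' => h.imp id fun ⟨c, h1, h2⟩ => ⟨c, h1.mono (gs_mono _ _ h'), h2⟩)
    (fun r K hK => by
      by_cases h : K ∈ 𝓕
      · exact ⟨∅, Set.finite_empty, Or.inl h⟩
      · obtain ⟨c, h1, h2⟩ := exists_rev hw hf hK h
        obtain ⟨s, -, h4, h5⟩ := Df.supp_gs h1
        exact ⟨s, h4, Or.inr ⟨c, h5, h2⟩⟩) Set.countable_empty
  refine ⟨X, x2, x3, fun U hU => ?_⟩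
  obtain ⟨V, h1, h2, h3⟩ := largest x3 (hf.df U hU)
  rcases x5 0 V h1 with h | ⟨c, c1, c2, c3⟩
  · exact ⟨V, h, h1, h2⟩
  · obtain ⟨j, hj⟩ := c2 U hU
    exact absurd (h3 _ ((df_WF (gs_base _ _ _) j).map c1) (hj.trans (sup_le le_rfl h2))) (c3 j)

/-- `fil_cg`, `uf_small` with two fresh free letters, `key2` -/
theorem main (hw : BW w) {𝓕 : Set (Sub Ω)} (hf : Fil (S.G Set.univ) 𝓕)
    (hu : UF (S.G Set.univ) 𝓕) : NG (S.G Set.univ) 𝓕 (Set.range (WF w)) := by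
  obtain ⟨X, x1, x2, x3⟩ := fil_cg hw hf
  obtain ⟨a, a1, a2⟩ := exists_fresh (S := S) x1
  obtain ⟨b, b1, b2⟩ := exists_fresh (S := S) (x1.insert a)
  have h2 := free_cl (x2.insert_free a1) b1 b2
  change Free _ (GS w S.b _) at h2
  rw [gs_insert] at h2
  refine key2 hw hf hu (uf_small hw (gs_base _ _ X) (free_cl x2 a1 a2) h2 ?_ hf hu x3) x1 x3
  exact Set.insert_subset (gs_mem _ _ (Set.mem_univ _))
    (Set.insert_subset (gs_mem _ _ (Set.mem_univ _)) (gs_mono _ _ (Set.subset_univ _)))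

end Sys

end Pool.Agent.Lib.MP_57313b_al.Zf
end

-- part Pool.Agent.Lib.MP_57313b_al.Zf.Final
section

/-!
# The example
-/

set_option autoImplicit false

namespace Pool.Agent.Lib.MP_57313b_al.Zf

open Filter Topology

set_option linter.unusedSectionVars false

theorem example_exists :
    ∃ (R : Type) (_ : Ring R),
      (∀ a : R, ∃ x : R, a * x * a = a) ∧ IsSimpleRing R ∧ ¬ IsArtinianRing R ∧
      ∃ (M : Type) (_ : AddCommGroup M) (_ : Module Rᵐᵒᵖ M),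
        Module.Injective Rᵐᵒᵖ M ∧ Nontrivial M ∧
        (∀ A B : Submodule Rᵐᵒᵖ M, IsCompl A B → A = ⊥ ∨ A = ⊤) ∧
        ∀ (N : Type) [AddCommGroup N] [Module Rᵐᵒᵖ N],
          Module.Injective Rᵐᵒᵖ N → Nontrivial N →
          (∀ A B : Submodule Rᵐᵒᵖ N, IsCompl A B → A = ⊥ ∨ A = ⊤) →
          Nonempty (N ≃ₗ[Rᵐᵒᵖ] M) := by
  obtain ⟨ι, _, _, hb, ⟨η₀, hu⟩, code, hcode⟩ := exists_index
  obtain ⟨Ω, _, _, _, w, y, hs, hc, h0, hmul, hr, hmin, hctr⟩ := exists_raw (ι × ℕ)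
  have hw : BW fun k => rm (w k) := by
    refine ⟨?_, fun j k => ?_, fun n => ?_⟩
    · ext
      simp [h0]
    · ext
      simp [hmul, max_comm]
    · rw [rk_range_rm, hr]
  obtain ⟨S⟩ := exists_sys hw hc hb η₀ hu code hcode (fun a => rm (y a))
    (free_of_min hmin hctr h0)
  have hg : Good (fun k => rm (w k)) (S.G Set.univ) :=
    (Sys.full_of_Iio (Set.subset_univ _)).good hw
  exact finish (dr_reg (hg.cm hw)) (dr_simple hg hw) (drw hg.base)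
    (fun n => by rw [drw_mul _ hw, max_eq_right n.le_succ]) (drw_ne hg.base hw)
    (fun n => by rw [drw_mul _ hw, max_self])
    (dr_onePt hg hw (Sys.ex_W hw) fun _ => Sys.main hw)

end Pool.Agent.Lib.MP_57313b_al.Zf
end
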