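import Mathlib

-- part Pool.Agent.Lib.MP_57313b_al.Zf.Defs
section

/-!
# A simple regular non-artinian ring with one indecomposable injective module: definitions

`Ω` is a regular rank ring (class `RK`).  All modules are left `Ω`-modules, `En Ω` is the ring of
left-linear maps `Ω → Ω` (right multiplications).  The ring we construct is the ring of all maps in
`En Ω` whose graph is definable (`Dm`) from a transfinite sequence of generic letters.
-/

set_option autoImplicit false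

namespace Pool.Agent.Lib.MP_57313b_al.Zf

open Filter Topology

noncomputable section

/-- the ground field: countable and algebraically closed -/
def F : Type := AlgebraicClosure ℚ

instance : Field F := inferInstanceAs (Field (AlgebraicClosure ℚ))
instance : IsAlgClosed F := inferInstanceAs (IsAlgClosed (AlgebraicClosure ℚ))
instance : CharZero F := inferInstanceAs (CharZero (AlgebraicClosure ℚ))
instance : Countable F := by
  have h := @Algebra.IsAlgebraic.cardinalMk_le_max ℚ _ _ (AlgebraicClosure ℚ) _ _ _ _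
    (AlgebraicClosure.isAlgebraic ℚ)
  rw [Cardinal.mk_denumerable ℚ, max_self] at h
  exact Cardinal.mk_le_aleph0_iff.1 h

/-- a faithful Sylvester matrix rank function together with generalized inverses -/
class RK (Ω : Type) [Ring Ω] where
  mr : ∀ {a b : Type} [Fintype a] [Fintype b], Matrix a b Ω → ℝ
  mr_nonneg : ∀ {a b : Type} [Fintype a] [Fintype b] (A : Matrix a b Ω), 0 ≤ mr A
  mr_mul_left : ∀ {a b c : Type} [Fintype a] [Fintype b] [Fintype c] (A : Matrix a b Ω)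
    (B : Matrix b c Ω), mr (A * B) ≤ mr A
  mr_mul_right : ∀ {a b c : Type} [Fintype a] [Fintype b] [Fintype c] (A : Matrix a b Ω)
    (B : Matrix b c Ω), mr (A * B) ≤ mr B
  mr_block : ∀ {a b c d : Type} [Fintype a] [Fintype b] [Fintype c] [Fintype d]
    (A : Matrix a b Ω) (B : Matrix c d Ω), mr (Matrix.fromBlocks A 0 0 B) = mr A + mr B
  mr_one : mr (Matrix.of fun (_ _ : Unit) => (1 : Ω)) = 1
  mr_eq_zero : ∀ {a b : Type} [Fintype a] [Fintype b] (A : Matrix a b Ω), mr A = 0 → A = 0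
  ginv : ∀ {a b : Type} [Fintype a] [Fintype b] (A : Matrix a b Ω),
    ∃ B : Matrix b a Ω, A * B * A = A

export RK (mr)

/-- rank of one element -/
def r1 {Ω : Type} [Ring Ω] [RK Ω] (x : Ω) : ℝ := mr (Matrix.of fun (_ _ : Unit) => x)

/-- ambient modules: finite free modules with chosen coordinates -/
class Amb (Ω : Type) [Ring Ω] (E : Type) [AddCommGroup E] [Module Ω E] where
  I : Type
  fin : Finite I
  e : E ≃ₗ[Ω] (I → Ω)

attribute [instance] Amb.fin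

instance Amb.fintype (Ω : Type) [Ring Ω] (E : Type) [AddCommGroup E] [Module Ω E]
    [Amb Ω E] : Fintype (Amb.I Ω E) := Fintype.ofFinite _

section inst
variable {Ω : Type} [Ring Ω]

instance ambSelf : Amb Ω Ω :=
  ⟨Unit, inferInstance, (LinearEquiv.funUnique Unit Ω Ω).symm⟩

instance ambProd {E E' : Type} [AddCommGroup E] [Module Ω E] [AddCommGroup E']
    [Module Ω E'] [Amb Ω E] [Amb Ω E'] : Amb Ω (E × E') :=
  ⟨Amb.I Ω E ⊕ Amb.I Ω E', inferInstance,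
    (Amb.e.prodCongr Amb.e).trans (LinearEquiv.sumArrowLequivProdArrow _ _ Ω Ω).symm⟩

instance ambPi {σ E : Type} [Finite σ] [AddCommGroup E] [Module Ω E] [Amb Ω E] :
    Amb Ω (σ → E) :=
  ⟨σ × Amb.I Ω E, inferInstance,
    (LinearEquiv.piCongrRight fun _ => Amb.e).trans (LinearEquiv.curry Ω Ω σ _).symm⟩

end inst

/-- left-linear maps `Ω → Ω` -/
abbrev En (Ω : Type) [Ring Ω] : Type := Ω →ₗ[Ω] Ω

/-- left ideals -/
abbrev Sub (Ω : Type) [Ring Ω] : Type := Submodule Ω Ω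

/-- sequences of subspaces of `F ^ ρ` -/
abbrev Sq (ρ : Type) : Type := ℕ → Submodule F (ρ → F)

section basic
variable {Ω : Type} [Ring Ω]
variable {E E' : Type} [AddCommGroup E] [Module Ω E] [AddCommGroup E'] [Module Ω E']

/-- right multiplication -/
def rm (x : Ω) : En Ω := LinearMap.toSpanSingleton Ω Ω x

@[simp] lemma rm_apply (x u : Ω) : rm x u = u * x := rfl

/-- coordinatewise application -/
def ap {ρ : Type} (b : En Ω) : (ρ → Ω) →ₗ[Ω] (ρ → Ω) := b.compLeft ρ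

@[simp] lemma ap_apply {ρ : Type} (b : En Ω) (v : ρ → Ω) (i : ρ) : ap b v i = b (v i) := rfl

/-- the power `U ^ ρ` -/
def pw (ρ : Type) (U : Sub Ω) : Submodule Ω (ρ → Ω) := Submodule.pi Set.univ fun _ => U

@[simp] lemma mem_pw {ρ : Type} {U : Sub Ω} {v : ρ → Ω} : v ∈ pw ρ U ↔ ∀ i, v i ∈ U := by
  simp [pw, Submodule.mem_pi]

/-- level `j` of a pair of flags -/
def lev (ρ : Type) (P Q : ℕ → Sub Ω) (j : ℕ) : Submodule Ω ((ρ → Ω) × (ρ → Ω)) :=
  (pw ρ (P j)).prod (pw ρ (Q j))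

@[simp] lemma mem_lev {ρ : Type} {P Q : ℕ → Sub Ω} {j : ℕ} {z : (ρ → Ω) × (ρ → Ω)} :
    z ∈ lev ρ P Q j ↔ (∀ i, z.1 i ∈ P j) ∧ ∀ i, z.2 i ∈ Q j := by
  simp [lev]

/-- the flag of a free letter -/
def bf (Ω : Type) [Ring Ω] : ℕ → Sub Ω := fun n => if n = 0 then ⊤ else ⊥

/-- `{x | ∃ u ∈ V, (u, x) ∈ N}` -/
def sec (N : Submodule Ω (E × E')) (V : Submodule Ω E) : Submodule Ω E' :=
  (N ⊓ V.prod ⊤).map (LinearMap.snd Ω E E')

@[simp] lemma mem_sec {N : Submodule Ω (E × E')} {V : Submodule Ω E} {x : E'} :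
    x ∈ sec N V ↔ ∃ u ∈ V, (u, x) ∈ N := by
  constructor
  · rintro ⟨⟨u, x'⟩, ⟨h1, h2⟩, rfl⟩
    exact ⟨u, h2.1, h1⟩
  · rintro ⟨u, h1, h2⟩
    exact ⟨(u, x), ⟨h2, h1, trivial⟩, rfl⟩

/-- `{u | ∃ x ∈ V, (u, x) ∈ N}` -/
def dom (N : Submodule Ω (E × E')) (V : Submodule Ω E') : Submodule Ω E :=
  (N ⊓ (⊤ : Submodule Ω E).prod V).map (LinearMap.fst Ω E E')

@[simp] lemma mem_dom {N : Submodule Ω (E × E')} {V : Submodule Ω E'} {u : E} :
    u ∈ dom N V ↔ ∃ x ∈ V, (u, x) ∈ N := by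
  constructor
  · rintro ⟨⟨u', x⟩, ⟨h1, h2⟩, rfl⟩
    exact ⟨x, h2.2, h1⟩
  · rintro ⟨x, h1, h2⟩
    exact ⟨(u, x), ⟨h2, trivial, h1⟩, rfl⟩

/-- `{u | (u, 0) ∈ N}` -/
def lf (N : Submodule Ω (E × E')) : Submodule Ω E := N.comap (LinearMap.inl Ω E E')

@[simp] lemma mem_lf {N : Submodule Ω (E × E')} {u : E} : u ∈ lf N ↔ (u, 0) ∈ N := Iff.rfl

/-- `{x | (0, x) ∈ N}` -/
def rt (N : Submodule Ω (E × E')) : Submodule Ω E' := N.comap (LinearMap.inr Ω E E')

@[simp] lemma mem_rt {N : Submodule Ω (E × E')} {x : E'} : x ∈ rt N ↔ (0, x) ∈ N := Iff.rfl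

/-- a directed nonempty family of submodules -/
def Dct (𝒱 : Set (Submodule Ω E)) : Prop :=
  𝒱.Nonempty ∧ ∀ U ∈ 𝒱, ∀ U' ∈ 𝒱, ∃ V ∈ 𝒱, V ≤ U ⊓ U'

/-- `f` maps the filter of `𝒰` into the filter of `𝒱` -/
def Germ (f : E →ₗ[Ω] E') (𝒰 : Set (Submodule Ω E)) (𝒱 : Set (Submodule Ω E')) : Prop :=
  ∀ V ∈ 𝒱, ∃ U ∈ 𝒰, U.map f ≤ V

/-- `f` kills no member of `𝒰` -/
def NZ (f : E →ₗ[Ω] E') (𝒰 : Set (Submodule Ω E)) : Prop := ∀ U ∈ 𝒰, ¬ U ≤ LinearMap.ker f

/-- `𝒰` is finer than `𝒱` -/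
def Cof (𝒰 𝒱 : Set (Submodule Ω E)) : Prop := ∀ V ∈ 𝒱, ∃ U ∈ 𝒰, U ≤ V

/-- the two families generate the same filter -/
def Eqv (𝒰 𝒱 : Set (Submodule Ω E)) : Prop := Cof 𝒰 𝒱 ∧ Cof 𝒱 𝒰

/-- image of a family -/
def img (f : E →ₗ[Ω] E') (𝒰 : Set (Submodule Ω E)) : Set (Submodule Ω E') :=
  (fun U => U.map f) '' 𝒰

/-- the family of powers -/
def pws (ρ : Type) (𝒰 : Set (Sub Ω)) : Set (Submodule Ω (ρ → Ω)) := pw ρ '' 𝒰

/-- the family of products -/
def prods (𝒰 : Set (Submodule Ω E)) (𝒱 : Set (Submodule Ω E')) : Set (Submodule Ω (E × E')) :=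
  Set.image2 (fun U V => U.prod V) 𝒰 𝒱

/-- dyadic rationals -/
def Dy (r : ℝ) : Prop := ∃ (m : ℤ) (k : ℕ), r = m / 2 ^ k

end basic

section rank
variable {Ω : Type} [Ring Ω] [RK Ω]
variable {E : Type} [AddCommGroup E] [Module Ω E] [Amb Ω E]

/-- the rank of a submodule: the supremum of the ranks of matrices with rows in it -/
def rk (K : Submodule Ω E) : ℝ :=
  sSup {r | ∃ (m : ℕ) (M : Matrix (Fin m) (Amb.I Ω E) Ω),
    (∀ i, (Amb.e (Ω := Ω) (E := E)).symm (M i) ∈ K) ∧ mr M = r}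

/-- the family has members of arbitrarily small rank -/
def Sml (𝒱 : Set (Submodule Ω E)) : Prop := ∀ ε : ℝ, 0 < ε → ∃ U ∈ 𝒱, rk U < ε

/-- decreasing sequences of finitely generated left ideals with rank tending to zero -/
structure Flag (Q : ℕ → Sub Ω) : Prop where
  zero : Q 0 = ⊤
  anti : Antitone Q
  fg : ∀ n, (Q n).FG
  lim : Tendsto (fun n => rk (Q n)) atTop (𝓝 0)

/-- `K` and `K'` are `ε`-close -/
def Cls (ε : ℝ) (K K' : Submodule Ω E) : Prop :=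
  rk K ≤ rk (K ⊓ K') + ε ∧ rk K' ≤ rk (K ⊓ K') + ε

/-- completeness for the rank metric -/
def Cpl (Ω : Type) [Ring Ω] [RK Ω] : Prop :=
  ∀ (s : ℕ → Ω) (r : ℕ → ℝ), Tendsto r atTop (𝓝 0) → (∀ m m', m ≤ m' → r1 (s m' - s m) ≤ r m) →
    ∃ b : Ω, Tendsto (fun m => r1 (b - s m)) atTop (𝓝 0)

/-- the base letters: nested idempotents of rank `2 ^ (-n)` -/
structure BW (w : ℕ → En Ω) : Prop where
  zero : w 0 = LinearMap.id
  comp : ∀ j k, w j ∘ₗ w k = w (max j k)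
  rank : ∀ n, rk (LinearMap.range (w n)) = 1 / 2 ^ n

end rank

/-- the base flag -/
def WF {Ω : Type} [Ring Ω] (w : ℕ → En Ω) : ℕ → Sub Ω := fun n => LinearMap.range (w n)

section scalar
variable {Ω : Type} [Ring Ω] [Algebra F Ω]
variable {E E' : Type} [AddCommGroup E] [Module Ω E] [AddCommGroup E'] [Module Ω E']

/-- `u ↦ u ℓ` -/
def dir {ρ : Type} (l : ρ → F) : Ω →ₗ[Ω] (ρ → Ω) := LinearMap.pi fun i => l i • LinearMap.id

@[simp] lemma dir_apply {ρ : Type} (l : ρ → F) (u : Ω) (i : ρ) : dir l u i = l i • u := rfl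

/-- `v ↦ ∑ φ i • v i` -/
def dot {ρ : Type} [Fintype ρ] (φ : ρ → F) : (ρ → Ω) →ₗ[Ω] Ω :=
  ∑ i, φ i • LinearMap.proj i

lemma dot_apply {ρ : Type} [Fintype ρ] (φ : ρ → F) (v : ρ → Ω) : dot φ v = ∑ i, φ i • v i := by
  simp [dot]

/-- right multiplication by a matrix over `F` -/
def mat {ρ ρ' : Type} [Fintype ρ] (M : Matrix ρ ρ' F) : (ρ → Ω) →ₗ[Ω] (ρ' → Ω) :=
  LinearMap.pi fun j => dot fun i => M i j

lemma mat_apply {ρ ρ' : Type} [Fintype ρ] (M : Matrix ρ ρ' F) (v : ρ → Ω) (j : ρ') :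
    mat M v j = ∑ i, M i j • v i := by
  simp [mat, dot_apply]

/-- `φ` annihilates `Λ` -/
def Perp {ρ : Type} [Fintype ρ] (φ : ρ → F) (Λ : Submodule F (ρ → F)) : Prop :=
  ∀ l ∈ Λ, φ ⬝ᵥ l = 0

/-- `U ⊗ Λ` -/
def ten {ρ : Type} (U : Sub Ω) (Λ : Submodule F (ρ → F)) : Submodule Ω (ρ → Ω) :=
  ⨆ l ∈ Λ, U.map (dir l)

/-- `∑ Q n ⊗ Λ n` -/
def fl {ρ : Type} (Q : ℕ → Sub Ω) (Λ : Sq ρ) : Submodule Ω (ρ → Ω) := ⨆ n, ten (Q n) (Λ n)

/-- the box of a sequence of subspaces -/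
def box {ρ : Type} (P Q : ℕ → Sub Ω) (Λ : Sq ρ) : Submodule Ω ((ρ → Ω) × (ρ → Ω)) :=
  (fl P Λ).prod (fl Q Λ)

/-- `Z` contains a direction of the family `𝒰` -/
def HasDir {ρ : Type} (𝒰 : Set (Sub Ω)) (Z : Submodule Ω (ρ → Ω)) : Prop :=
  ∃ l : ρ → F, l ≠ 0 ∧ ∃ U ∈ 𝒰, ∀ u ∈ U, dir l u ∈ Z

/-- polynomial expressions in one endomorphism -/
def pol {m : ℕ} (c : Fin m → F) (a : En Ω) : En Ω := ∑ s, c s • a ^ (s : ℕ)

/-- `a` is a transcendental germ of `𝒢` -/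
def ZD (𝒢 : Set (Sub Ω)) (a : En Ω) : Prop :=
  Germ a 𝒢 𝒢 ∧ ∀ (m : ℕ) (c : Fin m → F), c ≠ 0 →
    (∃ U ∈ 𝒢, U ⊓ LinearMap.ker (pol c a) = ⊥) ∧ Cof 𝒢 (img (pol c a) 𝒢)

variable [Amb Ω E] [Amb Ω E']

/-- points with coordinates in `F` -/
def Pt (Ω : Type) [Ring Ω] [Algebra F Ω] {E : Type} [AddCommGroup E] [Module Ω E] [Amb Ω E]
    (v : E) : Prop :=
  ∀ i, ∃ c : F, Amb.e (Ω := Ω) v i = algebraMap F Ω c

/-- scalar maps: those given by a matrix over `F` -/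
class Sc (f : E →ₗ[Ω] E') : Prop where
  sc : ∀ v, Pt Ω v → Pt Ω (f v)

/-- definable submodules: projections of solution sets of linear pencils with letters in `G` -/
def Df (G : Set (En Ω)) (K : Submodule Ω E) : Prop :=
  ∃ (n m : ℕ) (g : Fin m → En Ω) (α β : Fin m → (Fin n → Ω) →ₗ[Ω] Ω) (π : (Fin n → Ω) →ₗ[Ω] E),
    (∀ j, g j ∈ G ∨ g j = 0) ∧ (∀ j, Sc (α j)) ∧ (∀ j, Sc (β j)) ∧ Sc π ∧
      K = (⨅ j, LinearMap.ker (β j - g j ∘ₗ α j)).map π

/-- definable maps -/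
def Dm (G : Set (En Ω)) (f : E →ₗ[Ω] E') : Prop := Df G f.graph

/-- a directed family of definable submodules -/
def Base (G : Set (En Ω)) (𝒱 : Set (Submodule Ω E)) : Prop := Dct 𝒱 ∧ ∀ U ∈ 𝒱, Df G U

/-- definable left ideals have definable complements -/
def CM (G : Set (En Ω)) : Prop := ∀ K : Sub Ω, Df G K → ∃ C : Sub Ω, Df G C ∧ IsCompl K C

/-- there is a definable nonzero germ from `𝒰` to `𝒱` -/
def NG (G : Set (En Ω)) (𝒰 : Set (Sub Ω)) (𝒱 : Set (Submodule Ω E)) : Prop :=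
  ∃ f : Ω →ₗ[Ω] E, Dm G f ∧ Germ f 𝒰 𝒱 ∧ NZ f 𝒰

/-- `𝒰` is an `F`-point over `G` -/
def Ex (G : Set (En Ω)) (𝒰 : Set (Sub Ω)) : Prop :=
  ∀ (ρ : Type) [Fintype ρ] (Z : Submodule Ω (ρ → Ω)), Df G Z → ¬ HasDir 𝒰 Z →
    ∃ U ∈ 𝒰, Z ⊓ pw ρ U = ⊥

/-- `𝒰` and `𝒱` are two independent `F`-points over `G` -/
def ExJ (G : Set (En Ω)) (𝒰 𝒱 : Set (Sub Ω)) : Prop :=
  ∀ (ρ ρ' : Type) [Fintype ρ] [Fintype ρ'] (Z : Submodule Ω ((ρ → Ω) × (ρ' → Ω))), Df G Z →
    ¬ HasDir 𝒰 (lf Z) → ¬ HasDir 𝒱 (rt Z) →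
      ∃ U ∈ 𝒰, ∃ V ∈ 𝒱, Z ⊓ (pw ρ U).prod (pw ρ' V) = ⊥

/-- no `F`-point in the socle -/
def NS (G : Set (En Ω)) (𝒰 : Set (Sub Ω)) : Prop :=
  ∀ f : En Ω, Dm G f → NZ f 𝒰 → ¬ Ex G (img f 𝒰)

/-- a maximal filter of definable left ideals -/
structure MaxF (G : Set (En Ω)) (𝒢 : Set (Sub Ω)) : Prop where
  base : Base G 𝒢
  prop : ⊥ ∉ 𝒢
  max : ∀ K : Sub Ω, Df G K → K ∈ 𝒢 ∨ ∃ U ∈ 𝒢, U ⊓ K = ⊥

/-- a proper filter of definable left ideals -/
structure Fil (G : Set (En Ω)) (𝓕 : Set (Sub Ω)) : Prop where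
  df : ∀ U ∈ 𝓕, Df G U
  top : ⊤ ∈ 𝓕
  inf : ∀ U ∈ 𝓕, ∀ V ∈ 𝓕, U ⊓ V ∈ 𝓕
  up : ∀ U ∈ 𝓕, ∀ K : Sub Ω, Df G K → U ≤ K → K ∈ 𝓕
  prop : ⊥ ∉ 𝓕

/-- the filter has a uniform quotient -/
def UF (G : Set (En Ω)) (𝓕 : Set (Sub Ω)) : Prop :=
  ∀ K₁ K₂ : Sub Ω, Df G K₁ → Df G K₂ → (∀ U ∈ 𝓕, (K₁ ⊓ U) ⊔ (K₂ ⊓ U) ∈ 𝓕) → K₁ ∈ 𝓕 ∨ K₂ ∈ 𝓕

/-- every definable left ideal contains a member or has trivial `a`-invariant part -/
def ZP (G : Set (En Ω)) (𝒢 : Set (Sub Ω)) (a : En Ω) : Prop :=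
  ∀ K : Sub Ω, Df G K → (∃ U ∈ 𝒢, U ≤ K) ∨
    ∃ U ∈ 𝒢, ∃ k : ℕ, ∀ u ∈ U, (∀ i ≤ k, (a ^ i) u ∈ K) → u = 0

variable [RK Ω]

/-- `b` is generic over `G` subject to `P n b ⊆ Q n` -/
def Gen (b : En Ω) (P Q : ℕ → Sub Ω) (G : Set (En Ω)) : Prop :=
  (∀ n, (P n).map b ≤ Q n) ∧
    ∀ (ρ : Type) [Fintype ρ] (Z : Submodule Ω ((ρ → Ω) × (ρ → Ω))), Df G Z → ∀ ε : ℝ, 0 < ε →
      ∃ Λ : Sq ρ, Monotone Λ ∧
        rk (Z ⊓ (ap b).graph) + rk (fl Q Λ) ≤ rk (Z ⊓ box P Q Λ) + ε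

/-- `x` is a free letter over `G` -/
def Free (x : En Ω) (G : Set (En Ω)) : Prop := Gen x (bf Ω) (bf Ω) G

/-- `G` has free letters over each of its finite subsets -/
def FR (G : Set (En Ω)) : Prop := ∀ S : Set (En Ω), S ⊆ G → S.Finite → ∃ x ∈ G, Free x S

/-- definable submodules have dyadic rank -/
def DY (G : Set (En Ω)) : Prop :=
  ∀ (E : Type) [AddCommGroup E] [Module Ω E] [Amb Ω E] (K : Submodule Ω E), Df G K → Dy (rk K)

/-- sets of letters with enough free letters -/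
structure Good (w : ℕ → En Ω) (G : Set (En Ω)) : Prop where
  base : Set.range w ⊆ G
  fr : FR G
  dy : DY G

/-- submodules without direction are relatively small along `Q` -/
def Sm (G : Set (En Ω)) (Q : ℕ → Sub Ω) : Prop :=
  ∀ (ρ : Type) [Fintype ρ] (Z : Submodule Ω (ρ → Ω)), Df G Z → ¬ HasDir (Set.range Q) Z →
    ∀ ε : ℝ, 0 < ε → ∀ᶠ n in atTop, rk (Z ⊓ pw ρ (Q n)) ≤ ε * rk (Q n)

/-- hypotheses of a merging (or free) step -/
structure MgL (G : Set (En Ω)) (P Q : ℕ → Sub Ω) : Prop where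
  eq : ∀ n, rk (P n) = rk (Q n)
  ex : ExJ G (Set.range P) (Set.range Q)

/-- hypotheses of a shifting step -/
structure Sh (G : Set (En Ω)) (P Q : ℕ → Sub Ω) : Prop where
  rat : ∀ ε : ℝ, 0 < ε → ∀ᶠ n in atTop, rk (P n) ≤ ε * rk (Q n)
  ne : ∀ n, Q n ≠ ⊥
  sm : Sm G Q
  ns : NS G (Set.range Q)

/-- a generic letter with definable flags -/
structure Gl (G : Set (En Ω)) (b : En Ω) (P Q : ℕ → Sub Ω) : Prop where
  fP : Flag P
  fQ : Flag Q
  dP : ∀ n, Df G (P n)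
  dQ : ∀ n, Df G (Q n)
  gen : Gen b P Q G

/-- one step of the construction -/
structure Step (G : Set (En Ω)) (b : En Ω) (P Q : ℕ → Sub Ω) : Prop where
  gl : Gl G b P Q
  cm : CM G
  ok : MgL G P Q ∨ Sh G P Q

/-- reduced presentation `N` over `G` of a submodule `K` definable from `G` and `b` -/
structure Red (G : Set (En Ω)) (b : En Ω) (P Q : ℕ → Sub Ω) (K : Submodule Ω E)
    {ρ : Type} [Fintype ρ] (N : Submodule Ω (E × (ρ → Ω) × (ρ → Ω))) : Prop where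
  df : Df G N
  a : ∀ (u : E) (p : ρ → Ω), (u, p, ap b p) ∈ N → u ∈ K
  b' : ∀ Y : Submodule Ω E, Df G Y → Y ≤ K → Y ≤ lf N
  c : ∀ j : ℕ, ∃ ε : ℝ, 0 < ε ∧ ∀ U : Submodule Ω E, Df G U → rk U < ε → ∀ u ∈ K, u ∈ U →
    ∃ p ∈ pw ρ (P j), (u, p, ap b p) ∈ N
  dQ : ¬ HasDir (Set.range Q) (rt (rt N))
  dP : (∀ n, rk (Q n) ≤ rk (P n)) → ¬ HasDir (Set.range P) (lf (rt N))

/-- inertness on the `Q` side -/
def QI (G : Set (En Ω)) (b : En Ω) (P Q : ℕ → Sub Ω) : Prop :=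
  ∀ (ρ : Type) [Fintype ρ] (Z : Submodule Ω ((ρ → Ω) × (ρ → Ω))), Df G Z →
    ¬ HasDir (Set.range Q) (rt Z) → ∃ j, ∀ p ∈ pw ρ (P j), (p, ap b p) ∈ Z → p = 0

/-- inertness on the `P` side -/
def PI (G : Set (En Ω)) (b : En Ω) (P : ℕ → Sub Ω) : Prop :=
  ∀ (ρ : Type) [Fintype ρ] (Z : Submodule Ω ((ρ → Ω) × (ρ → Ω))), Df G Z →
    ¬ HasDir (Set.range P) (lf Z) → ∃ j, ∀ p ∈ pw ρ (P j), (p, ap b p) ∈ Z → p = 0

/-- approximable by definable submodules -/
def Apx (H : Set (En Ω)) (K : Submodule Ω E) : Prop :=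
  K.FG ∧ ∀ ε : ℝ, 0 < ε → ∃ K' : Submodule Ω E, Df H K' ∧ Cls ε K K'

/-- hypotheses of a merging step inside the construction -/
def Mg (w : ℕ → En Ω) (G : Set (En Ω)) (P Q : ℕ → Sub Ω) : Prop :=
  MgL G P Q ∧ (P 1 = ⊥ ∨ Eqv (Set.range Q) (Set.range (WF w)))

end scalar

section pencil
variable {L S a b : Type}

/-- evaluation of a linear pencil -/
def ev [AddCommGroup S] [Module F S] (p : Matrix a b (L →₀ F)) (val : L → S) :
    Matrix a b S := p.map (Finsupp.linearCombination F val)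

/-- index set of level `n` -/
abbrev Ix (n : ℕ) : Type := Fin n → Bool

variable {Ω : Type} [Ring Ω] [Algebra F Ω] [RK Ω]

/-- the letters `y` give every pencil its largest rank, even against blow-ups -/
def MIN {A : Type} (w : ℕ → Ω) (y : A → Ω) : Prop :=
  ∀ (a b : Type) [Fintype a] [Fintype b] (p : Matrix a b (ℕ ⊕ A →₀ F)) (r : ℕ)
    (X : A → Matrix (Ix r) (Ix r) Ω),
    mr (Matrix.comp a b (Ix r) (Ix r) Ω
        (ev p (Sum.elim (fun k => Matrix.diagonal fun _ => w k) X))) ≤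
      2 ^ r * mr (ev p (Sum.elim w y))

/-- central letters can be approximated by scalars -/
def CTR (w : ℕ → Ω) : Prop :=
  ∀ (κ a b a' b' : Type) [Fintype a] [Fintype b] [Fintype a'] [Fintype b']
    (p : Matrix a b (ℕ ⊕ κ →₀ F)) (p' : Matrix a' b' (ℕ ⊕ κ →₀ F)) (c : κ → Ω),
    (∀ k x, c k * x = x * c k) → ∀ ε : ℝ, 0 < ε → ∃ l : κ → F,
      |mr (ev p (Sum.elim w fun k => algebraMap F Ω (l k))) - mr (ev p (Sum.elim w c))| ≤ ε ∧
      |mr (ev p' (Sum.elim w fun k => algebraMap F Ω (l k))) - mr (ev p' (Sum.elim w c))| ≤ ε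

end pencil

section sys
variable {Ω : Type} [Ring Ω] [Algebra F Ω] [RK Ω]

/-- the letters with index in `X` together with the base letters -/
def GS {ι : Type} (w : ℕ → En Ω) (b : ι → En Ω) (X : Set ι) : Set (En Ω) :=
  Set.range w ∪ b '' X

/-- the result of the transfinite construction -/
structure Sys (w : ℕ → En Ω) (ι : Type) [LinearOrder ι] where
  b : ι → En Ω
  P : ι → ℕ → Sub Ω
  Q : ι → ℕ → Sub Ω
  dep : ι → Set ι
  η₀ : ι
  unc : ¬ (Set.Iio η₀).Countable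
  dep_lt : ∀ η, dep η ⊆ Set.Iio η
  dep_cnt : ∀ η, (dep η).Countable
  fP : ∀ η, Flag (P η)
  fQ : ∀ η, Flag (Q η)
  dP : ∀ η n, Df (GS w b (dep η)) (P η n)
  dQ : ∀ η n, Df (GS w b (dep η)) (Q η n)
  gen : ∀ η, Gen (b η) (P η) (Q η) (GS w b (Set.Iio η))
  free : ∀ η < η₀, P η = bf Ω ∧ Q η = bf Ω ∧ dep η = ∅
  ok : ∀ η, Mg w (GS w b (Set.Iio η)) (P η) (Q η) ∨ Sh (GS w b (Set.Iio η)) (P η) (Q η)
  book : ∀ (P' Q' : ℕ → Sub Ω) (D : Set ι), D.Countable → Flag P' → Flag Q' →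
    (∀ n, Df (GS w b D) (P' n)) → (∀ n, Df (GS w b D) (Q' n)) →
    ∃ η, η₀ ≤ η ∧ D ⊆ Set.Iio η ∧ (CM (GS w b (Set.Iio η)) →
      (Mg w (GS w b (Set.Iio η)) P' Q' ∨ Sh (GS w b (Set.Iio η)) P' Q') → P η = P' ∧ Q η = Q')

variable {w : ℕ → En Ω} {ι : Type} [LinearOrder ι]

/-- letters with index in `X` -/
abbrev Sys.G (S : Sys w ι) (X : Set ι) : Set (En Ω) := GS w S.b X

/-- closed sets of indices -/
def Sys.Cl (S : Sys w ι) (X : Set ι) : Prop := ∀ η ∈ X, S.dep η ⊆ X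

/-- sets of indices with enough free letters -/
def Sys.Full (S : Sys w ι) (X : Set ι) : Prop :=
  ∀ s : Set ι, s ⊆ X → s.Finite → ∃ Y, S.Cl Y ∧ s ⊆ Y ∧ ∃ x ∈ X, x < S.η₀ ∧ x ∉ Y

/-- the hypotheses of stage `η` hold over the letters with index in `X` -/
def Sys.OK (S : Sys w ι) (η : ι) (X : Set ι) : Prop :=
  MgL (S.G X) (S.P η) (S.Q η) ∨ Sh (S.G X) (S.P η) (S.Q η)

/-- the shifting hypotheses of stage `η` descend to closed full sets -/
def Sys.CC (S : Sys w ι) (η : ι) : Prop :=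
  Sh (S.G (Set.Iio η)) (S.P η) (S.Q η) → ∀ X, S.Cl X → S.Full X → X ⊆ Set.Iio η →
    S.dep η ⊆ X → Sh (S.G X) (S.P η) (S.Q η)

end sys

end

end Pool.Agent.Lib.MP_57313b_al.Zf
end

-- part Pool.Agent.Lib.MP_57313b_al.Zf.Rank0
section

/-!
# Sylvester rank functions on matrices
-/

set_option autoImplicit false

namespace Pool.Agent.Lib.MP_57313b_al.Zf

open Filter Topology

set_option linter.unusedSectionVars false

variable {Ω : Type} [Ring Ω] [RK Ω]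

section matrix
variable {a b c : Type} [Fintype a] [Fintype b] [Fintype c]

lemma rank0_le {a' b' : Type} [Fintype a'] [Fintype b'] (A : Matrix a b Ω) (P : Matrix a' a Ω)
    (Q : Matrix b b' Ω) {B : Matrix a' b' Ω} (h : B = P * A * Q) : mr B ≤ mr A := by
  rw [h]
  exact (RK.mr_mul_left _ _).trans (RK.mr_mul_right _ _)

/-- `0 ⊕ 0` is a multiple of `0`, so `mr 0 + mr 0 ≤ mr 0`. -/
lemma mr_zero : mr (0 : Matrix a b Ω) = 0 := by
  have h1 := RK.mr_block (0 : Matrix a b Ω) (0 : Matrix a b Ω)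
  have h2 := rank0_le (0 : Matrix a b Ω) (0 : Matrix (a ⊕ a) a Ω) (0 : Matrix b (b ⊕ b) Ω)
    (B := Matrix.fromBlocks 0 0 0 0) (by simp)
  linarith [RK.mr_nonneg (0 : Matrix a b Ω)]

/-- submatrices (reindexing along arbitrary maps) are products with 0-1 matrices -/
lemma mr_submatrix_le {a' b' : Type} [Fintype a'] [Fintype b'] (A : Matrix a b Ω) (f : a' → a)
    (g : b' → b) : mr (A.submatrix f g) ≤ mr A := by
  classical
  refine rank0_le A ((1 : Matrix a a Ω).submatrix f id) ((1 : Matrix b b Ω).submatrix id g) ?_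
  ext i j
  simp [Matrix.mul_apply, Matrix.one_apply]

lemma mr_submatrix_equiv {a' b' : Type} [Fintype a'] [Fintype b'] (A : Matrix a b Ω) (f : a' ≃ a)
    (g : b' ≃ b) : mr (A.submatrix f g) = mr A := by
  refine le_antisymm (mr_submatrix_le A f g) ?_
  simpa using mr_submatrix_le (A.submatrix f g) f.symm g.symm

/-- induction on the type with `mr_block`, `mr_one` -/
lemma mr_one_eq [DecidableEq a] : mr (1 : Matrix a a Ω) = Fintype.card a := by
  have h1 : mr (1 : Matrix (Fin 1) (Fin 1) Ω) = 1 := by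
    rw [← RK.mr_one (Ω := Ω), ← mr_submatrix_equiv _ finOneEquiv finOneEquiv]
    congr 1
    ext i j
    simp [Matrix.one_apply, Subsingleton.elim i j]
  have h2 : ∀ n : ℕ, mr (1 : Matrix (Fin n) (Fin n) Ω) = n := fun n => by
    induction n with
    | zero => rw [Subsingleton.elim (1 : Matrix (Fin 0) (Fin 0) Ω) 0, mr_zero, Nat.cast_zero]
    | succ n ih =>
      rw [← mr_submatrix_equiv _ finSumFinEquiv finSumFinEquiv, Matrix.submatrix_one_equiv,
        ← Matrix.fromBlocks_one, RK.mr_block, ih, h1, Nat.cast_succ]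
  rw [← h2, ← mr_submatrix_equiv _ (Fintype.equivFin a) (Fintype.equivFin a),
    Matrix.submatrix_one_equiv]

lemma mr_le_card_left (A : Matrix a b Ω) : mr A ≤ Fintype.card a := by
  classical
  rw [← mr_one_eq (Ω := Ω)]
  simpa using RK.mr_mul_left (1 : Matrix a a Ω) A

lemma mr_le_card_right (A : Matrix a b Ω) : mr A ≤ Fintype.card b := by
  classical
  rw [← mr_one_eq (Ω := Ω)]
  simpa using RK.mr_mul_right A (1 : Matrix b b Ω)

/-- `A + B = [1 1] (A ⊕ B) [1; 1]` -/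
lemma mr_add_le (A B : Matrix a b Ω) : mr (A + B) ≤ mr A + mr B := by
  classical
  rw [← RK.mr_block]
  exact rank0_le _ (Matrix.fromCols 1 1) (Matrix.fromRows 1 1)
    (by simp [Matrix.fromCols_mul_fromBlocks, Matrix.fromCols_mul_fromRows])

lemma mr_neg (A : Matrix a b Ω) : mr (-A) = mr A := by
  classical
  exact le_antisymm (rank0_le A (-1) 1 (by simp)) (rank0_le (-A) (-1) 1 (by simp))

/-- rows of `A` in the row space of `B` means `A = C * B` -/
lemma mr_le_of_rows (A : Matrix a c Ω) (B : Matrix b c Ω)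
    (h : ∀ i, A i ∈ Submodule.span Ω (Set.range B)) : mr A ≤ mr B := by
  choose C hC using fun i => (Submodule.mem_span_range_iff_exists_fun Ω).1 (h i)
  have e : A = Matrix.of C * B := by
    ext i j
    simp [Matrix.mul_apply, ← hC i]
  rw [e]
  exact RK.mr_mul_right _ _

/-- Key identity.  With `B = X * A`, `B * B' * B = B`, `e = B * B'`, `M = A * B' * X`:
`X * M = e * X`, so `eX ⊕ (1-e)X = [e; 1-e] * X * [M | 1 - M]` and
`X = [e | 1-e] * (eX ⊕ (1-e)X) * [1; 1]`; also `mr (eX) = mr B` since `eX = B * (B' * X)` and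
`B = eX * A`. -/
lemma mr_split [DecidableEq a] (X : Matrix a b Ω) (A : Matrix b c Ω) (B' : Matrix c a Ω)
    (h : X * A * B' * (X * A) = X * A) :
    mr X = mr (X * A) + mr ((1 - X * A * B') * X) := by
  classical
  obtain ⟨e, he⟩ : ∃ e, e = X * A * B' := ⟨_, rfl⟩
  have h1 : e * (e * X) = e * X := by
    rw [← Matrix.mul_assoc, he, ← Matrix.mul_assoc (X * A * B') (X * A), h]
  have h2 : X * (A * B' * X) = e * X := by simp only [he, Matrix.mul_assoc]
  have h3 : mr (X * A) = mr (e * X) := by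
    refine le_antisymm ?_ ?_
    · rw [← h, ← he, ← Matrix.mul_assoc]
      exact RK.mr_mul_left _ _
    · rw [he, Matrix.mul_assoc (X * A)]
      exact RK.mr_mul_left _ _
  rw [← he, h3, ← RK.mr_block]
  refine le_antisymm (rank0_le _ (Matrix.fromCols 1 1) (Matrix.fromRows 1 1) ?_)
    (rank0_le X (Matrix.fromRows e (1 - e)) (Matrix.fromCols (A * B' * X) (1 - A * B' * X)) ?_)
  · simp [Matrix.fromCols_mul_fromBlocks, Matrix.fromCols_mul_fromRows, Matrix.sub_mul]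
  · rw [Matrix.mul_assoc, Matrix.mul_fromCols, Matrix.fromRows_mul_fromCols, Matrix.mul_sub, h2]
    simp [Matrix.sub_mul, Matrix.mul_sub, h1]

end matrix

end Pool.Agent.Lib.MP_57313b_al.Zf
end

-- part Pool.Agent.Lib.MP_57313b_al.Zf.Rank1
section

/-!
# Rank of submodules: generators and rank-nullity
-/

set_option autoImplicit false

namespace Pool.Agent.Lib.MP_57313b_al.Zf

open Filter Topology

set_option linter.unusedSectionVars false

variable {Ω : Type} [Ring Ω] [RK Ω]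
variable {E E' : Type} [AddCommGroup E] [Module Ω E] [Amb Ω E] [AddCommGroup E'] [Module Ω E']
  [Amb Ω E']

lemma amb_finite : Module.Finite Ω E :=
  Module.Finite.equiv (Amb.e (Ω := Ω) (E := E)).symm

lemma fg_top : (⊤ : Submodule Ω E).FG := (amb_finite (Ω := Ω) (E := E)).fg_top

/-- coordinate matrix of a family -/
noncomputable def rank1_cm {a : Type} (v : a → E) : Matrix a (Amb.I Ω E) Ω :=
  Matrix.of fun i j => Amb.e (Ω := Ω) (v i) j

lemma rank1_le {a : Type} [Fintype a] {K : Submodule Ω E} {v : a → E} (hv : ∀ i, v i ∈ K) :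
    mr (rank1_cm (Ω := Ω) v) ≤ rk K := by
  refine le_csSup ⟨Fintype.card (Amb.I Ω E), ?_⟩ ⟨Fintype.card a,
    (rank1_cm v).submatrix (Fintype.equivFin a).symm (Equiv.refl _), fun i => ?_,
    mr_submatrix_equiv _ _ _⟩
  · rintro _ ⟨m, M, -, rfl⟩
    exact mr_le_card_right M
  · exact (Amb.e (Ω := Ω)).symm_apply_apply (v _) ▸ hv ((Fintype.equivFin a).symm i)

lemma rank1_ge {K : Submodule Ω E} {c : ℝ}
    (h : ∀ (m : ℕ) (v : Fin m → E), (∀ i, v i ∈ K) → mr (rank1_cm (Ω := Ω) v) ≤ c) : rk K ≤ c := by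
  refine csSup_le ⟨_, 0, 0, fun i => i.elim0, rfl⟩ ?_
  rintro _ ⟨m, M, hM, rfl⟩
  have := h m _ hM
  rwa [show rank1_cm (fun i => (Amb.e (Ω := Ω) (E := E)).symm (M i)) = M from by
    ext i j; simp [rank1_cm]] at this

lemma rank1_mem {a : Type} [Fintype a] {v : a → E} {u : E} :
    u ∈ Submodule.span Ω (Set.range v) ↔
      ∃ y : a → Ω, Amb.e (Ω := Ω) u = Matrix.vecMul y (rank1_cm v) := by
  rw [Submodule.mem_span_range_iff_exists_fun]
  refine exists_congr fun y => ?_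
  rw [eq_comm, ← (Amb.e (Ω := Ω) (E := E)).injective.eq_iff, Matrix.vecMul_eq_sum, map_sum]
  simp only [map_smul]
  rfl

lemma rank1_mat (f : E →ₗ[Ω] E') : ∃ A : Matrix (Amb.I Ω E) (Amb.I Ω E') Ω,
    ∀ u, Amb.e (Ω := Ω) (f u) = Matrix.vecMul (Amb.e (Ω := Ω) u) A := by
  classical
  refine ⟨LinearMap.toMatrixRight' ((Amb.e (Ω := Ω) (E := E')).toLinearMap ∘ₗ f ∘ₗ
    (Amb.e (Ω := Ω) (E := E)).symm.toLinearMap), fun u => ?_⟩
  rw [← Matrix.toLinearMapRight'_apply, Matrix.toLinearMapRight', LinearEquiv.symm_apply_apply]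
  simp

lemma rank1_row {a b c : Type} [Fintype b] (C : Matrix a b Ω) (X : Matrix b c Ω) (i : a) :
    (C * X) i = Matrix.vecMul (C i) X := rfl

lemma rank1_ker {m : ℕ} (v : Fin m → E) (f : E →ₗ[Ω] E') : ∃ w : Fin m → E,
    Submodule.span Ω (Set.range v) ⊓ LinearMap.ker f = Submodule.span Ω (Set.range w) ∧
      mr (rank1_cm (Ω := Ω) v) = mr (rank1_cm (Ω := Ω) (f ∘ v)) + mr (rank1_cm (Ω := Ω) w) := by
  obtain ⟨A, hA⟩ := rank1_mat f
  set X := rank1_cm (Ω := Ω) v with hX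
  obtain ⟨B, hB⟩ := RK.ginv (X * A)
  obtain ⟨Y, hY⟩ : ∃ Y : Matrix (Fin m) (Amb.I Ω E) Ω, Y = (1 - X * A * B) * X := ⟨_, rfl⟩
  have h1 : rank1_cm (fun i => (Amb.e (Ω := Ω) (E := E)).symm (Y i)) = (1 - X * A * B) * X := by
    rw [← hY]; ext i j; simp [rank1_cm]
  have h2 : rank1_cm (f ∘ v) = X * A := funext fun i => hA (v i)
  refine ⟨fun i => (Amb.e (Ω := Ω) (E := E)).symm (Y i), ?_, ?_⟩
  · refine le_antisymm ?_ (Submodule.span_le.2 ?_)
    · rintro u ⟨hu, hf⟩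
      obtain ⟨y, hy⟩ := rank1_mem.1 hu
      have h3 : Matrix.vecMul y (X * A) = 0 := by
        rw [← Matrix.vecMul_vecMul, ← hy, ← hA, LinearMap.mem_ker.1 hf, map_zero]
      refine rank1_mem.2 ⟨y, ?_⟩
      rw [h1, hy, Matrix.sub_mul, Matrix.one_mul, Matrix.vecMul_sub, Matrix.mul_assoc,
        ← Matrix.vecMul_vecMul, h3, Matrix.zero_vecMul, sub_zero]
    · rintro _ ⟨i, rfl⟩
      refine ⟨rank1_mem.2 ⟨_, by rw [LinearEquiv.apply_symm_apply, hY, rank1_row]⟩, ?_⟩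
      refine LinearMap.mem_ker.2 ((Amb.e (Ω := Ω) (E := E')).injective ?_)
      rw [hA, LinearEquiv.apply_symm_apply, ← rank1_row, hY, Matrix.mul_assoc, Matrix.sub_mul,
        Matrix.one_mul, hB, sub_self, map_zero]
      rfl
  · rw [h1, h2]
    exact mr_split X A B hB

/-- the rank of the span of a finite family is the rank of its coordinate matrix -/
lemma rk_span {a : Type} [Fintype a] (v : a → E) :
    rk (Submodule.span Ω (Set.range v)) =
      mr (Matrix.of fun i j => Amb.e (Ω := Ω) (v i) j) := by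
  refine le_antisymm (rank1_ge fun m w hw => mr_le_of_rows _ _ fun i => ?_)
    (rank1_le fun i => Submodule.subset_span ⟨i, rfl⟩)
  obtain ⟨y, hy⟩ := rank1_mem.1 (hw i)
  exact (Submodule.mem_span_range_iff_exists_fun Ω).2
    ⟨y, (hy.trans (Matrix.vecMul_eq_sum _ _)).symm⟩

lemma rk_nonneg (K : Submodule Ω E) : 0 ≤ rk K :=
  (RK.mr_nonneg _).trans (rank1_le (v := fun _ : Unit => 0) fun _ => K.zero_mem)

lemma rk_mono {K K' : Submodule Ω E} (h : K ≤ K') : rk K ≤ rk K' :=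
  rank1_ge fun _ _ hv => rank1_le fun i => h (hv i)

@[simp] lemma rk_bot : rk (⊥ : Submodule Ω E) = 0 := by
  refine le_antisymm (rank1_ge fun m v hv => le_of_eq ?_) (rk_nonneg _)
  rw [← mr_zero (Ω := Ω) (a := Fin m) (b := Amb.I Ω E)]
  congr 1
  ext i j
  simp [rank1_cm, (Submodule.mem_bot Ω).1 (hv i)]

/-- faithfulness; no finite generation is needed (use a one-row matrix) -/
lemma eq_bot_of_rk {K : Submodule Ω E} (h : rk K ≤ 0) : K = ⊥ := by
  refine (Submodule.eq_bot_iff K).2 fun u hu => (Amb.e (Ω := Ω) (E := E)).injective ?_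
  have h1 := RK.mr_eq_zero _ (le_antisymm
    ((rank1_le (v := fun _ : Unit => u) fun _ => hu).trans h) (RK.mr_nonneg _))
  rw [map_zero]
  exact congrFun h1 ()

lemma rk_pos {K : Submodule Ω E} (h : K ≠ ⊥) : 0 < rk K :=
  lt_of_not_ge fun h' => h (eq_bot_of_rk h')

/-- a finitely generated submodule is the range of an idempotent: for generators `X` with
generalized inverse `X'` use right multiplication by `X' * X` -/
lemma exists_proj {K : Submodule Ω E} (hK : K.FG) :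
    ∃ π : E →ₗ[Ω] E, (∀ v, π v ∈ K) ∧ ∀ v ∈ K, π v = v := by
  obtain ⟨m, v, rfl⟩ := Submodule.fg_iff_exists_fin_generating_family.1 hK
  obtain ⟨B, hB⟩ := RK.ginv (rank1_cm (Ω := Ω) v)
  obtain ⟨Y, hY⟩ : ∃ Y : Matrix (Amb.I Ω E) (Amb.I Ω E) Ω, Y = B * rank1_cm (Ω := Ω) v := ⟨_, rfl⟩
  refine ⟨(Amb.e (Ω := Ω) (E := E)).symm.toLinearMap ∘ₗ Y.vecMulLinear ∘ₗ
    (Amb.e (Ω := Ω) (E := E)).toLinearMap, fun u => rank1_mem.2 ⟨Matrix.vecMul (Amb.e u) B, ?_⟩,
    fun u hu => ?_⟩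
  · rw [Matrix.vecMul_vecMul, ← hY]
    exact LinearEquiv.apply_symm_apply _ _
  · obtain ⟨y, hy⟩ := rank1_mem.1 hu
    refine (Amb.e (Ω := Ω) (E := E)).injective ((LinearEquiv.apply_symm_apply _ _).trans ?_)
    change Matrix.vecMul (Amb.e (Ω := Ω) u) Y = _
    rw [hy, Matrix.vecMul_vecMul, hY, ← Matrix.mul_assoc, hB]

/-- for generators `X` of `K` and the matrix `A` of `f`, the rows of `(1 - X A B') X` generate
`K ⊓ ker f` -/
lemma fg_inf_ker {K : Submodule Ω E} (hK : K.FG) (f : E →ₗ[Ω] E') :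
    (K ⊓ LinearMap.ker f).FG := by
  obtain ⟨m, v, rfl⟩ := Submodule.fg_iff_exists_fin_generating_family.1 hK
  obtain ⟨w, hw, -⟩ := rank1_ker v f
  rw [hw]
  exact Submodule.fg_span (Set.finite_range w)

/-- rank-nullity (from `mr_split`) -/
lemma rk_map_add {K : Submodule Ω E} (hK : K.FG) (f : E →ₗ[Ω] E') :
    rk (K.map f) + rk (K ⊓ LinearMap.ker f) = rk K := by
  obtain ⟨m, v, rfl⟩ := Submodule.fg_iff_exists_fin_generating_family.1 hK
  obtain ⟨w, hw, h⟩ := rank1_ker v f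
  rw [hw, Submodule.map_span, ← Set.range_comp, rk_span, rk_span, rk_span]
  exact h.symm

@[simp] lemma rk_top_one : rk (⊤ : Sub Ω) = 1 := by
  have : (⊤ : Sub Ω) = Submodule.span Ω (Set.range fun _ : Unit => (1 : Ω)) := by simp
  rw [this, rk_span, ← RK.mr_one (Ω := Ω)]
  exact mr_submatrix_equiv (a' := Unit) (b' := Amb.I Ω Ω) (Matrix.of fun _ _ : Unit => (1 : Ω))
    (Equiv.refl _) (Equiv.refl Unit)

lemma rk_range_rm (x : Ω) : rk (LinearMap.range (rm x)) = r1 x := by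
  have : LinearMap.range (rm x) = Submodule.span Ω (Set.range fun _ : Unit => x) := by
    rw [rm, ← LinearMap.span_singleton_eq_range, Set.range_const]
  rw [this, rk_span, r1]
  exact mr_submatrix_equiv (a' := Unit) (b' := Amb.I Ω Ω) (Matrix.of fun _ _ : Unit => x)
    (Equiv.refl _) (Equiv.refl Unit)

/-- every map in `En Ω` is a right multiplication -/
lemma rm_apply_one (f : En Ω) : rm (f 1) = f := by
  ext
  simp

/-- the range of right multiplication by a matrix is the span of its rows -/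
lemma rk_range_vecMul {a b : Type} [Fintype a] [Fintype b] (M : Matrix a b Ω) :
    rk (LinearMap.range M.vecMulLinear) = mr M := by
  rw [range_vecMulLinear, rk_span]
  exact mr_submatrix_equiv (b' := Amb.I Ω (b → Ω)) M (Equiv.refl _) (Equiv.prodUnique b Unit)

end Pool.Agent.Lib.MP_57313b_al.Zf
end

-- part Pool.Agent.Lib.MP_57313b_al.Zf.Rank2
section

/-!
# Rank of submodules: finite generation and maps
-/

set_option autoImplicit false

namespace Pool.Agent.Lib.MP_57313b_al.Zf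

open Filter Topology

set_option linter.unusedSectionVars false

variable {Ω : Type} [Ring Ω] [RK Ω]
variable {E E' : Type} [AddCommGroup E] [Module Ω E] [Amb Ω E] [AddCommGroup E'] [Module Ω E']
  [Amb Ω E']

lemma fg_ker (f : E →ₗ[Ω] E') : (LinearMap.ker f).FG := by
  simpa using fg_inf_ker (fg_top (Ω := Ω) (E := E)) f

lemma fg_range (f : E →ₗ[Ω] E') : (LinearMap.range f).FG := by
  rw [LinearMap.range_eq_map]
  exact fg_top.map f

lemma fg_graph (f : E →ₗ[Ω] E') : f.graph.FG := by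
  rw [LinearMap.graph_eq_range_prod]
  exact fg_range _

/-- `K' = ker (1 - π)` with `π` from `exists_proj` -/
lemma fg_inf {K K' : Submodule Ω E} (hK : K.FG) (hK' : K'.FG) : (K ⊓ K').FG := by
  obtain ⟨π, h1, h2⟩ := exists_proj hK'
  have e : K' = LinearMap.ker (LinearMap.id - π) := by
    ext v
    simp only [LinearMap.mem_ker, LinearMap.sub_apply, LinearMap.id_apply, sub_eq_zero]
    exact ⟨fun h => (h2 v h).symm, fun h => h ▸ h1 v⟩
  rw [e]
  exact fg_inf_ker hK _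

lemma fg_comap {K' : Submodule Ω E'} (hK' : K'.FG) (f : E →ₗ[Ω] E') : (K'.comap f).FG := by
  obtain ⟨π, h1, h2⟩ := exists_proj hK'
  have e : K'.comap f = LinearMap.ker (f - π ∘ₗ f) := by
    ext v
    simp only [Submodule.mem_comap, LinearMap.mem_ker, LinearMap.sub_apply, LinearMap.comp_apply,
      sub_eq_zero]
    exact ⟨fun h => (h2 _ h).symm, fun h => h ▸ h1 (f v)⟩
  rw [e]
  exact fg_ker _

lemma fg_pw {ρ : Type} [Finite ρ] {U : Sub Ω} (hU : U.FG) : (pw ρ U).FG := by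
  obtain ⟨π, h1, h2⟩ := exists_proj hU
  have e : pw ρ U = LinearMap.range (ap (ρ := ρ) π) := by
    ext v
    simp only [mem_pw, LinearMap.mem_range]
    exact ⟨fun h => ⟨v, funext fun i => h2 _ (h i)⟩, fun ⟨u, hu⟩ i => hu ▸ h1 (u i)⟩
  rw [e]
  exact fg_range _

lemma fg_iInf {σ : Type} [Finite σ] {K : σ → Submodule Ω E} (h : ∀ s, (K s).FG) :
    (⨅ s, K s).FG := by
  classical
  have key : ∀ t : Finset σ, (t.inf K).FG := fun t => by
    induction t using Finset.induction_on with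
    | empty => rw [Finset.inf_empty]; exact fg_top
    | insert a t _ ih => rw [Finset.inf_insert]; exact fg_inf (h a) ih
  have := Fintype.ofFinite σ
  rw [← Finset.inf_univ_eq_iInf]
  exact key _

lemma fg_lf {N : Submodule Ω (E × E')} (h : N.FG) : (lf N).FG := by
  exact fg_comap h _

lemma fg_rt {N : Submodule Ω (E × E')} (h : N.FG) : (rt N).FG := by
  exact fg_comap h _

lemma fg_sec {N : Submodule Ω (E × E')} (h : N.FG) {V : Submodule Ω E} (hV : V.FG) :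
    (sec N V).FG := by
  exact (fg_inf h (hV.prod fg_top)).map _

lemma fg_dom {N : Submodule Ω (E × E')} (h : N.FG) {V : Submodule Ω E'} (hV : V.FG) :
    (dom N V).FG := by
  exact (fg_inf h (fg_top.prod hV)).map _

lemma rk_map_le {K : Submodule Ω E} (hK : K.FG) (f : E →ₗ[Ω] E') : rk (K.map f) ≤ rk K := by
  linarith [rk_map_add hK f, rk_nonneg (K ⊓ LinearMap.ker f)]

lemma rk_map_of_inj {K : Submodule Ω E} (hK : K.FG) (f : E →ₗ[Ω] E')
    (h : ∀ v ∈ K, f v = 0 → v = 0) : rk (K.map f) = rk K := by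
  have e : K ⊓ LinearMap.ker f = ⊥ := eq_bot_iff.2 fun v hv => h v hv.1 hv.2
  have := rk_map_add hK f
  rwa [e, rk_bot, add_zero] at this

/-- an injective map from `K` into `K'` -/
lemma rk_le_of_inj {K : Submodule Ω E} (hK : K.FG) {K' : Submodule Ω E'} (f : E →ₗ[Ω] E')
    (h : ∀ v ∈ K, f v = 0 → v = 0) (h' : ∀ v ∈ K, f v ∈ K') : rk K ≤ rk K' := by
  rw [← rk_map_of_inj hK f h]
  exact rk_mono (Submodule.map_le_iff_le_comap.2 h')

/-- a map from `K` onto `K'` -/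
lemma rk_le_of_surj {K : Submodule Ω E} (hK : K.FG) {K' : Submodule Ω E'} (f : E →ₗ[Ω] E')
    (h : ∀ x ∈ K', ∃ v ∈ K, f v = x) : rk K' ≤ rk K := by
  exact (rk_mono fun x hx => Submodule.mem_map.2 (h x hx)).trans (rk_map_le hK f)

/-- the upper bound used all the time: `f` maps `K` into `B`, and its kernel on `K` lies in `A` -/
lemma rk_le_add {K A : Submodule Ω E} (hK : K.FG) {B : Submodule Ω E'} (f : E →ₗ[Ω] E')
    (hA : ∀ v ∈ K, f v = 0 → v ∈ A) (hB : ∀ v ∈ K, f v ∈ B) : rk K ≤ rk A + rk B := by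
  have h1 : rk (K ⊓ LinearMap.ker f) ≤ rk A := rk_mono fun v hv => hA v hv.1 hv.2
  have h2 : rk (K.map f) ≤ rk B := rk_mono (Submodule.map_le_iff_le_comap.2 hB)
  linarith [rk_map_add hK f]

/-- the exact version: `A` is the kernel of `f` on `K` and `B` is the image -/
lemma rk_eq_add {K A : Submodule Ω E} (hK : K.FG) {B : Submodule Ω E'} (f : E →ₗ[Ω] E')
    (hA : ∀ v, v ∈ A ↔ v ∈ K ∧ f v = 0) (hB : ∀ x, x ∈ B ↔ ∃ v ∈ K, f v = x) :
    rk K = rk A + rk B := by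
  have h1 : A = K ⊓ LinearMap.ker f := Submodule.ext hA
  have h2 : B = K.map f := Submodule.ext hB
  rw [h1, h2, add_comm, rk_map_add hK f]

/-- a bijection from `K` onto `K'` -/
lemma rk_eq_of_bij {K : Submodule Ω E} (hK : K.FG) {K' : Submodule Ω E'} (f : E →ₗ[Ω] E')
    (h : ∀ v ∈ K, f v = 0 → v = 0) (h' : ∀ x, x ∈ K' ↔ ∃ v ∈ K, f v = x) : rk K = rk K' := by
  have h2 : K' = K.map f := Submodule.ext h'
  rw [h2, rk_map_of_inj hK f h]

/-- rank-nullity for `f` restricted to `K ⊓ f ⁻¹ K'` -/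
lemma rk_inf_comap {K : Submodule Ω E} (hK : K.FG) {K' : Submodule Ω E'} (hK' : K'.FG)
    (f : E →ₗ[Ω] E') :
    rk (K ⊓ K'.comap f) = rk (K ⊓ LinearMap.ker f) + rk (K.map f ⊓ K') := by
  refine rk_eq_add (fg_inf hK (fg_comap hK' f)) f (fun v => ⟨fun hv => ⟨⟨hv.1, ?_⟩, hv.2⟩,
    fun hv => ⟨hv.1.1, hv.2⟩⟩) fun x => ⟨?_, ?_⟩
  · have h0 : f v = 0 := hv.2
    change f v ∈ K'
    rw [h0]
    exact K'.zero_mem
  · rintro ⟨⟨v, hv, rfl⟩, hx⟩
    exact ⟨v, ⟨hv, hx⟩, rfl⟩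
  · rintro ⟨v, hv, rfl⟩
    exact ⟨⟨v, hv.1, rfl⟩, hv.2⟩

end Pool.Agent.Lib.MP_57313b_al.Zf
end

-- part Pool.Agent.Lib.MP_57313b_al.Zf.Rank3
section

/-!
# Rank of submodules: lattice rules, flags, dyadic numbers
-/

set_option autoImplicit false

namespace Pool.Agent.Lib.MP_57313b_al.Zf

open Filter Topology

set_option linter.unusedSectionVars false

variable {Ω : Type} [Ring Ω] [RK Ω]
variable {E E' : Type} [AddCommGroup E] [Module Ω E] [Amb Ω E] [AddCommGroup E'] [Module Ω E']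
  [Amb Ω E']

lemma rk_prod {K : Submodule Ω E} (hK : K.FG) {K' : Submodule Ω E'} (hK' : K'.FG) :
    rk (K.prod K') = rk K + rk K' := by
  have h := rk_eq_add (K := K.prod K') (A := (⊥ : Submodule Ω E).prod K') (B := K)
    (hK.prod hK') (LinearMap.fst Ω E E') (by
      rintro ⟨u, x⟩
      simp only [Submodule.mem_prod, Submodule.mem_bot, LinearMap.fst_apply]
      constructor
      · rintro ⟨rfl, h⟩
        exact ⟨⟨K.zero_mem, h⟩, rfl⟩
      · rintro ⟨⟨_, h⟩, h0⟩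
        exact ⟨h0, h⟩) (by
      intro x
      constructor
      · intro hx
        exact ⟨(x, 0), ⟨hx, K'.zero_mem⟩, rfl⟩
      · rintro ⟨v, hv, rfl⟩
        exact hv.1)
  have h2 : rk K' = rk ((⊥ : Submodule Ω E).prod K') :=
    rk_eq_of_bij hK' (LinearMap.inr Ω E E') (fun v _ hv => congrArg Prod.snd hv) (by
      rintro ⟨u, x⟩
      simp only [Submodule.mem_prod, Submodule.mem_bot, LinearMap.inr_apply]
      constructor
      · rintro ⟨rfl, h⟩
        exact ⟨x, h, rfl⟩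
      · rintro ⟨v, hv, h0⟩
        obtain ⟨h1, h2⟩ := Prod.mk.inj h0
        exact ⟨h1.symm, h2 ▸ hv⟩)
  linarith

/-- modular law: map `K × K'` onto `K ⊔ K'` -/
lemma rk_sup_add_inf {K K' : Submodule Ω E} (hK : K.FG) (hK' : K'.FG) :
    rk (K ⊔ K') + rk (K ⊓ K') = rk K + rk K' := by
  have h := rk_eq_add (K := K.prod K')
    (A := (K ⊓ K').map (LinearMap.prod LinearMap.id (-LinearMap.id))) (B := K ⊔ K')
    (hK.prod hK') (LinearMap.coprod LinearMap.id LinearMap.id) (by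
      rintro ⟨u, x⟩
      constructor
      · rintro ⟨v, hv, h0⟩
        obtain ⟨h1, h2⟩ := Prod.mk.inj h0
        have h1' : v = u := h1
        have h2' : -v = x := h2
        subst h1' h2'
        exact ⟨⟨hv.1, K'.neg_mem hv.2⟩, by simp⟩
      · rintro ⟨⟨h1, h2⟩, h0⟩
        have h3 : u + x = 0 := h0
        have h4 : x = -u := (neg_eq_of_add_eq_zero_right h3).symm
        subst h4
        exact ⟨u, ⟨h1, by simpa using K'.neg_mem h2⟩, rfl⟩) (by
      intro x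
      rw [Submodule.mem_sup]
      constructor
      · rintro ⟨y, hy, z, hz, rfl⟩
        exact ⟨(y, z), ⟨hy, hz⟩, rfl⟩
      · rintro ⟨v, hv, rfl⟩
        exact ⟨v.1, hv.1, v.2, hv.2, rfl⟩)
  rw [rk_map_of_inj (fg_inf hK hK') _ (fun v _ hv => congrArg Prod.fst hv), rk_prod hK hK'] at h
  linarith

lemma rk_sup_le {K K' : Submodule Ω E} (hK : K.FG) (hK' : K'.FG) :
    rk (K ⊔ K') ≤ rk K + rk K' := by
  have h := rk_sup_add_inf hK hK'
  have h2 := rk_nonneg (K ⊓ K')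
  linarith

/-- `K'.map (1 - π)` has rank zero, `π` the projection onto `K` -/
lemma eq_of_le_of_rk_le {K K' : Submodule Ω E} (hK : K.FG) (hK' : K'.FG) (h : K ≤ K')
    (hr : rk K' ≤ rk K) : K = K' := by
  obtain ⟨π, h1, h2⟩ := exists_proj hK
  have h3 := rk_map_add hK' (LinearMap.id - π)
  have h4 : K ≤ K' ⊓ LinearMap.ker (LinearMap.id - π) := fun v hv =>
    ⟨h hv, by simp [h2 v hv]⟩
  have h5 := rk_mono h4
  have h6 : K'.map (LinearMap.id - π) = ⊥ := eq_bot_of_rk (by linarith)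
  refine le_antisymm h fun v hv => ?_
  have h7 : (LinearMap.id - π : E →ₗ[Ω] E) v ∈ K'.map (LinearMap.id - π) :=
    Submodule.mem_map_of_mem hv
  rw [h6, Submodule.mem_bot] at h7
  have h8 : v = π v := by simpa [sub_eq_zero] using h7
  rw [h8]
  exact h1 v

lemma rk_lt_of_lt {K K' : Submodule Ω E} (hK : K.FG) (hK' : K'.FG) (h : K < K') :
    rk K < rk K' := by
  by_contra hn
  exact h.ne (eq_of_le_of_rk_le hK hK' h.le (not_lt.1 hn))

/-- `rk (Z ⊓ B) - rk (Z ⊓ A) ≤ rk B - rk A` for `A ≤ B` -/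
lemma rk_inf_le_of_le {Z A B : Submodule Ω E} (hZ : Z.FG) (hA : A.FG) (hB : B.FG) (h : A ≤ B) :
    rk (Z ⊓ B) + rk A ≤ rk (Z ⊓ A) + rk B := by
  have h1 := rk_sup_add_inf (fg_inf hZ hB) hA
  have h2 : Z ⊓ B ⊓ A = Z ⊓ A := by rw [inf_assoc, inf_eq_right.2 h]
  have h3 : rk ((Z ⊓ B) ⊔ A) ≤ rk B := rk_mono (sup_le inf_le_right h)
  rw [h2] at h1
  linarith

lemma rank3_fg_pi {σ : Type} [Fintype σ] {K : σ → Submodule Ω E} (h : ∀ s, (K s).FG) :
    (Submodule.pi Set.univ K).FG := by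
  have h1 : Submodule.pi Set.univ K =
      ⨅ s, (K s).comap (LinearMap.proj s : (σ → E) →ₗ[Ω] E) := by
    ext v
    simp [Submodule.mem_pi, Submodule.mem_iInf]
  rw [h1]
  exact fg_iInf fun s => fg_comap (h s) _

/-- induction on the finite type `σ` -/
lemma rk_pi {σ : Type} [Fintype σ] {K : σ → Submodule Ω E} (h : ∀ s, (K s).FG) :
    rk (Submodule.pi Set.univ K) = ∑ s, rk (K s) := by
  classical
  have key : ∀ t : Finset σ, rk (Submodule.pi Set.univ fun s => if s ∈ t then K s else ⊥) =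
      ∑ s ∈ t, rk (K s) := by
    intro t
    induction t using Finset.induction_on with
    | empty =>
      have : (Submodule.pi Set.univ fun s : σ => if s ∈ (∅ : Finset σ) then K s else ⊥) = ⊥ := by
        rw [eq_bot_iff]
        intro v hv
        rw [Submodule.mem_bot]
        funext s
        simpa using hv s trivial
      rw [this]
      simp
    | insert a t ha ih =>
      rw [Finset.sum_insert ha, ← ih, add_comm]
      refine rk_eq_add (rank3_fg_pi fun s => ?_) (LinearMap.proj a) (fun v => ?_) fun x => ?_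
      · split_ifs
        · exact h s
        · exact Submodule.fg_bot
      · simp only [Submodule.mem_pi, Set.mem_univ, true_imp_iff, LinearMap.proj_apply]
        constructor
        · intro hv
          have ha' : v a = 0 := by simpa [ha] using hv a
          refine ⟨fun s => ?_, ha'⟩
          by_cases hs : s = a
          · subst hs
            rw [ha']
            exact Submodule.zero_mem _
          · simpa [hs] using hv s
        · rintro ⟨hv, h0⟩ s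
          by_cases hs : s = a
          · subst hs
            rw [h0]
            exact Submodule.zero_mem _
          · simpa [hs] using hv s
      · constructor
        · intro hx
          refine ⟨Pi.single a x, fun s _ => ?_, by simp⟩
          by_cases hs : s = a
          · subst hs
            simpa using hx
          · rw [Pi.single_eq_of_ne hs]
            exact Submodule.zero_mem _
        · rintro ⟨v, hv, rfl⟩
          simpa using hv a trivial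
  simpa using key Finset.univ

lemma rk_pw {ρ : Type} [Fintype ρ] {U : Sub Ω} (hU : U.FG) :
    rk (pw ρ U) = Fintype.card ρ * rk U := by
  rw [pw, rk_pi fun _ => hU]
  simp

lemma rk_top_pi {ρ : Type} [Fintype ρ] : rk (⊤ : Submodule Ω (ρ → Ω)) = Fintype.card ρ := by
  have h : (⊤ : Submodule Ω (ρ → Ω)) = pw ρ ⊤ := by
    ext v
    simp
  rw [h, rk_pw fg_top]
  simp

lemma rk_le_one (U : Sub Ω) : rk U ≤ 1 := by
  have h := rk_mono (le_top : U ≤ ⊤)
  rwa [rk_top_one] at h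

lemma rk_graph (f : E →ₗ[Ω] E') : rk f.graph = rk (⊤ : Submodule Ω E) := by
  refine rk_eq_of_bij (fg_graph f) (LinearMap.fst Ω E E') (fun v hv h0 => ?_) fun x => ?_
  · rw [LinearMap.mem_graph_iff] at hv
    have h1 : v.1 = 0 := h0
    refine Prod.ext h1 ?_
    rw [hv, h1, map_zero]
    rfl
  · refine ⟨fun _ => ⟨(x, f x), ?_, rfl⟩, fun _ => trivial⟩
    rw [LinearMap.mem_graph_iff]

lemma rk_ker_vecMul {a b : Type} [Fintype a] [Fintype b] (M : Matrix a b Ω) :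
    rk (LinearMap.ker M.vecMulLinear) = Fintype.card a - mr M := by
  have h := rk_map_add (fg_top (Ω := Ω) (E := a → Ω)) M.vecMulLinear
  rw [Submodule.map_top, top_inf_eq, rk_range_vecMul, rk_top_pi] at h
  linarith

/-- an element of all members of a flag is zero -/
lemma Flag.eq_zero {Q : ℕ → Sub Ω} (hQ : Flag Q) {u : Ω} (h : ∀ n, u ∈ Q n) : u = 0 := by
  have h1 : ∀ n, rk (Submodule.span Ω {u}) ≤ rk (Q n) := fun n =>
    rk_mono ((Submodule.span_singleton_le_iff_mem _ _).2 (h n))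
  have h2 : rk (Submodule.span Ω {u}) ≤ 0 := ge_of_tendsto' hQ.lim h1
  exact Submodule.span_singleton_eq_bot.1 (eq_bot_of_rk h2)

lemma Flag.dct {Q : ℕ → Sub Ω} (hQ : Flag Q) : Dct (Set.range Q) := by
  refine ⟨Set.range_nonempty Q, ?_⟩
  rintro _ ⟨n, rfl⟩ _ ⟨m, rfl⟩
  exact ⟨Q (max n m), ⟨_, rfl⟩, le_inf (hQ.anti (le_max_left _ _)) (hQ.anti (le_max_right _ _))⟩

lemma Flag.sml {Q : ℕ → Sub Ω} (hQ : Flag Q) : Sml (Set.range Q) := by
  intro ε hε
  obtain ⟨n, hn⟩ := (hQ.lim.eventually (gt_mem_nhds hε)).exists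
  exact ⟨Q n, ⟨n, rfl⟩, hn⟩

lemma flag_bf : Flag (bf Ω) := by
  refine ⟨by simp [bf], fun n m hnm => ?_, fun n => ?_, ?_⟩
  · by_cases hn : n = 0
    · simp [bf, hn]
    · have hm : m ≠ 0 := by omega
      simp [bf, hm]
  · by_cases hn : n = 0
    · simpa [bf, hn] using fg_top (Ω := Ω) (E := Ω)
    · simpa [bf, hn] using Submodule.fg_bot
  · refine tendsto_const_nhds.congr' ?_
    filter_upwards [eventually_gt_atTop 0] with n hn
    simp [bf, hn.ne']

lemma Dy.add {r s : ℝ} (hr : Dy r) (hs : Dy s) : Dy (r + s) := by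
  obtain ⟨m, k, rfl⟩ := hr
  obtain ⟨m', k', rfl⟩ := hs
  refine ⟨m * 2 ^ k' + m' * 2 ^ k, k + k', ?_⟩
  push_cast
  rw [pow_add]
  field_simp

lemma Dy.sub {r s : ℝ} (hr : Dy r) (hs : Dy s) : Dy (r - s) := by
  obtain ⟨m, k, rfl⟩ := hr
  obtain ⟨m', k', rfl⟩ := hs
  refine ⟨m * 2 ^ k' - m' * 2 ^ k, k + k', ?_⟩
  push_cast
  rw [pow_add]
  field_simp

lemma Dy.nat (n : ℕ) : Dy (n : ℝ) := by
  exact ⟨n, 0, by simp⟩

lemma Dy.pow (k : ℕ) : Dy (1 / 2 ^ k) := by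
  exact ⟨1, k, by simp⟩

lemma Dy.mul_nat {r : ℝ} (hr : Dy r) (n : ℕ) : Dy (r * n) := by
  obtain ⟨m, k, rfl⟩ := hr
  refine ⟨m * n, k, ?_⟩
  push_cast
  ring

lemma Dy.half {r : ℝ} (hr : Dy r) : Dy (r / 2) := by
  obtain ⟨m, k, rfl⟩ := hr
  refine ⟨m, k + 1, ?_⟩
  rw [pow_succ, div_div]

end Pool.Agent.Lib.MP_57313b_al.Zf
end

-- part Pool.Agent.Lib.MP_57313b_al.Zf.Sc1
section

/-!
# Scalar maps: closure properties
-/

set_option autoImplicit false

namespace Pool.Agent.Lib.MP_57313b_al.Zf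

open Filter Topology

set_option linter.unusedSectionVars false

variable {Ω : Type} [Ring Ω] [Algebra F Ω]
variable {E E' E'' E₃ : Type} [AddCommGroup E] [Module Ω E] [Amb Ω E] [AddCommGroup E']
  [Module Ω E'] [Amb Ω E'] [AddCommGroup E''] [Module Ω E''] [Amb Ω E''] [AddCommGroup E₃]
  [Module Ω E₃] [Amb Ω E₃]

lemma pt_self {x : Ω} : Pt Ω x ↔ ∃ c : F, x = algebraMap F Ω c := by
  exact ⟨fun h => h (), fun h _ => h⟩

lemma pt_prod {v : E × E'} : Pt Ω v ↔ Pt Ω v.1 ∧ Pt Ω v.2 := by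
  exact ⟨fun h => ⟨fun i => h (Sum.inl i), fun i => h (Sum.inr i)⟩,
    fun h i => by rcases i with i | i; exacts [h.1 i, h.2 i]⟩

lemma pt_pi {σ : Type} [Finite σ] {v : σ → E} : Pt Ω v ↔ ∀ s, Pt Ω (v s) := by
  exact ⟨fun h s i => h (s, i), fun h i => h i.1 i.2⟩

lemma Pt.zero : Pt Ω (0 : E) := by
  exact fun _ => ⟨0, by rw [map_zero, map_zero]; rfl⟩

lemma Pt.add {v v' : E} (h : Pt Ω v) (h' : Pt Ω v') : Pt Ω (v + v') := by
  intro i
  obtain ⟨c, hc⟩ := h i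
  obtain ⟨c', hc'⟩ := h' i
  exact ⟨c + c', by rw [map_add, map_add, Pi.add_apply, hc, hc']⟩

lemma Pt.neg {v : E} (h : Pt Ω v) : Pt Ω (-v) := by
  intro i
  obtain ⟨c, hc⟩ := h i
  exact ⟨-c, by rw [map_neg, map_neg, Pi.neg_apply, hc]⟩

lemma Pt.smul {v : E} (h : Pt Ω v) (c : F) : Pt Ω (algebraMap F Ω c • v) := by
  intro i
  obtain ⟨c', hc⟩ := h i
  exact ⟨c * c', by rw [map_smul, map_mul, Pi.smul_apply, hc, smul_eq_mul]⟩

instance Sc.id : Sc (LinearMap.id : E →ₗ[Ω] E) := by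
  exact ⟨fun _ h => h⟩

instance Sc.one : Sc (1 : E →ₗ[Ω] E) := by
  exact ⟨fun _ h => h⟩

instance Sc.zero : Sc (0 : E →ₗ[Ω] E') := by
  exact ⟨fun _ _ => Pt.zero⟩

instance Sc.comp (g : E' →ₗ[Ω] E'') (f : E →ₗ[Ω] E') [Sc g] [Sc f] : Sc (g ∘ₗ f) := by
  exact ⟨fun v h => Sc.sc (f := g) _ (Sc.sc (f := f) v h)⟩

instance Sc.add (f g : E →ₗ[Ω] E') [Sc f] [Sc g] : Sc (f + g) := by
  exact ⟨fun v h => (Sc.sc (f := f) v h).add (Sc.sc (f := g) v h)⟩

instance Sc.neg (f : E →ₗ[Ω] E') [Sc f] : Sc (-f) := by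
  exact ⟨fun v h => (Sc.sc (f := f) v h).neg⟩

instance Sc.sub (f g : E →ₗ[Ω] E') [Sc f] [Sc g] : Sc (f - g) := by
  rw [sub_eq_add_neg]; infer_instance

instance Sc.smul (c : F) (f : E →ₗ[Ω] Ω) [Sc f] : Sc (c • f) := by
  refine ⟨fun v h => ?_⟩
  rw [LinearMap.smul_apply, Algebra.smul_def]
  exact (Sc.sc (f := f) v h).smul c

instance Sc.sum {σ : Type} (s : Finset σ) (f : σ → E →ₗ[Ω] E') [∀ i, Sc (f i)] :
    Sc (∑ i ∈ s, f i) := by
  classical
  induction s using Finset.induction_on with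
  | empty => rw [Finset.sum_empty]; infer_instance
  | insert a s ha ih => rw [Finset.sum_insert ha]; infer_instance

instance Sc.fst : Sc (LinearMap.fst Ω E E') := by
  exact ⟨fun _ h => (pt_prod.1 h).1⟩

instance Sc.snd : Sc (LinearMap.snd Ω E E') := by
  exact ⟨fun _ h => (pt_prod.1 h).2⟩

instance Sc.inl : Sc (LinearMap.inl Ω E E') := by
  exact ⟨fun _ h => pt_prod.2 ⟨h, Pt.zero⟩⟩

instance Sc.inr : Sc (LinearMap.inr Ω E E') := by
  exact ⟨fun _ h => pt_prod.2 ⟨Pt.zero, h⟩⟩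

instance Sc.prod (f : E →ₗ[Ω] E') (g : E →ₗ[Ω] E'') [Sc f] [Sc g] : Sc (f.prod g) := by
  exact ⟨fun v h => pt_prod.2 ⟨Sc.sc (f := f) v h, Sc.sc (f := g) v h⟩⟩

instance Sc.coprod (f : E →ₗ[Ω] E'') (g : E' →ₗ[Ω] E'') [Sc f] [Sc g] : Sc (f.coprod g) := by
  exact ⟨fun _ h => (Sc.sc (f := f) _ (pt_prod.1 h).1).add (Sc.sc (f := g) _ (pt_prod.1 h).2)⟩

instance Sc.prodMap (f : E →ₗ[Ω] E') (g : E'' →ₗ[Ω] E₃) [Sc f] [Sc g] : Sc (f.prodMap g) := by
  exact ⟨fun _ h => pt_prod.2 ⟨Sc.sc (f := f) _ (pt_prod.1 h).1, Sc.sc (f := g) _ (pt_prod.1 h).2⟩⟩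

instance Sc.proj {σ : Type} [Finite σ] (s : σ) :
    Sc (LinearMap.proj s : (σ → E) →ₗ[Ω] E) := by
  exact ⟨fun _ h => pt_pi.1 h s⟩

instance Sc.pi {σ : Type} [Finite σ] (f : σ → E →ₗ[Ω] E') [∀ s, Sc (f s)] :
    Sc (LinearMap.pi f) := by
  exact ⟨fun v h => pt_pi.2 fun s => Sc.sc (f := f s) v h⟩

instance Sc.single {σ : Type} [Finite σ] [DecidableEq σ] (s : σ) :
    Sc (LinearMap.single Ω (fun _ : σ => E) s) := by
  refine ⟨fun v h => pt_pi.2 fun t => ?_⟩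
  rw [LinearMap.single_apply]
  by_cases e : t = s
  · subst e; rwa [Pi.single_eq_same]
  · rw [Pi.single_eq_of_ne e]; exact Pt.zero

instance Sc.funLeft {σ τ : Type} [Finite σ] [Finite τ] (f : σ → τ) :
    Sc (LinearMap.funLeft Ω E f) := by
  exact ⟨fun _ h => pt_pi.2 fun s => pt_pi.1 h (f s)⟩

instance Sc.compLeft {σ : Type} [Finite σ] (f : E →ₗ[Ω] E') [Sc f] : Sc (f.compLeft σ) := by
  exact ⟨fun _ h => pt_pi.2 fun s => Sc.sc (f := f) _ (pt_pi.1 h s)⟩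

instance Sc.dir {ρ : Type} [Finite ρ] (l : ρ → F) : Sc (dir l : Ω →ₗ[Ω] (ρ → Ω)) := by
  unfold Zf.dir; infer_instance

instance Sc.dot {ρ : Type} [Fintype ρ] (φ : ρ → F) : Sc (dot φ : (ρ → Ω) →ₗ[Ω] Ω) := by
  unfold Zf.dot; infer_instance

instance Sc.mat {ρ ρ' : Type} [Fintype ρ] [Finite ρ'] (M : Matrix ρ ρ' F) :
    Sc (mat M : (ρ → Ω) →ₗ[Ω] (ρ' → Ω)) := by
  unfold Zf.mat; infer_instance

instance Sc.e : Sc (Amb.e (Ω := Ω) (E := E)).toLinearMap := by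
  exact ⟨fun _ h => pt_pi.2 fun i => pt_self.2 (h i)⟩

instance Sc.e_symm : Sc (Amb.e (Ω := Ω) (E := E)).symm.toLinearMap := by
  refine ⟨fun v h i => ?_⟩
  rw [LinearEquiv.coe_coe, LinearEquiv.apply_symm_apply]
  exact pt_self.1 (pt_pi.1 h i)

end Pool.Agent.Lib.MP_57313b_al.Zf
end
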